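import Mathlib

set_option autoImplicit false

open MeasureTheory Complex
open scoped ENNReal NNReal

namespace Pool.Agent.HpBall

/-- complex euclidean space of dimension n -/
abbrev E (n : ℕ) := EuclideanSpace ℂ (Fin n)

/-- the square of the nonisotropic distance -/
noncomputable def rho {n : ℕ} (x y : E n) : ℝ := ‖1 - inner ℂ x y‖

/-- Lebesgue measure on the complex euclidean space, transported from the product measure -/
noncomputable def vol (n : ℕ) : Measure (E n) :=
  (volume : Measure (Fin n → ℂ)).map (WithLp.toLp 2)

/-- the Gaussian measure -/
noncomputable def gam (n : ℕ) : Measure (E n) :=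
  (vol n).withDensity (fun z => ENNReal.ofReal (Real.exp (-‖z‖ ^ 2)))

/-- the rotation invariant measure on the unit sphere: image of the Gaussian measure under the
radial projection -/
noncomputable def sig (n : ℕ) : Measure (E n) :=
  (gam n).map (fun z => (((‖z‖⁻¹ : ℝ)) : ℂ) • z)

end Pool.Agent.HpBall
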