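import Mathlib
import Pool.Agent.HpBall.Defs

set_option autoImplicit false

open MeasureTheory Complex
open scoped ENNReal NNReal

namespace Pool.Agent.HpBall

/-- the scale of level l in complex dimension n: sc ^ n = 2 ^ l -/
noncomputable def sc (n l : ℕ) : ℝ := (2 : ℝ) ^ ((l : ℝ) / (n : ℝ))

/-- A dyadic tree of points on the unit sphere: for each level l there are 2 ^ l points, separated
at scale 1 / sc n l, and the descendants of a node stay near the node. -/
structure TreeFam (n : ℕ) (pt : ℕ → ℕ → E n) (c C : ℝ) : Prop where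
  unit : ∀ l i, ‖pt l i‖ = 1
  cpos : 0 < c
  sep : ∀ l i j, i < 2 ^ l → j < 2 ^ l → i ≠ j → c ≤ sc n l * rho (pt l i) (pt l j)
  nest : ∀ l m j, l ≤ m → j < 2 ^ m → sc n l * rho (pt m j) (pt l (j / 2 ^ (m - l))) ≤ C

/-- the p-th power of the square function norm of a coefficient array truncated at level L -/
noncomputable def fnorm (p : ℝ) (L : ℕ) (c : ℕ → ℕ → ℂ) : ℝ :=
  (1 / 2 ^ L) * ∑ j ∈ Finset.range (2 ^ L),
    (∑ l ∈ Finset.range L, ‖c l (j / 2 ^ (L - l))‖ ^ 2) ^ (p / 2)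

/-- smooth functions supported in [a,b] with 0 < a -/
structure Bump (β : ℝ → ℝ) (a b : ℝ) : Prop where
  apos : 0 < a
  ab : a < b
  smooth : ContDiff ℝ (⊤ : ℕ∞) β
  lo : ∀ x, x ≤ a → β x = 0
  hi : ∀ x, b ≤ x → β x = 0

/-- Taylor coefficient at 0 -/
noncomputable def tc (G : ℂ → ℂ) (k : ℕ) : ℂ := (k.factorial : ℂ)⁻¹ * iteratedDeriv k G 0

/-- homogeneous component of degree k, evaluated at ζ -/
noncomputable def hc {n : ℕ} (g : E n → ℂ) (k : ℕ) (ζ : E n) : ℂ := tc (fun z => g (z • ζ)) k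

/-- smooth frequency cut off, evaluated at ζ -/
noncomputable def cut {n : ℕ} (β : ℝ → ℝ) (N : ℝ) (g : E n → ℂ) (ζ : E n) : ℂ :=
  ∑' k : ℕ, (β ((k : ℝ) / N) : ℂ) * hc g k ζ

/-- one variable kernel with multiplier β at scale N -/
noncomputable def ker (β : ℝ → ℝ) (N : ℝ) (z : ℂ) : ℂ :=
  ∑' k : ℕ, (β ((k : ℝ) / N) : ℂ) * z ^ k

/-- radial derivative -/
noncomputable def rad {n : ℕ} (g : E n → ℂ) (z : E n) : ℂ := fderiv ℂ g z z

end Pool.Agent.HpBall
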