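import Mathlib
import Pool.Agent.HpBall.Defs

set_option autoImplicit false

open MeasureTheory Complex
open scoped ENNReal NNReal

namespace Pool.Agent.HpBall

variable {n : ℕ}

/-! ### geometry -/

lemma rho_nonneg (x y : E n) : 0 ≤ rho x y := norm_nonneg _

lemma rho_comm (x y : E n) : rho x y = rho y x := by
  unfold rho
  rw [← inner_conj_symm, ← Complex.norm_conj (1 - inner ℂ y x)]
  simp

lemma sqrt_rho_triangle {x y z : E n} (hx : ‖x‖ ≤ 1) (hy : ‖y‖ = 1) (hz : ‖z‖ ≤ 1) :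
    Real.sqrt (rho x z) ≤ Real.sqrt (rho x y) + Real.sqrt (rho y z) := by
  set a : ℂ := inner ℂ x y with ha
  set b : ℂ := inner ℂ y z with hb
  set x' : E n := x - (inner ℂ y x : ℂ) • y with hx'
  set z' : E n := z - (inner ℂ y z : ℂ) • y with hz'
  have hyy : (inner ℂ y y : ℂ) = 1 := by
    rw [inner_self_eq_norm_sq_to_K, hy]; simp
  have hxz : (inner ℂ x z : ℂ) = a * b + inner ℂ x' z' := by
    simp only [hx', hz', inner_sub_left, inner_sub_right, inner_smul_left, inner_smul_right, hyy, ha,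
      hb, inner_conj_symm]
    ring
  have hx'n : ‖x'‖ ^ 2 = ‖x‖ ^ 2 - ‖a‖ ^ 2 := by
    have h1 : (inner ℂ x' x' : ℂ) = inner ℂ x x - a * (inner ℂ y x : ℂ) := by
      simp only [hx', inner_sub_left, inner_sub_right, inner_smul_left, inner_smul_right, hyy, ha,
        inner_conj_symm]
      ring
    have h2 : a * (inner ℂ y x : ℂ) = (‖a‖ ^ 2 : ℝ) := by
      rw [← inner_conj_symm y x, ← ha, Complex.mul_conj, Complex.normSq_eq_norm_sq]
    rw [h2, inner_self_eq_norm_sq_to_K, inner_self_eq_norm_sq_to_K] at h1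
    have h3 : ((‖x'‖ ^ 2 : ℝ) : ℂ) = ((‖x‖ ^ 2 - ‖a‖ ^ 2 : ℝ) : ℂ) := by
      push_cast
      push_cast at h1
      exact h1
    exact Complex.ofReal_injective h3
  have hz'n : ‖z'‖ ^ 2 = ‖z‖ ^ 2 - ‖b‖ ^ 2 := by
    have h1 : (inner ℂ z' z' : ℂ) = inner ℂ z z - b * (inner ℂ z y : ℂ) := by
      simp only [hz', inner_sub_left, inner_sub_right, inner_smul_left, inner_smul_right, hyy, hb,
        inner_conj_symm]
      ring
    have h2 : b * (inner ℂ z y : ℂ) = (‖b‖ ^ 2 : ℝ) := by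
      rw [← inner_conj_symm z y, ← hb, Complex.mul_conj, Complex.normSq_eq_norm_sq]
    rw [h2, inner_self_eq_norm_sq_to_K, inner_self_eq_norm_sq_to_K] at h1
    have h3 : ((‖z'‖ ^ 2 : ℝ) : ℂ) = ((‖z‖ ^ 2 - ‖b‖ ^ 2 : ℝ) : ℂ) := by
      push_cast
      push_cast at h1
      exact h1
    exact Complex.ofReal_injective h3
  have ha1 : ‖a‖ ≤ 1 := by
    calc ‖a‖ ≤ ‖x‖ * ‖y‖ := norm_inner_le_norm _ _
      _ ≤ 1 := by rw [hy]; linarith
  have hb1 : ‖b‖ ≤ 1 := by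
    calc ‖b‖ ≤ ‖y‖ * ‖z‖ := norm_inner_le_norm _ _
      _ ≤ 1 := by rw [hy]; linarith
  set r := rho x y with hr
  set s := rho y z with hs
  have hr0 : 0 ≤ r := rho_nonneg _ _
  have hs0 : 0 ≤ s := rho_nonneg _ _
  have hra : 1 - ‖a‖ ≤ r := by
    have := norm_sub_norm_le (1 : ℂ) a
    simpa [rho, hr, ha] using this
  have hsb : 1 - ‖b‖ ≤ s := by
    have := norm_sub_norm_le (1 : ℂ) b
    simpa [rho, hs, hb] using this
  have hx'le : ‖x'‖ ^ 2 ≤ 2 * r := by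
    have : ‖x‖ ^ 2 ≤ 1 := by nlinarith [norm_nonneg x]
    nlinarith [norm_nonneg a]
  have hz'le : ‖z'‖ ^ 2 ≤ 2 * s := by
    have : ‖z‖ ^ 2 ≤ 1 := by nlinarith [norm_nonneg z]
    nlinarith [norm_nonneg b]
  have h1 : rho x z ≤ r + s + ‖x'‖ * ‖z'‖ := by
    have e1 : (1 : ℂ) - inner ℂ x z = (1 - a) + a * (1 - b) - inner ℂ x' z' := by
      rw [hxz]; ring
    calc rho x z = ‖(1 - a) + a * (1 - b) - inner ℂ x' z'‖ := by rw [← e1]; rfl
      _ ≤ ‖(1 - a) + a * (1 - b)‖ + ‖inner ℂ x' z'‖ := norm_sub_le _ _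
      _ ≤ ‖1 - a‖ + ‖a‖ * ‖1 - b‖ + ‖x'‖ * ‖z'‖ := by
          gcongr
          · calc ‖(1 - a) + a * (1 - b)‖ ≤ ‖1 - a‖ + ‖a * (1 - b)‖ := norm_add_le _ _
              _ = _ := by rw [norm_mul]
          · exact norm_inner_le_norm _ _
      _ ≤ r + s + ‖x'‖ * ‖z'‖ := by
          have h5 : ‖a‖ * ‖1 - b‖ ≤ 1 * ‖1 - b‖ := by gcongr
          have e2 : ‖1 - a‖ = r := rfl
          have e3 : ‖1 - b‖ = s := rfl
          rw [e3, one_mul] at h5
          rw [e2, e3]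
          linarith
  have h2 : ‖x'‖ * ‖z'‖ ≤ 2 * (Real.sqrt r * Real.sqrt s) := by
    have e : (‖x'‖ * ‖z'‖) ^ 2 ≤ (2 * (Real.sqrt r * Real.sqrt s)) ^ 2 := by
      calc (‖x'‖ * ‖z'‖) ^ 2 = ‖x'‖ ^ 2 * ‖z'‖ ^ 2 := by ring
        _ ≤ (2 * r) * (2 * s) := by gcongr
        _ = (2 * (Real.sqrt r * Real.sqrt s)) ^ 2 := by
            rw [mul_pow, mul_pow, Real.sq_sqrt hr0, Real.sq_sqrt hs0]; ring
    exact le_of_sq_le_sq e (by positivity) |> fun h => h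
  rw [show Real.sqrt r + Real.sqrt s = Real.sqrt ((Real.sqrt r + Real.sqrt s) ^ 2) from
    (Real.sqrt_sq (by positivity)).symm]
  apply Real.sqrt_le_sqrt
  nlinarith [Real.sq_sqrt hr0, Real.sq_sqrt hs0]

lemma rho_le_two {x y : E n} (hx : ‖x‖ ≤ 1) (hy : ‖y‖ ≤ 1) : rho x y ≤ 2 := by
  unfold rho
  calc ‖1 - inner ℂ x y‖ ≤ ‖(1 : ℂ)‖ + ‖inner ℂ x y‖ := norm_sub_le _ _
    _ ≤ 1 + ‖x‖ * ‖y‖ := by
        gcongr
        · simp
        · exact norm_inner_le_norm _ _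
    _ ≤ 2 := by nlinarith [norm_nonneg x, norm_nonneg y]

lemma rho_triangle {x y z : E n} (hx : ‖x‖ ≤ 1) (hy : ‖y‖ = 1) (hz : ‖z‖ ≤ 1) :
    rho x z ≤ 2 * (rho x y + rho y z) := by
  have h := sqrt_rho_triangle hx hy hz
  have h0 := rho_nonneg x z
  have h1 := rho_nonneg x y
  have h2 := rho_nonneg y z
  have h3 : rho x z ≤ (Real.sqrt (rho x y) + Real.sqrt (rho y z)) ^ 2 := by
    rw [← Real.sq_sqrt h0]
    gcongr
  nlinarith [Real.sq_sqrt h1, Real.sq_sqrt h2,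
    sq_nonneg (Real.sqrt (rho x y) - Real.sqrt (rho y z))]

lemma one_add_rho_mul {x y z : E n} (hx : ‖x‖ ≤ 1) (hy : ‖y‖ = 1) (hz : ‖z‖ ≤ 1) {N : ℝ}
    (hN : 0 ≤ N) :
    1 + N * rho x z ≤ 2 * (1 + N * rho x y) * (1 + N * rho y z) := by
  have h := rho_triangle hx hy hz
  have h1 := rho_nonneg x y
  have h2 := rho_nonneg y z
  have h3 : N * rho x z ≤ N * (2 * (rho x y + rho y z)) := by gcongr
  have h4 : 0 ≤ (N * rho x y) * (N * rho y z) := by positivity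
  nlinarith

end Pool.Agent.HpBall
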