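import Mathlib
import Pool.Agent.HpBall.Defs

set_option autoImplicit false

open MeasureTheory Complex
open scoped ENNReal NNReal

namespace Pool.Agent.HpBall

variable {n : ℕ}

instance vol_haar : (vol n).IsAddHaarMeasure := by
  have : (vol n) = (volume : Measure (Fin n → ℂ)).map
      (PiLp.continuousLinearEquiv 2 ℂ (fun _ : Fin n => ℂ)).symm := rfl
  rw [this]
  exact ContinuousLinearEquiv.isAddHaarMeasure_map _ _

lemma vol_map_isometry (U : E n ≃ₗᵢ[ℂ] E n) : (vol n).map U = vol n := by
  have h1 : (volume : Measure (E n)).map U = volume := by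
    have := (LinearIsometryEquiv.measurePreserving
      ({ U.toLinearEquiv.restrictScalars ℝ with norm_map' := U.norm_map } : E n ≃ₗᵢ[ℝ] E n)).map_eq
    exact this
  have h2 := Measure.isAddLeftInvariant_eq_smul (vol n) (volume : Measure (E n))
  rw [h2, Measure.map_smul, h1]

lemma measurable_proj : Measurable (fun z : E n => (((‖z‖⁻¹ : ℝ)) : ℂ) • z) := by
  fun_prop

lemma gam_map_isometry (U : E n ≃ₗᵢ[ℂ] E n) : (gam n).map U = gam n := by
  have hU : Measurable U := U.continuous.measurable
  have hf : Measurable (fun z : E n => ENNReal.ofReal (Real.exp (-‖z‖ ^ 2))) := by fun_prop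
  ext s hs
  rw [Measure.map_apply hU hs, gam, withDensity_apply _ (hU hs), withDensity_apply _ hs]
  conv_rhs => rw [← vol_map_isometry U]
  rw [setLIntegral_map hs hf hU]
  simp

theorem sig_map_isometry (U : E n ≃ₗᵢ[ℂ] E n) : (sig n).map U = sig n := by
  have hU : Measurable U := U.continuous.measurable
  unfold sig
  rw [Measure.map_map hU measurable_proj]
  conv_rhs => rw [← gam_map_isometry U, Measure.map_map measurable_proj hU]
  congr 1
  ext1 z
  simp

theorem lintegral_sig_isometry (U : E n ≃ₗᵢ[ℂ] E n) (f : E n → ℝ≥0∞) (hf : Measurable f) :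
    ∫⁻ ξ, f (U ξ) ∂(sig n) = ∫⁻ ξ, f ξ ∂(sig n) := by
  conv_rhs => rw [← sig_map_isometry U]
  rw [lintegral_map hf U.continuous.measurable]

theorem integral_sig_isometry {F : Type*} [NormedAddCommGroup F] [NormedSpace ℝ F]
    (U : E n ≃ₗᵢ[ℂ] E n) (f : E n → F) :
    ∫ ξ, f (U ξ) ∂(sig n) = ∫ ξ, f ξ ∂(sig n) := by
  conv_rhs => rw [← sig_map_isometry U]
  have : MeasurableEmbedding U := U.toHomeomorph.measurableEmbedding
  rw [this.integral_map]

lemma gam_finite_aux : (gam n) Set.univ < ⊤ := by
  have h2 := Measure.isAddLeftInvariant_eq_smul (vol n) (volume : Measure (E n))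
  have h3 : Integrable (fun z : E n => Real.exp (-‖z‖ ^ 2)) (volume : Measure (E n)) := by
    have h := GaussianFourier.integrable_cexp_neg_mul_sq_norm_add (V := E n) (b := 1)
      (by simp) 0 0
    have h' := h.norm
    refine h'.congr (Filter.Eventually.of_forall fun z => ?_)
    simp only [Complex.norm_exp]
    congr 1
    simp [← Complex.ofReal_pow]
  rw [gam, withDensity_apply _ MeasurableSet.univ, Measure.restrict_univ, h2]
  rw [lintegral_smul_measure]
  apply ENNReal.mul_lt_top (by simp)
  exact h3.lintegral_lt_top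

instance gam_finite : IsFiniteMeasure (gam n) := ⟨gam_finite_aux⟩

instance sig_finite : IsFiniteMeasure (sig n) := by
  unfold sig
  infer_instance

lemma gam_zero (hn : 1 ≤ n) : (gam n) {0} = 0 := by
  have : Nonempty (Fin n) := ⟨⟨0, hn⟩⟩
  have : Nontrivial (E n) := inferInstance
  have : NullSingletonClass (vol n) := inferInstance
  rw [gam, withDensity_apply _ (MeasurableSet.singleton _)]
  exact setLIntegral_measure_zero _ _ (measure_singleton _)

theorem sig_ae_norm (hn : 1 ≤ n) : ∀ᵐ ξ ∂(sig n), ‖ξ‖ = 1 := by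
  unfold sig
  rw [ae_map_iff measurable_proj.aemeasurable (measurableSet_eq_fun (by fun_prop) (by fun_prop))]
  have h : ∀ᵐ z ∂(gam n), z ≠ 0 := by
    rw [ae_iff]
    simpa using gam_zero hn
  filter_upwards [h] with z hz
  have : ‖z‖ ≠ 0 := by simpa using hz
  rw [norm_smul]
  simp [this]

lemma sig_univ : sig n Set.univ = gam n Set.univ := by
  unfold sig
  rw [Measure.map_apply measurable_proj MeasurableSet.univ, Set.preimage_univ]

lemma sig_univ_pos : 0 < sig n Set.univ := by
  rw [sig_univ, gam, withDensity_apply _ MeasurableSet.univ, Measure.restrict_univ]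
  rw [lintegral_pos_iff_support (by fun_prop)]
  have : (Function.support fun z : E n => ENNReal.ofReal (Real.exp (-‖z‖ ^ 2))) = Set.univ := by
    ext z
    simp [Real.exp_pos]
  rw [this]
  exact isOpen_univ.measure_pos _ Set.univ_nonempty

instance sig_neZero : NeZero (sig n) := ⟨by
  intro h
  have := sig_univ_pos (n := n)
  rw [h] at this
  simp at this⟩

/-- scalar rotation as a linear isometry -/
noncomputable def rot (n : ℕ) (θ : ℝ) : E n ≃ₗᵢ[ℂ] E n :=
  LinearIsometryEquiv.ofSurjective
    { toLinearMap := (Complex.exp (θ * I)) • LinearMap.id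
      norm_map' := by
        intro x
        simp [norm_smul, Complex.norm_exp_ofReal_mul_I] }
    (by
      intro y
      refine ⟨(Complex.exp (-(θ * I))) • y, ?_⟩
      simp only [LinearIsometry.coe_mk, LinearMap.smul_apply, LinearMap.id_apply, smul_smul,
        ← Complex.exp_add]
      simp)

lemma rot_apply (θ : ℝ) (x : E n) : rot n θ x = (Complex.exp (θ * I)) • x := rfl

end Pool.Agent.HpBall
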