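import Mathlib
import Pool.Agent.HpBall.Defs2
import Pool.Agent.HpBall.Geom
import Pool.Agent.HpBall.Sphere

set_option autoImplicit false

open MeasureTheory Complex
open scoped ENNReal NNReal

namespace Pool.Agent.HpBall

lemma J1_exists_isom {n : ℕ} (i0 : Fin n) (ζ : E n) (hζ : ‖ζ‖ = 1) :
    ∃ U : E n ≃ₗᵢ[ℂ] E n, U (EuclideanSpace.single i0 (1 : ℂ)) = ζ := by
  have hcard : Module.finrank ℂ (E n) = Fintype.card (Fin n) := by simp
  have hon : Orthonormal ℂ ((({i0} : Set (Fin n))).domRestrict (fun _ => ζ)) := by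
    constructor
    · intro i; simpa using hζ
    · intro i j hij; exact absurd (Subsingleton.elim i j) hij
  obtain ⟨b, hb⟩ := hon.exists_orthonormalBasis_extension_of_card_eq hcard
  refine ⟨b.repr.symm, ?_⟩
  rw [OrthonormalBasis.repr_symm_single]
  exact hb _ rfl

/-- boxes -/
def J1box {n : ℕ} (i0 : Fin n) (a b h r : ℝ) : Set (E n) :=
  {z | (a ≤ (z i0).re ∧ (z i0).re ≤ b) ∧ |(z i0).im| ≤ h ∧ ∀ i, i ≠ i0 → ‖z i‖ ≤ r}

lemma J1_rect (a b h : ℝ) : volume {w : ℂ | (a ≤ w.re ∧ w.re ≤ b) ∧ |w.im| ≤ h} =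
    ENNReal.ofReal (b - a) * ENNReal.ofReal (2 * h) := by
  rw [← (Complex.volume_preserving_equiv_real_prod.symm).measure_preimage_equiv]
  have h1 : (⇑Complex.measurableEquivRealProd.symm ⁻¹'
      {w : ℂ | (a ≤ w.re ∧ w.re ≤ b) ∧ |w.im| ≤ h}) = Set.Icc a b ×ˢ Set.Icc (-h) h := by
    ext p
    simp only [Set.mem_preimage, Complex.measurableEquivRealProd_symm_apply, Set.mem_ofPred_eq,
      Set.mem_prod, Set.mem_Icc, abs_le]
  rw [h1, Measure.volume_eq_prod, Measure.prod_prod, Real.volume_Icc, Real.volume_Icc]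
  congr 2
  ring

lemma J1_vol_box {n : ℕ} (i0 : Fin n) {a b h r : ℝ} (hab : a ≤ b) (hh : 0 ≤ h) (hr : 0 ≤ r) :
    vol n (J1box i0 a b h r) =
      ENNReal.ofReal ((b - a) * (2 * h) * (r ^ 2 * Real.pi) ^ (n - 1)) := by
  have h0 : vol n (J1box i0 a b h r) =
      ((volume : Measure (Fin n → ℂ)).map (MeasurableEquiv.toLp 2 (Fin n → ℂ)))
        (J1box i0 a b h r) := rfl
  rw [h0, MeasurableEquiv.map_apply]
  have h1 : (⇑(MeasurableEquiv.toLp 2 (Fin n → ℂ)) ⁻¹' (J1box i0 a b h r)) =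
      Set.univ.pi (fun i => if i = i0 then {w : ℂ | (a ≤ w.re ∧ w.re ≤ b) ∧ |w.im| ≤ h}
        else Metric.closedBall (0 : ℂ) r) := by
    ext z
    simp only [Set.mem_preimage, Set.mem_univ_pi]
    constructor
    · rintro ⟨h1, h2, h3⟩ i
      by_cases hi : i = i0
      · rw [if_pos hi, hi]
        exact ⟨h1, h2⟩
      · rw [if_neg hi, mem_closedBall_zero_iff]
        exact h3 i hi
    · intro h1
      have h2 := h1 i0
      rw [if_pos rfl] at h2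
      refine ⟨h2.1, h2.2, ?_⟩
      intro i hi
      have h3 := h1 i
      rw [if_neg hi, mem_closedBall_zero_iff] at h3
      exact h3
  rw [h1, volume_pi_pi, ← Finset.mul_prod_erase Finset.univ _ (Finset.mem_univ i0), if_pos rfl,
    J1_rect]
  have h2 : ∏ i ∈ Finset.univ.erase i0, volume (if i = i0 then
      {w : ℂ | (a ≤ w.re ∧ w.re ≤ b) ∧ |w.im| ≤ h} else Metric.closedBall (0 : ℂ) r) =
      (ENNReal.ofReal (r ^ 2 * Real.pi)) ^ (n - 1) := by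
    rw [Finset.prod_congr rfl (g := fun _ => ENNReal.ofReal (r ^ 2 * Real.pi))]
    · rw [Finset.prod_const, Finset.card_erase_of_mem (Finset.mem_univ i0), Finset.card_univ,
        Fintype.card_fin]
    · intro i hi
      rw [if_neg (Finset.ne_of_mem_erase hi), Complex.volume_closedBall,
        ENNReal.ofReal_mul (by positivity), ENNReal.ofReal_pow hr, ENNReal.coe_nnreal_eq]
      rfl
  rw [h2, ← ENNReal.ofReal_pow (by positivity), ← ENNReal.ofReal_mul (by linarith),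
    ← ENNReal.ofReal_mul (by
      have : 0 ≤ b - a := by linarith
      positivity)]

lemma J1_box_closed {n : ℕ} (i0 : Fin n) (a b h r : ℝ) : IsClosed (J1box i0 a b h r) := by
  have h1 : J1box i0 a b h r = ({z : E n | a ≤ (z i0).re} ∩ {z : E n | (z i0).re ≤ b}) ∩
      ({z : E n | |(z i0).im| ≤ h} ∩ ⋂ i, ⋂ (_ : i ≠ i0), {z : E n | ‖z i‖ ≤ r}) := by
    ext z
    simp [J1box]
  rw [h1]
  have hc : ∀ i : Fin n, Continuous (fun z : E n => z i) := fun i => by fun_prop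
  refine ((isClosed_le continuous_const (Complex.continuous_re.comp (hc i0))).inter
    (isClosed_le (Complex.continuous_re.comp (hc i0)) continuous_const)).inter
    ((isClosed_le (Complex.continuous_im.comp (hc i0)).abs continuous_const).inter ?_)
  apply isClosed_iInter
  intro i
  apply isClosed_iInter
  intro _
  exact isClosed_le (hc i).norm continuous_const

lemma J1_norm_sq {n : ℕ} (i0 : Fin n) (z : E n) :
    ‖z‖ ^ 2 = ‖z i0‖ ^ 2 + ∑ i ∈ Finset.univ.erase i0, ‖z i‖ ^ 2 := by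
  rw [EuclideanSpace.norm_sq_eq, ← Finset.add_sum_erase Finset.univ _ (Finset.mem_univ i0)]

lemma J1_tail {n : ℕ} (i0 : Fin n) (z : E n) {r : ℝ} (hz : ∀ i, i ≠ i0 → ‖z i‖ ≤ r) :
    ∑ i ∈ Finset.univ.erase i0, ‖z i‖ ^ 2 ≤ n * r ^ 2 := by
  calc ∑ i ∈ Finset.univ.erase i0, ‖z i‖ ^ 2 ≤ ∑ _i ∈ Finset.univ.erase i0, r ^ 2 := by
        apply Finset.sum_le_sum
        intro i hi
        exact pow_le_pow_left₀ (norm_nonneg _) (hz i (Finset.ne_of_mem_erase hi)) 2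
    _ = ((Finset.univ.erase i0).card : ℝ) * r ^ 2 := by rw [Finset.sum_const, nsmul_eq_mul]
    _ ≤ n * r ^ 2 := by
        apply mul_le_mul_of_nonneg_right _ (by positivity)
        have : (Finset.univ.erase i0).card ≤ n := by
          calc (Finset.univ.erase i0).card ≤ (Finset.univ : Finset (Fin n)).card :=
                Finset.card_le_card (Finset.erase_subset _ _)
            _ = n := by simp
        exact_mod_cast this

lemma J1_norm_coord (w : ℂ) : ‖w‖ ^ 2 = w.re ^ 2 + w.im ^ 2 := by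
  rw [← Complex.normSq_eq_norm_sq, Complex.normSq_apply]; ring

lemma J1_gam_box {n : ℕ} (i0 : Fin n) {h r : ℝ} (hh : 0 ≤ h) (hh1 : h ≤ 1) (hr : 0 ≤ r)
    (hr1 : n * r ^ 2 ≤ 1) :
    ENNReal.ofReal (Real.exp (-10) * ((2 * h) * (r ^ 2 * Real.pi) ^ (n - 1))) ≤
      gam n (J1box i0 1 2 h r) := by
  have h1 : ENNReal.ofReal (Real.exp (-10)) * vol n (J1box i0 1 2 h r) ≤
      ∫⁻ z in J1box i0 1 2 h r, ENNReal.ofReal (Real.exp (-‖z‖ ^ 2)) ∂(vol n) := by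
    rw [← setLIntegral_const]
    apply setLIntegral_mono' (J1_box_closed i0 1 2 h r).measurableSet
    intro z hz
    apply ENNReal.ofReal_le_ofReal
    apply Real.exp_le_exp.2
    obtain ⟨⟨h1, h2⟩, h3, h4⟩ := hz
    have h5 := J1_norm_sq i0 z
    have h6 := J1_tail i0 z h4
    have h7 := J1_norm_coord (z i0)
    have h8 := abs_le.1 h3
    nlinarith
  have h2 : gam n (J1box i0 1 2 h r) = ∫⁻ z in J1box i0 1 2 h r,
      ENNReal.ofReal (Real.exp (-‖z‖ ^ 2)) ∂(vol n) :=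
    withDensity_apply _ (J1_box_closed i0 1 2 h r).measurableSet
  rw [h2]
  refine le_trans (le_of_eq ?_) h1
  rw [J1_vol_box i0 (by norm_num) hh hr, ← ENNReal.ofReal_mul (Real.exp_pos _).le]
  congr 1
  ring

open Pointwise in
lemma J1_layers (n : ℕ) : ∃ K : ℝ≥0∞, K ≠ ⊤ ∧ ∀ Γ : Set (E n), MeasurableSet Γ →
    (∀ z ∈ Γ, ∀ t : ℝ, 0 < t → t • z ∈ Γ) →
    gam n Γ ≤ K * vol n (Γ ∩ Metric.closedBall 0 1) := by
  set d := Module.finrank ℝ (E n) with hd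
  refine ⟨∑' k : ℕ, ENNReal.ofReal (Real.exp (-(k : ℝ) ^ 2) * ((k : ℝ) + 1) ^ d), ?_, ?_⟩
  · apply Summable.tsum_ofReal_ne_top
    have h1 : Summable (fun m : ℕ => (m : ℝ) ^ d * Real.exp (-1 * m)) :=
      Real.summable_pow_mul_exp_neg_nat_mul d one_pos
    have h2 : Summable (fun m : ℕ => Real.exp 1 *
        (((m + 1 : ℕ) : ℝ) ^ d * Real.exp (-1 * ((m + 1 : ℕ) : ℝ)))) :=
      ((summable_nat_add_iff 1).2 h1).mul_left _
    refine Summable.of_nonneg_of_le (fun k => by positivity) (fun k => ?_) h2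
    have h3 : Real.exp (-(k : ℝ) ^ 2) ≤ Real.exp 1 * Real.exp (-1 * ((k + 1 : ℕ) : ℝ)) := by
      rw [← Real.exp_add]
      apply Real.exp_le_exp.2
      push_cast
      have h4 : (k : ℝ) ≤ (k : ℝ) ^ 2 := by
        have h5 : k ≤ k ^ 2 := Nat.le_self_pow two_ne_zero k
        exact_mod_cast h5
      linarith
    calc Real.exp (-(k : ℝ) ^ 2) * ((k : ℝ) + 1) ^ d
        ≤ (Real.exp 1 * Real.exp (-1 * ((k + 1 : ℕ) : ℝ))) * ((k : ℝ) + 1) ^ d :=
          mul_le_mul_of_nonneg_right h3 (by positivity)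
      _ = _ := by push_cast; ring
  · intro Γ hΓ hcone
    have h1 : gam n Γ = ∫⁻ z in Γ, ENNReal.ofReal (Real.exp (-‖z‖ ^ 2)) ∂(vol n) :=
      withDensity_apply _ hΓ
    rw [h1]
    have h2 : ∀ z : E n, ENNReal.ofReal (Real.exp (-‖z‖ ^ 2)) ≤
        ∑' k : ℕ, (Metric.closedBall (0 : E n) ((k : ℝ) + 1)).indicator
          (fun _ => ENNReal.ofReal (Real.exp (-(k : ℝ) ^ 2))) z := by
      intro z
      refine le_trans ?_ (ENNReal.le_tsum ⌊‖z‖⌋₊)
      rw [Set.indicator_of_mem]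
      · apply ENNReal.ofReal_le_ofReal
        apply Real.exp_le_exp.2
        have h3 : (⌊‖z‖⌋₊ : ℝ) ≤ ‖z‖ := Nat.floor_le (norm_nonneg _)
        have h4 : (⌊‖z‖⌋₊ : ℝ) ^ 2 ≤ ‖z‖ ^ 2 := pow_le_pow_left₀ (Nat.cast_nonneg _) h3 2
        linarith
      · rw [mem_closedBall_zero_iff]
        exact (Nat.lt_floor_add_one _).le
    refine (lintegral_mono h2).trans ?_
    rw [lintegral_tsum (fun k => (measurable_const.indicator
      Metric.isClosed_closedBall.measurableSet).aemeasurable), ← ENNReal.tsum_mul_right]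
    apply ENNReal.tsum_le_tsum
    intro k
    rw [lintegral_indicator_const Metric.isClosed_closedBall.measurableSet,
      Measure.restrict_apply Metric.isClosed_closedBall.measurableSet,
      ENNReal.ofReal_mul (Real.exp_pos _).le, mul_assoc]
    apply mul_le_mul_right
    have hk : (0 : ℝ) < (k : ℝ) + 1 := by positivity
    have hsub : Metric.closedBall (0 : E n) ((k : ℝ) + 1) ∩ Γ ⊆
        ((k : ℝ) + 1) • (Γ ∩ Metric.closedBall 0 1) := by
      rintro z ⟨hz1, hz2⟩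
      refine ⟨((k : ℝ) + 1)⁻¹ • z, ⟨hcone z hz2 _ (inv_pos.2 hk), ?_⟩, ?_⟩
      · rw [mem_closedBall_zero_iff] at hz1 ⊢
        rw [norm_smul, norm_inv, Real.norm_eq_abs, abs_of_pos hk, inv_mul_le_iff₀ hk, mul_one]
        exact hz1
      · show ((k : ℝ) + 1) • ((k : ℝ) + 1)⁻¹ • z = z
        rw [smul_smul, mul_inv_cancel₀ hk.ne', one_smul]
    refine (measure_mono hsub).trans ?_
    rw [Measure.addHaar_smul, ← hd, abs_of_nonneg (by positivity)]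

/-- the cone over a cap -/
def J1cone {n : ℕ} (i0 : Fin n) (δ : ℝ) : Set (E n) :=
  {z | ‖(1 : ℂ) - ((‖z‖⁻¹ : ℝ) : ℂ) * z i0‖ < δ}

lemma J1_cone_meas {n : ℕ} (i0 : Fin n) (δ : ℝ) : MeasurableSet (J1cone i0 δ) := by
  unfold J1cone
  apply measurableSet_lt _ measurable_const
  fun_prop

lemma J1_sig_set {n : ℕ} (i0 : Fin n) (ζ : E n) (hζ : ‖ζ‖ = 1) (f : ℂ → ℝ) (hf : Continuous f)
    (s : Set ℝ) (hs : MeasurableSet s) :
    sig n {ξ | f (inner ℂ ξ ζ) ∈ s} =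
      gam n {z : E n | f ((starRingEnd ℂ) (((‖z‖⁻¹ : ℝ) : ℂ) * z i0)) ∈ s} := by
  obtain ⟨U, hU⟩ := J1_exists_isom i0 ζ hζ
  have hmeas : MeasurableSet {ξ : E n | f (inner ℂ ξ ζ) ∈ s} := by
    have : Measurable (fun ξ : E n => f (inner ℂ ξ ζ)) :=
      (hf.comp (by fun_prop)).measurable
    exact this hs
  have hmeas2 : MeasurableSet {ξ : E n | f (inner ℂ ξ (EuclideanSpace.single i0 (1:ℂ))) ∈ s} := by
    have : Measurable (fun ξ : E n => f (inner ℂ ξ (EuclideanSpace.single i0 (1:ℂ)))) :=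
      (hf.comp (by fun_prop)).measurable
    exact this hs
  rw [← sig_map_isometry U, Measure.map_apply U.continuous.measurable hmeas]
  have h1 : (⇑U ⁻¹' {ξ | f (inner ℂ ξ ζ) ∈ s}) =
      {ξ : E n | f (inner ℂ ξ (EuclideanSpace.single i0 (1:ℂ))) ∈ s} := by
    ext ξ
    simp only [Set.mem_preimage]
    rw [Set.mem_ofPred_eq, Set.mem_ofPred_eq, ← hU, LinearIsometryEquiv.inner_map_map]
  rw [h1]
  unfold sig
  rw [Measure.map_apply measurable_proj hmeas2]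
  congr 1
  ext z
  simp only [Set.mem_preimage]
  rw [Set.mem_ofPred_eq, Set.mem_ofPred_eq, EuclideanSpace.inner_single_right, one_mul,
    PiLp.smul_apply, smul_eq_mul]

lemma J1_sig_cone {n : ℕ} (i0 : Fin n) (ζ : E n) (hζ : ‖ζ‖ = 1) (δ : ℝ) :
    sig n {ξ | rho ξ ζ < δ} = gam n (J1cone i0 δ) := by
  have h1 := J1_sig_set i0 ζ hζ (fun w => ‖1 - w‖) (by fun_prop) (Set.Iio δ) measurableSet_Iio
  have h2 : {ξ : E n | rho ξ ζ < δ} = {ξ | ‖1 - (inner ℂ ξ ζ : ℂ)‖ ∈ Set.Iio δ} := rfl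
  rw [h2, h1]
  congr 1
  ext z
  unfold J1cone
  rw [Set.mem_ofPred_eq, Set.mem_ofPred_eq, Set.mem_Iio]
  have h3 : (1 : ℂ) - (starRingEnd ℂ) (((‖z‖⁻¹ : ℝ) : ℂ) * z i0) =
      (starRingEnd ℂ) (1 - ((‖z‖⁻¹ : ℝ) : ℂ) * z i0) := by
    rw [map_sub, map_one]
  rw [h3, Complex.norm_conj]

lemma J1_cone_sub {n : ℕ} (i0 : Fin n) {δ : ℝ} (hδ : 0 < δ) :
    J1cone i0 δ ∩ Metric.closedBall 0 1 ⊆ J1box i0 (-1) 1 δ (Real.sqrt (2 * δ)) := by
  rintro z ⟨hz1, hz2⟩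
  rw [mem_closedBall_zero_iff] at hz2
  unfold J1cone at hz1
  rw [Set.mem_ofPred_eq] at hz1
  set N := ‖z‖ with hN
  have hN0 : 0 ≤ N := norm_nonneg z
  have hnsq := J1_norm_sq i0 z
  rw [← hN] at hnsq
  have hcoord := J1_norm_coord (z i0)
  have hT : 0 ≤ ∑ i ∈ Finset.univ.erase i0, ‖z i‖ ^ 2 :=
    Finset.sum_nonneg (fun i _ => by positivity)
  have hz0N : ‖z i0‖ ≤ N := by
    rw [← pow_le_pow_iff_left₀ (norm_nonneg _) hN0 two_ne_zero]
    linarith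
  -- `|N - z_0| ≤ δ N`
  have hkey : ‖(N : ℂ) - z i0‖ ≤ δ * N := by
    rcases eq_or_lt_of_le hN0 with h0 | h0
    · have h1 : ‖z i0‖ = 0 := le_antisymm (by rw [h0]; exact hz0N) (norm_nonneg _)
      rw [norm_eq_zero] at h1
      rw [← h0, h1]
      simp
    · have h1 : (N : ℂ) - z i0 = (N : ℂ) * (1 - ((N⁻¹ : ℝ) : ℂ) * z i0) := by
        have : (N : ℂ) ≠ 0 := by exact_mod_cast h0.ne'
        push_cast
        field_simp
      rw [h1, norm_mul, Complex.norm_real, Real.norm_eq_abs, abs_of_nonneg hN0, mul_comm]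
      exact mul_le_mul_of_nonneg_right hz1.le hN0
  have him : |(z i0).im| ≤ δ := by
    have h1 := Complex.abs_im_le_norm ((N : ℂ) - z i0)
    simp only [Complex.sub_im, Complex.ofReal_im, zero_sub, abs_neg] at h1
    have h2 : δ * N ≤ δ * 1 := mul_le_mul_of_nonneg_left hz2 hδ.le
    linarith
  have hre : |(z i0).re| ≤ 1 := (Complex.abs_re_le_norm _).trans (hz0N.trans hz2)
  have hlow : N - ‖z i0‖ ≤ δ * N := by
    have h1 := norm_sub_norm_le (N : ℂ) (z i0)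
    rw [Complex.norm_real, Real.norm_eq_abs, abs_of_nonneg hN0] at h1
    linarith
  have hTle : ∑ i ∈ Finset.univ.erase i0, ‖z i‖ ^ 2 ≤ 2 * δ := by
    have h1 : ∑ i ∈ Finset.univ.erase i0, ‖z i‖ ^ 2 = (N - ‖z i0‖) * (N + ‖z i0‖) := by
      rw [sub_mul]; nlinarith
    rw [h1]
    have h2 : 0 ≤ N - ‖z i0‖ := by linarith
    have h3 : N + ‖z i0‖ ≤ 2 := by linarith
    have h4 : N - ‖z i0‖ ≤ δ := by nlinarith
    have h5 : 0 ≤ N + ‖z i0‖ := by positivity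
    nlinarith
  refine ⟨⟨(abs_le.1 hre).1, (abs_le.1 hre).2⟩, him, ?_⟩
  intro i hi
  apply Real.le_sqrt_of_sq_le
  refine le_trans ?_ hTle
  exact Finset.single_le_sum (f := fun i => ‖z i‖ ^ 2) (fun i _ => by positivity)
    (Finset.mem_erase.2 ⟨hi, Finset.mem_univ i⟩)

/-- TARGET -/
theorem cap_upper (n : ℕ) (hn : 1 ≤ n) : ∃ C : ℝ, 0 < C ∧ ∀ ζ : E n, ‖ζ‖ = 1 → ∀ δ : ℝ, 0 < δ →
    sig n {ξ | rho ξ ζ < δ} ≤ ENNReal.ofReal (C * δ ^ n) := by
  set i0 : Fin n := ⟨0, hn⟩ with hi0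
  obtain ⟨K, hK, hlay⟩ := J1_layers n
  have hKr : K = ENNReal.ofReal K.toReal := (ENNReal.ofReal_toReal hK).symm
  have hK0 : 0 ≤ K.toReal := ENNReal.toReal_nonneg
  have hpi := Real.pi_pos
  refine ⟨K.toReal * 4 * (2 * Real.pi) ^ (n - 1) + 1, by positivity, ?_⟩
  intro ζ hζ δ hδ
  rw [J1_sig_cone i0 ζ hζ δ]
  have hcone : ∀ z ∈ J1cone i0 δ, ∀ t : ℝ, 0 < t → t • z ∈ J1cone i0 δ := by
    intro z hz t ht
    unfold J1cone at *
    rw [Set.mem_ofPred_eq] at *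
    have h1 : ((‖t • z‖⁻¹ : ℝ) : ℂ) * (t • z) i0 = ((‖z‖⁻¹ : ℝ) : ℂ) * z i0 := by
      rw [norm_smul, Real.norm_eq_abs, abs_of_pos ht, PiLp.smul_apply, Complex.real_smul]
      have : (t : ℂ) ≠ 0 := by exact_mod_cast ht.ne'
      push_cast
      field_simp
    rw [h1]
    exact hz
  refine (hlay _ (J1_cone_meas i0 δ) hcone).trans ?_
  refine (mul_le_mul_right (measure_mono (J1_cone_sub i0 hδ)) K).trans ?_
  rw [J1_vol_box i0 (by norm_num) hδ.le (Real.sqrt_nonneg _), Real.sq_sqrt (by positivity), hKr,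
    ← ENNReal.ofReal_mul hK0]
  apply ENNReal.ofReal_le_ofReal
  rw [ENNReal.toReal_ofReal hK0]
  obtain ⟨m, rfl⟩ : ∃ m, n = m + 1 := ⟨n - 1, by omega⟩
  rw [Nat.add_sub_cancel]
  have h1 : K.toReal * ((1 - -1) * (2 * δ) * (2 * δ * Real.pi) ^ m) =
      K.toReal * 4 * (2 * Real.pi) ^ m * δ ^ (m + 1) := by
    have h2 : (2 * δ * Real.pi) ^ m = (2 * Real.pi) ^ m * δ ^ m := by
      rw [← mul_pow]; congr 1; ring
    rw [h2, pow_succ]
    ring
  rw [h1]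
  have h3 : 0 < δ ^ (m + 1) := by positivity
  nlinarith

/-- TARGET -/
theorem cap_lower (n : ℕ) (hn : 1 ≤ n) : ∃ c : ℝ, 0 < c ∧ ∀ ζ : E n, ‖ζ‖ = 1 → ∀ δ : ℝ, 0 < δ →
    δ ≤ 1 → ENNReal.ofReal (c * δ ^ n) ≤ sig n {ξ | rho ξ ζ < δ} := by
  set i0 : Fin n := ⟨0, hn⟩ with hi0
  have hpi := Real.pi_pos
  have hn0 : (0 : ℝ) < n := by exact_mod_cast hn
  refine ⟨Real.exp (-10) * (Real.pi / (2 * n)) ^ (n - 1), by positivity, ?_⟩
  intro ζ hζ δ hδ hδ1
  rw [J1_sig_cone i0 ζ hζ δ]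
  have hr2 : (Real.sqrt (δ / (2 * n))) ^ 2 = δ / (2 * n) := Real.sq_sqrt (by positivity)
  have hnr : (n : ℝ) * (Real.sqrt (δ / (2 * n))) ^ 2 = δ / 2 := by
    rw [hr2]; field_simp
  have hsub : J1box i0 1 2 (δ / 2) (Real.sqrt (δ / (2 * n))) ⊆ J1cone i0 δ := by
    rintro z ⟨⟨h1, h2⟩, h3, h4⟩
    have h5 := J1_norm_sq i0 z
    have h6 := J1_tail i0 z h4
    rw [hnr] at h6
    have h7 := J1_norm_coord (z i0)
    have h8 := abs_le.1 h3
    have hT : 0 ≤ ∑ i ∈ Finset.univ.erase i0, ‖z i‖ ^ 2 :=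
      Finset.sum_nonneg (fun i _ => by positivity)
    set x := (z i0).re with hx
    set y := (z i0).im with hy
    set N := ‖z‖ with hN
    have hN0 : 0 ≤ N := norm_nonneg z
    have hxN : x ≤ N := by
      have h9 : x ^ 2 ≤ N ^ 2 := by nlinarith
      nlinarith
    have hN1 : 1 ≤ N := h1.trans hxN
    have hy2 : y ^ 2 ≤ δ ^ 2 / 4 := by nlinarith
    have hNx : N - x ≤ (y ^ 2 + δ / 2) / 2 := by
      have h9 : (N - x) * (N + x) ≤ y ^ 2 + δ / 2 := by nlinarith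
      have h10 : 0 ≤ N - x := by linarith
      nlinarith
    have hnorm : ‖(N : ℂ) - z i0‖ ≤ (N - x) + |y| := by
      have h9 := Complex.norm_le_abs_re_add_abs_im ((N : ℂ) - z i0)
      simp only [Complex.sub_re, Complex.sub_im, Complex.ofReal_re, Complex.ofReal_im, zero_sub,
        abs_neg] at h9
      rw [← hx, ← hy, abs_of_nonneg (by linarith : 0 ≤ N - x)] at h9
      exact h9
    have hlt : ‖(N : ℂ) - z i0‖ < δ := by
      have h11 : δ ^ 2 ≤ δ := by nlinarith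
      linarith
    show ‖(1 : ℂ) - ((N⁻¹ : ℝ) : ℂ) * z i0‖ < δ
    have h12 : (1 : ℂ) - ((N⁻¹ : ℝ) : ℂ) * z i0 = ((N⁻¹ : ℝ) : ℂ) * ((N : ℂ) - z i0) := by
      have : (N : ℂ) ≠ 0 := by
        have : N ≠ 0 := by linarith
        exact_mod_cast this
      push_cast
      field_simp
    rw [h12, norm_mul, Complex.norm_real, Real.norm_eq_abs, abs_of_nonneg (inv_nonneg.2 hN0)]
    have h13 : N⁻¹ ≤ 1 := inv_le_one_of_one_le₀ hN1
    calc N⁻¹ * ‖(N : ℂ) - z i0‖ ≤ 1 * ‖(N : ℂ) - z i0‖ :=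
          mul_le_mul_of_nonneg_right h13 (norm_nonneg _)
      _ < δ := by rw [one_mul]; exact hlt
  refine le_trans ?_ (measure_mono hsub)
  refine le_trans (le_of_eq ?_) (J1_gam_box i0 (h := δ / 2) (r := Real.sqrt (δ / (2 * n)))
    (by positivity) (by linarith) (Real.sqrt_nonneg _) (by rw [hnr]; linarith))
  rw [hr2]
  congr 1
  obtain ⟨m, hm⟩ : ∃ m, n = m + 1 := ⟨n - 1, by omega⟩
  have h14 : (δ / (2 * (n : ℝ)) * Real.pi) ^ (n - 1) = (Real.pi / (2 * n)) ^ (n - 1) * δ ^ (n - 1) := by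
    rw [← mul_pow]; congr 1; ring
  have h15 : δ ^ n = δ ^ (n - 1) * δ := by
    rw [← pow_succ, Nat.sub_add_cancel hn]
  rw [h14, h15]
  ring

/-- TARGET -/
theorem moment_lower (n : ℕ) (hn : 1 ≤ n) : ∃ c : ℝ, 0 < c ∧ ∀ ζ : E n, ‖ζ‖ = 1 → ∀ k : ℕ,
    c * ((k : ℝ) + 1) ^ (-((n : ℝ) - 1)) ≤ ∫ ξ, ‖(inner ℂ ζ ξ : ℂ)‖ ^ (2 * k) ∂(sig n) := by
  set i0 : Fin n := ⟨0, hn⟩ with hi0
  have hpi := Real.pi_pos
  have hn0 : (0 : ℝ) < n := by exact_mod_cast hn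
  refine ⟨Real.exp (-10) * (Real.pi / (2 * n)) ^ (n - 1), by positivity, ?_⟩
  intro ζ hζ k
  have hk0 : (0 : ℝ) < (k : ℝ) + 1 := by positivity
  set s : ℝ := 1 / (2 * ((k : ℝ) + 1)) with hs
  have hs0 : 0 < s := by positivity
  have hs1 : s ≤ 1 := by
    rw [hs, div_le_one (by positivity)]
    have : (0 : ℝ) ≤ k := Nat.cast_nonneg k
    linarith
  have hsk : (k : ℝ) * s ≤ 1 / 2 := by
    rw [hs, mul_one_div, div_le_div_iff₀ (by positivity) (by norm_num)]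
    linarith
  have hr2 : (Real.sqrt (s / n)) ^ 2 = s / n := Real.sq_sqrt (by positivity)
  have hnr : (n : ℝ) * (Real.sqrt (s / n)) ^ 2 = s := by
    rw [hr2]; field_simp
  -- the set
  have hfm : AEStronglyMeasurable (fun ξ : E n => ‖(inner ℂ ζ ξ : ℂ)‖ ^ (2 * k)) (sig n) := by
    apply Continuous.aestronglyMeasurable
    fun_prop
  have hint : Integrable (fun ξ : E n => ‖(inner ℂ ζ ξ : ℂ)‖ ^ (2 * k)) (sig n) := by
    refine Integrable.of_bound hfm 1 ?_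
    filter_upwards [sig_ae_norm hn] with ξ hξ
    rw [norm_pow, norm_norm]
    apply pow_le_one₀ (norm_nonneg _)
    have := norm_inner_le_norm (𝕜 := ℂ) ζ ξ
    rwa [hζ, hξ, one_mul] at this
  have hmark := mul_meas_ge_le_integral_of_nonneg (μ := sig n)
    (f := fun ξ : E n => ‖(inner ℂ ζ ξ : ℂ)‖ ^ (2 * k))
    (Filter.Eventually.of_forall (fun ξ => by positivity)) hint (1 / 2)
  refine le_trans ?_ hmark
  have hset : sig n {ξ | (1 : ℝ) / 2 ≤ ‖(inner ℂ ζ ξ : ℂ)‖ ^ (2 * k)} =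
      gam n {z : E n | (1 : ℝ) / 2 ≤ ‖((‖z‖⁻¹ : ℝ) : ℂ) * z i0‖ ^ (2 * k)} := by
    have h1 := J1_sig_set i0 ζ hζ (fun w => ‖w‖ ^ (2 * k)) (by fun_prop) (Set.Ici (1 / 2))
      measurableSet_Ici
    have h2 : {ξ : E n | (1 : ℝ) / 2 ≤ ‖(inner ℂ ζ ξ : ℂ)‖ ^ (2 * k)} =
        {ξ | ‖(inner ℂ ξ ζ : ℂ)‖ ^ (2 * k) ∈ Set.Ici (1 / 2)} := by
      ext ξ
      rw [Set.mem_ofPred_eq, Set.mem_ofPred_eq, Set.mem_Ici, norm_inner_symm]
    rw [h2, h1]
    congr 1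
    ext z
    rw [Set.mem_ofPred_eq, Set.mem_ofPred_eq, Set.mem_Ici, Complex.norm_conj]
  have hsub : J1box i0 1 2 1 (Real.sqrt (s / n)) ⊆
      {z : E n | (1 : ℝ) / 2 ≤ ‖((‖z‖⁻¹ : ℝ) : ℂ) * z i0‖ ^ (2 * k)} := by
    rintro z ⟨⟨h1, h2⟩, h3, h4⟩
    have h5 := J1_norm_sq i0 z
    have h6 := J1_tail i0 z h4
    rw [hnr] at h6
    have h7 := J1_norm_coord (z i0)
    have hT : 0 ≤ ∑ i ∈ Finset.univ.erase i0, ‖z i‖ ^ 2 :=
      Finset.sum_nonneg (fun i _ => by positivity)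
    set N := ‖z‖ with hN
    have hN0 : 0 ≤ N := norm_nonneg z
    have hz1 : 1 ≤ ‖z i0‖ ^ 2 := by nlinarith [sq_nonneg (z i0).im]
    have hNsq : 0 < N ^ 2 := by linarith
    rw [Set.mem_ofPred_eq, norm_mul, Complex.norm_real, Real.norm_eq_abs,
      abs_of_nonneg (inv_nonneg.2 hN0), pow_mul]
    have h8 : 1 - s ≤ (N⁻¹ * ‖z i0‖) ^ 2 := by
      rw [mul_pow, inv_pow, inv_mul_eq_div, le_div_iff₀ hNsq]
      nlinarith
    have h9 : (1 : ℝ) / 2 ≤ (1 - s) ^ k := by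
      have h10 := one_add_mul_le_pow (a := -s) (by linarith) k
      have h11 : 1 + (k : ℝ) * -s = 1 - k * s := by ring
      have h12 : 1 + -s = 1 - s := by ring
      rw [h11, h12] at h10
      linarith
    exact h9.trans (pow_le_pow_left₀ (by linarith) h8 k)
  have hle : ENNReal.ofReal (Real.exp (-10) * ((2 * 1) * (s / n * Real.pi) ^ (n - 1))) ≤
      sig n {ξ | (1 : ℝ) / 2 ≤ ‖(inner ℂ ζ ξ : ℂ)‖ ^ (2 * k)} := by
    rw [hset]
    refine le_trans ?_ (measure_mono hsub)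
    have h1 := J1_gam_box i0 (h := 1) (r := Real.sqrt (s / n)) zero_le_one le_rfl
      (Real.sqrt_nonneg _) (by rw [hnr]; exact hs1)
    rw [hr2] at h1
    exact h1
  rw [ENNReal.ofReal_le_iff_le_toReal (measure_ne_top _ _)] at hle
  rw [measureReal_def]
  have hfin : Real.exp (-10) * (Real.pi / (2 * n)) ^ (n - 1) *
      ((k : ℝ) + 1) ^ (-((n : ℝ) - 1)) =
      1 / 2 * (Real.exp (-10) * ((2 * 1) * (s / n * Real.pi) ^ (n - 1))) := by
    have h1 : ((k : ℝ) + 1) ^ (-((n : ℝ) - 1)) = (((k : ℝ) + 1) ^ (n - 1))⁻¹ := by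
      rw [Real.rpow_neg hk0.le]
      congr 1
      rw [← Real.rpow_natCast]
      congr 1
      rw [Nat.cast_sub hn]
      simp
    have h2 : (s / n * Real.pi) = (Real.pi / (2 * n)) * ((k : ℝ) + 1)⁻¹ := by
      rw [hs]; field_simp
    rw [h1, h2, mul_pow, inv_pow]
    ring
  rw [hfin]
  linarith


end Pool.Agent.HpBall
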