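import Mathlib
import Pool.Agent.HpBall.Defs2
import Pool.Agent.HpBall.Geom
import Pool.Agent.HpBall.Sphere
import Pool.Agent.HpBall.Caps

set_option autoImplicit false

open MeasureTheory Complex
open scoped ENNReal NNReal

namespace Pool.Agent.HpBall

lemma continuous_rho_left' {n : ℕ} (ζ : E n) : Continuous (fun ξ : E n => rho ξ ζ) := by
  unfold rho
  exact (continuous_const.sub (continuous_id.inner continuous_const)).norm

lemma measurableSet_rho_lt' {n : ℕ} (ζ : E n) (δ : ℝ) : MeasurableSet {ξ : E n | rho ξ ζ < δ} :=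
  measurableSet_lt (continuous_rho_left' ζ).measurable measurable_const

/-- TARGET -/
theorem kernel_int (n : ℕ) (hn : 1 ≤ n) (K : ℝ) (hK : (n : ℝ) < K) : ∃ C : ℝ, 0 < C ∧
    ∀ ζ : E n, ‖ζ‖ = 1 → ∀ N : ℝ, 0 < N →
      ∫⁻ ξ, ENNReal.ofReal ((1 + N * rho ξ ζ) ^ (-K)) ∂(sig n) ≤
        ENNReal.ofReal (C * N ^ (-(n : ℝ))) := by
  obtain ⟨C, hC, hcap⟩ := cap_upper n hn
  have hK0 : 0 < K := lt_of_le_of_lt (Nat.cast_nonneg n) hK
  set q : ℝ := (2 : ℝ) ^ ((n : ℝ) - K) with hq
  have hq0 : 0 < q := by positivity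
  have hq1 : q < 1 := Real.rpow_lt_one_of_one_lt_of_neg (by norm_num) (by linarith)
  have h1q : 0 < 1 - q := by linarith
  refine ⟨2 ^ K * C / (1 - q), by positivity, ?_⟩
  intro ζ hζ N hN
  -- pointwise bound
  have hpt : ∀ ξ : E n, ENNReal.ofReal ((1 + N * rho ξ ζ) ^ (-K)) ≤
      ∑' k : ℕ, ENNReal.ofReal (2 ^ K * ((2 : ℝ) ^ k) ^ (-K)) *
        Set.indicator {ξ : E n | rho ξ ζ < 2 ^ k / N} (fun _ => (1 : ℝ≥0∞)) ξ := by
    intro ξ
    have ht0 : 0 ≤ N * rho ξ ζ := mul_nonneg hN.le (rho_nonneg _ _)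
    have hex : ∃ k : ℕ, N * rho ξ ζ < 2 ^ k := pow_unbounded_of_one_lt _ (by norm_num)
    classical
    set k := Nat.find hex with hk
    have hk1 : N * rho ξ ζ < 2 ^ k := Nat.find_spec hex
    have hmem : ξ ∈ {ξ : E n | rho ξ ζ < 2 ^ k / N} := by
      show rho ξ ζ < 2 ^ k / N
      rw [lt_div_iff₀ hN]; linarith
    refine le_trans ?_ (ENNReal.le_tsum k)
    rw [Set.indicator_of_mem hmem, mul_one]
    apply ENNReal.ofReal_le_ofReal
    rcases Nat.eq_zero_or_pos k with h0 | h0
    · rw [h0, pow_zero, Real.one_rpow, mul_one]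
      calc (1 + N * rho ξ ζ) ^ (-K) ≤ 1 := Real.rpow_le_one_of_one_le_of_nonpos (by linarith) (by linarith)
        _ ≤ 2 ^ K := Real.one_le_rpow (by norm_num) hK0.le
    · have h2 : ¬ (N * rho ξ ζ < 2 ^ (k - 1)) := Nat.find_min hex (by omega)
      push Not at h2
      have h3 : (2 : ℝ) ^ k = 2 * 2 ^ (k - 1) := by
        rw [← pow_succ']; congr 1; omega
      calc (1 + N * rho ξ ζ) ^ (-K) ≤ ((2 : ℝ) ^ (k - 1)) ^ (-K) := by
            apply Real.rpow_le_rpow_of_nonpos (by positivity) (by linarith) (by linarith)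
        _ = 2 ^ K * ((2 : ℝ) ^ k) ^ (-K) := by
            rw [h3, Real.mul_rpow (by norm_num) (by positivity), ← mul_assoc,
              ← Real.rpow_add (by norm_num)]
            simp
  calc ∫⁻ ξ, ENNReal.ofReal ((1 + N * rho ξ ζ) ^ (-K)) ∂(sig n)
      ≤ ∫⁻ ξ, ∑' k : ℕ, ENNReal.ofReal (2 ^ K * ((2 : ℝ) ^ k) ^ (-K)) *
        Set.indicator {ξ : E n | rho ξ ζ < 2 ^ k / N} (fun _ => (1 : ℝ≥0∞)) ξ ∂(sig n) :=
          lintegral_mono hpt
    _ = ∑' k : ℕ, ∫⁻ ξ, ENNReal.ofReal (2 ^ K * ((2 : ℝ) ^ k) ^ (-K)) *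
        Set.indicator {ξ : E n | rho ξ ζ < 2 ^ k / N} (fun _ => (1 : ℝ≥0∞)) ξ ∂(sig n) := by
          apply lintegral_tsum
          intro k
          exact ((measurable_const.indicator (measurableSet_rho_lt' ζ _)).const_mul _).aemeasurable
    _ = ∑' k : ℕ, ENNReal.ofReal (2 ^ K * ((2 : ℝ) ^ k) ^ (-K)) *
          sig n {ξ : E n | rho ξ ζ < 2 ^ k / N} := by
          congr 1; ext k
          rw [lintegral_const_mul _ (measurable_const.indicator (measurableSet_rho_lt' ζ _)),
            lintegral_indicator (measurableSet_rho_lt' ζ _)]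
          simp
    _ ≤ ∑' k : ℕ, ENNReal.ofReal (2 ^ K * C * N ^ (-(n : ℝ)) * q ^ k) := by
          apply ENNReal.tsum_le_tsum
          intro k
          calc ENNReal.ofReal (2 ^ K * ((2 : ℝ) ^ k) ^ (-K)) * sig n {ξ : E n | rho ξ ζ < 2 ^ k / N}
              ≤ ENNReal.ofReal (2 ^ K * ((2 : ℝ) ^ k) ^ (-K)) * ENNReal.ofReal (C * (2 ^ k / N) ^ n) := by
                gcongr
                exact hcap ζ hζ _ (by positivity)
            _ = ENNReal.ofReal (2 ^ K * C * N ^ (-(n : ℝ)) * q ^ k) := by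
                rw [← ENNReal.ofReal_mul (by positivity)]
                congr 1
                have e1 : q ^ k = ((2 : ℝ) ^ k) ^ n * ((2 : ℝ) ^ k) ^ (-K) := by
                  rw [hq, ← Real.rpow_natCast, ← Real.rpow_mul (by norm_num), ← Real.rpow_natCast,
                    ← Real.rpow_natCast, ← Real.rpow_mul (by norm_num), ← Real.rpow_mul (by norm_num),
                    ← Real.rpow_add (by norm_num)]
                  congr 1; ring
                have e2 : N ^ (-(n : ℝ)) = (N ^ n)⁻¹ := by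
                  rw [Real.rpow_neg hN.le, Real.rpow_natCast]
                rw [e1, e2, div_pow]
                ring
    _ = ENNReal.ofReal (∑' k : ℕ, 2 ^ K * C * N ^ (-(n : ℝ)) * q ^ k) := by
          rw [ENNReal.ofReal_tsum_of_nonneg]
          · intro k; positivity
          · exact (summable_geometric_of_lt_one hq0.le hq1).mul_left _
    _ = ENNReal.ofReal (2 ^ K * C / (1 - q) * N ^ (-(n : ℝ))) := by
          rw [tsum_mul_left, tsum_geometric_of_lt_one hq0.le hq1]
          congr 1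
          ring

lemma sc_pow' {n : ℕ} (hn : 1 ≤ n) (l : ℕ) : sc n l ^ n = 2 ^ l := by
  unfold sc
  have hn0 : (n : ℝ) ≠ 0 := by positivity
  rw [← Real.rpow_natCast, ← Real.rpow_mul (by norm_num), div_mul_cancel₀ _ hn0, Real.rpow_natCast]

lemma one_le_sc' (n l : ℕ) : 1 ≤ sc n l :=
  Real.one_le_rpow (by norm_num) (by positivity)

/-- TARGET -/
theorem counting (n : ℕ) (hn : 1 ≤ n) (pt : ℕ → ℕ → E n) (c C : ℝ) (hT : TreeFam n pt c C)
    (K : ℝ) (hK : (n : ℝ) < K) : ∃ D : ℝ, 0 < D ∧ ∀ (l : ℕ) (ξ : E n), ‖ξ‖ = 1 →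
      ∑ i ∈ Finset.range (2 ^ l), (1 + sc n l * rho ξ (pt l i)) ^ (-K) ≤ D := by
  obtain ⟨C0, hC0, hint⟩ := kernel_int n hn K hK
  obtain ⟨c0, hc0, hcap⟩ := cap_lower n hn
  have hK0 : 0 < K := lt_of_le_of_lt (Nat.cast_nonneg n) hK
  set c' : ℝ := min c 1 / 8 with hc'
  have hc'0 : 0 < c' := by
    have : 0 < min c 1 := lt_min hT.cpos one_pos
    positivity
  have hc'1 : c' ≤ 1 := by
    have : min c 1 ≤ 1 := min_le_right _ _
    rw [hc']; linarith
  have hc'c : 8 * c' ≤ c := by
    have : min c 1 ≤ c := min_le_left _ _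
    rw [hc']; linarith
  refine ⟨4 ^ K * C0 / (c0 * c' ^ n), by positivity, ?_⟩
  intro l ξ hξ
  set s := sc n l with hs
  have hs1 : 1 ≤ s := one_le_sc' n l
  have hs0 : 0 < s := by linarith
  have hsn : s ^ n = 2 ^ l := sc_pow' hn l
  set a : ℕ → ℝ := fun i => (1 + s * rho ξ (pt l i)) ^ (-K) with ha
  have ha0 : ∀ i, 0 ≤ a i := by
    intro i
    have := rho_nonneg ξ (pt l i)
    simp only [ha]; positivity
  have key : ∀ η : E n, ‖η‖ = 1 →
      ∑ i ∈ Finset.range (2 ^ l), ENNReal.ofReal (a i) *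
        Set.indicator {η : E n | rho η (pt l i) < c' / s} (fun _ => (1 : ℝ≥0∞)) η ≤
      ENNReal.ofReal (4 ^ K) * ENNReal.ofReal ((1 + s * rho η ξ) ^ (-K)) := by
    intro η hη
    by_cases hex : ∃ i ∈ Finset.range (2 ^ l), rho η (pt l i) < c' / s
    · obtain ⟨i, hi, hηi⟩ := hex
      have hi' : i < 2 ^ l := Finset.mem_range.1 hi
      rw [Finset.sum_eq_single_of_mem i hi]
      · rw [Set.indicator_of_mem (show η ∈ {η : E n | rho η (pt l i) < c' / s} from hηi), mul_one,
          ← ENNReal.ofReal_mul (by positivity)]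
        apply ENNReal.ofReal_le_ofReal
        have h1 := one_add_rho_mul (x := η) (y := pt l i) (z := ξ) hη.le (hT.unit l i) hξ.le hs0.le
        have h2 : s * rho η (pt l i) ≤ 1 := by
          have : s * rho η (pt l i) < s * (c' / s) := by gcongr
          rw [mul_div_cancel₀ _ hs0.ne'] at this
          linarith
        have h3 : 0 ≤ rho (pt l i) ξ := rho_nonneg _ _
        have h4 : 1 + s * rho η ξ ≤ 4 * (1 + s * rho ξ (pt l i)) := by
          rw [rho_comm ξ (pt l i)]
          have h5 : 0 ≤ s * rho (pt l i) ξ := by positivity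
          nlinarith
        have h5 : 0 ≤ rho η ξ := rho_nonneg _ _
        have h6 : 0 ≤ rho ξ (pt l i) := rho_nonneg _ _
        have h7 : (4 * (1 + s * rho ξ (pt l i))) ^ (-K) ≤ (1 + s * rho η ξ) ^ (-K) :=
          Real.rpow_le_rpow_of_nonpos (by positivity) h4 (by linarith)
        rw [Real.mul_rpow (by norm_num) (by positivity)] at h7
        calc a i = 4 ^ K * (4 ^ (-K) * a i) := by
              rw [← mul_assoc, ← Real.rpow_add (by norm_num)]; simp
          _ ≤ 4 ^ K * (1 + s * rho η ξ) ^ (-K) := by gcongr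
      · intro j hj hji
        have hj' : j < 2 ^ l := Finset.mem_range.1 hj
        have : η ∉ {η : E n | rho η (pt l j) < c' / s} := by
          intro hηj
          have hηj' : rho η (pt l j) < c' / s := hηj
          have h1 := hT.sep l i j hi' hj' (Ne.symm hji)
          have h2 := rho_triangle (x := pt l i) (y := η) (z := pt l j) (hT.unit l i).le hη
            (hT.unit l j).le
          rw [rho_comm (pt l i) η] at h2
          have h3 : rho (pt l i) (pt l j) < 4 * (c' / s) := by linarith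
          have h4 : s * rho (pt l i) (pt l j) < s * (4 * (c' / s)) := by gcongr
          have h5 : s * (4 * (c' / s)) = 4 * c' := by field_simp
          rw [h5] at h4
          linarith
        rw [Set.indicator_of_notMem this, mul_zero]
    · push Not at hex
      rw [Finset.sum_eq_zero]
      · exact zero_le
      · intro i hi
        rw [Set.indicator_of_notMem, mul_zero]
        intro h
        exact absurd h (not_lt.2 (hex i hi))
  have hmeas : ∀ i, Measurable (Set.indicator {η : E n | rho η (pt l i) < c' / s}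
      (fun _ => (1 : ℝ≥0∞))) := fun i => measurable_const.indicator (measurableSet_rho_lt' _ _)
  have h1 : ∫⁻ η, ∑ i ∈ Finset.range (2 ^ l), ENNReal.ofReal (a i) *
        Set.indicator {η : E n | rho η (pt l i) < c' / s} (fun _ => (1 : ℝ≥0∞)) η ∂(sig n) ≤
      ∫⁻ η, ENNReal.ofReal (4 ^ K) * ENNReal.ofReal ((1 + s * rho η ξ) ^ (-K)) ∂(sig n) := by
    apply lintegral_mono_ae
    filter_upwards [sig_ae_norm hn] with η hη using key η hη
  rw [lintegral_finsetSum _ (fun i _ => (hmeas i).const_mul _),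
    lintegral_const_mul' _ _ ENNReal.ofReal_ne_top] at h1
  have h2 : ENNReal.ofReal (∑ i ∈ Finset.range (2 ^ l), a i * (c0 * (c' / s) ^ n)) ≤
      ENNReal.ofReal (4 ^ K * (C0 * s ^ (-(n : ℝ)))) := by
    calc ENNReal.ofReal (∑ i ∈ Finset.range (2 ^ l), a i * (c0 * (c' / s) ^ n))
        = ∑ i ∈ Finset.range (2 ^ l), ENNReal.ofReal (a i) * ENNReal.ofReal (c0 * (c' / s) ^ n) := by
          rw [ENNReal.ofReal_sum_of_nonneg]
          · refine Finset.sum_congr rfl fun i _ => ?_
            rw [ENNReal.ofReal_mul (ha0 i)]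
          · intro i _
            have := ha0 i
            positivity
      _ ≤ ∑ i ∈ Finset.range (2 ^ l), ∫⁻ η, ENNReal.ofReal (a i) *
            Set.indicator {η : E n | rho η (pt l i) < c' / s} (fun _ => (1 : ℝ≥0∞)) η ∂(sig n) := by
          apply Finset.sum_le_sum
          intro i _
          rw [lintegral_const_mul _ (hmeas i), lintegral_indicator (measurableSet_rho_lt' _ _)]
          simp only [lintegral_const, MeasurableSet.univ, Measure.restrict_apply, Set.univ_inter,
            one_mul]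
          gcongr
          refine hcap (pt l i) (hT.unit l i) _ (by positivity) ?_
          rw [div_le_one hs0]; linarith
      _ ≤ ENNReal.ofReal (4 ^ K) * ∫⁻ η, ENNReal.ofReal ((1 + s * rho η ξ) ^ (-K)) ∂(sig n) := h1
      _ ≤ ENNReal.ofReal (4 ^ K) * ENNReal.ofReal (C0 * s ^ (-(n : ℝ))) := by
          gcongr
          exact hint ξ hξ s hs0
      _ = _ := by rw [← ENNReal.ofReal_mul (by positivity)]
  rw [ENNReal.ofReal_le_ofReal_iff (by positivity), ← Finset.sum_mul] at h2
  have e1 : s ^ (-(n : ℝ)) = (s ^ n)⁻¹ := by rw [Real.rpow_neg hs0.le, Real.rpow_natCast]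
  rw [e1, div_pow, hsn] at h2
  rw [le_div_iff₀ (by positivity)]
  have h3 : (0 : ℝ) < 2 ^ l := by positivity
  have h4 : (∑ i ∈ Finset.range (2 ^ l), a i) * (c0 * c' ^ n) =
      ((∑ i ∈ Finset.range (2 ^ l), a i) * (c0 * (c' ^ n / 2 ^ l))) * 2 ^ l := by
    field_simp
  have h5 : 4 ^ K * C0 = (4 ^ K * (C0 * (2 ^ l)⁻¹)) * 2 ^ l := by
    field_simp
  rw [h4, h5]
  gcongr

end Pool.Agent.HpBall
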