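import Mathlib

set_option autoImplicit false

open MeasureTheory Complex
open scoped ENNReal NNReal

namespace Pool.Agent.HpBall

/-! ### parametric integrals -/

theorem hs_cont (F : ℝ → ℝ → ℝ)
    (hF : ContinuousOn (Function.uncurry F) (Set.Ioi 0 ×ˢ Set.univ)) (x : ℝ) (hx : 0 < x) :
    ContinuousAt (fun x => ∫ t in (0 : ℝ)..2 * Real.pi, F x t) x := by
  have h1 : Continuous (Function.uncurry (fun y t => F (max y (x / 2)) t)) := by
    have h0 : Continuous (fun p : ℝ × ℝ => ((max p.1 (x / 2), p.2) : ℝ × ℝ)) := by fun_prop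
    exact hF.comp_continuous h0 (fun p =>
      ⟨lt_of_lt_of_le (half_pos hx) (le_max_right p.1 (x / 2)), trivial⟩)
  have h2 := intervalIntegral.continuous_parametric_intervalIntegral_of_continuous'
    (μ := volume) h1 0 (2 * Real.pi)
  apply h2.continuousAt.congr
  filter_upwards [Ioi_mem_nhds (half_lt_self hx)] with y hy
  have h3 : max y (x / 2) = y := max_eq_left (le_of_lt hy)
  simp only [h3]

theorem hs_slice (F : ℝ → ℝ → ℝ)
    (hF : ContinuousOn (Function.uncurry F) (Set.Ioi 0 ×ˢ Set.univ)) (y : ℝ) (hy : 0 < y) :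
    Continuous (F y) := by
  have h0 : Continuous (fun t : ℝ => ((y, t) : ℝ × ℝ)) := by fun_prop
  exact hF.comp_continuous h0 (fun t => ⟨hy, trivial⟩)

theorem hs_deriv (f f' : ℝ → ℝ → ℝ)
    (hf : ContinuousOn (Function.uncurry f) (Set.Ioi 0 ×ˢ Set.univ))
    (hf' : ContinuousOn (Function.uncurry f') (Set.Ioi 0 ×ˢ Set.univ))
    (hd : ∀ x, 0 < x → ∀ t, HasDerivAt (fun y => f y t) (f' x t) x) (x : ℝ) (hx : 0 < x) :
    HasDerivAt (fun x => ∫ t in (0 : ℝ)..2 * Real.pi, f x t)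
      (∫ t in (0 : ℝ)..2 * Real.pi, f' x t) x := by
  have hK : IsCompact (Set.Icc (x / 2) (2 * x) ×ˢ Set.Icc (0 : ℝ) (2 * Real.pi)) :=
    isCompact_Icc.prod isCompact_Icc
  obtain ⟨C, hC⟩ := hK.exists_bound_of_continuousOn (hf'.mono (by
    rintro ⟨a, b⟩ ⟨ha, _⟩
    exact ⟨lt_of_lt_of_le (half_pos hx) ha.1, trivial⟩))
  refine (intervalIntegral.hasDerivAt_integral_of_dominated_loc_of_deriv_le (μ := volume)
    (F := f) (F' := f') (x₀ := x) (s := Set.Icc (x / 2) (2 * x)) (bound := fun _ => C) (a := 0)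
    (b := 2 * Real.pi) (Icc_mem_nhds (half_lt_self hx) (by linarith)) ?_ ?_ ?_ ?_ ?_ ?_).2
  · filter_upwards [Ioi_mem_nhds hx] with y hy
    exact (hs_slice f hf y hy).aestronglyMeasurable
  · exact (hs_slice f hf x hx).intervalIntegrable _ _
  · exact (hs_slice f' hf' x hx).aestronglyMeasurable
  · apply Filter.Eventually.of_forall
    intro t ht y hy
    rw [Set.uIoc_of_le (by positivity)] at ht
    exact hC (y, t) ⟨hy, ⟨ht.1.le, ht.2⟩⟩
  · exact intervalIntegrable_const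
  · apply Filter.Eventually.of_forall
    intro t _ y hy
    exact hd y (lt_of_lt_of_le (half_pos hx) hy.1) t

/-! ### holomorphic functions along `exp (-x + i t)` -/

/-- the exponential coordinates -/
noncomputable def ec (x t : ℝ) : ℂ := Complex.exp (-x + t * I)

theorem ec_norm (x t : ℝ) : ‖ec x t‖ = Real.exp (-x) := by
  unfold ec
  rw [Complex.norm_exp]
  simp

theorem ec_mem {x : ℝ} (hx : 0 < x) (t : ℝ) : ec x t ∈ Metric.ball (0 : ℂ) 1 := by
  rw [mem_ball_zero_iff, ec_norm]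
  rw [← Real.exp_zero]
  exact Real.exp_lt_exp.2 (by linarith)

theorem ec_cont : Continuous (fun p : ℝ × ℝ => ec p.1 p.2) := by
  unfold ec
  fun_prop

theorem ec_dx (x t : ℝ) : HasDerivAt (fun y : ℝ => ec y t) (-(ec x t)) x := by
  have h1 : HasDerivAt (fun y : ℝ => -(y : ℂ) + t * I) (-1) x := by
    have := ((hasDerivAt_id x).ofReal_comp.neg).add_const ((t : ℂ) * I)
    simpa using this
  have h2 := h1.cexp
  unfold ec
  simpa using h2

theorem ec_dt (x t : ℝ) : HasDerivAt (fun s : ℝ => ec x s) (ec x t * I) t := by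
  have h1 : HasDerivAt (fun s : ℝ => -(x : ℂ) + s * I) I t := by
    have := ((hasDerivAt_id t).ofReal_comp.mul_const I).const_add (-(x : ℂ))
    simpa using this
  exact h1.cexp

/-- the operator `w d/dw` -/
noncomputable def KK (F : ℂ → ℂ) (w : ℂ) : ℂ := w * deriv F w

theorem KK_diff {F : ℂ → ℂ} (hF : DifferentiableOn ℂ F (Metric.ball 0 1)) :
    DifferentiableOn ℂ (KK F) (Metric.ball 0 1) :=
  differentiableOn_id.mul (hF.deriv Metric.isOpen_ball)

/-- real part in the coordinates -/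
noncomputable def fa (F : ℂ → ℂ) (x t : ℝ) : ℝ := (F (ec x t)).re

/-- imaginary part in the coordinates -/
noncomputable def fb (F : ℂ → ℂ) (x t : ℝ) : ℝ := (F (ec x t)).im

theorem Fec_dx {F : ℂ → ℂ} (hF : DifferentiableOn ℂ F (Metric.ball 0 1)) {x : ℝ} (hx : 0 < x)
    (t : ℝ) : HasDerivAt (fun y : ℝ => F (ec y t)) (-(KK F (ec x t))) x := by
  have h1 : HasDerivAt F (deriv F (ec x t)) (ec x t) :=
    (hF.differentiableAt (Metric.isOpen_ball.mem_nhds (ec_mem hx t))).hasDerivAt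
  have h2 := h1.scomp x (ec_dx x t)
  refine h2.congr_deriv ?_
  simp [KK]

theorem Fec_dt {F : ℂ → ℂ} (hF : DifferentiableOn ℂ F (Metric.ball 0 1)) {x : ℝ} (hx : 0 < x)
    (t : ℝ) : HasDerivAt (fun s : ℝ => F (ec x s)) (I * KK F (ec x t)) t := by
  have h1 : HasDerivAt F (deriv F (ec x t)) (ec x t) :=
    (hF.differentiableAt (Metric.isOpen_ball.mem_nhds (ec_mem hx t))).hasDerivAt
  have h2 := h1.scomp t (ec_dt x t)
  refine h2.congr_deriv ?_
  simp only [KK, smul_eq_mul]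
  ring

theorem fa_dx {F : ℂ → ℂ} (hF : DifferentiableOn ℂ F (Metric.ball 0 1)) {x : ℝ} (hx : 0 < x)
    (t : ℝ) : HasDerivAt (fun y : ℝ => fa F y t) (-(fa (KK F) x t)) x := by
  have h := Complex.reCLM.hasFDerivAt.comp_hasDerivAt x (Fec_dx hF hx t)
  refine h.congr_deriv ?_
  simp [fa]

theorem fb_dx {F : ℂ → ℂ} (hF : DifferentiableOn ℂ F (Metric.ball 0 1)) {x : ℝ} (hx : 0 < x)
    (t : ℝ) : HasDerivAt (fun y : ℝ => fb F y t) (-(fb (KK F) x t)) x := by
  have h := Complex.imCLM.hasFDerivAt.comp_hasDerivAt x (Fec_dx hF hx t)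
  refine h.congr_deriv ?_
  simp [fb]

theorem fa_dt {F : ℂ → ℂ} (hF : DifferentiableOn ℂ F (Metric.ball 0 1)) {x : ℝ} (hx : 0 < x)
    (t : ℝ) : HasDerivAt (fun s : ℝ => fa F x s) (-(fb (KK F) x t)) t := by
  have h := Complex.reCLM.hasFDerivAt.comp_hasDerivAt t (Fec_dt hF hx t)
  refine h.congr_deriv ?_
  simp [fb]

theorem fb_dt {F : ℂ → ℂ} (hF : DifferentiableOn ℂ F (Metric.ball 0 1)) {x : ℝ} (hx : 0 < x)
    (t : ℝ) : HasDerivAt (fun s : ℝ => fb F x s) (fa (KK F) x t) t := by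
  have h := Complex.imCLM.hasFDerivAt.comp_hasDerivAt t (Fec_dt hF hx t)
  refine h.congr_deriv ?_
  simp [fa]

theorem Fec_cont {F : ℂ → ℂ} (hF : DifferentiableOn ℂ F (Metric.ball 0 1)) :
    ContinuousOn (fun p : ℝ × ℝ => F (ec p.1 p.2)) (Set.Ioi 0 ×ˢ Set.univ) :=
  hF.continuousOn.comp ec_cont.continuousOn (fun p hp => ec_mem hp.1 p.2)

theorem fa_cont {F : ℂ → ℂ} (hF : DifferentiableOn ℂ F (Metric.ball 0 1)) :
    ContinuousOn (fun p : ℝ × ℝ => fa F p.1 p.2) (Set.Ioi 0 ×ˢ Set.univ) :=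
  Complex.continuous_re.comp_continuousOn (Fec_cont hF)

theorem fb_cont {F : ℂ → ℂ} (hF : DifferentiableOn ℂ F (Metric.ball 0 1)) :
    ContinuousOn (fun p : ℝ × ℝ => fb F p.1 p.2) (Set.Ioi 0 ×ˢ Set.univ) :=
  Complex.continuous_im.comp_continuousOn (Fec_cont hF)

/-- the base -/
noncomputable def PP (G : ℂ → ℂ) (ε x t : ℝ) : ℝ := fa G x t ^ 2 + fb G x t ^ 2 + ε

/-- its derivatives -/
noncomputable def Px (G : ℂ → ℂ) (x t : ℝ) : ℝ :=
  -2 * (fa G x t * fa (KK G) x t + fb G x t * fb (KK G) x t)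
noncomputable def Pt (G : ℂ → ℂ) (x t : ℝ) : ℝ :=
  2 * (fb G x t * fa (KK G) x t - fa G x t * fb (KK G) x t)
noncomputable def Pxx (G : ℂ → ℂ) (x t : ℝ) : ℝ :=
  2 * (fa (KK G) x t ^ 2 + fb (KK G) x t ^ 2 + fa G x t * fa (KK (KK G)) x t +
    fb G x t * fb (KK (KK G)) x t)
noncomputable def Ptt (G : ℂ → ℂ) (x t : ℝ) : ℝ :=
  2 * (fa (KK G) x t ^ 2 + fb (KK G) x t ^ 2 - fa G x t * fa (KK (KK G)) x t -
    fb G x t * fb (KK (KK G)) x t)

theorem PP_pos (G : ℂ → ℂ) {ε : ℝ} (hε : 0 < ε) (x t : ℝ) : 0 < PP G ε x t := by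
  unfold PP; positivity

theorem PP_dx {G : ℂ → ℂ} (hG : DifferentiableOn ℂ G (Metric.ball 0 1)) (ε : ℝ) {x : ℝ}
    (hx : 0 < x) (t : ℝ) : HasDerivAt (fun y => PP G ε y t) (Px G x t) x := by
  have h := (((fa_dx hG hx t).pow 2).add ((fb_dx hG hx t).pow 2)).add_const ε
  refine h.congr_deriv ?_
  unfold Px
  push_cast
  ring

theorem PP_dt {G : ℂ → ℂ} (hG : DifferentiableOn ℂ G (Metric.ball 0 1)) (ε : ℝ) {x : ℝ}
    (hx : 0 < x) (t : ℝ) : HasDerivAt (fun s => PP G ε x s) (Pt G x t) t := by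
  have h := (((fa_dt hG hx t).pow 2).add ((fb_dt hG hx t).pow 2)).add_const ε
  refine h.congr_deriv ?_
  unfold Pt
  push_cast
  ring

theorem Px_dx {G : ℂ → ℂ} (hG : DifferentiableOn ℂ G (Metric.ball 0 1)) {x : ℝ}
    (hx : 0 < x) (t : ℝ) : HasDerivAt (fun y => Px G y t) (Pxx G x t) x := by
  have hK := KK_diff hG
  have h := (((fa_dx hG hx t).fun_mul (fa_dx hK hx t)).add
    ((fb_dx hG hx t).fun_mul (fb_dx hK hx t))).const_mul (-2)
  refine h.congr_deriv ?_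
  unfold Pxx
  ring

theorem Pt_dt {G : ℂ → ℂ} (hG : DifferentiableOn ℂ G (Metric.ball 0 1)) {x : ℝ}
    (hx : 0 < x) (t : ℝ) : HasDerivAt (fun s => Pt G x s) (Ptt G x t) t := by
  have hK := KK_diff hG
  have h := (((fb_dt hG hx t).fun_mul (fa_dt hK hx t)).sub
    ((fa_dt hG hx t).fun_mul (fb_dt hK hx t))).const_mul 2
  refine h.congr_deriv ?_
  unfold Ptt
  ring


/-- the integrands -/
noncomputable def UU (G : ℂ → ℂ) (ε q x t : ℝ) : ℝ := PP G ε x t ^ q
noncomputable def Ux (G : ℂ → ℂ) (ε q x t : ℝ) : ℝ := Px G x t * q * PP G ε x t ^ (q - 1)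
noncomputable def Ut (G : ℂ → ℂ) (ε q x t : ℝ) : ℝ := Pt G x t * q * PP G ε x t ^ (q - 1)
noncomputable def Uxx (G : ℂ → ℂ) (ε q x t : ℝ) : ℝ :=
  Pxx G x t * q * PP G ε x t ^ (q - 1) +
    Px G x t * q * (Px G x t * (q - 1) * PP G ε x t ^ (q - 1 - 1))
noncomputable def Utt (G : ℂ → ℂ) (ε q x t : ℝ) : ℝ :=
  Ptt G x t * q * PP G ε x t ^ (q - 1) +
    Pt G x t * q * (Pt G x t * (q - 1) * PP G ε x t ^ (q - 1 - 1))
noncomputable def HH (G : ℂ → ℂ) (ε q x t : ℝ) : ℝ :=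
  (fa (KK G) x t ^ 2 + fb (KK G) x t ^ 2) * PP G ε x t ^ (q - 1)

theorem UU_dx {G : ℂ → ℂ} (hG : DifferentiableOn ℂ G (Metric.ball 0 1)) {ε : ℝ} (hε : 0 < ε)
    (q : ℝ) {x : ℝ} (hx : 0 < x) (t : ℝ) :
    HasDerivAt (fun y => UU G ε q y t) (Ux G ε q x t) x :=
  (PP_dx hG ε hx t).rpow_const (Or.inl (PP_pos G hε x t).ne')

theorem UU_dt {G : ℂ → ℂ} (hG : DifferentiableOn ℂ G (Metric.ball 0 1)) {ε : ℝ} (hε : 0 < ε)
    (q : ℝ) {x : ℝ} (hx : 0 < x) (t : ℝ) :
    HasDerivAt (fun s => UU G ε q x s) (Ut G ε q x t) t :=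
  (PP_dt hG ε hx t).rpow_const (Or.inl (PP_pos G hε x t).ne')

theorem Ux_dx {G : ℂ → ℂ} (hG : DifferentiableOn ℂ G (Metric.ball 0 1)) {ε : ℝ} (hε : 0 < ε)
    (q : ℝ) {x : ℝ} (hx : 0 < x) (t : ℝ) :
    HasDerivAt (fun y => Ux G ε q y t) (Uxx G ε q x t) x :=
  ((Px_dx hG hx t).mul_const q).fun_mul
    ((PP_dx hG ε hx t).rpow_const (p := q - 1) (Or.inl (PP_pos G hε x t).ne'))

theorem Ut_dt {G : ℂ → ℂ} (hG : DifferentiableOn ℂ G (Metric.ball 0 1)) {ε : ℝ} (hε : 0 < ε)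
    (q : ℝ) {x : ℝ} (hx : 0 < x) (t : ℝ) :
    HasDerivAt (fun s => Ut G ε q x s) (Utt G ε q x t) t :=
  ((Pt_dt hG hx t).mul_const q).fun_mul
    ((PP_dt hG ε hx t).rpow_const (p := q - 1) (Or.inl (PP_pos G hε x t).ne'))

theorem PP_cont {G : ℂ → ℂ} (hG : DifferentiableOn ℂ G (Metric.ball 0 1)) (ε : ℝ) :
    ContinuousOn (fun p : ℝ × ℝ => PP G ε p.1 p.2) (Set.Ioi 0 ×ˢ Set.univ) :=
  (((fa_cont hG).pow 2).add ((fb_cont hG).pow 2)).add continuousOn_const

theorem PPr_cont {G : ℂ → ℂ} (hG : DifferentiableOn ℂ G (Metric.ball 0 1)) {ε : ℝ} (hε : 0 < ε)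
    (c : ℝ) : ContinuousOn (fun p : ℝ × ℝ => PP G ε p.1 p.2 ^ c) (Set.Ioi 0 ×ˢ Set.univ) :=
  (PP_cont hG ε).rpow_const (fun p _ => Or.inl (PP_pos G hε p.1 p.2).ne')

theorem Px_cont {G : ℂ → ℂ} (hG : DifferentiableOn ℂ G (Metric.ball 0 1)) :
    ContinuousOn (fun p : ℝ × ℝ => Px G p.1 p.2) (Set.Ioi 0 ×ˢ Set.univ) := by
  have hK := KK_diff hG
  exact continuousOn_const.mul (((fa_cont hG).mul (fa_cont hK)).add ((fb_cont hG).mul (fb_cont hK)))

theorem Pt_cont {G : ℂ → ℂ} (hG : DifferentiableOn ℂ G (Metric.ball 0 1)) :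
    ContinuousOn (fun p : ℝ × ℝ => Pt G p.1 p.2) (Set.Ioi 0 ×ˢ Set.univ) := by
  have hK := KK_diff hG
  exact continuousOn_const.mul (((fb_cont hG).mul (fa_cont hK)).sub ((fa_cont hG).mul (fb_cont hK)))

theorem Pxx_cont {G : ℂ → ℂ} (hG : DifferentiableOn ℂ G (Metric.ball 0 1)) :
    ContinuousOn (fun p : ℝ × ℝ => Pxx G p.1 p.2) (Set.Ioi 0 ×ˢ Set.univ) := by
  have hK := KK_diff hG
  have hL := KK_diff hK
  exact continuousOn_const.mul (((((fa_cont hK).pow 2).add ((fb_cont hK).pow 2)).add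
    ((fa_cont hG).mul (fa_cont hL))).add ((fb_cont hG).mul (fb_cont hL)))

theorem Ptt_cont {G : ℂ → ℂ} (hG : DifferentiableOn ℂ G (Metric.ball 0 1)) :
    ContinuousOn (fun p : ℝ × ℝ => Ptt G p.1 p.2) (Set.Ioi 0 ×ˢ Set.univ) := by
  have hK := KK_diff hG
  have hL := KK_diff hK
  exact continuousOn_const.mul (((((fa_cont hK).pow 2).add ((fb_cont hK).pow 2)).sub
    ((fa_cont hG).mul (fa_cont hL))).sub ((fb_cont hG).mul (fb_cont hL)))

theorem UU_cont {G : ℂ → ℂ} (hG : DifferentiableOn ℂ G (Metric.ball 0 1)) {ε : ℝ} (hε : 0 < ε)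
    (q : ℝ) : ContinuousOn (Function.uncurry (UU G ε q)) (Set.Ioi 0 ×ˢ Set.univ) :=
  PPr_cont hG hε q

theorem Ux_cont {G : ℂ → ℂ} (hG : DifferentiableOn ℂ G (Metric.ball 0 1)) {ε : ℝ} (hε : 0 < ε)
    (q : ℝ) : ContinuousOn (Function.uncurry (Ux G ε q)) (Set.Ioi 0 ×ˢ Set.univ) :=
  ((Px_cont hG).mul continuousOn_const).mul (PPr_cont hG hε (q - 1))

theorem Ut_cont {G : ℂ → ℂ} (hG : DifferentiableOn ℂ G (Metric.ball 0 1)) {ε : ℝ} (hε : 0 < ε)
    (q : ℝ) : ContinuousOn (Function.uncurry (Ut G ε q)) (Set.Ioi 0 ×ˢ Set.univ) :=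
  ((Pt_cont hG).mul continuousOn_const).mul (PPr_cont hG hε (q - 1))

theorem Uxx_cont {G : ℂ → ℂ} (hG : DifferentiableOn ℂ G (Metric.ball 0 1)) {ε : ℝ} (hε : 0 < ε)
    (q : ℝ) : ContinuousOn (Function.uncurry (Uxx G ε q)) (Set.Ioi 0 ×ˢ Set.univ) :=
  (((Pxx_cont hG).mul continuousOn_const).mul (PPr_cont hG hε (q - 1))).add
    (((Px_cont hG).mul continuousOn_const).mul
      (((Px_cont hG).mul continuousOn_const).mul (PPr_cont hG hε (q - 1 - 1))))

theorem Utt_cont {G : ℂ → ℂ} (hG : DifferentiableOn ℂ G (Metric.ball 0 1)) {ε : ℝ} (hε : 0 < ε)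
    (q : ℝ) : ContinuousOn (Function.uncurry (Utt G ε q)) (Set.Ioi 0 ×ˢ Set.univ) :=
  (((Ptt_cont hG).mul continuousOn_const).mul (PPr_cont hG hε (q - 1))).add
    (((Pt_cont hG).mul continuousOn_const).mul
      (((Pt_cont hG).mul continuousOn_const).mul (PPr_cont hG hε (q - 1 - 1))))

theorem HH_cont {G : ℂ → ℂ} (hG : DifferentiableOn ℂ G (Metric.ball 0 1)) {ε : ℝ} (hε : 0 < ε)
    (q : ℝ) : ContinuousOn (Function.uncurry (HH G ε q)) (Set.Ioi 0 ×ˢ Set.univ) := by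
  have hK := KK_diff hG
  exact (((fa_cont hK).pow 2).add ((fb_cont hK).pow 2)).mul (PPr_cont hG hε (q - 1))

/-- the pointwise inequality -/
theorem hs_point (G : ℂ → ℂ) {ε q : ℝ} (hε : 0 < ε) (hq : 0 < q) (hq1 : q ≤ 1) (x t : ℝ) :
    4 * q ^ 2 * HH G ε q x t ≤ Uxx G ε q x t + Utt G ε q x t := by
  have hP := PP_pos G hε x t
  have h1 : PP G ε x t ^ (q - 1) = PP G ε x t ^ (q - 1 - 1) * PP G ε x t := by
    rw [← Real.rpow_add_one hP.ne']
    congr 1
    ring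
  have h2 : 0 < PP G ε x t ^ (q - 1 - 1) := Real.rpow_pos_of_pos hP _
  unfold HH Uxx Utt
  rw [h1]
  generalize PP G ε x t ^ (q - 1 - 1) = R at *
  have hPe : PP G ε x t = fa G x t ^ 2 + fb G x t ^ 2 + ε := rfl
  rw [hPe]
  unfold Pxx Ptt Px Pt
  generalize fa G x t = a
  generalize fb G x t = b
  generalize fa (KK G) x t = k
  generalize fb (KK G) x t = l
  generalize fa (KK (KK G)) x t = m
  generalize fb (KK (KK G)) x t = n
  have key : (2 * (k ^ 2 + l ^ 2 + a * m + b * n) * q * (R * (a ^ 2 + b ^ 2 + ε)) +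
      -2 * (a * k + b * l) * q * (-2 * (a * k + b * l) * (q - 1) * R) +
      (2 * (k ^ 2 + l ^ 2 - a * m - b * n) * q * (R * (a ^ 2 + b ^ 2 + ε)) +
      2 * (b * k - a * l) * q * (2 * (b * k - a * l) * (q - 1) * R))) -
      4 * q ^ 2 * ((k ^ 2 + l ^ 2) * (R * (a ^ 2 + b ^ 2 + ε))) =
      4 * q * (1 - q) * ε * (k ^ 2 + l ^ 2) * R := by ring
  have h3 : 0 ≤ 4 * q * (1 - q) * ε * (k ^ 2 + l ^ 2) * R := by
    have : 0 ≤ 1 - q := by linarith
    positivity
  linarith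

/-- integral mean -/
noncomputable def mm (G : ℂ → ℂ) (ε q x : ℝ) : ℝ := ∫ t in (0 : ℝ)..2 * Real.pi, UU G ε q x t
noncomputable def m1 (G : ℂ → ℂ) (ε q x : ℝ) : ℝ := ∫ t in (0 : ℝ)..2 * Real.pi, Ux G ε q x t
noncomputable def m2 (G : ℂ → ℂ) (ε q x : ℝ) : ℝ := ∫ t in (0 : ℝ)..2 * Real.pi, Uxx G ε q x t
noncomputable def hh (G : ℂ → ℂ) (ε q x : ℝ) : ℝ := ∫ t in (0 : ℝ)..2 * Real.pi, HH G ε q x t

theorem mm_deriv {G : ℂ → ℂ} (hG : DifferentiableOn ℂ G (Metric.ball 0 1)) {ε : ℝ} (hε : 0 < ε)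
    (q : ℝ) {x : ℝ} (hx : 0 < x) : HasDerivAt (mm G ε q) (m1 G ε q x) x :=
  hs_deriv _ _ (UU_cont hG hε q) (Ux_cont hG hε q) (fun _ hy t => UU_dx hG hε q hy t) x hx

theorem m1_deriv {G : ℂ → ℂ} (hG : DifferentiableOn ℂ G (Metric.ball 0 1)) {ε : ℝ} (hε : 0 < ε)
    (q : ℝ) {x : ℝ} (hx : 0 < x) : HasDerivAt (m1 G ε q) (m2 G ε q x) x :=
  hs_deriv _ _ (Ux_cont hG hε q) (Uxx_cont hG hε q) (fun _ hy t => Ux_dx hG hε q hy t) x hx

theorem Ut_per (G : ℂ → ℂ) (ε q x : ℝ) : Ut G ε q x (2 * Real.pi) = Ut G ε q x 0 := by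
  have h : ec x (2 * Real.pi) = ec x 0 := by
    unfold ec
    rw [Complex.exp_add, Complex.exp_add]
    push_cast
    rw [Complex.exp_two_pi_mul_I, zero_mul, Complex.exp_zero]
  unfold Ut Pt PP fa fb
  rw [h]

theorem Utt_int {G : ℂ → ℂ} (hG : DifferentiableOn ℂ G (Metric.ball 0 1)) {ε : ℝ} (hε : 0 < ε)
    (q : ℝ) {x : ℝ} (hx : 0 < x) : ∫ t in (0 : ℝ)..2 * Real.pi, Utt G ε q x t = 0 := by
  rw [intervalIntegral.integral_eq_sub_of_hasDerivAt (f := fun t => Ut G ε q x t)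
    (fun t _ => Ut_dt hG hε q hx t)
    ((hs_slice _ (Utt_cont hG hε q) x hx).intervalIntegrable _ _)]
  simp only [Ut_per, sub_self]

theorem m2_ge {G : ℂ → ℂ} (hG : DifferentiableOn ℂ G (Metric.ball 0 1)) {ε : ℝ} (hε : 0 < ε)
    {q : ℝ} (hq : 0 < q) (hq1 : q ≤ 1) {x : ℝ} (hx : 0 < x) :
    4 * q ^ 2 * hh G ε q x ≤ m2 G ε q x := by
  have c1 := hs_slice _ (Uxx_cont hG hε q) x hx
  have c2 := hs_slice _ (Utt_cont hG hε q) x hx
  have c3 := hs_slice _ (HH_cont hG hε q) x hx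
  have h1 : m2 G ε q x = ∫ t in (0 : ℝ)..2 * Real.pi, (Uxx G ε q x t + Utt G ε q x t) := by
    rw [intervalIntegral.integral_add (c1.intervalIntegrable _ _) (c2.intervalIntegrable _ _),
      Utt_int hG hε q hx, add_zero]
    rfl
  rw [h1]
  unfold hh
  rw [← intervalIntegral.integral_const_mul]
  apply intervalIntegral.integral_mono_on (by positivity)
  · exact (continuous_const.mul c3).intervalIntegrable _ _
  · exact (c1.add c2).intervalIntegrable _ _
  · intro t _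
    exact hs_point G hε hq hq1 x t

theorem HH_nonneg (G : ℂ → ℂ) {ε : ℝ} (hε : 0 < ε) (q x t : ℝ) : 0 ≤ HH G ε q x t := by
  have := PP_pos G hε x t
  unfold HH
  positivity

theorem hh_nonneg (G : ℂ → ℂ) {ε : ℝ} (hε : 0 < ε) (q x : ℝ) : 0 ≤ hh G ε q x :=
  intervalIntegral.integral_nonneg (by positivity) (fun t _ => HH_nonneg G hε q x t)

theorem mm_nonneg (G : ℂ → ℂ) {ε : ℝ} (hε : 0 < ε) (q x : ℝ) : 0 ≤ mm G ε q x :=
  intervalIntegral.integral_nonneg (by positivity) (fun t _ => by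
    have := PP_pos G hε x t
    unfold UU
    positivity)

theorem mm_bdd {G : ℂ → ℂ} (hG : DifferentiableOn ℂ G (Metric.ball 0 1)) {ε : ℝ} (hε : 0 < ε)
    {q : ℝ} (hq : 0 < q) {X : ℝ} (hX : 0 < X) :
    ∃ B : ℝ, ∀ x, X ≤ x → mm G ε q x ≤ B := by
  have hK : IsCompact (Metric.closedBall (0 : ℂ) (Real.exp (-X))) := isCompact_closedBall _ _
  have hsub : Metric.closedBall (0 : ℂ) (Real.exp (-X)) ⊆ Metric.ball 0 1 := by
    apply Metric.closedBall_subset_ball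
    rw [← Real.exp_zero]
    exact Real.exp_lt_exp.2 (by linarith)
  obtain ⟨C, hC⟩ := hK.exists_bound_of_continuousOn (hG.continuousOn.mono hsub)
  have hC0 : 0 ≤ C := (norm_nonneg _).trans (hC 0 (by simp [Real.exp_nonneg]))
  refine ⟨(2 * Real.pi - 0) * (C ^ 2 + ε) ^ q, ?_⟩
  intro x hx
  have hx0 : 0 < x := lt_of_lt_of_le hX hx
  unfold mm
  have e0 : (2 * Real.pi - 0) * (C ^ 2 + ε) ^ q =
      ∫ _ in (0 : ℝ)..2 * Real.pi, (C ^ 2 + ε) ^ q := by
    rw [intervalIntegral.integral_const, smul_eq_mul]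
  rw [e0]
  apply intervalIntegral.integral_mono_on (by positivity)
  · exact (hs_slice _ (UU_cont hG hε q) x hx0).intervalIntegrable _ _
  · exact intervalIntegrable_const
  · intro t _
    have h1 := hC (ec x t) (by
      rw [mem_closedBall_zero_iff, ec_norm]
      exact Real.exp_le_exp.2 (by linarith))
    have h2 : PP G ε x t = ‖G (ec x t)‖ ^ 2 + ε := by
      unfold PP fa fb
      rw [Complex.sq_norm, Complex.normSq_apply]
      ring
    unfold UU
    apply Real.rpow_le_rpow (PP_pos G hε x t).le _ hq.le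
    rw [h2]
    have h3 : ‖G (ec x t)‖ ^ 2 ≤ C ^ 2 := by
      apply pow_le_pow_left₀ (norm_nonneg _) h1
    linarith

theorem m1_nonpos {G : ℂ → ℂ} (hG : DifferentiableOn ℂ G (Metric.ball 0 1)) {ε : ℝ} (hε : 0 < ε)
    {q : ℝ} (hq : 0 < q) (hq1 : q ≤ 1) {X : ℝ} (hX : 0 < X) : m1 G ε q X ≤ 0 := by
  by_contra hcon
  push Not at hcon
  have hm2 : ∀ x, 0 < x → 0 ≤ m2 G ε q x := by
    intro x hx
    have h1 := m2_ge hG hε hq hq1 hx
    have h2 := hh_nonneg G hε q x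
    have h3 : 0 ≤ 4 * q ^ 2 * hh G ε q x := by positivity
    linarith
  have hmono : MonotoneOn (m1 G ε q) (Set.Ioi 0) := by
    apply monotoneOn_of_deriv_nonneg (convex_Ioi 0)
    · intro x hx
      exact (m1_deriv hG hε q hx).continuousAt.continuousWithinAt
    · intro x hx
      rw [interior_Ioi] at hx
      exact (m1_deriv hG hε q hx).differentiableAt.differentiableWithinAt
    · intro x hx
      rw [interior_Ioi] at hx
      rw [(m1_deriv hG hε q hx).deriv]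
      exact hm2 x hx
  have hmono2 : MonotoneOn (fun x => mm G ε q x - m1 G ε q X * x) (Set.Ici X) := by
    have hd : ∀ x, 0 < x → HasDerivAt (fun x => mm G ε q x - m1 G ε q X * x)
        (m1 G ε q x - m1 G ε q X) x := by
      intro x hx
      have h1 := (mm_deriv hG hε q hx).fun_sub ((hasDerivAt_id x).const_mul (m1 G ε q X))
      simpa using h1
    apply monotoneOn_of_deriv_nonneg (convex_Ici X)
    · intro x hx
      exact (hd x (lt_of_lt_of_le hX hx)).continuousAt.continuousWithinAt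
    · intro x hx
      rw [interior_Ici] at hx
      exact (hd x (hX.trans hx)).differentiableAt.differentiableWithinAt
    · intro x hx
      rw [interior_Ici] at hx
      rw [(hd x (hX.trans hx)).deriv]
      have := hmono (show X ∈ Set.Ioi 0 from hX) (show x ∈ Set.Ioi 0 from hX.trans hx) (le_of_lt hx)
      linarith
  obtain ⟨B, hB⟩ := mm_bdd hG hε hq hX
  obtain ⟨y, hy⟩ : ∃ y, y = X + (|B| + 1) / m1 G ε q X := ⟨_, rfl⟩
  have hXy : X ≤ y := by
    rw [hy]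
    have : 0 ≤ (|B| + 1) / m1 G ε q X := by positivity
    linarith
  have h1 := hmono2 (Set.mem_Ici.2 le_rfl) (Set.mem_Ici.2 hXy) hXy
  have h2 := hB y hXy
  have h3 := mm_nonneg G hε q X
  simp only at h1
  have h4 : m1 G ε q X * y = m1 G ε q X * X + (|B| + 1) := by
    rw [hy, mul_add, mul_div_cancel₀ _ hcon.ne']
  have h5 := le_abs_self B
  linarith

theorem PP_eq (G : ℂ → ℂ) (ε x t : ℝ) : PP G ε x t = ‖G (ec x t)‖ ^ 2 + ε := by
  unfold PP fa fb
  rw [Complex.sq_norm, Complex.normSq_apply]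
  ring

theorem mm_anti {G : ℂ → ℂ} (hG : DifferentiableOn ℂ G (Metric.ball 0 1)) {ε : ℝ} (hε : 0 < ε)
    {q : ℝ} (hq : 0 < q) (hq1 : q ≤ 1) : AntitoneOn (mm G ε q) (Set.Ioi 0) := by
  apply antitoneOn_of_deriv_nonpos (convex_Ioi 0)
  · intro x hx
    exact (mm_deriv hG hε q hx).continuousAt.continuousWithinAt
  · intro x hx
    rw [interior_Ioi] at hx
    exact (mm_deriv hG hε q hx).differentiableAt.differentiableWithinAt
  · intro x hx
    rw [interior_Ioi] at hx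
    rw [(mm_deriv hG hε q hx).deriv]
    exact m1_nonpos hG hε hq hq1 hx


/-- TARGET -/
theorem hardy_mono_disc (s : ℝ) (hs : 0 < s) (hs2 : s ≤ 2) (G : ℂ → ℂ)
    (hG : DifferentiableOn ℂ G (Metric.ball 0 1)) (r R : ℝ) (h0 : 0 ≤ r) (h1 : r ≤ R)
    (h2 : R < 1) :
    ∫ θ in (0 : ℝ)..2 * Real.pi, ‖G (r * Complex.exp (θ * I))‖ ^ s ≤
      ∫ θ in (0 : ℝ)..2 * Real.pi, ‖G (R * Complex.exp (θ * I))‖ ^ s := by
  have hs0 : 0 < s / 2 := by linarith
  have hs1 : s / 2 ≤ 1 := by linarith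
  -- positive radii
  have key : ∀ r R : ℝ, 0 < r → r ≤ R → R < 1 →
      ∫ θ in (0 : ℝ)..2 * Real.pi, ‖G (r * Complex.exp (θ * I))‖ ^ s ≤
      ∫ θ in (0 : ℝ)..2 * Real.pi, ‖G (R * Complex.exp (θ * I))‖ ^ s := by
    intro r R hr hrR hR
    have hR0 : 0 < R := lt_of_lt_of_le hr hrR
    have hxr : 0 < -Real.log r := by
      have := Real.log_neg hr (lt_of_le_of_lt hrR hR)
      linarith
    have hxR : 0 < -Real.log R := by
      have := Real.log_neg hR0 hR
      linarith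
    have hec : ∀ ρ : ℝ, 0 < ρ → ∀ θ : ℝ, (ρ : ℂ) * Complex.exp (θ * I) = ec (-Real.log ρ) θ := by
      intro ρ hρ θ
      unfold ec
      rw [Complex.exp_add]
      congr 1
      push_cast
      rw [neg_neg, ← Complex.ofReal_exp, Real.exp_log hρ]
    have hGs : ∀ ρ : ℝ, 0 < ρ → 0 < -Real.log ρ →
        Continuous (fun θ : ℝ => ‖G (ec (-Real.log ρ) θ)‖ ^ s) := by
      intro ρ _ hx
      have h1 : Continuous (fun θ : ℝ => G (ec (-Real.log ρ) θ)) :=
        hs_slice (fun x t => ‖G (ec x t)‖) ((Fec_cont hG).norm) _ hx |>.norm |> fun _ => by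
          have h0 : Continuous (fun t : ℝ => ((-Real.log ρ, t) : ℝ × ℝ)) := by fun_prop
          exact (Fec_cont hG).comp_continuous h0 (fun t => ⟨hx, trivial⟩)
      exact h1.norm.rpow_const (fun _ => Or.inr hs.le)
    have hpw : ∀ z : ℝ, 0 ≤ z → (z ^ 2) ^ (s / 2) = z ^ s := by
      intro z hz
      rw [← Real.rpow_natCast, ← Real.rpow_mul hz]
      congr 1
      push_cast
      ring
    simp_rw [hec r hr, hec R hR0]
    apply le_of_forall_pos_le_add
    intro δ hδ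
    -- choose eps
    obtain ⟨ε, hε, hεδ⟩ : ∃ ε : ℝ, 0 < ε ∧ 2 * Real.pi * ε ^ (s / 2) ≤ δ := by
      refine ⟨(δ / (2 * Real.pi)) ^ (1 / (s / 2)), by positivity, ?_⟩
      rw [← Real.rpow_mul (by positivity), one_div, inv_mul_cancel₀ hs0.ne', Real.rpow_one]
      rw [mul_div_cancel₀ _ (by positivity)]
    have h1 := mm_anti hG hε hs0 hs1 (show -Real.log R ∈ Set.Ioi 0 from hxR)
      (show -Real.log r ∈ Set.Ioi 0 from hxr) (by
        have := Real.log_le_log hr hrR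
        linarith)
    have h2 : ∫ θ in (0 : ℝ)..2 * Real.pi, ‖G (ec (-Real.log r) θ)‖ ^ s ≤
        mm G ε (s / 2) (-Real.log r) := by
      unfold mm
      apply intervalIntegral.integral_mono_on (by positivity)
      · exact (hGs r hr hxr).intervalIntegrable _ _
      · exact (hs_slice _ (UU_cont hG hε (s / 2)) _ hxr).intervalIntegrable _ _
      · intro t _
        unfold UU
        rw [PP_eq, ← hpw _ (norm_nonneg _)]
        apply Real.rpow_le_rpow (by positivity) _ hs0.le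
        linarith
    have h3 : mm G ε (s / 2) (-Real.log R) ≤
        (∫ θ in (0 : ℝ)..2 * Real.pi, ‖G (ec (-Real.log R) θ)‖ ^ s) + 2 * Real.pi * ε ^ (s / 2) := by
      have h4 : 2 * Real.pi * ε ^ (s / 2) = ∫ _ in (0 : ℝ)..2 * Real.pi, ε ^ (s / 2) := by
        rw [intervalIntegral.integral_const, smul_eq_mul, sub_zero]
      rw [h4, ← intervalIntegral.integral_add ((hGs R hR0 hxR).intervalIntegrable _ _)
        intervalIntegrable_const]
      unfold mm
      apply intervalIntegral.integral_mono_on (by positivity)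
      · exact (hs_slice _ (UU_cont hG hε (s / 2)) _ hxR).intervalIntegrable _ _
      · exact ((hGs R hR0 hxR).add continuous_const).intervalIntegrable _ _
      · intro t _
        unfold UU
        rw [PP_eq, ← hpw _ (norm_nonneg _)]
        exact Real.rpow_add_le_add_rpow (by positivity) hε.le hs0.le hs1
    linarith
  rcases lt_or_eq_of_le h0 with h0 | h0
  · exact key r R h0 h1 h2
  · subst h0
    rcases lt_or_eq_of_le h1 with h1 | h1
    · have hc : Continuous (Function.uncurry (fun (ρ θ : ℝ) =>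
          ‖G (((max 0 (min ρ R) : ℝ) : ℂ) * Complex.exp (θ * I))‖ ^ s)) := by
        have hmap : Continuous (fun p : ℝ × ℝ =>
            ((max 0 (min p.1 R) : ℝ) : ℂ) * Complex.exp (p.2 * I)) := by fun_prop
        have h3 := hG.continuousOn.comp_continuous hmap (fun p => by
          rw [mem_ball_zero_iff, norm_mul, Complex.norm_exp_ofReal_mul_I, mul_one,
            Complex.norm_real, Real.norm_eq_abs, abs_of_nonneg (le_max_left _ _)]
          exact max_lt one_pos (lt_of_le_of_lt (min_le_right _ _) h2))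
        exact h3.norm.rpow_const (fun _ => Or.inr hs.le)
      have h4 := intervalIntegral.continuous_parametric_intervalIntegral_of_continuous'
        (μ := volume) hc 0 (2 * Real.pi)
      have h5 : Filter.Tendsto (fun ρ => ∫ θ in (0 : ℝ)..2 * Real.pi,
          ‖G (((max 0 (min ρ R) : ℝ) : ℂ) * Complex.exp (θ * I))‖ ^ s)
          (nhdsWithin 0 (Set.Ioi 0)) (nhds (∫ θ in (0 : ℝ)..2 * Real.pi,
          ‖G (((max 0 (min 0 R) : ℝ) : ℂ) * Complex.exp (θ * I))‖ ^ s)) :=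
        (h4.tendsto 0).mono_left nhdsWithin_le_nhds
      have h6 : max 0 (min 0 R) = 0 := by
        rw [min_eq_left h1.le, max_self]
      rw [h6] at h5
      apply le_of_tendsto h5
      filter_upwards [Ioo_mem_nhdsGT h1] with ρ hρ
      have h7 : max 0 (min ρ R) = ρ := by
        rw [min_eq_left hρ.2.le, max_eq_right hρ.1.le]
      rw [h7]
      exact key ρ R hρ.1 hρ.2.le h2
    · rw [← h1]

/-- TARGET -/
theorem hardy_stein_disc (s : ℝ) (hs : 0 < s) (hs2 : s ≤ 2) (ε : ℝ) (hε : 0 < ε) (G : ℂ → ℂ)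
    (hG : DifferentiableOn ℂ G (Metric.ball 0 1)) (x₀ X : ℝ) (h0 : 0 < x₀) (h1 : x₀ ≤ X) :
    ∫ x in x₀..X, (x - x₀) * ∫ θ in (0 : ℝ)..2 * Real.pi,
        ‖Complex.exp (-x + θ * I) * deriv G (Complex.exp (-x + θ * I))‖ ^ 2 *
          (‖G (Complex.exp (-x + θ * I))‖ ^ 2 + ε) ^ (s / 2 - 1) ≤
      (1 / s ^ 2) * ∫ θ in (0 : ℝ)..2 * Real.pi,
        (‖G (Complex.exp (-x₀ + θ * I))‖ ^ 2 + ε) ^ (s / 2) := by
  obtain ⟨q, hq⟩ : ∃ q, q = s / 2 := ⟨_, rfl⟩
  have hs0 : 0 < q := by rw [hq]; linarith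
  have hs1 : q ≤ 1 := by rw [hq]; linarith
  rw [← hq]
  have hpos : ∀ x ∈ Set.uIcc x₀ X, 0 < x := by
    intro x hx
    rw [Set.uIcc_of_le h1] at hx
    exact lt_of_lt_of_le h0 hx.1
  -- rewrite the inner integrals
  have e1 : ∀ x : ℝ, ∫ θ in (0 : ℝ)..2 * Real.pi,
        ‖Complex.exp (-x + θ * I) * deriv G (Complex.exp (-x + θ * I))‖ ^ 2 *
          (‖G (Complex.exp (-x + θ * I))‖ ^ 2 + ε) ^ (q - 1) = hh G ε q x := by
    intro x
    unfold hh
    congr 1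
    funext θ
    unfold HH
    rw [PP_eq]
    have e2 : fa (KK G) x θ ^ 2 + fb (KK G) x θ ^ 2 =
        ‖Complex.exp (-x + θ * I) * deriv G (Complex.exp (-x + θ * I))‖ ^ 2 := by
      have e3 : KK G (ec x θ) = Complex.exp (-x + θ * I) * deriv G (Complex.exp (-x + θ * I)) := rfl
      rw [← e3, Complex.sq_norm, Complex.normSq_apply]
      unfold fa fb
      ring
    rw [e2]
    rfl
  have e4 : ∫ θ in (0 : ℝ)..2 * Real.pi,
        (‖G (Complex.exp (-x₀ + θ * I))‖ ^ 2 + ε) ^ q = mm G ε q x₀ := by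
    unfold mm
    congr 1
    funext θ
    unfold UU
    rw [PP_eq]
    rfl
  simp_rw [e1]
  rw [e4]
  have hm2c : ContinuousOn (fun x => (x - x₀) * m2 G ε q x) (Set.uIcc x₀ X) := by
    apply ContinuousOn.mul (by fun_prop)
    intro x hx
    exact (hs_cont _ (Uxx_cont hG hε q) x (hpos x hx)).continuousWithinAt
  have hhc : ContinuousOn (fun x => (x - x₀) * hh G ε q x) (Set.uIcc x₀ X) := by
    apply ContinuousOn.mul (by fun_prop)
    intro x hx
    exact (hs_cont _ (HH_cont hG hε q) x (hpos x hx)).continuousWithinAt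
  have hFTC : ∫ x in x₀..X, (x - x₀) * m2 G ε q x =
      ((X - x₀) * m1 G ε q X - mm G ε q X) - ((x₀ - x₀) * m1 G ε q x₀ - mm G ε q x₀) := by
    apply intervalIntegral.integral_eq_sub_of_hasDerivAt
      (f := fun x => (x - x₀) * m1 G ε q x - mm G ε q x)
    · intro x hx
      have hx0 := hpos x hx
      have h2 := ((((hasDerivAt_id x).sub_const x₀).fun_mul (m1_deriv hG hε q hx0)).fun_sub
        (mm_deriv hG hε q hx0))
      refine h2.congr_deriv ?_
      simp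
    · exact hm2c.intervalIntegrable
  have hle : ∫ x in x₀..X, (4 * q ^ 2) * ((x - x₀) * hh G ε q x) ≤
      ∫ x in x₀..X, (x - x₀) * m2 G ε q x := by
    apply intervalIntegral.integral_mono_on h1
    · exact (continuousOn_const.mul hhc).intervalIntegrable
    · exact hm2c.intervalIntegrable
    · intro x hx
      have hx0 : 0 < x := lt_of_lt_of_le h0 hx.1
      have h2 := m2_ge hG hε hs0 hs1 hx0
      have h3 : 0 ≤ x - x₀ := by linarith [hx.1]
      have h4 := mul_le_mul_of_nonneg_left h2 h3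
      linarith
  rw [intervalIntegral.integral_const_mul, hFTC] at hle
  have h5 := m1_nonpos hG hε hs0 hs1 (lt_of_lt_of_le h0 h1)
  have h6 := mm_nonneg G hε q X
  have h7 : (X - x₀) * m1 G ε q X ≤ 0 :=
    mul_nonpos_of_nonneg_of_nonpos (by linarith) h5
  have h8 : 4 * q ^ 2 = s ^ 2 := by rw [hq]; ring
  rw [h8] at hle
  rw [one_div, ← div_eq_inv_mul, le_div_iff₀ (by positivity)]
  rw [sub_self, zero_mul, zero_sub] at hle
  linarith


end Pool.Agent.HpBall
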