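import Mathlib
import Pool.Agent.HpBall.Defs2
import Pool.Agent.HpBall.Geom
import Pool.Agent.HpBall.Sphere
import Pool.Agent.HpBall.Disc

set_option autoImplicit false

open MeasureTheory Complex
open scoped ENNReal NNReal

namespace Pool.Agent.HpBall

/-- averaging over rotations -/
theorem sig_average (n : ℕ) (f : E n → ℝ≥0∞) (hf : Measurable f) :
    ENNReal.ofReal (2 * Real.pi) * ∫⁻ ξ, f ξ ∂(sig n) =
      ∫⁻ ξ, ∫⁻ t in Set.Ioc (0:ℝ) (2 * Real.pi), f (Complex.exp (t * I) • ξ) ∂volume ∂(sig n) := by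
  rw [lintegral_lintegral_swap]
  · have : ∀ t : ℝ, ∫⁻ ξ, f (Complex.exp (t * I) • ξ) ∂(sig n) = ∫⁻ ξ, f ξ ∂(sig n) := by
      intro t
      have := lintegral_sig_isometry (rot n t) f hf
      simpa [rot_apply] using this
    simp_rw [this]
    rw [lintegral_const, Measure.restrict_apply MeasurableSet.univ, Set.univ_inter,
      Real.volume_Ioc, sub_zero, mul_comm]
  · apply Measurable.aemeasurable
    apply hf.comp
    fun_prop

lemma slice_diff (n : ℕ) (F : E n → ℂ) (R₀ : ℝ) (hF : DifferentiableOn ℂ F (Metric.ball 0 R₀))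
    (v : E n) (hv : ‖v‖ ≤ R₀) (hR0: 0 < R₀) :
    DifferentiableOn ℂ (fun z : ℂ => F (z • v)) (Metric.ball 0 1) := by
  apply hF.comp
  · fun_prop
  · intro z hz
    rw [mem_ball_zero_iff] at hz ⊢
    rw [norm_smul]
    calc ‖z‖ * ‖v‖ ≤ ‖z‖ * R₀ := by gcongr
      _ < 1 * R₀ := by gcongr
      _ = R₀ := one_mul _

lemma measurable_ind (n : ℕ) (F : E n → ℂ) (R₀ : ℝ) (hF : ContinuousOn F (Metric.ball 0 R₀)) :
    Measurable ((Metric.ball (0 : E n) R₀).indicator F) := by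
  classical
  have h := hF.measurable_piecewise (g := (0 : E n → ℂ)) continuousOn_const
    Metric.isOpen_ball.measurableSet
  rw [Set.piecewise_eq_indicator] at h
  exact h

/-- from a lintegral of a continuous nonnegative function to an interval integral -/
lemma lintegral_Ioc_eq (φ : ℝ → ℝ) (a b : ℝ) (hab : a ≤ b) (hφ : Continuous φ) (h0 : ∀ t, 0 ≤ φ t) :
    ∫⁻ t in Set.Ioc a b, ENNReal.ofReal (φ t) = ENNReal.ofReal (∫ t in a..b, φ t) := by
  rw [intervalIntegral.integral_of_le hab, ofReal_integral_eq_lintegral_ofReal]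
  · exact (hφ.integrableOn_Icc (a := a) (b := b)).mono_set Set.Ioc_subset_Icc_self
  · exact Filter.Eventually.of_forall h0

/-- TARGET -/
theorem sphere_mono (n : ℕ) (hn : 1 ≤ n) (s : ℝ) (hs : 0 < s) (hs2 : s ≤ 2) (F : E n → ℂ)
    (R₀ : ℝ) (hF : DifferentiableOn ℂ F (Metric.ball 0 R₀)) (r R : ℝ) (h0 : 0 ≤ r) (h1 : r ≤ R)
    (h2 : R < R₀) :
    ∫⁻ ξ, ENNReal.ofReal (‖F ((r : ℂ) • ξ)‖ ^ s) ∂(sig n) ≤
      ∫⁻ ξ, ENNReal.ofReal (‖F ((R : ℂ) • ξ)‖ ^ s) ∂(sig n) := by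
  obtain ⟨R₁, hR1a, hR1b⟩ := exists_between h2
  have hR1pos : 0 < R₁ := by linarith
  set Ft : E n → ℂ := (Metric.ball 0 R₀).indicator F with hFt
  have hFtm : Measurable Ft := measurable_ind n F R₀ hF.continuousOn
  have key : ∀ q : ℝ, 0 ≤ q → q < R₀ → ∫⁻ ξ, ENNReal.ofReal (‖F ((q : ℂ) • ξ)‖ ^ s) ∂(sig n)
      = ∫⁻ ξ, ENNReal.ofReal (‖Ft ((q : ℂ) • ξ)‖ ^ s) ∂(sig n) := by
    intro q hq hq2
    apply lintegral_congr_ae
    filter_upwards [sig_ae_norm hn] with ξ hξ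
    have : (q:ℂ) • ξ ∈ Metric.ball (0 : E n) R₀ := by
      rw [mem_ball_zero_iff, norm_smul, hξ]
      simpa [abs_of_nonneg hq] using hq2
    rw [hFt, Set.indicator_of_mem this]
  rw [key r h0 (by linarith), key R (by linarith) h2]
  have h2pi : ENNReal.ofReal (2 * Real.pi) ≠ 0 := by simp [Real.pi_pos]
  have h2pi' : ENNReal.ofReal (2 * Real.pi) ≠ ⊤ := ENNReal.ofReal_ne_top
  rw [← ENNReal.mul_le_mul_iff_right h2pi h2pi']
  rw [sig_average n _ (by fun_prop), sig_average n _ (by fun_prop)]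
  apply lintegral_mono_ae
  filter_upwards [sig_ae_norm hn] with ξ hξ
  have hG := slice_diff n F R₀ hF ((R₁ : ℂ) • ξ) (by
    rw [norm_smul, hξ]; simp [abs_of_pos hR1pos]; linarith) (by linarith)
  have conv : ∀ q : ℝ, 0 ≤ q → q ≤ R →
      ∫⁻ t in Set.Ioc (0:ℝ) (2 * Real.pi),
        ENNReal.ofReal (‖Ft ((q:ℂ) • (Complex.exp (t * I) • ξ))‖ ^ s)
      = ENNReal.ofReal (∫ θ in (0:ℝ)..2 * Real.pi,
          ‖(fun z : ℂ => F (z • ((R₁ : ℂ) • ξ))) (((q / R₁ : ℝ) : ℂ) * Complex.exp (θ * I))‖ ^ s) := by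
    intro q hq hq2
    rw [← lintegral_Ioc_eq _ _ _ (by positivity)]
    · apply lintegral_congr
      intro t
      have e1 : (q:ℂ) • (Complex.exp (t * I) • ξ) =
          (((q / R₁ : ℝ) : ℂ) * Complex.exp (t * I)) • ((R₁ : ℂ) • ξ) := by
        rw [smul_smul, smul_smul]
        congr 1
        have hR1c : (R₁ : ℂ) ≠ 0 := by exact_mod_cast hR1pos.ne'
        push_cast
        field_simp
      have : (q:ℂ) • (Complex.exp (t * I) • ξ) ∈ Metric.ball (0 : E n) R₀ := by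
        rw [mem_ball_zero_iff, norm_smul, norm_smul, hξ, Complex.norm_exp_ofReal_mul_I]
        simp [abs_of_nonneg hq]
        linarith
      rw [hFt, Set.indicator_of_mem this, e1]
    · apply Continuous.rpow_const
      · apply Continuous.norm
        have hc := hG.continuousOn
        apply hc.comp_continuous (by fun_prop)
        intro t
        rw [mem_ball_zero_iff, norm_mul, Complex.norm_exp_ofReal_mul_I, mul_one,
          Complex.norm_real, Real.norm_eq_abs, abs_of_nonneg (by positivity)]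
        rw [div_lt_one hR1pos]
        linarith
      · intro t
        right; exact hs.le
    · intro t; positivity
  have c1 := conv r h0 h1
  have c2 := conv R (by linarith) le_rfl
  simp only [] at c1 c2 ⊢
  rw [c1, c2]
  apply ENNReal.ofReal_le_ofReal
  apply hardy_mono_disc s hs hs2 _ hG (r / R₁) (R / R₁) (by positivity) (by gcongr)
  rw [div_lt_one hR1pos]
  exact hR1a

lemma measurable_rad (n : ℕ) (g : E n → ℂ) : Measurable (rad g) := by
  unfold rad
  have h1 : Measurable (fderiv ℂ g) := measurable_fderiv ℂ g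
  have h2 : Continuous (fun q : (E n →L[ℂ] ℂ) × E n => q.1 q.2) :=
    isBoundedBilinearMap_apply.continuous
  exact h2.measurable.comp (h1.prodMk measurable_id)

/-- TARGET -/
theorem sphere_hardy_stein (n : ℕ) (hn : 1 ≤ n) (p : ℝ) (hp : 0 < p) (hp2 : p ≤ 2) (ε : ℝ)
    (hε : 0 < ε) (g : E n → ℂ) (hg : DifferentiableOn ℂ g (Metric.ball 0 1)) (x₀ X : ℝ)
    (h0 : 0 < x₀) (h1 : x₀ ≤ X) :
    ∫⁻ x in Set.Ioc x₀ X, ∫⁻ ξ, ENNReal.ofReal ((x - x₀) *
        (‖rad g ((Real.exp (-x) : ℂ) • ξ)‖ ^ 2 *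
          (‖g ((Real.exp (-x) : ℂ) • ξ)‖ ^ 2 + ε) ^ (p / 2 - 1))) ∂(sig n) ≤
      ENNReal.ofReal (1 / p ^ 2) * ∫⁻ ξ, ENNReal.ofReal
        ((‖g ((Real.exp (-x₀) : ℂ) • ξ)‖ ^ 2 + ε) ^ (p / 2)) ∂(sig n) := by
  set gt : E n → ℂ := (Metric.ball 0 1).indicator g with hgt
  have hgtm : Measurable gt := measurable_ind n g 1 hg.continuousOn
  have hrad : Measurable (rad g) := measurable_rad n g
  have hball : ∀ (x : ℝ) (ξ : E n), 0 < x → ‖ξ‖ = 1 →
      (Real.exp (-x) : ℂ) • ξ ∈ Metric.ball (0 : E n) 1 := by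
    intro x ξ hx hξ
    rw [mem_ball_zero_iff, norm_smul, hξ, mul_one, Complex.norm_real, Real.norm_eq_abs,
      abs_of_pos (Real.exp_pos _)]
    rw [Real.exp_lt_one_iff]
    linarith
  have key1 : ∀ x ∈ Set.Ioc x₀ X, ∫⁻ ξ, ENNReal.ofReal ((x - x₀) *
        (‖rad g ((Real.exp (-x) : ℂ) • ξ)‖ ^ 2 *
          (‖g ((Real.exp (-x) : ℂ) • ξ)‖ ^ 2 + ε) ^ (p / 2 - 1))) ∂(sig n) =
      ∫⁻ ξ, ENNReal.ofReal ((x - x₀) *
        (‖rad g ((Real.exp (-x) : ℂ) • ξ)‖ ^ 2 *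
          (‖gt ((Real.exp (-x) : ℂ) • ξ)‖ ^ 2 + ε) ^ (p / 2 - 1))) ∂(sig n) := by
    intro x hx
    apply lintegral_congr_ae
    filter_upwards [sig_ae_norm hn] with ξ hξ
    rw [hgt, Set.indicator_of_mem (hball x ξ (by linarith [hx.1]) hξ)]
  have key2 : ∫⁻ ξ, ENNReal.ofReal
        ((‖g ((Real.exp (-x₀) : ℂ) • ξ)‖ ^ 2 + ε) ^ (p / 2)) ∂(sig n) =
      ∫⁻ ξ, ENNReal.ofReal
        ((‖gt ((Real.exp (-x₀) : ℂ) • ξ)‖ ^ 2 + ε) ^ (p / 2)) ∂(sig n) := by
    apply lintegral_congr_ae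
    filter_upwards [sig_ae_norm hn] with ξ hξ
    rw [hgt, Set.indicator_of_mem (hball x₀ ξ h0 hξ)]
  rw [setLIntegral_congr_fun measurableSet_Ioc key1, key2]
  have h2pi : ENNReal.ofReal (2 * Real.pi) ≠ 0 := by simp [Real.pi_pos]
  have h2pi' : ENNReal.ofReal (2 * Real.pi) ≠ ⊤ := ENNReal.ofReal_ne_top
  rw [← ENNReal.mul_le_mul_iff_right h2pi h2pi']
  rw [← lintegral_const_mul' _ _ h2pi', mul_left_comm, sig_average n _ (by fun_prop),
    ← lintegral_const_mul' _ _ ENNReal.ofReal_ne_top]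
  have key3 : ∀ x : ℝ, ENNReal.ofReal (2 * Real.pi) * ∫⁻ ξ, ENNReal.ofReal ((x - x₀) *
        (‖rad g ((Real.exp (-x) : ℂ) • ξ)‖ ^ 2 *
          (‖gt ((Real.exp (-x) : ℂ) • ξ)‖ ^ 2 + ε) ^ (p / 2 - 1))) ∂(sig n) =
      ∫⁻ ξ, ∫⁻ t in Set.Ioc (0:ℝ) (2 * Real.pi), ENNReal.ofReal ((x - x₀) *
        (‖rad g ((Real.exp (-x) : ℂ) • (Complex.exp (t * I) • ξ))‖ ^ 2 *
          (‖gt ((Real.exp (-x) : ℂ) • (Complex.exp (t * I) • ξ))‖ ^ 2 + ε) ^ (p / 2 - 1)))
            ∂volume ∂(sig n) := by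
    intro x
    rw [sig_average n _ (by fun_prop)]
  simp_rw [key3]
  rw [lintegral_lintegral_swap]
  swap
  · apply Measurable.aemeasurable
    apply Measurable.lintegral_prod_right'
      (f := fun q : (ℝ × E n) × ℝ => ENNReal.ofReal ((q.1.1 - x₀) *
        (‖rad g ((Real.exp (-q.1.1) : ℂ) • (Complex.exp (q.2 * I) • q.1.2))‖ ^ 2 *
          (‖gt ((Real.exp (-q.1.1) : ℂ) • (Complex.exp (q.2 * I) • q.1.2))‖ ^ 2 + ε) ^ (p / 2 - 1))))
    fun_prop
  apply lintegral_mono_ae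
  filter_upwards [sig_ae_norm hn] with ξ hξ
  have hG := slice_diff n g 1 hg ξ hξ.le one_pos
  set G : ℂ → ℂ := fun z => g (z • ξ) with hGdef
  have hstein := hardy_stein_disc p hp hp2 ε hε G hG x₀ X h0 h1
  have hGc := hG.continuousOn
  have hdG := (hG.deriv Metric.isOpen_ball).continuousOn
  have hrotb : ∀ (x t : ℝ), 0 < x → Complex.exp (-x + t * I) ∈ Metric.ball (0:ℂ) 1 := by
    intro x t hx
    rw [mem_ball_zero_iff, Complex.norm_exp]
    simp
    exact hx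
  have hradG : ∀ z ∈ Metric.ball (0:ℂ) 1, rad g (z • ξ) = z * deriv G z := by
    intro z hz
    have hz' : z • ξ ∈ Metric.ball (0 : E n) 1 := by
      rw [mem_ball_zero_iff] at hz ⊢
      rw [norm_smul, hξ, mul_one]; exact hz
    have d1 : HasFDerivAt g (fderiv ℂ g (z • ξ)) (z • ξ) :=
      (hg.differentiableAt (Metric.isOpen_ball.mem_nhds hz')).hasFDerivAt
    have d2 : HasDerivAt (fun z : ℂ => z • ξ) ξ z := by
      simpa using (hasDerivAt_id z).smul_const ξ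
    have d3 : HasDerivAt G (fderiv ℂ g (z • ξ) ξ) z := d1.comp_hasDerivAt z d2
    rw [d3.deriv]
    unfold rad
    rw [map_smul, smul_eq_mul]
  have hexp : ∀ (x t : ℝ), (Real.exp (-x) : ℂ) • (Complex.exp (t * I) • ξ) =
      Complex.exp (-x + t * I) • ξ := by
    intro x t
    rw [smul_smul, Complex.exp_add]
    push_cast
    rfl
  have hgt' : ∀ (x t : ℝ), 0 < x → gt (Complex.exp (-x + t * I) • ξ) =
      G (Complex.exp (-x + t * I)) := by
    intro x t hx
    rw [hgt, Set.indicator_of_mem]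
    rw [mem_ball_zero_iff, norm_smul, hξ, mul_one]
    simpa using hrotb x t hx
  obtain ⟨Φ, hΦ⟩ : ∃ Φ : ℝ → ℝ → ℝ, Φ = fun x θ : ℝ =>
    ‖Complex.exp (-x + θ * I) * deriv G (Complex.exp (-x + θ * I))‖ ^ 2 *
          (‖G (Complex.exp (-x + θ * I))‖ ^ 2 + ε) ^ (p / 2 - 1) := ⟨_, rfl⟩
  have hΦ0 : ∀ x θ, 0 ≤ Φ x θ := by
    intro x θ
    rw [hΦ]
    positivity
  have hw : Continuous (fun q : ℝ × ℝ => Complex.exp (-((max q.1 x₀ : ℝ) : ℂ) + q.2 * I)) := by
    fun_prop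
  have hwb : ∀ q : ℝ × ℝ, Complex.exp (-((max q.1 x₀ : ℝ) : ℂ) + q.2 * I) ∈
      Metric.ball (0:ℂ) 1 := by
    intro q
    exact hrotb (max q.1 x₀) q.2 (lt_of_lt_of_le h0 (le_max_right _ _))
  have hΦc : Continuous (fun q : ℝ × ℝ => Φ (max q.1 x₀) q.2) := by
    have c1 := hGc.comp_continuous hw hwb
    have c2 := hdG.comp_continuous hw hwb
    rw [hΦ]
    apply Continuous.mul
    · exact ((hw.mul c2).norm).pow 2
    · apply Continuous.rpow_const
      · exact (c1.norm.pow 2).add continuous_const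
      · intro q
        left
        positivity
  have hΦint : Continuous (fun x : ℝ => ∫ θ in (0:ℝ)..2 * Real.pi, Φ (max x x₀) θ) := by
    apply intervalIntegral.continuous_parametric_intervalIntegral_of_continuous'
    exact hΦc
  have inner1 : ∀ x ∈ Set.Ioc x₀ X, ∫⁻ t in Set.Ioc (0:ℝ) (2 * Real.pi),
      ENNReal.ofReal ((x - x₀) *
        (‖rad g ((Real.exp (-x) : ℂ) • (Complex.exp (t * I) • ξ))‖ ^ 2 *
          (‖gt ((Real.exp (-x) : ℂ) • (Complex.exp (t * I) • ξ))‖ ^ 2 + ε) ^ (p / 2 - 1))) =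
      ENNReal.ofReal ((max x x₀ - x₀) * ∫ θ in (0:ℝ)..2 * Real.pi, Φ (max x x₀) θ) := by
    intro x hx
    have hx0 : 0 < x := by linarith [hx.1]
    have hmax : max x x₀ = x := max_eq_left hx.1.le
    rw [← intervalIntegral.integral_const_mul, ← lintegral_Ioc_eq _ _ _ (by positivity)]
    · apply lintegral_congr
      intro t
      rw [hexp, hradG _ (hrotb x t hx0), hgt' x t hx0, hmax, hΦ]
    · have : Continuous (fun t : ℝ => Φ (max x x₀) t) :=
        hΦc.comp (Continuous.prodMk_right x)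
      fun_prop
    · intro t
      rw [hmax]
      exact mul_nonneg (by linarith [hx.1]) (hΦ0 _ _)
  rw [setLIntegral_congr_fun measurableSet_Ioc inner1]
  rw [lintegral_Ioc_eq _ _ _ h1 (by fun_prop) (by
    intro x
    apply mul_nonneg
    · linarith [le_max_right x x₀]
    · apply intervalIntegral.integral_nonneg (by positivity)
      intro t _
      exact hΦ0 _ _)]
  have e1 : ∫ x in x₀..X, (max x x₀ - x₀) * ∫ θ in (0:ℝ)..2 * Real.pi, Φ (max x x₀) θ =
      ∫ x in x₀..X, (x - x₀) * ∫ θ in (0:ℝ)..2 * Real.pi, Φ x θ := by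
    apply intervalIntegral.integral_congr
    intro x hx
    rw [Set.uIcc_of_le h1] at hx
    have hmax : max x x₀ = x := max_eq_left hx.1
    simp only [hmax]
  rw [e1, hΦ]
  have e2 : ∫⁻ t in Set.Ioc (0:ℝ) (2 * Real.pi), ENNReal.ofReal
        ((‖gt ((Real.exp (-x₀) : ℂ) • (Complex.exp (t * I) • ξ))‖ ^ 2 + ε) ^ (p / 2)) =
      ENNReal.ofReal (∫ θ in (0:ℝ)..2 * Real.pi,
        (‖G (Complex.exp (-x₀ + θ * I))‖ ^ 2 + ε) ^ (p / 2)) := by
    rw [← lintegral_Ioc_eq _ _ _ (by positivity)]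
    · apply lintegral_congr
      intro t
      rw [hexp, hgt' x₀ t h0]
    · apply Continuous.rpow_const
      · have : Continuous (fun t : ℝ => G (Complex.exp (-x₀ + t * I))) :=
          hGc.comp_continuous (by fun_prop) (fun t => hrotb x₀ t h0)
        exact (this.norm.pow 2).add continuous_const
      · intro t
        left
        positivity
    · intro t
      positivity
  rw [e2, ← ENNReal.ofReal_mul (by positivity)]
  exact ENNReal.ofReal_le_ofReal hstein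

end Pool.Agent.HpBall
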