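import Mathlib
import Pool.Agent.HpBall.Defs2
import Pool.Agent.HpBall.Geom
import Pool.Agent.HpBall.Sphere
import Pool.Agent.HpBall.Caps
import Pool.Agent.HpBall.SphereHS

set_option autoImplicit false

open MeasureTheory Complex
open scoped ENNReal NNReal

namespace Pool.Agent.HpBall

lemma inner_unit {n : ℕ} {ζ : E n} (hζ : ‖ζ‖ = 1) : (inner ℂ ζ ζ : ℂ) = 1 := by
  rw [inner_self_eq_norm_sq_to_K, hζ]; simp

lemma orth_unit {n : ℕ} {ζ : E n} (hζ : ‖ζ‖ = 1) (ξ : E n) :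
    (inner ℂ ζ (ξ - (inner ℂ ζ ξ : ℂ) • ζ) : ℂ) = 0 := by
  rw [inner_sub_right, inner_smul_right, inner_unit hζ]; ring

lemma pyth_unit {n : ℕ} {ζ : E n} (hζ : ‖ζ‖ = 1) (ξ : E n) (w : ℂ) :
    ‖(inner ℂ ζ ξ : ℂ) • ζ + w • (ξ - (inner ℂ ζ ξ : ℂ) • ζ)‖ * ‖(inner ℂ ζ ξ : ℂ) • ζ + w • (ξ - (inner ℂ ζ ξ : ℂ) • ζ)‖
      = ‖(inner ℂ ζ ξ : ℂ)‖ * ‖(inner ℂ ζ ξ : ℂ)‖ +
        (‖w‖ * ‖ξ - (inner ℂ ζ ξ : ℂ) • ζ‖) * (‖w‖ * ‖ξ - (inner ℂ ζ ξ : ℂ) • ζ‖) := by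
  rw [norm_add_sq_eq_norm_sq_add_norm_sq_of_inner_eq_zero ((inner ℂ ζ ξ : ℂ) • ζ)
    (w • (ξ - (inner ℂ ζ ξ : ℂ) • ζ)) (𝕜 := ℂ) (by
      rw [inner_smul_left, inner_smul_right, orth_unit hζ]; simp)]
  rw [norm_smul, norm_smul, hζ, mul_one]

lemma norm_sq_unit {n : ℕ} {ζ : E n} (hζ : ‖ζ‖ = 1) (ξ : E n) :
    ‖ξ‖ * ‖ξ‖ = ‖(inner ℂ ζ ξ : ℂ)‖ * ‖(inner ℂ ζ ξ : ℂ)‖ +
        ‖ξ - (inner ℂ ζ ξ : ℂ) • ζ‖ * ‖ξ - (inner ℂ ζ ξ : ℂ) • ζ‖ := by
  have h := pyth_unit hζ ξ 1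
  rw [one_smul, norm_one, one_mul] at h
  rw [← h]
  congr 2 <;> simp

/-- rotation of the orthogonal complement of a unit vector -/
noncomputable def urot (n : ℕ) (ζ : E n) (hζ : ‖ζ‖ = 1) (φ : ℝ) : E n ≃ₗᵢ[ℂ] E n :=
  LinearIsometry.toLinearIsometryEquiv
    { toFun := fun ξ => (inner ℂ ζ ξ : ℂ) • ζ + Complex.exp (φ * I) • (ξ - (inner ℂ ζ ξ : ℂ) • ζ)
      map_add' := by
        intro x y
        rw [inner_add_right]
        module
      map_smul' := by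
        intro c x
        rw [inner_smul_right, RingHom.id_apply]
        module
      norm_map' := by
        intro ξ
        have h := pyth_unit hζ ξ (Complex.exp (φ * I))
        rw [Complex.norm_exp_ofReal_mul_I, one_mul, ← norm_sq_unit hζ ξ] at h
        exact (mul_self_inj (norm_nonneg _) (norm_nonneg _)).1 h } rfl

lemma urot_apply {n : ℕ} {ζ : E n} (hζ : ‖ζ‖ = 1) (φ : ℝ) (ξ : E n) : urot n ζ hζ φ ξ =
    (inner ℂ ζ ξ : ℂ) • ζ + Complex.exp (φ * I) • (ξ - (inner ℂ ζ ξ : ℂ) • ζ) := rfl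

lemma norm_inner_le_one {n : ℕ} {ζ ξ : E n} (hζ : ‖ζ‖ = 1) (hξ : ‖ξ‖ = 1) :
    ‖(inner ℂ ζ ξ : ℂ)‖ ≤ 1 := by
  refine (norm_inner_le_norm ζ ξ).trans ?_
  rw [hζ, hξ, one_mul]

/-- sub mean value property along the rotations -/
lemma submean {n : ℕ} {F : E n → ℂ} {R₀ : ℝ} (hR : 1 < R₀)
    (hF : DifferentiableOn ℂ F (Metric.ball 0 R₀)) {ζ ξ : E n} (hζ : ‖ζ‖ = 1) (hξ : ‖ξ‖ = 1) :
    ‖F ((inner ℂ ζ ξ : ℂ) • ζ) ^ 2‖ₑ ≤ ENNReal.ofReal ((2 * Real.pi)⁻¹) *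
      ∫⁻ φ in Set.Ioc 0 (2 * Real.pi), ‖F (urot n ζ hζ φ ξ) ^ 2‖ₑ := by
  set l : ℂ := (inner ℂ ζ ξ : ℂ) with hl
  set h : ℂ → ℂ := fun w => F (l • ζ + w • (ξ - l • ζ)) ^ 2 with hh
  have hball : ∀ w : ℂ, ‖w‖ ≤ 1 → l • ζ + w • (ξ - l • ζ) ∈ Metric.ball (0 : E n) R₀ := by
    intro w hw
    rw [mem_ball_zero_iff]
    refine lt_of_le_of_lt ?_ hR
    have h1 := pyth_unit hζ ξ w
    have h2 := norm_sq_unit hζ ξ
    rw [hξ] at h2
    rw [← hl] at h1 h2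
    have h3 : ‖w‖ * ‖ξ - l • ζ‖ ≤ ‖ξ - l • ζ‖ := by
      have := norm_nonneg (ξ - l • ζ)
      nlinarith
    have h4 : (‖w‖ * ‖ξ - l • ζ‖) * (‖w‖ * ‖ξ - l • ζ‖) ≤ ‖ξ - l • ζ‖ * ‖ξ - l • ζ‖ :=
      mul_self_le_mul_self (by positivity) h3
    nlinarith [norm_nonneg (l • ζ + w • (ξ - l • ζ))]
  have hdiff : ∀ w : ℂ, ‖w‖ ≤ 1 → DifferentiableAt ℂ h w := by
    intro w hw
    have h1 : DifferentiableAt ℂ F (l • ζ + w • (ξ - l • ζ)) :=
      hF.differentiableAt (Metric.isOpen_ball.mem_nhds (hball w hw))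
    have h2 : DifferentiableAt ℂ (fun w : ℂ => l • ζ + w • (ξ - l • ζ)) w := by fun_prop
    exact (h1.comp w h2).pow 2
  have hcl : DiffContOnCl ℂ h (Metric.ball 0 |1|) := by
    constructor
    · intro w hw
      rw [abs_one, mem_ball_zero_iff] at hw
      exact (hdiff w hw.le).differentiableWithinAt
    · intro w hw
      rw [abs_one, closure_ball _ one_ne_zero, mem_closedBall_zero_iff] at hw
      exact (hdiff w hw).continuousAt.continuousWithinAt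
  have hmean := hcl.circleAverage
  have h0 : h 0 = F (l • ζ) ^ 2 := by
    simp only [hh]
    rw [zero_smul, add_zero]
  rw [h0, Real.circleAverage_def] at hmean
  rw [← hmean, enorm_smul]
  have e1 : ‖(2 * Real.pi)⁻¹‖ₑ = ENNReal.ofReal ((2 * Real.pi)⁻¹) := by
    rw [Real.enorm_of_nonneg (by positivity)]
  rw [e1]
  gcongr
  rw [intervalIntegral.integral_of_le (by positivity)]
  refine (enorm_integral_le_lintegral_enorm _).trans (le_of_eq ?_)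
  apply lintegral_congr
  intro φ
  simp only [hh]
  rw [urot_apply, ← hl]
  simp [circleMap]

lemma jensen_sig {n : ℕ} (hn : 1 ≤ n) {F : E n → ℂ} {R₀ : ℝ} (hR : 1 < R₀)
    (hF : DifferentiableOn ℂ F (Metric.ball 0 R₀)) {ζ : E n} (hζ : ‖ζ‖ = 1) :
    ∫⁻ ξ, ‖F ((inner ℂ ζ ξ : ℂ) • ζ) ^ 2‖ₑ ∂(sig n) ≤ ∫⁻ ξ, ‖F ξ ^ 2‖ₑ ∂(sig n) := by
  classical
  set u : E n → ℝ≥0∞ := (Metric.ball (0 : E n) R₀).piecewise (fun z => ‖F z ^ 2‖ₑ) 0 with hu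
  have hum : Measurable u := by
    apply ContinuousOn.measurable_piecewise
    · exact ((hF.continuousOn.pow 2).enorm)
    · exact continuousOn_const
    · exact Metric.isOpen_ball.measurableSet
  have hu1 : ∀ ξ : E n, ‖ξ‖ = 1 → u ξ = ‖F ξ ^ 2‖ₑ := by
    intro ξ hξ
    rw [hu]
    exact Set.piecewise_eq_of_mem _ _ _ (by rw [mem_ball_zero_iff, hξ]; exact hR)
  have hA : ∫⁻ ξ, u ξ ∂(sig n) = ∫⁻ ξ, ‖F ξ ^ 2‖ₑ ∂(sig n) := by
    apply lintegral_congr_ae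
    filter_upwards [sig_ae_norm hn] with ξ hξ
    exact hu1 ξ hξ
  have h1 : ∫⁻ ξ, ‖F ((inner ℂ ζ ξ : ℂ) • ζ) ^ 2‖ₑ ∂(sig n) ≤
      ∫⁻ ξ, ENNReal.ofReal ((2 * Real.pi)⁻¹) *
        (∫⁻ φ in Set.Ioc 0 (2 * Real.pi), u (urot n ζ hζ φ ξ)) ∂(sig n) := by
    apply lintegral_mono_ae
    filter_upwards [sig_ae_norm hn] with ξ hξ
    refine (submean hR hF hζ hξ).trans (le_of_eq ?_)
    congr 1
    apply lintegral_congr
    intro φ
    rw [hu1]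
    rw [LinearIsometryEquiv.norm_map, hξ]
  refine h1.trans (le_of_eq ?_)
  rw [lintegral_const_mul' _ _ ENNReal.ofReal_ne_top, lintegral_lintegral_swap]
  · have h2 : ∀ φ : ℝ, ∫⁻ ξ, u (urot n ζ hζ φ ξ) ∂(sig n) = ∫⁻ ξ, ‖F ξ ^ 2‖ₑ ∂(sig n) := by
      intro φ
      rw [lintegral_sig_isometry _ _ hum, hA]
    simp only [h2]
    rw [lintegral_const, Measure.restrict_apply_univ, Real.volume_Ioc, sub_zero, mul_comm, mul_assoc,
      ← ENNReal.ofReal_mul (by positivity), mul_inv_cancel₀ (by positivity), ENNReal.ofReal_one,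
      mul_one]
  · apply Measurable.aemeasurable
    have hc : Continuous fun q : E n × ℝ => (inner ℂ ζ q.1 : ℂ) • ζ +
        Complex.exp (q.2 * I) • (q.1 - (inner ℂ ζ q.1 : ℂ) • ζ) := by
      fun_prop
    exact hum.comp hc.measurable

lemma integrable_bdd {n : ℕ} (hn : 1 ≤ n) {f : E n → ℂ} (hf : Continuous f) (C : ℝ)
    (hb : ∀ ξ, ‖ξ‖ = 1 → ‖f ξ‖ ≤ C) : Integrable f (sig n) := by
  refine Integrable.mono' (integrable_const C) hf.aestronglyMeasurable ?_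
  filter_upwards [sig_ae_norm hn] with ξ hξ
  exact hb ξ hξ

lemma integrable_lam {n : ℕ} (hn : 1 ≤ n) {ζ : E n} (hζ : ‖ζ‖ = 1) (c : ℂ) (j k : ℕ) :
    Integrable (fun ξ : E n => c * ((inner ℂ ζ ξ : ℂ) ^ j * (starRingEnd ℂ (inner ℂ ζ ξ : ℂ)) ^ k))
      (sig n) := by
  refine integrable_bdd hn ?_ ‖c‖ ?_
  · have : Continuous fun ξ : E n => (inner ℂ ζ ξ : ℂ) := by fun_prop
    exact continuous_const.mul ((this.pow j).mul ((continuous_conj.comp this).pow k))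
  · intro ξ hξ
    have h := norm_inner_le_one hζ hξ
    rw [norm_mul, norm_mul, norm_pow, norm_pow, RCLike.norm_conj]
    have h1 := pow_le_one₀ (n := j) (norm_nonneg _) h
    have h2 := pow_le_one₀ (n := k) (norm_nonneg _) h
    have h3 : ‖(inner ℂ ζ ξ : ℂ)‖ ^ j * ‖(inner ℂ ζ ξ : ℂ)‖ ^ k ≤ 1 := by
      calc _ ≤ (1 : ℝ) * 1 := mul_le_mul h1 h2 (by positivity) (by norm_num)
        _ = 1 := by ring
    calc _ ≤ ‖c‖ * 1 := mul_le_mul_of_nonneg_left h3 (norm_nonneg _)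
      _ = ‖c‖ := mul_one _

lemma orth_int {n : ℕ} (ζ : E n) {j k : ℕ} (hjk : j ≠ k) :
    ∫ ξ, (inner ℂ ζ ξ : ℂ) ^ j * (starRingEnd ℂ (inner ℂ ζ ξ : ℂ)) ^ k ∂(sig n) = 0 := by
  set f : E n → ℂ := fun ξ => (inner ℂ ζ ξ : ℂ) ^ j * (starRingEnd ℂ (inner ℂ ζ ξ : ℂ)) ^ k with hf
  set θ : ℝ := Real.pi / ((j : ℝ) - k) with hθ
  have hne : (j : ℝ) - k ≠ 0 := by
    rw [sub_ne_zero]; exact_mod_cast hjk
  have h1 := integral_sig_isometry (rot n θ) f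
  have h2 : ∀ ξ, f (rot n θ ξ) = -f ξ := by
    intro ξ
    simp only [hf]
    rw [rot_apply, inner_smul_right, map_mul, mul_pow, mul_pow]
    have e1 : (starRingEnd ℂ) (Complex.exp (θ * I)) = Complex.exp (-(θ * I)) := by
      rw [← Complex.exp_conj, map_mul, Complex.conj_ofReal, Complex.conj_I]
      ring_nf
    have e2 : Complex.exp (θ * I) ^ j * Complex.exp (-(θ * I)) ^ k = -1 := by
      rw [← Complex.exp_nat_mul, ← Complex.exp_nat_mul, ← Complex.exp_add]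
      have e3 : (j : ℂ) * (θ * I) + (k : ℂ) * -(θ * I) = Real.pi * I := by
        have : ((j : ℂ) - k) * θ = Real.pi := by
          have h3 : ((j : ℝ) - k) * θ = Real.pi := by
            rw [hθ]; field_simp
          exact_mod_cast h3
        linear_combination I * this
      rw [e3, Complex.exp_pi_mul_I]
    rw [e1]
    linear_combination (inner ℂ ζ ξ : ℂ) ^ j * (starRingEnd ℂ (inner ℂ ζ ξ : ℂ)) ^ k * e2
  simp only [h2] at h1
  rw [integral_neg] at h1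
  have h3 : (2 : ℂ) * ∫ ξ, f ξ ∂(sig n) = 0 := by linear_combination -h1
  exact (mul_eq_zero.1 h3).resolve_left two_ne_zero

/-- moments -/
noncomputable def mom (n : ℕ) (ζ : E n) (k : ℕ) : ℝ := ∫ ξ, ‖(inner ℂ ζ ξ : ℂ)‖ ^ (2 * k) ∂(sig n)

lemma mom_int {n : ℕ} (ζ : E n) (k : ℕ) :
    ∫ ξ, (inner ℂ ζ ξ : ℂ) ^ k * (starRingEnd ℂ (inner ℂ ζ ξ : ℂ)) ^ k ∂(sig n) = (mom n ζ k : ℂ) := by
  unfold mom
  rw [← integral_complex_ofReal]
  apply integral_congr_ae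
  refine Filter.Eventually.of_forall fun ξ => ?_
  simp only
  rw [← mul_pow, Complex.mul_conj, Complex.normSq_eq_norm_sq]
  push_cast
  rw [pow_mul]

lemma poly_int {n : ℕ} (hn : 1 ≤ n) {ζ : E n} (hζ : ‖ζ‖ = 1) (a : ℕ → ℂ) (K : ℕ) :
    ∫ ξ, ‖∑ k ∈ Finset.range K, a k * (inner ℂ ζ ξ : ℂ) ^ k‖ ^ 2 ∂(sig n) =
      ∑ k ∈ Finset.range K, ‖a k‖ ^ 2 * mom n ζ k := by
  have h : ((∫ ξ, ‖∑ k ∈ Finset.range K, a k * (inner ℂ ζ ξ : ℂ) ^ k‖ ^ 2 ∂(sig n) : ℝ) : ℂ) =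
      ((∑ k ∈ Finset.range K, ‖a k‖ ^ 2 * mom n ζ k : ℝ) : ℂ) := by
    rw [← integral_complex_ofReal]
    have e1 : ∀ ξ : E n, ((‖∑ k ∈ Finset.range K, a k * (inner ℂ ζ ξ : ℂ) ^ k‖ ^ 2 : ℝ) : ℂ) =
        ∑ j ∈ Finset.range K, ∑ k ∈ Finset.range K, (a j * starRingEnd ℂ (a k)) *
          ((inner ℂ ζ ξ : ℂ) ^ j * (starRingEnd ℂ (inner ℂ ζ ξ : ℂ)) ^ k) := by
      intro ξ
      rw [← Complex.normSq_eq_norm_sq, ← Complex.mul_conj, map_sum, Finset.sum_mul_sum]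
      apply Finset.sum_congr rfl
      intro j _
      apply Finset.sum_congr rfl
      intro k _
      rw [map_mul, map_pow]
      ring
    simp only [e1]
    rw [integral_finsetSum _ (fun j _ => integrable_finsetSum _ fun k _ => integrable_lam hn hζ _ _ _)]
    push_cast
    apply Finset.sum_congr rfl
    intro j hj
    rw [integral_finsetSum _ (fun k _ => integrable_lam hn hζ _ _ _)]
    rw [Finset.sum_eq_single j]
    · rw [integral_const_mul, mom_int, Complex.mul_conj, Complex.normSq_eq_norm_sq]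
      push_cast
      ring
    · intro k _ hk
      rw [integral_const_mul, orth_int ζ (Ne.symm hk), mul_zero]
    · intro h
      exact absurd hj h
  exact_mod_cast h

lemma mom_lower' (n : ℕ) (hn : 1 ≤ n) : ∃ c : ℝ, 0 < c ∧ ∀ ζ : E n, ‖ζ‖ = 1 → ∀ k : ℕ,
    c / ((k : ℝ) + 1) ^ (n - 1) ≤ mom n ζ k := by
  obtain ⟨c, hc, h⟩ := moment_lower n hn
  refine ⟨c, hc, fun ζ hζ k => ?_⟩
  refine le_trans (le_of_eq ?_) (h ζ hζ k)
  have e : (n : ℝ) - 1 = ((n - 1 : ℕ) : ℝ) := by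
    rw [Nat.cast_sub hn, Nat.cast_one]
  rw [e, Real.rpow_neg (by positivity), Real.rpow_natCast, div_eq_mul_inv]

lemma sum_bound (n : ℕ) (hn : 1 ≤ n) : ∃ C : ℝ, 0 < C ∧ ∀ ζ : E n, ‖ζ‖ = 1 → ∀ t : ℝ, 0 ≤ t → t < 1 →
    ∀ K : ℕ, ∑ k ∈ Finset.range K, t ^ (2 * k) / mom n ζ k ≤ C * (1 - t) ^ (-(n : ℝ)) := by
  obtain ⟨c, hc, h⟩ := mom_lower' n hn
  refine ⟨c⁻¹ * ((n - 1).factorial : ℝ), by positivity, fun ζ hζ t ht0 ht1 K => ?_⟩
  have hsum := summable_choose_mul_geometric_of_norm_lt_one (R := ℝ) (n - 1) (r := t)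
    (by rw [Real.norm_eq_abs, abs_of_nonneg ht0]; exact ht1)
  have htsum := tsum_choose_mul_geometric_of_norm_lt_one (𝕜 := ℝ) (n - 1) (r := t)
    (by rw [Real.norm_eq_abs, abs_of_nonneg ht0]; exact ht1)
  have h1 : ∑ k ∈ Finset.range K, ((k + (n - 1)).choose (n - 1) : ℝ) * t ^ k ≤
      1 / (1 - t) ^ (n - 1 + 1) := by
    rw [← htsum]
    exact hsum.sum_le_tsum _ (fun k _ => by positivity)
  have hn1 : n - 1 + 1 = n := Nat.sub_add_cancel hn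
  rw [hn1] at h1
  have e1 : (1 - t) ^ (-(n : ℝ)) = 1 / (1 - t) ^ n := by
    rw [Real.rpow_neg (by linarith), Real.rpow_natCast, one_div]
  rw [e1]
  calc ∑ k ∈ Finset.range K, t ^ (2 * k) / mom n ζ k
      ≤ ∑ k ∈ Finset.range K, (c⁻¹ * ((n - 1).factorial : ℝ)) *
        (((k + (n - 1)).choose (n - 1) : ℝ) * t ^ k) := by
        apply Finset.sum_le_sum
        intro k _
        have h2 := h ζ hζ k
        have h3 : 0 < c / ((k : ℝ) + 1) ^ (n - 1) := by positivity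
        have h4 : t ^ (2 * k) ≤ t ^ k := pow_le_pow_of_le_one ht0 ht1.le (by omega)
        have h5 : ((k : ℝ) + 1) ^ (n - 1) ≤
            ((n - 1).factorial : ℝ) * ((k + (n - 1)).choose (n - 1) : ℝ) := by
          have h6 : (k + 1) ^ (n - 1) ≤ (n - 1).factorial * (k + (n - 1)).choose (n - 1) := by
            rw [← Nat.ascFactorial_eq_factorial_mul_choose]
            exact Nat.pow_succ_le_ascFactorial _ _
          exact_mod_cast h6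
        calc t ^ (2 * k) / mom n ζ k ≤ t ^ k / (c / ((k : ℝ) + 1) ^ (n - 1)) := by
              gcongr
          _ = (c⁻¹ * t ^ k) * ((k : ℝ) + 1) ^ (n - 1) := by
              field_simp
          _ ≤ (c⁻¹ * t ^ k) * (((n - 1).factorial : ℝ) * ((k + (n - 1)).choose (n - 1) : ℝ)) := by
              gcongr
          _ = _ := by ring
    _ = (c⁻¹ * ((n - 1).factorial : ℝ)) *
        ∑ k ∈ Finset.range K, (((k + (n - 1)).choose (n - 1) : ℝ) * t ^ k) := by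
        rw [Finset.mul_sum]
    _ ≤ _ := by gcongr

lemma mom_pos {n : ℕ} (hn : 1 ≤ n) {ζ : E n} (hζ : ‖ζ‖ = 1) (k : ℕ) : 0 < mom n ζ k := by
  obtain ⟨c, hc, h⟩ := mom_lower' n hn
  exact lt_of_lt_of_le (by positivity) (h ζ hζ k)

lemma enorm_sq_eq (x : ℂ) : ‖x ^ 2‖ₑ = ENNReal.ofReal (‖x‖ ^ 2) := by
  rw [← ofReal_norm, norm_pow]

lemma poly_bound (n : ℕ) (hn : 1 ≤ n) : ∃ C : ℝ, 0 < C ∧ ∀ ζ : E n, ‖ζ‖ = 1 → ∀ t : ℝ, 0 ≤ t → t < 1 →
    ∀ (a : ℕ → ℂ) (K : ℕ), ‖(∑ k ∈ Finset.range K, a k * (t : ℂ) ^ k) ^ 2‖ₑ ≤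
      ENNReal.ofReal (C * (1 - t) ^ (-(n : ℝ))) *
        ∫⁻ ξ, ‖(∑ k ∈ Finset.range K, a k * (inner ℂ ζ ξ : ℂ) ^ k) ^ 2‖ₑ ∂(sig n) := by
  obtain ⟨C, hC, h⟩ := sum_bound n hn
  refine ⟨C, hC, fun ζ hζ t ht0 ht1 a K => ?_⟩
  have hcont : Continuous fun ξ : E n => ∑ k ∈ Finset.range K, a k * (inner ℂ ζ ξ : ℂ) ^ k := by
    fun_prop
  have hint : Integrable (fun ξ : E n => ‖∑ k ∈ Finset.range K, a k * (inner ℂ ζ ξ : ℂ) ^ k‖ ^ 2)
      (sig n) := by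
    refine Integrable.mono' (integrable_const ((∑ k ∈ Finset.range K, ‖a k‖) ^ 2))
      (hcont.norm.pow 2).aestronglyMeasurable ?_
    filter_upwards [sig_ae_norm hn] with ξ hξ
    rw [Real.norm_of_nonneg (by positivity)]
    gcongr
    refine (norm_sum_le _ _).trans (Finset.sum_le_sum fun k _ => ?_)
    rw [norm_mul, norm_pow]
    exact mul_le_of_le_one_right (norm_nonneg _)
      (pow_le_one₀ (norm_nonneg _) (norm_inner_le_one hζ hξ))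
  simp only [enorm_sq_eq]
  rw [← ofReal_integral_eq_lintegral_ofReal hint (Filter.Eventually.of_forall fun ξ => by positivity),
    ← ENNReal.ofReal_mul (by have : 0 < 1 - t := by linarith
                             positivity), poly_int hn hζ]
  apply ENNReal.ofReal_le_ofReal
  have h1 : ‖∑ k ∈ Finset.range K, a k * (t : ℂ) ^ k‖ ≤ ∑ k ∈ Finset.range K, ‖a k‖ * t ^ k := by
    refine (norm_sum_le _ _).trans (le_of_eq (Finset.sum_congr rfl fun k _ => ?_))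
    rw [norm_mul, norm_pow, Complex.norm_real, Real.norm_of_nonneg ht0]
  have h2 : (∑ k ∈ Finset.range K, ‖a k‖ * t ^ k) ^ 2 ≤
      (∑ k ∈ Finset.range K, ‖a k‖ ^ 2 * mom n ζ k) *
        ∑ k ∈ Finset.range K, t ^ (2 * k) / mom n ζ k := by
    apply Finset.sum_sq_le_sum_mul_sum_of_sq_eq_mul
    · intro k _
      have := mom_pos hn hζ k
      positivity
    · intro k _
      have := mom_pos hn hζ k
      positivity
    · intro k _
      have := mom_pos hn hζ k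
      field_simp
      ring
  have h3 := h ζ hζ t ht0 ht1 K
  have h4 : 0 ≤ ∑ k ∈ Finset.range K, ‖a k‖ ^ 2 * mom n ζ k :=
    Finset.sum_nonneg fun k _ => by
      have := mom_pos hn hζ k
      positivity
  calc ‖∑ k ∈ Finset.range K, a k * (t : ℂ) ^ k‖ ^ 2 ≤ (∑ k ∈ Finset.range K, ‖a k‖ * t ^ k) ^ 2 := by
        gcongr
    _ ≤ _ := h2
    _ ≤ (∑ k ∈ Finset.range K, ‖a k‖ ^ 2 * mom n ζ k) * (C * (1 - t) ^ (-(n : ℝ))) := by gcongr
    _ = _ := by ring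

lemma growth2 (n : ℕ) (hn : 1 ≤ n) : ∃ C : ℝ, 0 < C ∧
    ∀ (F : E n → ℂ) (R₀ : ℝ), 1 < R₀ → DifferentiableOn ℂ F (Metric.ball 0 R₀) →
    ∀ ζ : E n, ‖ζ‖ = 1 → ∀ t : ℝ, 0 ≤ t → t < 1 →
      ‖F ((t : ℂ) • ζ) ^ 2‖ₑ ≤
        ENNReal.ofReal (C * (1 - t) ^ (-(n : ℝ))) * ∫⁻ ξ, ‖F ξ ^ 2‖ₑ ∂(sig n) := by
  obtain ⟨C, hC, h⟩ := poly_bound n hn
  refine ⟨C, hC, fun F R₀ hR hF ζ hζ t ht0 ht1 => ?_⟩
  refine le_trans ?_ (mul_le_mul_right (jensen_sig hn hR hF hζ) _)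
  set g : ℂ → ℂ := fun z => F (z • ζ) with hg
  set R : ℝ≥0 := ⟨(1 + R₀) / 2, by linarith⟩ with hRdef
  have hRR : (R : ℝ) = (1 + R₀) / 2 := rfl
  set r : ℝ≥0 := ⟨(1 + (1 + R₀) / 2) / 2, by linarith⟩ with hrdef
  have hrr : (r : ℝ) = (1 + (1 + R₀) / 2) / 2 := rfl
  have hgd : ∀ z : ℂ, ‖z‖ < R₀ → DifferentiableAt ℂ g z := by
    intro z hz
    have h1 : DifferentiableAt ℂ F (z • ζ) := by
      apply hF.differentiableAt (Metric.isOpen_ball.mem_nhds _)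
      rw [mem_ball_zero_iff, norm_smul, hζ, mul_one]
      exact hz
    have h2 : DifferentiableAt ℂ (fun z : ℂ => z • ζ) z := by fun_prop
    exact h1.comp z h2
  have hps : HasFPowerSeriesOnBall g (cauchyPowerSeries g 0 R) 0 R := by
    apply DifferentiableOn.hasFPowerSeriesOnBall
    · intro z hz
      rw [mem_closedBall_zero_iff, hRR] at hz
      exact (hgd z (by linarith)).differentiableWithinAt
    · rw [← NNReal.coe_pos, hRR]; linarith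
  have hrR : (r : ℝ≥0∞) < R := by
    rw [ENNReal.coe_lt_coe, ← NNReal.coe_lt_coe, hrr, hRR]
    linarith
  have hun := hps.tendstoUniformlyOn hrR
  set a : ℕ → ℂ := fun k => (cauchyPowerSeries g 0 R).coeff k with ha
  have hpart : ∀ (K : ℕ) (y : ℂ), (cauchyPowerSeries g 0 R).partialSum K y =
      ∑ k ∈ Finset.range K, a k * y ^ k := by
    intro K y
    unfold FormalMultilinearSeries.partialSum
    apply Finset.sum_congr rfl
    intro k _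
    rw [FormalMultilinearSeries.apply_eq_pow_smul_coeff, smul_eq_mul, mul_comm]
  have hun1 : ∀ ε > 0, ∀ᶠ K in Filter.atTop, ∀ y : ℂ, ‖y‖ ≤ 1 →
      ‖(∑ k ∈ Finset.range K, a k * y ^ k) - g y‖ < ε := by
    intro ε hε
    have h1 := (Metric.tendstoUniformlyOn_iff.1 hun) ε hε
    filter_upwards [h1] with K hK y hy
    have h2 := hK y (by rw [mem_ball_zero_iff, hrr]; linarith)
    rw [hpart, zero_add, dist_comm, dist_eq_norm] at h2
    exact h2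
  have hlim : ∀ y : ℂ, ‖y‖ ≤ 1 → Filter.Tendsto (fun K => ∑ k ∈ Finset.range K, a k * y ^ k)
      Filter.atTop (nhds (g y)) := by
    intro y hy
    rw [Metric.tendsto_atTop']
    intro ε hε
    obtain ⟨N, hN⟩ := Filter.eventually_atTop.1 (hun1 ε hε)
    exact ⟨N, fun K hK => by rw [dist_eq_norm]; exact hN K hK.le y hy⟩
  have hlim2 : ∀ y : ℂ, ‖y‖ ≤ 1 → Filter.Tendsto (fun K => ‖(∑ k ∈ Finset.range K, a k * y ^ k) ^ 2‖ₑ)
      Filter.atTop (nhds (‖g y ^ 2‖ₑ)) := fun y hy =>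
    (continuous_enorm.tendsto _).comp ((hlim y hy).pow 2)
  obtain ⟨B, hB⟩ : ∃ B : ℝ, ∀ y : ℂ, ‖y‖ ≤ 1 → ‖g y‖ ≤ B := by
    have hc : ContinuousOn g (Metric.closedBall 0 1) := fun z hz => by
      rw [mem_closedBall_zero_iff] at hz
      exact (hgd z (by linarith)).continuousAt.continuousWithinAt
    obtain ⟨B, hB⟩ := (isCompact_closedBall (0 : ℂ) 1).exists_bound_of_continuousOn hc
    exact ⟨B, fun y hy => hB y (by rw [mem_closedBall_zero_iff]; exact hy)⟩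
  have hcontP : ∀ K : ℕ, Continuous fun ξ : E n => ∑ k ∈ Finset.range K, a k * (inner ℂ ζ ξ : ℂ) ^ k := by
    intro K; fun_prop
  have hI : Filter.Tendsto (fun K => ∫⁻ ξ, ‖(∑ k ∈ Finset.range K, a k * (inner ℂ ζ ξ : ℂ) ^ k) ^ 2‖ₑ
      ∂(sig n)) Filter.atTop (nhds (∫⁻ ξ, ‖F ((inner ℂ ζ ξ : ℂ) • ζ) ^ 2‖ₑ ∂(sig n))) := by
    refine tendsto_lintegral_filter_of_dominated_convergence
      (fun _ => ENNReal.ofReal ((B + 1) ^ 2)) ?_ ?_ ?_ ?_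
    · exact Filter.Eventually.of_forall fun K => ((hcontP K).pow 2).enorm.measurable
    · filter_upwards [hun1 1 one_pos] with K hK
      filter_upwards [sig_ae_norm hn] with ξ hξ
      rw [enorm_sq_eq]
      apply ENNReal.ofReal_le_ofReal
      have h1 := hK _ (norm_inner_le_one hζ hξ)
      have h2 := hB _ (norm_inner_le_one hζ hξ)
      have h3 : ‖∑ k ∈ Finset.range K, a k * (inner ℂ ζ ξ : ℂ) ^ k‖ ≤ B + 1 := by
        have h4 := norm_le_norm_add_norm_sub' (∑ k ∈ Finset.range K, a k * (inner ℂ ζ ξ : ℂ) ^ k)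
          (g (inner ℂ ζ ξ : ℂ))
        linarith
      gcongr
    · rw [lintegral_const]
      exact ENNReal.mul_ne_top ENNReal.ofReal_ne_top (measure_ne_top _ _)
    · filter_upwards [sig_ae_norm hn] with ξ hξ
      exact hlim2 _ (norm_inner_le_one hζ hξ)
  refine le_of_tendsto_of_tendsto (hlim2 (t : ℂ) (by
    rw [Complex.norm_real, Real.norm_of_nonneg ht0]; exact ht1.le))
    (ENNReal.Tendsto.const_mul hI (Or.inr ENNReal.ofReal_ne_top)) ?_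
  exact Filter.Eventually.of_forall fun K => h ζ hζ t ht0 ht1 a K

lemma alg_aux {n : ℕ} {s C₂ x y w L M : ℝ} (hs : 0 < s) (hC : 0 < C₂) (hx : 0 < x)
    (hL : 0 ≤ L) (hM : 0 ≤ M) (hw : x / 2 ≤ w)
    (h : y ^ 2 ≤ C₂ * w ^ (-(n : ℝ)) * ((L * (x / 2) ^ (-((n : ℝ) / s))) ^ (2 - s) * M)) :
    (x ^ ((n : ℝ) / s) * y) ^ 2 ≤ C₂ * (2 ^ ((n : ℝ) / s)) ^ 2 * (L ^ (2 - s) * M) := by
  set p : ℝ := (n : ℝ) / s with hp
  have hn : (n : ℝ) = p * s := by rw [hp]; field_simp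
  have hx2 : 0 < x / 2 := by linarith
  have h1 : w ^ (-(n : ℝ)) ≤ (x / 2) ^ (-(n : ℝ)) :=
    Real.rpow_le_rpow_of_nonpos hx2 hw (by simp)
  have h2 : (L * (x / 2) ^ (-p)) ^ (2 - s) = L ^ (2 - s) * (x / 2) ^ (-p * (2 - s)) := by
    rw [Real.mul_rpow hL (by positivity), ← Real.rpow_mul hx2.le]
  have h3 : (x / 2) ^ (-(n : ℝ)) * (x / 2) ^ (-p * (2 - s)) = (x / 2) ^ (-(2 * p)) := by
    rw [← Real.rpow_add hx2]
    congr 1
    rw [hn]; ring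
  have h4 : x ^ p = 2 ^ p * (x / 2) ^ p := by
    rw [← Real.mul_rpow (by norm_num) hx2.le]
    congr 1
    ring
  have h5 : ((x / 2) ^ p) ^ 2 * (x / 2) ^ (-(2 * p)) = 1 := by
    rw [← Real.rpow_natCast, ← Real.rpow_mul hx2.le, ← Real.rpow_add hx2]
    push_cast
    rw [show p * 2 + -(2 * p) = 0 by ring, Real.rpow_zero]
  have h6 : y ^ 2 ≤ C₂ * (L ^ (2 - s) * M) * (x / 2) ^ (-(2 * p)) := by
    calc y ^ 2 ≤ C₂ * w ^ (-(n : ℝ)) * ((L * (x / 2) ^ (-p)) ^ (2 - s) * M) := h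
      _ ≤ C₂ * (x / 2) ^ (-(n : ℝ)) * ((L * (x / 2) ^ (-p)) ^ (2 - s) * M) := by gcongr
      _ = C₂ * (L ^ (2 - s) * M) * ((x / 2) ^ (-(n : ℝ)) * (x / 2) ^ (-p * (2 - s))) := by
          rw [h2]; ring
      _ = _ := by rw [h3]
  calc (x ^ p * y) ^ 2 = (2 ^ p) ^ 2 * ((x / 2) ^ p) ^ 2 * y ^ 2 := by rw [h4]; ring
    _ ≤ (2 ^ p) ^ 2 * ((x / 2) ^ p) ^ 2 * (C₂ * (L ^ (2 - s) * M) * (x / 2) ^ (-(2 * p))) := by
        gcongr
    _ = C₂ * (2 ^ p) ^ 2 * (L ^ (2 - s) * M) * (((x / 2) ^ p) ^ 2 * (x / 2) ^ (-(2 * p))) := by ring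
    _ = _ := by rw [h5, mul_one]

/-- TARGET -/
theorem growth (n : ℕ) (hn : 1 ≤ n) (s : ℝ) (hs : 0 < s) (hs2 : s ≤ 2) : ∃ C : ℝ, 0 < C ∧
    ∀ (F : E n → ℂ) (R₀ : ℝ), 1 < R₀ → DifferentiableOn ℂ F (Metric.ball 0 R₀) →
    ∀ ζ : E n, ‖ζ‖ = 1 → ∀ t : ℝ, 0 ≤ t → t < 1 →
      ENNReal.ofReal (‖F ((t : ℂ) • ζ)‖ ^ s) ≤
        ENNReal.ofReal (C * (1 - t) ^ (-(n : ℝ))) * ∫⁻ ξ, ENNReal.ofReal (‖F ξ‖ ^ s) ∂(sig n) := by
  obtain ⟨C₂, hC₂, hg⟩ := growth2 n hn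
  refine ⟨C₂ * (2 ^ ((n : ℝ) / s)) ^ 2, by positivity, ?_⟩
  intro F R₀ hR hF ζ₀ hζ₀ t₀ ht₀0 ht₀1
  set p : ℝ := (n : ℝ) / s with hp
  have hp0 : 0 ≤ p := by positivity
  -- boundedness
  obtain ⟨B, hB⟩ : ∃ B : ℝ, ∀ z : E n, ‖z‖ ≤ 1 → ‖F z‖ ≤ B := by
    have hc : ContinuousOn F (Metric.closedBall 0 1) := hF.continuousOn.mono fun z hz => by
      rw [mem_closedBall_zero_iff] at hz
      rw [mem_ball_zero_iff]
      linarith
    obtain ⟨B, hB⟩ := (isCompact_closedBall (0 : E n) 1).exists_bound_of_continuousOn hc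
    exact ⟨B, fun y hy => hB y (by rw [mem_closedBall_zero_iff]; exact hy)⟩
  set M' : ℝ≥0∞ := ∫⁻ ξ, ENNReal.ofReal (‖F ξ‖ ^ s) ∂(sig n) with hM'
  have hM'fin : M' ≠ ⊤ := by
    have h1 : M' ≤ ∫⁻ ξ : E n, ENNReal.ofReal (B ^ s) ∂(sig n) := by
      apply lintegral_mono_ae
      filter_upwards [sig_ae_norm hn] with ξ hξ
      apply ENNReal.ofReal_le_ofReal
      exact Real.rpow_le_rpow (norm_nonneg _) (hB ξ hξ.le) hs.le
    rw [lintegral_const] at h1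
    exact ne_top_of_le_ne_top (ENNReal.mul_ne_top ENNReal.ofReal_ne_top (measure_ne_top _ _)) h1
  set M : ℝ := M'.toReal with hM
  have hM0 : 0 ≤ M := ENNReal.toReal_nonneg
  have hMM : M' = ENNReal.ofReal M := (ENNReal.ofReal_toReal hM'fin).symm
  set S : Set ℝ := {y | ∃ (t : ℝ) (ζ : E n), 0 ≤ t ∧ t < 1 ∧ ‖ζ‖ = 1 ∧
    y = (1 - t) ^ p * ‖F ((t : ℂ) • ζ)‖} with hS
  have hSb : BddAbove S := by
    refine ⟨B, ?_⟩
    rintro y ⟨t, ζ, ht0, ht1, hζ, rfl⟩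
    have h1 : ‖(t : ℂ) • ζ‖ ≤ 1 := by
      rw [norm_smul, hζ, mul_one, Complex.norm_real, Real.norm_of_nonneg ht0]; exact ht1.le
    have h2 : (1 - t) ^ p ≤ 1 := Real.rpow_le_one (by linarith) (by linarith) hp0
    calc (1 - t) ^ p * ‖F ((t : ℂ) • ζ)‖ ≤ 1 * ‖F ((t : ℂ) • ζ)‖ := by gcongr
      _ ≤ B := by rw [one_mul]; exact hB _ h1
  have hSne : S.Nonempty := ⟨_, t₀, ζ₀, ht₀0, ht₀1, hζ₀, rfl⟩
  set L : ℝ := sSup S with hL
  have hLle : ∀ (t : ℝ) (ζ : E n), 0 ≤ t → t < 1 → ‖ζ‖ = 1 →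
      (1 - t) ^ p * ‖F ((t : ℂ) • ζ)‖ ≤ L := fun t ζ h1 h2 h3 =>
    le_csSup hSb ⟨t, ζ, h1, h2, h3, rfl⟩
  have hL0 : 0 ≤ L := le_trans (by
    have : 0 < 1 - t₀ := by linarith
    positivity) (hLle t₀ ζ₀ ht₀0 ht₀1 hζ₀)
  -- improved bound
  have hmain : ∀ (t : ℝ) (ζ : E n), 0 ≤ t → t < 1 → ‖ζ‖ = 1 →
      ((1 - t) ^ p * ‖F ((t : ℂ) • ζ)‖) ^ 2 ≤ C₂ * (2 ^ p) ^ 2 * (L ^ (2 - s) * M) := by
    intro t ζ ht0 ht1 hζ
    set R : ℝ := (1 + t) / 2 with hRdef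
    have hRpos : 0 < R := by rw [hRdef]; linarith
    have hR1 : R < 1 := by rw [hRdef]; linarith
    have htR : t ≤ R := by rw [hRdef]; linarith
    have htR1 : t / R < 1 := by
      rw [div_lt_one hRpos, hRdef]; linarith
    have h1R : 1 - R = (1 - t) / 2 := by rw [hRdef]; ring
    have hx : 0 < 1 - t := by linarith
    have hw : (1 - t) / 2 ≤ 1 - t / R := by
      have e : 1 - t / R = ((1 - t) / 2) / R := by
        rw [eq_div_iff hRpos.ne', sub_mul, div_mul_cancel₀ _ hRpos.ne', hRdef]; ring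
      rw [e, le_div_iff₀ hRpos]
      nlinarith
    apply alg_aux (w := 1 - t / R) hs hC₂ hx hL0 hM0 hw
    -- apply the estimate for s = 2
    have hFR : DifferentiableOn ℂ (fun z : E n => F ((R : ℂ) • z)) (Metric.ball 0 R₀) := by
      intro z hz
      rw [mem_ball_zero_iff] at hz
      have h1 : DifferentiableAt ℂ F ((R : ℂ) • z) := by
        apply hF.differentiableAt (Metric.isOpen_ball.mem_nhds _)
        rw [mem_ball_zero_iff, norm_smul, Complex.norm_real, Real.norm_of_nonneg hRpos.le]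
        nlinarith [norm_nonneg z]
      have h2 : DifferentiableAt ℂ (fun z : E n => (R : ℂ) • z) z := by fun_prop
      exact (h1.comp z h2).differentiableWithinAt
    have h1 := hg _ R₀ hR hFR ζ hζ (t / R) (by positivity) htR1
    have e1 : (R : ℂ) • ((t / R : ℝ) : ℂ) • ζ = (t : ℂ) • ζ := by
      rw [smul_smul, ← Complex.ofReal_mul, mul_div_cancel₀ _ hRpos.ne']
    rw [e1] at h1
    have h2 : ∫⁻ ξ, ‖F ((R : ℂ) • ξ) ^ 2‖ₑ ∂(sig n) ≤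
        ENNReal.ofReal ((L * ((1 - t) / 2) ^ (-p)) ^ (2 - s)) * M' := by
      have h3 := sphere_mono n hn s hs hs2 F R₀ hF R 1 hRpos.le hR1.le hR
      simp only [Complex.ofReal_one, one_smul] at h3
      refine le_trans ?_ (mul_le_mul_right h3 _)
      rw [← lintegral_const_mul' _ _ ENNReal.ofReal_ne_top]
      apply lintegral_mono_ae
      filter_upwards [sig_ae_norm hn] with ξ hξ
      rw [enorm_sq_eq, ← ENNReal.ofReal_mul (by positivity)]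
      apply ENNReal.ofReal_le_ofReal
      have h4 := hLle R ξ hRpos.le hR1 hξ
      rw [h1R] at h4
      have hx2 : 0 < (1 - t) / 2 := by linarith
      have h5 : ‖F ((R : ℂ) • ξ)‖ ≤ L * ((1 - t) / 2) ^ (-p) := by
        rw [Real.rpow_neg hx2.le, ← div_eq_mul_inv, le_div_iff₀ (by positivity), mul_comm]
        exact h4
      have h6 : ‖F ((R : ℂ) • ξ)‖ ^ (2 : ℕ) =
          ‖F ((R : ℂ) • ξ)‖ ^ (2 - s) * ‖F ((R : ℂ) • ξ)‖ ^ s := by
        rw [← Real.rpow_add_of_nonneg (norm_nonneg _) (by linarith) hs.le, sub_add_cancel]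
        norm_num
      rw [h6]
      have h7 : ‖F ((R : ℂ) • ξ)‖ ^ (2 - s) ≤ (L * ((1 - t) / 2) ^ (-p)) ^ (2 - s) :=
        Real.rpow_le_rpow (norm_nonneg _) h5 (by linarith)
      gcongr
    have h3 : ENNReal.ofReal (‖F ((t : ℂ) • ζ)‖ ^ 2) ≤ ENNReal.ofReal (C₂ * (1 - t / R) ^ (-(n : ℝ)) *
        ((L * ((1 - t) / 2) ^ (-p)) ^ (2 - s) * M)) := by
      have hw0 : 0 < 1 - t / R := by linarith
      rw [← enorm_sq_eq, ENNReal.ofReal_mul (p := C₂ * (1 - t / R) ^ (-(n : ℝ))) (by positivity),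
        ENNReal.ofReal_mul (p := (L * ((1 - t) / 2) ^ (-p)) ^ (2 - s)) (by positivity), ← hMM]
      exact h1.trans (mul_le_mul_right h2 _)
    rw [ENNReal.ofReal_le_ofReal_iff (by
      have hw0 : 0 < 1 - t / R := by linarith
      positivity)] at h3
    exact h3
  have hLsq : L ^ 2 ≤ C₂ * (2 ^ p) ^ 2 * (L ^ (2 - s) * M) := by
    have hX0 : 0 ≤ C₂ * (2 ^ p) ^ 2 * (L ^ (2 - s) * M) := by positivity
    have h1 : L ≤ Real.sqrt (C₂ * (2 ^ p) ^ 2 * (L ^ (2 - s) * M)) := by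
      apply csSup_le hSne
      rintro y ⟨t, ζ, ht0, ht1, hζ, rfl⟩
      apply Real.le_sqrt_of_sq_le
      exact hmain t ζ ht0 ht1 hζ
    calc L ^ 2 ≤ Real.sqrt (C₂ * (2 ^ p) ^ 2 * (L ^ (2 - s) * M)) ^ 2 := by gcongr
      _ = _ := Real.sq_sqrt hX0
  have hLs : L ^ s ≤ C₂ * (2 ^ p) ^ 2 * M := by
    rcases hL0.eq_or_lt with h0 | h0
    · rw [← h0, Real.zero_rpow hs.ne']
      positivity
    · have h1 : L ^ (2 : ℕ) = L ^ (2 - s) * L ^ s := by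
        rw [← Real.rpow_add h0, sub_add_cancel]
        norm_num
      rw [h1] at hLsq
      have h2 : 0 < L ^ (2 - s) := by positivity
      have h3 : L ^ (2 - s) * L ^ s ≤ L ^ (2 - s) * (C₂ * (2 ^ p) ^ 2 * M) := by
        refine hLsq.trans (le_of_eq ?_); ring
      exact le_of_mul_le_mul_left h3 h2
  rw [hMM, ← ENNReal.ofReal_mul (by
    have : 0 < 1 - t₀ := by linarith
    positivity)]
  apply ENNReal.ofReal_le_ofReal
  have hx : 0 < 1 - t₀ := by linarith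
  have h1 : ‖F ((t₀ : ℂ) • ζ₀)‖ ≤ L * (1 - t₀) ^ (-p) := by
    rw [Real.rpow_neg hx.le, ← div_eq_mul_inv, le_div_iff₀ (by positivity), mul_comm]
    exact hLle t₀ ζ₀ ht₀0 ht₀1 hζ₀
  calc ‖F ((t₀ : ℂ) • ζ₀)‖ ^ s ≤ (L * (1 - t₀) ^ (-p)) ^ s :=
        Real.rpow_le_rpow (norm_nonneg _) h1 hs.le
    _ = L ^ s * (1 - t₀) ^ (-(n : ℝ)) := by
        rw [Real.mul_rpow hL0 (by positivity), ← Real.rpow_mul hx.le]
        congr 2
        rw [hp]; field_simp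
    _ ≤ (C₂ * (2 ^ p) ^ 2 * M) * (1 - t₀) ^ (-(n : ℝ)) := by gcongr
    _ = _ := by ring


end Pool.Agent.HpBall
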