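import Mathlib
import Pool.Agent.HpBall.Defs2
import Pool.Agent.HpBall.Geom
import Pool.Agent.HpBall.Sphere

set_option autoImplicit false

open MeasureTheory Complex
open scoped ENNReal NNReal

namespace Pool.Agent.HpBall


theorem ker_eq_sum (g : ℝ → ℝ) (b N : ℝ) (hN : 0 < N) (hi : ∀ x, b ≤ x → g x = 0) (z : ℂ)
    (K : ℕ) (hK : b * N ≤ K) :
    ker g N z = ∑ k ∈ Finset.range K, ((g ((k : ℝ) / N) : ℝ) : ℂ) * z ^ k := by
  unfold ker
  apply tsum_eq_sum
  intro k hk
  have hk' : K ≤ k := by simpa using hk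
  have : b ≤ (k : ℝ) / N := by
    rw [le_div_iff₀ hN]
    exact hK.trans (by exact_mod_cast hk')
  rw [hi _ this]
  simp

theorem ker_step (g : ℝ → ℝ) (a b N : ℝ) (ha : 0 < a) (hN : 0 < N) (lo : ∀ x, x ≤ a → g x = 0)
    (hi : ∀ x, b ≤ x → g x = 0) (z : ℂ) :
    (1 - z) * ker g N z = ker (fun x => g x - g (x - 1 / N)) N z := by
  set K := ⌈b * N⌉₊ with hKdef
  have hK : b * N ≤ K := Nat.le_ceil _
  have h1 := ker_eq_sum g b N hN hi z K hK
  have hhi : ∀ x, b + 1 / N ≤ x → (fun x => g x - g (x - 1 / N)) x = 0 := by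
    intro x hx
    have hN' : 0 < 1 / N := by positivity
    simp only
    rw [hi x (by linarith), hi (x - 1 / N) (by linarith), sub_zero]
  have h2 := ker_eq_sum (fun x => g x - g (x - 1 / N)) (b + 1 / N) N hN hhi z (K + 1) (by
    rw [add_mul, one_div_mul_cancel hN.ne']
    push_cast
    linarith)
  rw [h1, h2]
  have h3 : ∑ k ∈ Finset.range (K + 1), (((fun x => g x - g (x - 1 / N)) ((k : ℝ) / N) : ℝ) : ℂ) * z ^ k
      = ∑ k ∈ Finset.range (K + 1), ((g ((k : ℝ) / N) : ℝ) : ℂ) * z ^ k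
        - ∑ k ∈ Finset.range (K + 1), ((g ((k : ℝ) / N - 1 / N) : ℝ) : ℂ) * z ^ k := by
    rw [← Finset.sum_sub_distrib]
    apply Finset.sum_congr rfl
    intro k _
    push_cast
    ring
  rw [h3, Finset.sum_range_succ (fun k => ((g ((k : ℝ) / N) : ℝ) : ℂ) * z ^ k),
    Finset.sum_range_succ' (fun k => ((g ((k : ℝ) / N - 1 / N) : ℝ) : ℂ) * z ^ k)]
  have h4 : g ((K : ℝ) / N) = 0 := hi _ (by rw [le_div_iff₀ hN]; exact hK)
  have h5 : g (((0 : ℕ) : ℝ) / N - 1 / N) = 0 := lo _ (by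
    have : 0 < 1 / N := by positivity
    simp only [Nat.cast_zero, zero_div]
    linarith)
  rw [h4, h5]
  have h6 : ∀ k : ℕ, ((k + 1 : ℕ) : ℝ) / N - 1 / N = (k : ℝ) / N := by
    intro k
    push_cast
    ring
  simp only [h6]
  rw [sub_mul, one_mul, Finset.mul_sum]
  have h7 : ∀ k ∈ Finset.range K, z * (((g ((k : ℝ) / N) : ℝ) : ℂ) * z ^ k)
      = ((g ((k : ℝ) / N) : ℝ) : ℂ) * z ^ (k + 1) := by
    intro k _
    ring
  rw [Finset.sum_congr rfl h7]
  simp

theorem ker_bound0 (g : ℝ → ℝ) (b N B : ℝ) (hb : 0 ≤ b) (hN : 0 < N)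
    (hi : ∀ x, b ≤ x → g x = 0) (hB : ∀ x, |g x| ≤ B) (z : ℂ) (hz : ‖z‖ ≤ 1) :
    ‖ker g N z‖ ≤ (b * N + 1) * B := by
  have hB0 : 0 ≤ B := (abs_nonneg _).trans (hB 0)
  rw [ker_eq_sum g b N hN hi z ⌈b * N⌉₊ (Nat.le_ceil _)]
  calc ‖∑ k ∈ Finset.range ⌈b * N⌉₊, ((g ((k : ℝ) / N) : ℝ) : ℂ) * z ^ k‖
      ≤ ∑ k ∈ Finset.range ⌈b * N⌉₊, ‖((g ((k : ℝ) / N) : ℝ) : ℂ) * z ^ k‖ := norm_sum_le _ _
    _ ≤ ∑ k ∈ Finset.range ⌈b * N⌉₊, B := by
        apply Finset.sum_le_sum
        intro k _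
        rw [norm_mul, norm_pow, Complex.norm_real, Real.norm_eq_abs]
        calc |g ((k : ℝ) / N)| * ‖z‖ ^ k ≤ B * 1 := by
              apply mul_le_mul (hB _) (pow_le_one₀ (norm_nonneg _) hz) (by positivity) hB0
          _ = B := mul_one _
    _ = (⌈b * N⌉₊ : ℝ) * B := by simp
    _ ≤ (b * N + 1) * B := by
        apply mul_le_mul_of_nonneg_right _ hB0
        exact (Nat.ceil_lt_add_one (by positivity)).le

theorem ker_boundM (M : ℕ) : ∀ (g : ℝ → ℝ) (a b N B : ℝ), 0 < a → 0 ≤ b → 0 < N →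
    ContDiff ℝ (⊤ : ℕ∞) g → (∀ x, x ≤ a → g x = 0) → (∀ x, b ≤ x → g x = 0) →
    (∀ x, |iteratedDeriv M g x| ≤ B) → ∀ z : ℂ, ‖z‖ ≤ 1 →
    ‖(1 - z) ^ M * ker g N z‖ ≤ (b * N + 1 + M) * ((1 / N) ^ M * B) := by
  induction M with
  | zero =>
    intro g a b N B ha hb hN hg lo hi hB z hz
    have := ker_bound0 g b N B hb hN hi (by simpa using hB) z hz
    simpa using this
  | succ M ih =>
    intro g a b N B ha hb hN hg lo hi hB z hz
    have hN' : 0 < 1 / N := by positivity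
    have hstep := ker_step g a b N ha hN lo hi z
    rw [pow_succ, mul_assoc, hstep]
    have hsh : ContDiff ℝ (⊤ : ℕ∞) (fun x => g (x - 1 / N)) :=
      hg.comp (contDiff_id.sub contDiff_const)
    have hmain := ih (fun x => g x - g (x - 1 / N)) a (b + 1 / N) N ((1 / N) * B) ha (by positivity) hN
      (hg.sub hsh)
      (by
        intro x hx
        rw [lo x hx, lo (x - 1 / N) (by linarith), sub_zero])
      (by
        intro x hx
        rw [hi x (by linarith), hi (x - 1 / N) (by linarith), sub_zero])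
      (by
        intro x
        have e1 : iteratedDeriv M (fun x => g x - g (x - 1 / N)) x
            = iteratedDeriv M g x - iteratedDeriv M g (x - 1 / N) := by
          have hg' : ContDiffAt ℝ (M : ℕ) g x := (hg.of_le (by exact_mod_cast le_top)).contDiffAt
          have hs' : ContDiffAt ℝ (M : ℕ) (fun x => g (x - 1 / N)) x :=
            (hsh.of_le (by exact_mod_cast le_top)).contDiffAt
          have e2 : iteratedDeriv M (fun x => g (x - 1 / N)) x = iteratedDeriv M g (x - 1 / N) := by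
            rw [iteratedDeriv_comp_sub_const]
          rw [← e2]
          exact iteratedDeriv_sub hg' hs'
        rw [e1]
        have hd : Differentiable ℝ (iteratedDeriv M g) :=
          hg.differentiable_iteratedDeriv M (by exact_mod_cast (WithTop.coe_lt_top (M : ℕ)))
        have hmv := Convex.norm_image_sub_le_of_norm_deriv_le (f := iteratedDeriv M g) (C := B)
          (s := Set.univ) (x := x - 1 / N) (y := x)
          (fun y _ => hd y) (fun y _ => by
            rw [← iteratedDeriv_succ, Real.norm_eq_abs]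
            exact hB y) convex_univ (Set.mem_univ _) (Set.mem_univ _)
        rw [Real.norm_eq_abs, Real.norm_eq_abs] at hmv
        calc |iteratedDeriv M g x - iteratedDeriv M g (x - 1 / N)|
            ≤ B * |x - (x - 1 / N)| := hmv
          _ = 1 / N * B := by
            rw [sub_sub_cancel, abs_of_pos hN']
            ring)
      z hz
    calc ‖(1 - z) ^ M * ker (fun x => g x - g (x - 1 / N)) N z‖
        ≤ ((b + 1 / N) * N + 1 + M) * ((1 / N) ^ M * (1 / N * B)) := hmain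
      _ = (b * N + 1 + ((M + 1 : ℕ) : ℝ)) * ((1 / N) ^ (M + 1) * B) := by
        have h0 : (b + 1 / N) * N = b * N + 1 := by
          rw [add_mul b (1 / N) N, one_div_mul_cancel hN.ne']
        rw [h0]
        push_cast
        ring

theorem bump_iter_bdd (φ : ℝ → ℝ) (a b : ℝ) (hφ : Bump φ a b) (M : ℕ) :
    ∃ B : ℝ, 0 < B ∧ ∀ x, |iteratedDeriv M φ x| ≤ B := by
  have hcont : Continuous (iteratedDeriv M φ) := by
    have : ContDiff ℝ (M : ℕ) φ := hφ.smooth.of_le (by exact_mod_cast le_top)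
    exact this.continuous_iteratedDeriv M le_rfl
  have hcs : HasCompactSupport φ := by
    apply HasCompactSupport.intro (isCompact_Icc (a := a) (b := b))
    intro x hx
    rcases le_or_gt x a with h | h
    · exact hφ.lo x h
    · rcases le_or_gt b x with h' | h'
      · exact hφ.hi x h'
      · exact absurd ⟨h.le, h'.le⟩ hx
  have hcs' : HasCompactSupport (iteratedDeriv M φ) := by
    have h := hcs.iteratedFDeriv (𝕜 := ℝ) M
    rw [hasCompactSupport_iff_eventuallyEq] at h ⊢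
    filter_upwards [h] with x hx
    rw [iteratedDeriv_eq_iteratedFDeriv, hx]
    simp
  obtain ⟨B, hB⟩ := hcont.bounded_above_of_compact_support hcs'
  refine ⟨|B| + 1, by positivity, fun x => ?_⟩
  have := hB x
  rw [Real.norm_eq_abs] at this
  linarith [le_abs_self B]

/-- TARGET -/
theorem multiplier_kernel (φ : ℝ → ℝ) (a b : ℝ) (hφ : Bump φ a b) (M : ℕ) (N₀ : ℝ)
    (hN₀ : 0 < N₀) : ∃ C : ℝ, 0 < C ∧ ∀ N : ℝ, N₀ ≤ N → ∀ z : ℂ, ‖z‖ ≤ 1 →
      ‖ker φ N z‖ ≤ C * N * (1 + N * ‖1 - z‖) ^ (-(M : ℝ)) := by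
  obtain ⟨B0, hB0, hb0⟩ := bump_iter_bdd φ a b hφ 0
  obtain ⟨BM, hBM, hbM⟩ := bump_iter_bdd φ a b hφ M
  have hb : 0 ≤ b := (hφ.apos.trans hφ.ab).le
  set C1 : ℝ := (b + 1 / N₀) * B0 with hC1
  set C2 : ℝ := (b + (1 + M) / N₀) * BM with hC2
  have hC1p : 0 < C1 := by positivity
  have hC2p : 0 < C2 := by positivity
  refine ⟨2 ^ M * (C1 + C2), by positivity, ?_⟩
  intro N hN z hz
  have hNp : 0 < N := hN₀.trans_le hN
  have h1 : ‖ker φ N z‖ ≤ C1 * N := by
    have := ker_bound0 φ b N B0 hb hNp hφ.hi (by simpa using hb0) z hz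
    refine this.trans ?_
    have : (b * N + 1) ≤ (b + 1 / N₀) * N := by
      have : 1 ≤ 1 / N₀ * N := by
        rw [one_div, inv_mul_eq_div, le_div_iff₀ hN₀]
        linarith
      nlinarith
    calc (b * N + 1) * B0 ≤ ((b + 1 / N₀) * N) * B0 := mul_le_mul_of_nonneg_right this hB0.le
      _ = C1 * N := by rw [hC1]; ring
  have h2 : (N * ‖1 - z‖) ^ M * ‖ker φ N z‖ ≤ C2 * N := by
    have h := ker_boundM M φ a b N BM hφ.apos hb hNp hφ.smooth hφ.lo hφ.hi hbM z hz
    rw [norm_mul, norm_pow] at h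
    have h3 : (b * N + 1 + M) ≤ (b + (1 + M) / N₀) * N := by
      have : (1 + M : ℝ) ≤ (1 + M) / N₀ * N := by
        rw [div_mul_eq_mul_div, le_div_iff₀ hN₀]
        have : (0 : ℝ) ≤ 1 + M := by positivity
        nlinarith
      nlinarith
    calc (N * ‖1 - z‖) ^ M * ‖ker φ N z‖ = N ^ M * (‖1 - z‖ ^ M * ‖ker φ N z‖) := by
          rw [mul_pow]; ring
      _ ≤ N ^ M * ((b * N + 1 + M) * ((1 / N) ^ M * BM)) := by gcongr
      _ = (b * N + 1 + M) * BM := by
          have : N ^ M * (1 / N) ^ M = 1 := by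
            rw [← mul_pow, mul_one_div_cancel hNp.ne', one_pow]
          calc N ^ M * ((b * N + 1 + M) * ((1 / N) ^ M * BM))
              = (N ^ M * (1 / N) ^ M) * ((b * N + 1 + M) * BM) := by ring
            _ = _ := by rw [this, one_mul]
      _ ≤ ((b + (1 + M) / N₀) * N) * BM := mul_le_mul_of_nonneg_right h3 hBM.le
      _ = C2 * N := by rw [hC2]; ring
  have hx : 0 ≤ N * ‖1 - z‖ := by positivity
  have h3 : (1 + N * ‖1 - z‖) ^ M ≤ 2 ^ M * (1 + (N * ‖1 - z‖) ^ M) := by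
    have := add_pow_le (zero_le_one (α := ℝ)) hx M
    refine this.trans ?_
    rw [one_pow]
    apply mul_le_mul_of_nonneg_right _ (by positivity)
    exact pow_le_pow_right₀ (by norm_num) (Nat.sub_le _ _)
  rw [Real.rpow_neg (by positivity), Real.rpow_natCast, ← div_eq_mul_inv, le_div_iff₀ (by positivity)]
  calc ‖ker φ N z‖ * (1 + N * ‖1 - z‖) ^ M
      ≤ ‖ker φ N z‖ * (2 ^ M * (1 + (N * ‖1 - z‖) ^ M)) := by gcongr
    _ = 2 ^ M * (‖ker φ N z‖ + (N * ‖1 - z‖) ^ M * ‖ker φ N z‖) := by ring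
    _ ≤ 2 ^ M * (C1 * N + C2 * N) := by gcongr
    _ = 2 ^ M * (C1 + C2) * N := by ring



end Pool.Agent.HpBall
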