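import Mathlib

set_option autoImplicit false

open MeasureTheory Complex
open scoped ENNReal NNReal

namespace Pool.Agent.HpBall

/-- TARGET -/
theorem matrix_neumann {ι : Type} [Fintype ι] [DecidableEq ι] (w : ι → ι → ℝ)
    (hw : ∀ i j, 0 < w i j) (C₁ : ℝ) (hC₁ : 0 < C₁)
    (hconv : ∀ i k, ∑ j, w i j * w j k ≤ C₁ * w i k)
    (G : Matrix ι ι ℂ) (ε : ℝ) (hε0 : 0 ≤ ε) (hε : ε * C₁ ≤ 1 / 2)
    (hG : ∀ i j, ‖(G - 1) i j‖ ≤ ε * w i j) :
    ∃ H : Matrix ι ι ℂ, G * H = 1 ∧ H * G = 1 ∧ ∀ i j, ‖(H - 1) i j‖ ≤ 2 * ε * w i j := by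
  set F : Matrix ι ι ℂ := 1 - G with hF
  have hFb : ∀ i j, ‖F i j‖ ≤ ε * w i j := by
    intro i j
    have h1 : F i j = - ((G - 1) i j) := by
      rw [hF]; simp [Matrix.sub_apply]
    rw [h1, norm_neg]
    exact hG i j
  have hpow : ∀ m : ℕ, ∀ i j, ‖(F ^ (m + 1)) i j‖ ≤ ε * (1 / 2) ^ m * w i j := by
    intro m
    induction m with
    | zero => intro i j; simpa using hFb i j
    | succ m ih =>
      intro i k
      rw [pow_succ, Matrix.mul_apply]
      calc ‖∑ j, (F ^ (m + 1)) i j * F j k‖ ≤ ∑ j, ‖(F ^ (m + 1)) i j * F j k‖ := norm_sum_le _ _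
        _ ≤ ∑ j, (ε * (1 / 2) ^ m * ε) * (w i j * w j k) := by
            apply Finset.sum_le_sum
            intro j _
            rw [norm_mul]
            have h1 := ih i j
            have h2 := hFb j k
            calc ‖(F ^ (m + 1)) i j‖ * ‖F j k‖ ≤ (ε * (1 / 2) ^ m * w i j) * (ε * w j k) := by
                  apply mul_le_mul h1 h2 (norm_nonneg _)
                  have := (hw i j).le
                  positivity
              _ = _ := by ring
        _ = (ε * (1 / 2) ^ m * ε) * ∑ j, w i j * w j k := by rw [Finset.mul_sum]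
        _ ≤ (ε * (1 / 2) ^ m * ε) * (C₁ * w i k) := by
            apply mul_le_mul_of_nonneg_left (hconv i k)
            positivity
        _ = (ε * (1 / 2) ^ m * w i k) * (ε * C₁) := by ring
        _ ≤ (ε * (1 / 2) ^ m * w i k) * (1 / 2) := by
            apply mul_le_mul_of_nonneg_left hε
            have := (hw i k).le
            positivity
        _ = _ := by ring
  have hgeo : Summable (fun m : ℕ => ((1 : ℝ) / 2) ^ m) := summable_geometric_two
  have hs1 : ∀ i j, Summable (fun m : ℕ => (F ^ (m + 1)) i j) := by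
    intro i j
    apply Summable.of_norm_bounded (g := fun m : ℕ => ε * (1 / 2) ^ m * w i j)
    · exact (hgeo.mul_left ε).mul_right _
    · intro m; exact hpow m i j
  have hs : Summable (fun m : ℕ => F ^ m) := by
    refine Pi.summable.2 fun i => Pi.summable.2 fun j => ?_
    exact (summable_nat_add_iff 1).1 (hs1 i j)
  have hG' : G = 1 - F := by rw [hF]; simp
  refine ⟨∑' m, F ^ m, ?_, ?_, ?_⟩
  · rw [hG']; exact hs.one_sub_mul_tsum_pow
  · rw [hG']; exact hs.tsum_pow_mul_one_sub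
  · intro i j
    have h1 : (∑' m, F ^ m) - 1 = ∑' m, F ^ (m + 1) := by
      rw [hs.tsum_eq_zero_add]; simp
    rw [h1]
    have hs' : Summable (fun m : ℕ => F ^ (m + 1)) := (summable_nat_add_iff 1).2 hs
    have h2 : (∑' m, F ^ (m + 1)) i j = ∑' m, (F ^ (m + 1)) i j := by
      have h3 : HasSum (fun m : ℕ => F ^ (m + 1)) (∑' m, F ^ (m + 1)) := hs'.hasSum
      have h4 := (Pi.hasSum.1 (Pi.hasSum.1 h3 i)) j
      exact h4.tsum_eq.symm
    rw [h2]
    calc ‖∑' m, (F ^ (m + 1)) i j‖ ≤ ∑' m : ℕ, ε * (1 / 2) ^ m * w i j := by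
          apply tsum_of_norm_bounded ((hgeo.mul_left ε).mul_right _).hasSum
          intro m; exact hpow m i j
      _ = 2 * ε * w i j := by
          rw [tsum_mul_right, tsum_mul_left, tsum_geometric_two]; ring

end Pool.Agent.HpBall
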