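import Mathlib
import Pool.Agent.HpBall.Defs2
import Pool.Agent.HpBall.Geom
import Pool.Agent.HpBall.Sphere
import Pool.Agent.HpBall.Kernel
import Pool.Agent.HpBall.KerInt
import Pool.Agent.HpBall.Neumann

set_option autoImplicit false

open MeasureTheory Complex
open scoped ENNReal NNReal

namespace Pool.Agent.HpBall

/-! ### auxiliary facts for `molecules` -/

/-- the smooth function `α` -/
noncomputable def mAl (δ : ℝ) (x : ℝ) : ℝ :=
  Real.smoothTransition (x - 1) * Real.smoothTransition (δ - x)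

lemma mAl_bump {δ : ℝ} (hδ : 1 < δ) : Bump (mAl δ) 1 δ where
  apos := one_pos
  ab := hδ
  smooth := by
    unfold mAl
    exact (Real.smoothTransition.contDiff.comp (contDiff_id.sub contDiff_const)).mul
      (Real.smoothTransition.contDiff.comp (contDiff_const.sub contDiff_id))
  lo := by
    intro x hx
    unfold mAl
    rw [Real.smoothTransition.zero_of_nonpos (by linarith), zero_mul]
  hi := by
    intro x hx
    unfold mAl
    rw [Real.smoothTransition.zero_of_nonpos (x := δ - x) (by linarith), mul_zero]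

lemma mAl_nonneg (δ x : ℝ) : 0 ≤ mAl δ x :=
  mul_nonneg (Real.smoothTransition.nonneg _) (Real.smoothTransition.nonneg _)

/-- the smooth function `β` -/
noncomputable def mBe (a b δ : ℝ) (x : ℝ) : ℝ :=
  Real.smoothTransition ((x - a) / (1 - a)) * Real.smoothTransition ((b - x) / (b - δ))

lemma mBe_bump {a b δ : ℝ} (ha0 : 0 < a) (ha : a < 1) (hδ : 1 ≤ δ) (hb : δ < b) :
    Bump (mBe a b δ) a b where
  apos := ha0
  ab := by linarith
  smooth := by
    unfold mBe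
    exact (Real.smoothTransition.contDiff.comp ((contDiff_id.sub contDiff_const).div_const _)).mul
      (Real.smoothTransition.contDiff.comp ((contDiff_const.sub contDiff_id).div_const _))
  lo := by
    intro x hx
    unfold mBe
    rw [Real.smoothTransition.zero_of_nonpos (x := (x - a) / (1 - a))
      (div_nonpos_of_nonpos_of_nonneg (by linarith) (by linarith)), zero_mul]
  hi := by
    intro x hx
    unfold mBe
    rw [Real.smoothTransition.zero_of_nonpos (x := (b - x) / (b - δ))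
      (div_nonpos_of_nonpos_of_nonneg (by linarith) (by linarith)), mul_zero]

lemma mBe_one {a b δ x : ℝ} (ha : a < 1) (hb : δ < b) (h1 : 1 ≤ x) (h2 : x ≤ δ) :
    mBe a b δ x = 1 := by
  unfold mBe
  rw [Real.smoothTransition.one_of_one_le, Real.smoothTransition.one_of_one_le, one_mul]
  · rw [one_le_div (by linarith)]; linarith
  · rw [one_le_div (by linarith)]; linarith

/-- the total mass of the multiplier -/
noncomputable def mKap (δ N : ℝ) : ℝ := ∑ k ∈ Finset.range ⌈δ * N⌉₊, mAl δ ((k : ℝ) / N)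

/-- normalised coefficients -/
noncomputable def mCf (δ N : ℝ) (k : ℕ) : ℝ := mAl δ ((k : ℝ) / N) / mKap δ N

/-- the normalised polynomial -/
noncomputable def mP (δ N : ℝ) (w : ℂ) : ℂ :=
  ∑ k ∈ Finset.range ⌈δ * N⌉₊, (mCf δ N k : ℂ) * w ^ k

lemma mKap_lower {δ : ℝ} (hδ : 1 < δ) : ∃ c N₀ : ℝ, 0 < c ∧ 0 < N₀ ∧ ∀ N : ℝ, N₀ ≤ N →
    c * N ≤ mKap δ N := by
  set h := (δ - 1) / 3 with hh
  have hh0 : 0 < h := by rw [hh]; linarith
  set c₁ : ℝ := Real.smoothTransition h * Real.smoothTransition h with hc₁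
  have hst : 0 < Real.smoothTransition h := Real.smoothTransition.pos_of_pos hh0
  have hc₁0 : 0 < c₁ := mul_pos hst hst
  refine ⟨h / 2 * c₁, 2 / h, by positivity, by positivity, fun N hN => ?_⟩
  have hN0 : 0 < N := lt_of_lt_of_le (by positivity) hN
  have hhN : 2 ≤ h * N := by
    rw [div_le_iff₀ hh0] at hN; linarith
  -- the integers in `[(1+h)N, (1+2h)N]`
  set T := Finset.Icc ⌈(1 + h) * N⌉₊ ⌊(1 + 2 * h) * N⌋₊ with hT
  have hTsub : T ⊆ Finset.range ⌈δ * N⌉₊ := by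
    intro k hk
    rw [hT, Finset.mem_Icc] at hk
    rw [Finset.mem_range]
    have h1 : (k : ℝ) ≤ (1 + 2 * h) * N := (Nat.le_floor_iff (by positivity)).mp hk.2
    have h2 : (1 + 2 * h) * N < δ * N := by
      apply mul_lt_mul_of_pos_right _ hN0
      rw [hh]; linarith
    exact Nat.lt_ceil.mpr (lt_of_le_of_lt h1 h2)
  have hval : ∀ k ∈ T, c₁ ≤ mAl δ ((k : ℝ) / N) := by
    intro k hk
    rw [hT, Finset.mem_Icc] at hk
    have h1 : (k : ℝ) ≤ (1 + 2 * h) * N := (Nat.le_floor_iff (by positivity)).mp hk.2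
    have h2 : (1 + h) * N ≤ k := Nat.ceil_le.mp hk.1
    have h3 : (k : ℝ) / N ≤ 1 + 2 * h := by rw [div_le_iff₀ hN0]; exact h1
    have h4 : 1 + h ≤ (k : ℝ) / N := by rw [le_div_iff₀ hN0]; exact h2
    unfold mAl
    apply mul_le_mul
    · exact Real.smoothTransition.monotone (by linarith)
    · exact Real.smoothTransition.monotone (by rw [hh] at *; linarith)
    · exact hst.le
    · exact Real.smoothTransition.nonneg _
  have hcard : h / 2 * N ≤ (T.card : ℝ) := by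
    rw [hT, Nat.card_Icc]
    have h1 : (1 + 2 * h) * N < ⌊(1 + 2 * h) * N⌋₊ + 1 := Nat.lt_floor_add_one _
    have h2 : (⌈(1 + h) * N⌉₊ : ℝ) < (1 + h) * N + 1 := Nat.ceil_lt_add_one (by positivity)
    have h3 : (⌈(1 + h) * N⌉₊ : ℝ) ≤ (⌊(1 + 2 * h) * N⌋₊ : ℝ) + 1 := by nlinarith
    have h4 : ⌈(1 + h) * N⌉₊ ≤ ⌊(1 + 2 * h) * N⌋₊ + 1 := by exact_mod_cast h3
    rw [Nat.cast_sub h4]
    push_cast
    nlinarith
  calc h / 2 * c₁ * N = (h / 2 * N) * c₁ := by ring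
    _ ≤ T.card * c₁ := mul_le_mul_of_nonneg_right hcard hc₁0.le
    _ = ∑ k ∈ T, c₁ := by rw [Finset.sum_const, nsmul_eq_mul]
    _ ≤ ∑ k ∈ T, mAl δ ((k : ℝ) / N) := Finset.sum_le_sum hval
    _ ≤ mKap δ N := by
      unfold mKap
      exact Finset.sum_le_sum_of_subset_of_nonneg hTsub (fun _ _ _ => mAl_nonneg _ _)

lemma mAl_zero_of_ceil {δ N : ℝ} (hδ : 1 < δ) (hN : 0 < N) {k : ℕ} (hk : k ∉ Finset.range ⌈δ * N⌉₊) :
    mAl δ ((k : ℝ) / N) = 0 := by
  rw [Finset.mem_range, not_lt] at hk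
  have h1 : δ * N ≤ k := Nat.ceil_le.mp hk
  exact (mAl_bump hδ).hi _ (by rw [le_div_iff₀ hN]; exact h1)

lemma mker_eq {δ N : ℝ} (hδ : 1 < δ) (hN : 0 < N) (w : ℂ) :
    ker (mAl δ) N w = ∑ k ∈ Finset.range ⌈δ * N⌉₊, (mAl δ ((k : ℝ) / N) : ℂ) * w ^ k := by
  unfold ker
  apply tsum_eq_sum
  intro k hk
  rw [mAl_zero_of_ceil hδ hN hk]; simp

lemma mP_eq {δ N : ℝ} (hδ : 1 < δ) (hN : 0 < N) (w : ℂ) :
    mP δ N w = ker (mAl δ) N w / (mKap δ N : ℂ) := by
  rw [mker_eq hδ hN, Finset.sum_div]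
  unfold mP mCf
  apply Finset.sum_congr rfl
  intro k _
  push_cast; ring

lemma mP_one {δ N : ℝ} (hk : mKap δ N ≠ 0) : mP δ N 1 = 1 := by
  unfold mP mCf
  simp only [one_pow, mul_one]
  rw [← Complex.ofReal_sum, ← Finset.sum_div]
  have : (∑ i ∈ Finset.range ⌈δ * N⌉₊, mAl δ ((i : ℝ) / N)) = mKap δ N := rfl
  rw [this, div_self hk, Complex.ofReal_one]

lemma mCf_nonneg {δ N : ℝ} (k : ℕ) : 0 ≤ mCf δ N k := by
  unfold mCf mKap
  apply div_nonneg (mAl_nonneg _ _)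
  exact Finset.sum_nonneg (fun _ _ => mAl_nonneg _ _)

lemma mCf_sum {δ N : ℝ} (hk : mKap δ N ≠ 0) : ∑ k ∈ Finset.range ⌈δ * N⌉₊, mCf δ N k = 1 := by
  unfold mCf
  rw [← Finset.sum_div]
  exact div_self hk

lemma mCf_supp {δ N : ℝ} (hδ : 1 < δ) (hN : 0 < N) {k : ℕ} (hk : mCf δ N k ≠ 0) :
    N < k ∧ (k : ℝ) < δ * N := by
  have h0 : mAl δ ((k : ℝ) / N) ≠ 0 := by
    intro h; apply hk; unfold mCf; rw [h, zero_div]
  constructor
  · by_contra h
    push Not at h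
    exact h0 ((mAl_bump hδ).lo _ (by rw [div_le_one hN]; exact h))
  · by_contra h
    push Not at h
    exact h0 ((mAl_bump hδ).hi _ (by rw [le_div_iff₀ hN]; exact h))

lemma mP_pow {δ N : ℝ} (hδ : 1 < δ) (hN : 0 < N) (hk : mKap δ N ≠ 0) (w : ℂ) (hw : ‖w‖ ≤ 1) :
    ‖mP δ N w‖ ≤ ‖w‖ ^ N := by
  unfold mP
  refine (norm_sum_le _ _).trans ?_
  calc ∑ k ∈ Finset.range ⌈δ * N⌉₊, ‖(mCf δ N k : ℂ) * w ^ k‖
      ≤ ∑ k ∈ Finset.range ⌈δ * N⌉₊, mCf δ N k * ‖w‖ ^ N := by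
        apply Finset.sum_le_sum
        intro k _
        rw [norm_mul, norm_pow, Complex.norm_real, Real.norm_eq_abs, abs_of_nonneg (mCf_nonneg k)]
        by_cases h : mCf δ N k = 0
        · rw [h]; simp
        · apply mul_le_mul_of_nonneg_left _ (mCf_nonneg k)
          rw [← Real.rpow_natCast]
          exact Real.rpow_le_rpow_of_exponent_ge' (norm_nonneg _) hw hN.le (mCf_supp hδ hN h).1.le
    _ = ‖w‖ ^ N := by rw [← Finset.sum_mul, mCf_sum hk, one_mul]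

/-- Taylor coefficients of a polynomial -/
lemma tc_poly (R : ℕ) (b : ℕ → ℂ) (m : ℕ) :
    tc (fun z => ∑ k ∈ Finset.range R, b k * z ^ k) m = if m < R then b m else 0 := by
  unfold tc
  have h1 : iteratedDeriv m (fun z : ℂ => ∑ k ∈ Finset.range R, b k * z ^ k) 0
      = ∑ k ∈ Finset.range R, b k * (if m = k then (k.factorial : ℂ) else 0) := by
    have h2 := iteratedDeriv_fun_sum (𝕜 := ℂ) (I := Finset.range R) (n := m) (x := 0)
      (f := fun k (z : ℂ) => b k * z ^ k) (fun k _ => by fun_prop)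
    rw [h2]
    apply Finset.sum_congr rfl
    intro k _
    rw [iteratedDeriv_const_mul_field, iteratedDeriv_fun_pow_zero]
    push_cast
    rfl
  rw [h1]
  have hm : (m.factorial : ℂ) ≠ 0 := by exact_mod_cast m.factorial_ne_zero
  split_ifs with h
  · rw [Finset.sum_eq_single m]
    · rw [if_pos rfl]; field_simp
    · intro k _ hk; rw [if_neg (Ne.symm hk), mul_zero]
    · intro h'; exact absurd (Finset.mem_range.mpr h) h'
  · rw [Finset.sum_eq_zero, mul_zero]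
    intro k hk
    rw [Finset.mem_range] at hk
    rw [if_neg (by omega), mul_zero]


lemma msc_pos (n l : ℕ) : 0 < sc n l := by unfold sc; positivity

lemma msc_one (n l : ℕ) : 1 ≤ sc n l := by
  unfold sc
  exact Real.one_le_rpow (by norm_num) (by positivity)

lemma minner_self {n : ℕ} {x : E n} (hx : ‖x‖ = 1) : (inner ℂ x x : ℂ) = 1 := by
  rw [inner_self_eq_norm_sq_to_K, hx]; simp

/-- convolution inequality, pointwise -/
lemma mW_conv {n : ℕ} {N K : ℝ} (hN : 0 ≤ N) (hK : 0 ≤ K) {x y z : E n} (hx : ‖x‖ = 1)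
    (hy : ‖y‖ = 1) (hz : ‖z‖ = 1) :
    (1 + N * rho x y) ^ (-K) * (1 + N * rho y z) ^ (-K) ≤
      4 ^ K * (1 + N * rho x z) ^ (-K) *
        ((1 + N * rho x y) ^ (-K) + (1 + N * rho y z) ^ (-K)) := by
  have hxy := rho_nonneg x y
  have hyz := rho_nonneg y z
  have hxz := rho_nonneg x z
  have htri := rho_triangle hx.le hy hz.le
  have key : ∀ a : ℝ, 0 ≤ a → rho x z ≤ 4 * a →
      (1 + N * a) ^ (-K) ≤ 4 ^ K * (1 + N * rho x z) ^ (-K) := by
    intro a ha h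
    have h1 : (1 + N * rho x z) / 4 ≤ 1 + N * a := by
      have : N * rho x z ≤ N * (4 * a) := mul_le_mul_of_nonneg_left h hN
      linarith
    have h0 : 0 < (1 + N * rho x z) / 4 := by positivity
    have h2 : (1 + N * a) ^ (-K) ≤ ((1 + N * rho x z) / 4) ^ (-K) :=
      Real.rpow_le_rpow_of_nonpos h0 h1 (by linarith)
    refine h2.trans (le_of_eq ?_)
    rw [Real.div_rpow (by positivity) (by norm_num), Real.rpow_neg (by norm_num : (0:ℝ) ≤ 4)]
    rw [div_inv_eq_mul, mul_comm]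
  have p1 : 0 < (1 + N * rho x y) ^ (-K) := Real.rpow_pos_of_pos (by positivity) _
  have p2 : 0 < (1 + N * rho y z) ^ (-K) := Real.rpow_pos_of_pos (by positivity) _
  have p3 : 0 < (4 : ℝ) ^ K * (1 + N * rho x z) ^ (-K) :=
    mul_pos (Real.rpow_pos_of_pos (by norm_num) _) (Real.rpow_pos_of_pos (by positivity) _)
  rcases le_total (rho x z) (4 * rho x y) with h | h
  · have h1 := key _ hxy h
    have h2 := mul_le_mul_of_nonneg_right h1 p2.le
    nlinarith [mul_pos p3 p1]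
  · have h' : rho x z ≤ 4 * rho y z := by linarith
    have h1 := key _ hyz h'
    have h2 := mul_le_mul_of_nonneg_left h1 p1.le
    nlinarith [mul_pos p3 p2]

/-- convolution inequality, summed -/
lemma mW_sum {n : ℕ} {pt : ℕ → ℕ → E n} {A K D : ℝ} (hA : 1 ≤ A)
    (hK : 0 ≤ K)
    (hD : ∀ (l : ℕ) (ξ : E n), ‖ξ‖ = 1 →
      ∑ i ∈ Finset.range (2 ^ l), (1 + sc n l * rho ξ (pt l i)) ^ (-K) ≤ D)
    (l : ℕ) (ξ : E n) (hξ : ‖ξ‖ = 1) :
    ∑ i ∈ Finset.range (2 ^ l), (1 + A * sc n l * rho ξ (pt l i)) ^ (-K) ≤ D := by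
  refine le_trans (Finset.sum_le_sum fun i _ => ?_) (hD l ξ hξ)
  apply Real.rpow_le_rpow_of_nonpos
  · have := mul_nonneg (msc_pos n l).le (rho_nonneg ξ (pt l i)); linarith
  · have h1 : sc n l * rho ξ (pt l i) ≤ A * (sc n l * rho ξ (pt l i)) :=
      le_mul_of_one_le_left (mul_nonneg (msc_pos n l).le (rho_nonneg _ _)) hA
    linarith
  · linarith

lemma mW_sum' {n : ℕ} {pt : ℕ → ℕ → E n} (hpt : ∀ l i, ‖pt l i‖ = 1) {A K D : ℝ} (hA : 1 ≤ A)
    (hK : 0 ≤ K)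
    (hD : ∀ (l : ℕ) (ξ : E n), ‖ξ‖ = 1 →
      ∑ i ∈ Finset.range (2 ^ l), (1 + sc n l * rho ξ (pt l i)) ^ (-K) ≤ D)
    (l : ℕ) (x z : E n) (hx : ‖x‖ = 1) (hz : ‖z‖ = 1) :
    ∑ j ∈ Finset.range (2 ^ l), (1 + A * sc n l * rho x (pt l j)) ^ (-K) *
      (1 + A * sc n l * rho (pt l j) z) ^ (-K) ≤
      (4 ^ K * (2 * D)) * (1 + A * sc n l * rho x z) ^ (-K) := by
  have hN : 0 ≤ A * sc n l := mul_nonneg (by linarith) (msc_pos n l).le
  have h1 := mW_sum hA hK hD l x hx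
  have h2 : ∑ j ∈ Finset.range (2 ^ l), (1 + A * sc n l * rho (pt l j) z) ^ (-K) ≤ D := by
    have := mW_sum hA hK hD l z hz
    refine le_trans (le_of_eq ?_) this
    apply Finset.sum_congr rfl
    intro j _
    rw [rho_comm]
  have p3 : 0 ≤ (4 : ℝ) ^ K * (1 + A * sc n l * rho x z) ^ (-K) :=
    mul_nonneg (Real.rpow_nonneg (by norm_num) _)
      (Real.rpow_nonneg (by have := mul_nonneg hN (rho_nonneg x z); linarith) _)
  calc ∑ j ∈ Finset.range (2 ^ l), (1 + A * sc n l * rho x (pt l j)) ^ (-K) *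
      (1 + A * sc n l * rho (pt l j) z) ^ (-K)
      ≤ ∑ j ∈ Finset.range (2 ^ l), 4 ^ K * (1 + A * sc n l * rho x z) ^ (-K) *
        ((1 + A * sc n l * rho x (pt l j)) ^ (-K) + (1 + A * sc n l * rho (pt l j) z) ^ (-K)) :=
        Finset.sum_le_sum fun j _ => mW_conv hN hK hx (hpt l j) hz
    _ = 4 ^ K * (1 + A * sc n l * rho x z) ^ (-K) *
        (∑ j ∈ Finset.range (2 ^ l), (1 + A * sc n l * rho x (pt l j)) ^ (-K) +
          ∑ j ∈ Finset.range (2 ^ l), (1 + A * sc n l * rho (pt l j) z) ^ (-K)) := by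
        rw [← Finset.mul_sum, Finset.sum_add_distrib]
    _ ≤ 4 ^ K * (1 + A * sc n l * rho x z) ^ (-K) * (D + D) :=
        mul_le_mul_of_nonneg_left (add_le_add h1 h2) p3
    _ = _ := by ring

/-- the matrix of coefficients at one level -/
lemma m_matrix {n : ℕ} {pt : ℕ → ℕ → E n} {c C : ℝ} (hT : TreeFam n pt c C) {A K D CP δ : ℝ}
    (hA : 1 ≤ A) (hK : 0 ≤ K) (hD0 : 0 < D) (hCP : 0 < CP)
    (hD : ∀ (l : ℕ) (ξ : E n), ‖ξ‖ = 1 →
      ∑ i ∈ Finset.range (2 ^ l), (1 + sc n l * rho ξ (pt l i)) ^ (-K) ≤ D)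
    (l : ℕ)
    (hP1 : mP δ (A * sc n l) 1 = 1)
    (hPd : ∀ w : ℂ, ‖w‖ ≤ 1 → ‖mP δ (A * sc n l) w‖ ≤
      CP * (1 + A * sc n l * ‖1 - w‖) ^ (-(K + 1)))
    (hε1 : CP / (1 + A * c) * (4 ^ K * (2 * D)) ≤ 1 / 2) (hε2 : CP / (1 + A * c) ≤ 1 / 2) :
    ∃ H : ℕ → ℕ → ℂ,
      (∀ i j, i < 2 ^ l → j < 2 ^ l → ∑ i' ∈ Finset.range (2 ^ l),
        H i' i * mP δ (A * sc n l) (inner ℂ (pt l i') (pt l j)) = if i = j then 1 else 0) ∧
      (∀ i' i, i' < 2 ^ l → i < 2 ^ l →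
        ‖H i' i‖ ≤ 2 * (1 + A * sc n l * rho (pt l i') (pt l i)) ^ (-K)) := by
  classical
  set N := A * sc n l with hN
  have hN0 : 0 < N := mul_pos (by linarith) (msc_pos n l)
  have hApos : 0 < A := by linarith
  have hc := hT.cpos
  set ε := CP / (1 + A * c) with hε
  have hε0 : 0 ≤ ε := by positivity
  set w : Fin (2 ^ l) → Fin (2 ^ l) → ℝ := fun i j => (1 + N * rho (pt l i) (pt l j)) ^ (-K) with hw
  have hbase : ∀ x y : E n, 0 < 1 + N * rho x y := by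
    intro x y
    have := mul_nonneg hN0.le (rho_nonneg x y); linarith
  have hwpos : ∀ i j, 0 < w i j := fun i j => Real.rpow_pos_of_pos (hbase _ _) _
  have hC1 : 0 < (4 : ℝ) ^ K * (2 * D) := by
    have : 0 < (4 : ℝ) ^ K := Real.rpow_pos_of_pos (by norm_num) _
    positivity
  have hconv : ∀ i k, ∑ j, w i j * w j k ≤ (4 ^ K * (2 * D)) * w i k := by
    intro i k
    have := mW_sum' hT.unit hA hK hD l (pt l i) (pt l k) (hT.unit _ _) (hT.unit _ _)
    rw [Finset.sum_range] at this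
    exact this
  set G : Matrix (Fin (2 ^ l)) (Fin (2 ^ l)) ℂ :=
    Matrix.of fun j i => mP δ N (inner ℂ (pt l i) (pt l j)) with hG
  have hGb : ∀ i j, ‖(G - 1) i j‖ ≤ ε * w i j := by
    intro i j
    by_cases hij : i = j
    · subst hij
      have : (G - 1) i i = 0 := by
        rw [Matrix.sub_apply, Matrix.one_apply_eq, hG, Matrix.of_apply, minner_self (hT.unit _ _), hP1,
          sub_self]
      rw [this, norm_zero]
      exact mul_nonneg hε0 (hwpos i i).le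
    · have h1 : (G - 1) i j = mP δ N (inner ℂ (pt l j) (pt l i)) := by
        rw [Matrix.sub_apply, Matrix.one_apply_ne hij, hG, Matrix.of_apply, sub_zero]
      rw [h1]
      have hnorm : ‖(inner ℂ (pt l j) (pt l i) : ℂ)‖ ≤ 1 := by
        refine (norm_inner_le_norm _ _).trans ?_
        rw [hT.unit, hT.unit]; norm_num
      refine (hPd _ hnorm).trans ?_
      have h2 : ‖1 - (inner ℂ (pt l j) (pt l i) : ℂ)‖ = rho (pt l i) (pt l j) := by
        rw [rho_comm]; rfl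
      rw [h2]
      have hsep := hT.sep l i j i.2 j.2 (fun h => hij (Fin.ext h))
      have h3 : 1 + A * c ≤ 1 + N * rho (pt l i) (pt l j) := by
        have : A * c ≤ A * (sc n l * rho (pt l i) (pt l j)) := mul_le_mul_of_nonneg_left hsep hApos.le
        rw [hN]; linarith
      have h4 : (1 + N * rho (pt l i) (pt l j)) ^ (-(K + 1)) =
          (1 + N * rho (pt l i) (pt l j))⁻¹ * w i j := by
        rw [hw]
        simp only
        rw [neg_add, Real.rpow_add (hbase _ _), Real.rpow_neg_one, mul_comm]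
      rw [h4, hε]
      have h5 : (1 + N * rho (pt l i) (pt l j))⁻¹ ≤ (1 + A * c)⁻¹ :=
        inv_anti₀ (by positivity) h3
      have h6 := mul_le_mul_of_nonneg_right h5 (hwpos i j).le
      have h7 := mul_le_mul_of_nonneg_left h6 hCP.le
      rw [div_eq_mul_inv]
      linarith
  obtain ⟨H, hGH, _, hH⟩ := matrix_neumann w hwpos _ hC1 hconv G ε hε0 hε1 hGb
  refine ⟨fun i' i => if h : i' < 2 ^ l ∧ i < 2 ^ l then H ⟨i', h.1⟩ ⟨i, h.2⟩ else 0, ?_, ?_⟩
  · intro i j hi hj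
    have h1 : (G * H) ⟨j, hj⟩ ⟨i, hi⟩ = if i = j then 1 else 0 := by
      rw [hGH, Matrix.one_apply]
      simp only [Fin.mk.injEq]
      by_cases h : i = j
      · simp [h]
      · rw [if_neg h, if_neg (fun h' => h h'.symm)]
    rw [← h1, Matrix.mul_apply, Finset.sum_range]
    apply Finset.sum_congr rfl
    intro i' _
    beta_reduce
    rw [dif_pos (⟨i'.2, hi⟩ : (i' : ℕ) < 2 ^ l ∧ i < 2 ^ l), hG, Matrix.of_apply, mul_comm]
  · intro i' i hi' hi
    beta_reduce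
    rw [dif_pos (⟨hi', hi⟩ : i' < 2 ^ l ∧ i < 2 ^ l)]
    have h1 := hH ⟨i', hi'⟩ ⟨i, hi⟩
    have h2 : w ⟨i', hi'⟩ ⟨i, hi⟩ = (1 + N * rho (pt l i') (pt l i)) ^ (-K) := rfl
    rw [h2] at h1
    have hWp : 0 < (1 + N * rho (pt l i') (pt l i)) ^ (-K) := Real.rpow_pos_of_pos (hbase _ _) _
    have h3 : 2 * ε * (1 + N * rho (pt l i') (pt l i)) ^ (-K) ≤ (1 + N * rho (pt l i') (pt l i)) ^ (-K) := by
      nlinarith
    by_cases h : i' = i
    · subst h
      have h4 : rho (pt l i') (pt l i') = 0 := by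
        unfold rho; rw [minner_self (hT.unit _ _)]; simp
      rw [h4, mul_zero, add_zero, Real.one_rpow] at h1 h3 ⊢
      rw [Matrix.sub_apply, Matrix.one_apply_eq] at h1
      have h5 : ‖H ⟨i', hi'⟩ ⟨i', hi⟩‖ ≤ ‖H ⟨i', hi'⟩ ⟨i', hi⟩ - 1‖ + ‖(1 : ℂ)‖ := by
        have := norm_add_le (H ⟨i', hi'⟩ ⟨i', hi⟩ - 1) (1 : ℂ)
        rwa [sub_add_cancel] at this
      rw [norm_one] at h5
      linarith
    · rw [Matrix.sub_apply, Matrix.one_apply_ne (fun h' => h (congrArg Fin.val h')), sub_zero] at h1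
      linarith


lemma m_integrable {n : ℕ} (hn : 1 ≤ n) {g : E n → ℂ} (hg : Continuous g) :
    Integrable g (sig n) := by
  obtain ⟨C, hC⟩ := (isCompact_sphere (0 : E n) 1).exists_bound_of_continuousOn hg.continuousOn
  apply Integrable.of_bound hg.aestronglyMeasurable C
  filter_upwards [sig_ae_norm hn] with ξ hξ
  exact hC ξ (by simpa using hξ)

lemma m_orth {n : ℕ} {k k' : ℕ} (hkk : k ≠ k') (f g : E n → ℂ)
    (hf : ∀ (c : ℂ) (ξ : E n), f (c • ξ) = c ^ k * f ξ)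
    (hg : ∀ (c : ℂ) (ξ : E n), g (c • ξ) = c ^ k' * g ξ) :
    ∫ ξ, f ξ * (starRingEnd ℂ) (g ξ) ∂(sig n) = 0 := by
  have hne : (k : ℝ) - k' ≠ 0 := by
    rw [sub_ne_zero]; exact_mod_cast hkk
  set θ : ℝ := Real.pi / ((k : ℝ) - k') with hθ
  set e : ℂ := Complex.exp (θ * I) with he
  have h1 := integral_sig_isometry (rot n θ) (fun ξ => f ξ * (starRingEnd ℂ) (g ξ))
  have h2 : ∀ ξ : E n, f (rot n θ ξ) * (starRingEnd ℂ) (g (rot n θ ξ))
      = -(f ξ * (starRingEnd ℂ) (g ξ)) := by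
    intro ξ
    rw [rot_apply, hf, hg, map_mul, map_pow]
    have h3 : (starRingEnd ℂ) e = Complex.exp (-(θ * I)) := by
      rw [he, ← Complex.exp_conj]; simp
    have h4 : e ^ k * (starRingEnd ℂ) e ^ k' = -1 := by
      rw [h3, he, ← Complex.exp_nat_mul, ← Complex.exp_nat_mul, ← Complex.exp_add]
      have h5 : (k : ℂ) * (θ * I) + (k' : ℂ) * (-(θ * I)) = Real.pi * I := by
        have h6 : ((k : ℂ) - k') * θ = Real.pi := by
          have h7 : ((k : ℝ) - k') * θ = Real.pi := by rw [hθ]; field_simp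
          exact_mod_cast h7
        linear_combination I * h6
      rw [h5, Complex.exp_pi_mul_I]
    linear_combination (f ξ * (starRingEnd ℂ) (g ξ)) * h4
  simp_rw [h2] at h1
  rw [integral_neg] at h1
  have h8 : (2 : ℂ) * ∫ ξ, f ξ * (starRingEnd ℂ) (g ξ) ∂(sig n) = 0 := by
    linear_combination -h1
  have : (2 : ℂ) ≠ 0 := two_ne_zero
  exact (mul_eq_zero.mp h8).resolve_left this

/-- homogeneous parts -/
noncomputable def mHc {n : ℕ} (pt : ℕ → ℕ → E n) (δ N : ℝ) (l : ℕ) (h : ℕ → ℂ) (k : ℕ) (z : E n) : ℂ :=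
  (mCf δ N k : ℂ) * ∑ i' ∈ Finset.range (2 ^ l), h i' * (inner ℂ (pt l i') z) ^ k

/-- the molecule -/
noncomputable def mPsi {n : ℕ} (pt : ℕ → ℕ → E n) (δ N : ℝ) (l : ℕ) (h : ℕ → ℂ) (z : E n) : ℂ :=
  ∑ i' ∈ Finset.range (2 ^ l), h i' * mP δ N (inner ℂ (pt l i') z)

lemma mPsi_eq {n : ℕ} (pt : ℕ → ℕ → E n) (δ N : ℝ) (l : ℕ) (h : ℕ → ℂ) (z : E n) :
    mPsi pt δ N l h z = ∑ k ∈ Finset.range ⌈δ * N⌉₊, mHc pt δ N l h k z := by
  unfold mPsi mHc mP
  simp_rw [Finset.mul_sum]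
  rw [Finset.sum_comm]
  apply Finset.sum_congr rfl
  intro k _
  apply Finset.sum_congr rfl
  intro i _
  ring

lemma mHc_smul {n : ℕ} (pt : ℕ → ℕ → E n) (δ N : ℝ) (l : ℕ) (h : ℕ → ℂ) (k : ℕ) (c : ℂ) (z : E n) :
    mHc pt δ N l h k (c • z) = c ^ k * mHc pt δ N l h k z := by
  unfold mHc
  simp_rw [inner_smul_right, mul_pow]
  rw [Finset.mul_sum, Finset.mul_sum, Finset.mul_sum]
  apply Finset.sum_congr rfl
  intro i _
  ring

lemma mHc_cont {n : ℕ} (pt : ℕ → ℕ → E n) (δ N : ℝ) (l : ℕ) (h : ℕ → ℂ) (k : ℕ) :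
    Continuous (mHc pt δ N l h k) := by
  unfold mHc
  fun_prop

lemma mHc_diff {n : ℕ} (pt : ℕ → ℕ → E n) (δ N : ℝ) (l : ℕ) (h : ℕ → ℂ) (k : ℕ) :
    Differentiable ℂ (mHc pt δ N l h k) := by
  unfold mHc
  apply Differentiable.const_mul
  apply Differentiable.fun_sum
  intro i _
  apply Differentiable.const_mul
  apply Differentiable.pow
  exact (innerSL ℂ (pt l i)).differentiable

lemma mPsi_diff {n : ℕ} (pt : ℕ → ℕ → E n) (δ N : ℝ) (l : ℕ) (h : ℕ → ℂ) :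
    Differentiable ℂ (mPsi pt δ N l h) := by
  have : mPsi pt δ N l h =
      fun z => ∑ k ∈ Finset.range ⌈δ * N⌉₊, mHc pt δ N l h k z := by
    funext z; exact mPsi_eq _ _ _ _ _ _
  rw [this]
  exact Differentiable.fun_sum (fun k _ => mHc_diff _ _ _ _ _ _)

lemma m_rad {r : ℝ} (hr0 : 0 ≤ r) (hr1 : r ≤ 1) {u : ℂ} (hu1 : ‖u‖ ≤ 1) :
    ‖(r : ℂ) * u‖ ≤ 1 ∧ ‖1 - u‖ ≤ 2 * ‖1 - (r : ℂ) * u‖ := by
  have hru : ‖(r : ℂ) * u‖ = r * ‖u‖ := by
    rw [norm_mul, Complex.norm_real, Real.norm_eq_abs, abs_of_nonneg hr0]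
  have hu0 := norm_nonneg u
  have hru1 : ‖(r : ℂ) * u‖ ≤ r := by
    rw [hru]; exact mul_le_of_le_one_right hr0 hu1
  refine ⟨hru1.trans hr1, ?_⟩
  have e1 : ‖1 - u‖ ≤ ‖1 - (r : ℂ) * u‖ + ‖(r : ℂ) * u - u‖ := by
    have := norm_add_le (1 - (r : ℂ) * u) ((r : ℂ) * u - u)
    rwa [sub_add_sub_cancel] at this
  have e2 : ‖(r : ℂ) * u - u‖ ≤ 1 - r := by
    have : (r : ℂ) * u - u = ((r - 1 : ℝ) : ℂ) * u := by push_cast; ring
    rw [this, norm_mul, Complex.norm_real, Real.norm_eq_abs, abs_of_nonpos (by linarith), neg_sub]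
    exact mul_le_of_le_one_right (by linarith) hu1
  have e3 : 1 - r ≤ ‖1 - (r : ℂ) * u‖ := by
    have e4 := norm_sub_norm_le (1 : ℂ) ((r : ℂ) * u)
    rw [norm_one] at e4
    linarith
  linarith

lemma m_rpow {N K x y : ℝ} (hN : 0 ≤ N) (hK : 0 ≤ K) (hx : 0 ≤ x) (hxy : x ≤ 2 * y) :
    (1 + N * y) ^ (-(K + 1)) ≤ 2 ^ (K + 1) * (1 + N * x) ^ (-K) := by
  have hW : 1 ≤ 1 + N * x := by
    have := mul_nonneg hN hx; linarith
  have h2K : 0 < (2 : ℝ) ^ (K + 1) := Real.rpow_pos_of_pos (by norm_num) _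
  have e1 : (1 + N * x) / 2 ≤ 1 + N * y := by
    have := mul_le_mul_of_nonneg_left hxy hN
    linarith
  have e2 : (1 + N * y) ^ (-(K + 1)) ≤ ((1 + N * x) / 2) ^ (-(K + 1)) :=
    Real.rpow_le_rpow_of_nonpos (by linarith) e1 (by linarith)
  refine e2.trans ?_
  rw [Real.div_rpow (by linarith) (by norm_num), Real.rpow_neg (by norm_num : (0:ℝ) ≤ 2), div_inv_eq_mul,
    mul_comm]
  apply mul_le_mul_of_nonneg_left _ h2K.le
  exact Real.rpow_le_rpow_of_exponent_le hW (by linarith)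

lemma mPsi_hc {n : ℕ} (pt : ℕ → ℕ → E n) (δ N : ℝ) (l : ℕ) (h : ℕ → ℂ) (k : ℕ) (ζ : E n) :
    hc (mPsi pt δ N l h) k ζ = if k < ⌈δ * N⌉₊ then mHc pt δ N l h k ζ else 0 := by
  unfold hc
  have : (fun z : ℂ => mPsi pt δ N l h (z • ζ)) =
      fun z => ∑ k ∈ Finset.range ⌈δ * N⌉₊, mHc pt δ N l h k ζ * z ^ k := by
    funext z
    rw [mPsi_eq]
    apply Finset.sum_congr rfl
    intro k _
    rw [mHc_smul]; ring
  rw [this]
  exact tc_poly _ _ _

lemma mPsi_hc_supp {n : ℕ} (pt : ℕ → ℕ → E n) {δ N : ℝ} (hδ : 1 < δ) (hN : 0 < N) (l : ℕ) (h : ℕ → ℂ)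
    (k : ℕ) (ζ : E n) (hne : hc (mPsi pt δ N l h) k ζ ≠ 0) : N < k ∧ (k : ℝ) < δ * N := by
  rw [mPsi_hc] at hne
  apply mCf_supp hδ hN
  intro h0
  apply hne
  split_ifs
  · unfold mHc; rw [h0]; simp
  · rfl

lemma mPsi_orth {n : ℕ} (hn : 1 ≤ n) (pt : ℕ → ℕ → E n) {δ N N' : ℝ} (hδ : 1 < δ) (hN : 0 < N)
    (hNN : δ * N ≤ N') (l m : ℕ) (h h' : ℕ → ℂ) (r : ℝ) :
    ∫ ξ, mPsi pt δ N l h ((r : ℂ) • ξ) * (starRingEnd ℂ) (mPsi pt δ N' m h' ((r : ℂ) • ξ)) ∂(sig n)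
      = 0 := by
  have hN' : 0 < N' := by nlinarith
  have h1 : ∀ ξ : E n, mPsi pt δ N l h ((r : ℂ) • ξ) * (starRingEnd ℂ) (mPsi pt δ N' m h' ((r : ℂ) • ξ))
      = ∑ k ∈ Finset.range ⌈δ * N⌉₊, ∑ k' ∈ Finset.range ⌈δ * N'⌉₊,
        mHc pt δ N l h k ((r : ℂ) • ξ) * (starRingEnd ℂ) (mHc pt δ N' m h' k' ((r : ℂ) • ξ)) := by
    intro ξ
    rw [mPsi_eq, mPsi_eq, map_sum, Finset.sum_mul_sum]
  simp_rw [h1]
  have hcont : ∀ k k', Continuous fun ξ : E n =>
      mHc pt δ N l h k ((r : ℂ) • ξ) * (starRingEnd ℂ) (mHc pt δ N' m h' k' ((r : ℂ) • ξ)) := by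
    intro k k'
    have c1 : Continuous fun ξ : E n => mHc pt δ N l h k ((r : ℂ) • ξ) :=
      (mHc_cont pt δ N l h k).comp (continuous_const_smul _)
    have c2 : Continuous fun ξ : E n => mHc pt δ N' m h' k' ((r : ℂ) • ξ) :=
      (mHc_cont pt δ N' m h' k').comp (continuous_const_smul _)
    exact c1.mul (Complex.continuous_conj.comp c2)
  rw [integral_finsetSum]
  · apply Finset.sum_eq_zero
    intro k _
    rw [integral_finsetSum]
    · apply Finset.sum_eq_zero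
      intro k' _
      by_cases hz : mCf δ N k = 0
      · have h0 : ∀ ξ : E n, mHc pt δ N l h k ((r : ℂ) • ξ) = 0 := by
          intro ξ; unfold mHc; rw [hz]; simp
        have h2 : (fun ξ : E n => mHc pt δ N l h k ((r : ℂ) • ξ) *
            (starRingEnd ℂ) (mHc pt δ N' m h' k' ((r : ℂ) • ξ))) = fun _ => 0 := by
          funext ξ; rw [h0, zero_mul]
        rw [h2, integral_zero]
      by_cases hz' : mCf δ N' k' = 0
      · have h0 : ∀ ξ : E n, mHc pt δ N' m h' k' ((r : ℂ) • ξ) = 0 := by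
          intro ξ; unfold mHc; rw [hz']; simp
        have h2 : (fun ξ : E n => mHc pt δ N l h k ((r : ℂ) • ξ) *
            (starRingEnd ℂ) (mHc pt δ N' m h' k' ((r : ℂ) • ξ))) = fun _ => 0 := by
          funext ξ; rw [h0, map_zero, mul_zero]
        rw [h2, integral_zero]
      have s1 := mCf_supp hδ hN hz
      have s2 := mCf_supp hδ hN' hz'
      have hkk : k ≠ k' := by
        intro heq
        rw [heq] at s1
        linarith [s1.2, s2.1]
      apply m_orth hkk (fun ξ => mHc pt δ N l h k ((r : ℂ) • ξ)) (fun ξ => mHc pt δ N' m h' k' ((r : ℂ) • ξ))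
      · intro c ξ
        show mHc pt δ N l h k ((r : ℂ) • (c • ξ)) = _
        rw [smul_comm, mHc_smul]
      · intro c ξ
        show mHc pt δ N' m h' k' ((r : ℂ) • (c • ξ)) = _
        rw [smul_comm, mHc_smul]
    · intro k' _
      exact m_integrable hn (hcont k k')
  · intro k _
    exact integrable_finsetSum _ (fun k' _ => m_integrable hn (hcont k k'))

/-- TARGET -/
theorem molecules (n : ℕ) (hn : 1 ≤ n) (pt : ℕ → ℕ → E n) (c C : ℝ) (hT : TreeFam n pt c C)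
    (K : ℝ) (hK : (n : ℝ) < K) :
    ∃ (A B : ℝ) (β : ℝ → ℝ) (a b : ℝ) (Ψ : ℕ → ℕ → E n → ℂ), 0 < A ∧ 0 ≤ B ∧ Bump β a b ∧
      (∀ l i, Differentiable ℂ (Ψ l i)) ∧
      (∀ l i, i < 2 ^ l → ∀ ξ : E n, ‖ξ‖ = 1 → ∀ r : ℝ, 0 ≤ r → r ≤ 1 →
        ‖Ψ l i ((r : ℂ) • ξ)‖ ≤ B * (1 + A * sc n l * rho ξ (pt l i)) ^ (-K)) ∧
      (∀ l m i j, l + 1 ≤ m → ∀ r : ℝ, 0 ≤ r → r ≤ 1 →
        ∫ ξ, Ψ l i ((r : ℂ) • ξ) * (starRingEnd ℂ) (Ψ m j ((r : ℂ) • ξ)) ∂(sig n) = 0) ∧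
      (∀ l i j, i < 2 ^ l → j < 2 ^ l → Ψ l i (pt l j) = if i = j then 1 else 0) ∧
      (∀ (l m i k : ℕ) (ζ : E n), l ≠ m → (β ((k : ℝ) / (A * sc n m)) : ℂ) * hc (Ψ l i) k ζ = 0) ∧
      (∀ (l i k : ℕ) (ζ : E n), (β ((k : ℝ) / (A * sc n l)) : ℂ) * hc (Ψ l i) k ζ = hc (Ψ l i) k ζ) ∧
      (∀ l i, i < 2 ^ l → ∀ z : E n, ‖z‖ ≤ 1 → ‖Ψ l i z‖ ≤ B * ‖z‖ ^ (sc n l)) := by
  have hn0 : (0 : ℝ) < n := by
    have : 0 < n := hn
    exact_mod_cast this
  have hK0 : 0 ≤ K := by linarith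
  have hcp := hT.cpos
  -- the numbers
  set δ : ℝ := (2 : ℝ) ^ (1 / (4 * (n : ℝ))) with hδ
  set a : ℝ := (2 : ℝ) ^ (-(1 / (4 * (n : ℝ)))) with ha
  set b : ℝ := (2 : ℝ) ^ (1 / (2 * (n : ℝ))) with hb
  set q : ℝ := (2 : ℝ) ^ (1 / (n : ℝ)) with hq
  have hδ1 : 1 < δ := Real.one_lt_rpow (by norm_num) (by positivity)
  have ha0 : 0 < a := by positivity
  have ha1 : a < 1 := Real.rpow_lt_one_of_one_lt_of_neg (by norm_num) (by
    have : 0 < 1 / (4 * (n : ℝ)) := by positivity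
    linarith)
  have hδb : δ < b := by
    apply Real.rpow_lt_rpow_of_exponent_lt (by norm_num)
    apply one_div_lt_one_div_of_lt (by positivity)
    linarith
  have hbq : b ≤ q := by
    apply Real.rpow_le_rpow_of_exponent_le (by norm_num)
    apply one_div_le_one_div_of_le hn0
    linarith
  have hq0 : 0 < q := by positivity
  have hδaq : δ ≤ a * q := by
    rw [hδ, ha, hq, ← Real.rpow_add (by norm_num)]
    apply Real.rpow_le_rpow_of_exponent_le (by norm_num)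
    have e1 : -(1 / (4 * (n : ℝ))) + 1 / (n : ℝ) = 3 / (4 * n) := by field_simp; ring
    rw [e1]
    apply div_le_div_of_nonneg_right _ (by positivity)
    norm_num
  have hscq : ∀ l m, l + 1 ≤ m → sc n l * q ≤ sc n m := by
    intro l m hlm
    rw [hq]; unfold sc
    rw [← Real.rpow_add (by norm_num)]
    apply Real.rpow_le_rpow_of_exponent_le (by norm_num)
    rw [← add_div]
    apply div_le_div_of_nonneg_right _ hn0.le
    exact_mod_cast hlm
  -- the constants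
  obtain ⟨D, hD0, hD⟩ := counting n hn pt c C hT K hK
  obtain ⟨c₀, N₀, hc₀, hN₀, hkap⟩ := mKap_lower hδ1
  set M : ℕ := ⌈K + 1⌉₊ with hM
  have hMK : K + 1 ≤ (M : ℝ) := Nat.le_ceil _
  obtain ⟨C₀, hC₀, hker⟩ := multiplier_kernel (mAl δ) 1 δ (mAl_bump hδ1) M N₀ hN₀
  set CP : ℝ := C₀ / c₀ with hCP
  have hCP0 : 0 < CP := by positivity
  have h4K : 0 < (4 : ℝ) ^ K := Real.rpow_pos_of_pos (by norm_num) _
  set C₁ : ℝ := 4 ^ K * (2 * D) with hC₁
  have hC₁0 : 0 < C₁ := by positivity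
  set A : ℝ := max 1 (max N₀ (2 * CP * (C₁ + 1) / c)) with hA
  have hA1 : 1 ≤ A := le_max_left _ _
  have hAN : N₀ ≤ A := (le_max_left _ _).trans (le_max_right _ _)
  have hAc : 2 * CP * (C₁ + 1) ≤ A * c := by
    have : 2 * CP * (C₁ + 1) / c ≤ A := (le_max_right _ _).trans (le_max_right _ _)
    rwa [div_le_iff₀ hcp] at this
  have hA0 : 0 < A := by linarith
  have hNpos : ∀ l, 0 < A * sc n l := fun l => mul_pos hA0 (msc_pos n l)
  have hNN₀ : ∀ l, N₀ ≤ A * sc n l := fun l =>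
    hAN.trans (le_mul_of_one_le_right hA0.le (msc_one n l))
  have hkapne : ∀ l, mKap δ (A * sc n l) ≠ 0 := by
    intro l
    have := hkap _ (hNN₀ l)
    have h2 : 0 < c₀ * (A * sc n l) := mul_pos hc₀ (hNpos l)
    linarith
  have hPd : ∀ l, ∀ w : ℂ, ‖w‖ ≤ 1 → ‖mP δ (A * sc n l) w‖ ≤
      CP * (1 + A * sc n l * ‖1 - w‖) ^ (-(K + 1)) := by
    intro l w hw
    set N := A * sc n l with hN
    have hNp : 0 < N := hNpos l
    rw [mP_eq hδ1 hNp, norm_div, Complex.norm_real, Real.norm_eq_abs]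
    have h1 := hkap N (hNN₀ l)
    have h2 : 0 < mKap δ N := lt_of_lt_of_le (mul_pos hc₀ hNp) h1
    rw [abs_of_pos h2, div_le_iff₀ h2]
    have h3 := hker N (hNN₀ l) w hw
    have hb1 : 1 ≤ 1 + N * ‖1 - w‖ := by
      have := mul_nonneg hNp.le (norm_nonneg (1 - w)); linarith
    have h4 : (1 + N * ‖1 - w‖) ^ (-(M : ℝ)) ≤ (1 + N * ‖1 - w‖) ^ (-(K + 1)) :=
      Real.rpow_le_rpow_of_exponent_le hb1 (by linarith)
    have hp : 0 ≤ (1 + N * ‖1 - w‖) ^ (-(K + 1)) := Real.rpow_nonneg (by linarith) _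
    calc ‖ker (mAl δ) N w‖ ≤ C₀ * N * (1 + N * ‖1 - w‖) ^ (-(M : ℝ)) := h3
      _ ≤ C₀ * N * (1 + N * ‖1 - w‖) ^ (-(K + 1)) :=
          mul_le_mul_of_nonneg_left h4 (by positivity)
      _ = CP * (1 + N * ‖1 - w‖) ^ (-(K + 1)) * (c₀ * N) := by
          rw [hCP]; field_simp
      _ ≤ CP * (1 + N * ‖1 - w‖) ^ (-(K + 1)) * mKap δ N :=
          mul_le_mul_of_nonneg_left h1 (mul_nonneg hCP0.le hp)
  have h1Ac : 0 < 1 + A * c := by positivity
  have hε2 : CP / (1 + A * c) ≤ 1 / 2 := by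
    rw [div_le_iff₀ h1Ac]
    have := mul_pos hCP0 hC₁0
    linarith
  have hε1 : CP / (1 + A * c) * C₁ ≤ 1 / 2 := by
    rw [div_mul_eq_mul_div, div_le_iff₀ h1Ac]
    linarith
  have hmat := fun l => m_matrix hT hA1 hK0 hD0 hCP0 hD l (mP_one (hkapne l)) (hPd l) hε1 hε2
  choose H hH1 hH2 using hmat
  have h2K : 0 < (2 : ℝ) ^ (K + 1) := Real.rpow_pos_of_pos (by norm_num) _
  set B : ℝ := 2 * CP * 2 ^ (K + 1) * C₁ + 2 * D with hB
  have hbase : ∀ (l : ℕ) (x y : E n), 0 < 1 + A * sc n l * rho x y := by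
    intro l x y
    have := mul_nonneg (hNpos l).le (rho_nonneg x y); linarith
  refine ⟨A, B, mBe a b δ, a, b, fun l i => mPsi pt δ (A * sc n l) l (fun i' => H l i' i), hA0,
    by positivity, mBe_bump ha0 ha1 hδ1.le hδb, ?_, ?_, ?_, ?_, ?_, ?_, ?_⟩
  · intro l i
    exact mPsi_diff pt δ (A * sc n l) l (fun i' => H l i' i)
  · intro l i hi ξ hξ r hr0 hr1
    set N := A * sc n l with hN
    have hNp : 0 < N := hNpos l
    have hterm : ∀ i' ∈ Finset.range (2 ^ l),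
        ‖H l i' i * mP δ N (inner ℂ (pt l i') ((r : ℂ) • ξ))‖ ≤
          (2 * CP * 2 ^ (K + 1)) * ((1 + N * rho ξ (pt l i')) ^ (-K) *
            (1 + N * rho (pt l i') (pt l i)) ^ (-K)) := by
      intro i' hi'
      rw [Finset.mem_range] at hi'
      rw [norm_mul, inner_smul_right]
      set u : ℂ := inner ℂ (pt l i') ξ with hu
      have hu1 : ‖u‖ ≤ 1 := by
        refine (norm_inner_le_norm _ _).trans ?_
        rw [hT.unit, hξ]; norm_num
      obtain ⟨hru, h3⟩ := m_rad hr0 hr1 hu1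
      have h1 := hPd l _ hru
      have h2 := hH2 l i' i hi' hi
      have hρ : ‖1 - u‖ = rho ξ (pt l i') := by rw [rho_comm]; rfl
      rw [hρ] at h3
      have h4 := m_rpow hNp.le hK0 (rho_nonneg ξ (pt l i')) h3
      have p1 : 0 ≤ (1 + N * rho (pt l i') (pt l i)) ^ (-K) := Real.rpow_nonneg (hbase _ _ _).le _
      have p2 : 0 ≤ (1 + N * rho ξ (pt l i')) ^ (-K) := Real.rpow_nonneg (hbase _ _ _).le _
      calc ‖H l i' i‖ * ‖mP δ N ((r : ℂ) * u)‖
          ≤ (2 * (1 + N * rho (pt l i') (pt l i)) ^ (-K)) *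
            (CP * (2 ^ (K + 1) * (1 + N * rho ξ (pt l i')) ^ (-K))) := by
            apply mul_le_mul h2 _ (norm_nonneg _) (by positivity)
            exact h1.trans (mul_le_mul_of_nonneg_left h4 hCP0.le)
        _ = _ := by ring
    have hsum := mW_sum' hT.unit hA1 hK0 hD l ξ (pt l i) hξ (hT.unit _ _)
    have pW : 0 ≤ (1 + N * rho ξ (pt l i)) ^ (-K) := Real.rpow_nonneg (hbase _ _ _).le _
    calc ‖mPsi pt δ N l (fun i' => H l i' i) ((r : ℂ) • ξ)‖
        ≤ ∑ i' ∈ Finset.range (2 ^ l), (2 * CP * 2 ^ (K + 1)) * ((1 + N * rho ξ (pt l i')) ^ (-K) *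
            (1 + N * rho (pt l i') (pt l i)) ^ (-K)) := norm_sum_le_of_le _ hterm
      _ = (2 * CP * 2 ^ (K + 1)) * ∑ i' ∈ Finset.range (2 ^ l), ((1 + N * rho ξ (pt l i')) ^ (-K) *
            (1 + N * rho (pt l i') (pt l i)) ^ (-K)) := by rw [← Finset.mul_sum]
      _ ≤ (2 * CP * 2 ^ (K + 1)) * (C₁ * (1 + N * rho ξ (pt l i)) ^ (-K)) :=
          mul_le_mul_of_nonneg_left hsum (by positivity)
      _ ≤ B * (1 + N * rho ξ (pt l i)) ^ (-K) := by
          rw [hB]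
          have := mul_nonneg hD0.le pW
          linarith
  · intro l m i j hlm r _ _
    apply mPsi_orth hn pt hδ1 (hNpos l)
    have h1 := hscq l m hlm
    have h2 : δ * (A * sc n l) ≤ q * (A * sc n l) :=
      mul_le_mul_of_nonneg_right (hδb.le.trans hbq) (hNpos l).le
    have h3 : A * (sc n l * q) ≤ A * sc n m := mul_le_mul_of_nonneg_left h1 hA0.le
    linarith
  · intro l i j hi hj
    exact hH1 l i j hi hj
  · intro l m i k ζ hlm
    by_cases h0 : hc (mPsi pt δ (A * sc n l) l (fun i' => H l i' i)) k ζ = 0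
    · rw [h0, mul_zero]
    · obtain ⟨s1, s2⟩ := mPsi_hc_supp pt hδ1 (hNpos l) l _ k ζ h0
      have hβ : mBe a b δ ((k : ℝ) / (A * sc n m)) = 0 := by
        rcases lt_or_gt_of_ne hlm with h | h
        · apply (mBe_bump ha0 ha1 hδ1.le hδb).lo
          rw [div_le_iff₀ (hNpos m)]
          have h1 := mul_le_mul_of_nonneg_left (hscq l m h) hA0.le
          have h2 : δ * (A * sc n l) ≤ (a * q) * (A * sc n l) :=
            mul_le_mul_of_nonneg_right hδaq (hNpos l).le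
          have h3 : a * (A * (sc n l * q)) ≤ a * (A * sc n m) := mul_le_mul_of_nonneg_left h1 ha0.le
          linarith
        · apply (mBe_bump ha0 ha1 hδ1.le hδb).hi
          rw [le_div_iff₀ (hNpos m)]
          have h1 := mul_le_mul_of_nonneg_left (hscq m l h) hA0.le
          have h2 : b * (A * sc n m) ≤ q * (A * sc n m) :=
            mul_le_mul_of_nonneg_right hbq (hNpos m).le
          linarith
      rw [hβ]; simp
  · intro l i k ζ
    by_cases h0 : hc (mPsi pt δ (A * sc n l) l (fun i' => H l i' i)) k ζ = 0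
    · rw [h0, mul_zero]
    · obtain ⟨s1, s2⟩ := mPsi_hc_supp pt hδ1 (hNpos l) l _ k ζ h0
      have hβ : mBe a b δ ((k : ℝ) / (A * sc n l)) = 1 := by
        apply mBe_one ha1 hδb
        · rw [one_le_div (hNpos l)]; exact s1.le
        · rw [div_le_iff₀ (hNpos l)]; exact s2.le
      rw [hβ]; simp
  · intro l i hi z hz
    set N := A * sc n l with hN
    have hNp : 0 < N := hNpos l
    have hterm : ∀ i' ∈ Finset.range (2 ^ l),
        ‖H l i' i * mP δ N (inner ℂ (pt l i') z)‖ ≤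
          (2 * ‖z‖ ^ N) * (1 + N * rho (pt l i) (pt l i')) ^ (-K) := by
      intro i' hi'
      rw [Finset.mem_range] at hi'
      rw [norm_mul]
      have hu : ‖(inner ℂ (pt l i') z : ℂ)‖ ≤ ‖z‖ := by
        refine (norm_inner_le_norm _ _).trans ?_
        rw [hT.unit, one_mul]
      have h1 := mP_pow hδ1 hNp (hkapne l) _ (hu.trans hz)
      have h2 := hH2 l i' i hi' hi
      have h3 : ‖(inner ℂ (pt l i') z : ℂ)‖ ^ N ≤ ‖z‖ ^ N :=
        Real.rpow_le_rpow (norm_nonneg _) hu hNp.le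
      have p1 : 0 ≤ (1 + N * rho (pt l i') (pt l i)) ^ (-K) := Real.rpow_nonneg (hbase _ _ _).le _
      calc ‖H l i' i‖ * ‖mP δ N (inner ℂ (pt l i') z)‖
          ≤ (2 * (1 + N * rho (pt l i') (pt l i)) ^ (-K)) * ‖z‖ ^ N :=
            mul_le_mul h2 (h1.trans h3) (norm_nonneg _) (by positivity)
        _ = _ := by rw [rho_comm]; ring
    have hsum := mW_sum hA1 hK0 hD l (pt l i) (hT.unit _ _)
    have hzN : 0 ≤ ‖z‖ ^ N := Real.rpow_nonneg (norm_nonneg _) _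
    have hzN2 : ‖z‖ ^ N ≤ ‖z‖ ^ (sc n l) := by
      apply Real.rpow_le_rpow_of_exponent_ge' (norm_nonneg _) hz (msc_pos n l).le
      exact le_mul_of_one_le_left (msc_pos n l).le hA1
    have pz : 0 ≤ ‖z‖ ^ (sc n l) := Real.rpow_nonneg (norm_nonneg _) _
    calc ‖mPsi pt δ N l (fun i' => H l i' i) z‖
        ≤ ∑ i' ∈ Finset.range (2 ^ l), (2 * ‖z‖ ^ N) * (1 + N * rho (pt l i) (pt l i')) ^ (-K) :=
          norm_sum_le_of_le _ hterm
      _ = (2 * ‖z‖ ^ N) * ∑ i' ∈ Finset.range (2 ^ l), (1 + N * rho (pt l i) (pt l i')) ^ (-K) := by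
          rw [← Finset.mul_sum]
      _ ≤ (2 * ‖z‖ ^ N) * D := mul_le_mul_of_nonneg_left hsum (by positivity)
      _ ≤ (2 * ‖z‖ ^ (sc n l)) * D := by
          apply mul_le_mul_of_nonneg_right _ hD0.le
          linarith
      _ ≤ B * ‖z‖ ^ (sc n l) := by
          rw [hB]
          have : 0 ≤ 2 * CP * 2 ^ (K + 1) * C₁ * ‖z‖ ^ (sc n l) := by positivity
          linarith

end Pool.Agent.HpBall
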