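import Mathlib
import Pool.Agent.HpBall.Defs2
import Pool.Agent.HpBall.Geom
import Pool.Agent.HpBall.Sphere
import Pool.Agent.HpBall.Growth

set_option autoImplicit false

open MeasureTheory Complex
open scoped ENNReal NNReal

namespace Pool.Agent.HpBall

lemma one_sub_ge (r : ℝ) (hr0 : 0 ≤ r) (hr1 : r ≤ 1) (l : ℂ) (hl : ‖l‖ ≤ 1) :
    (1 - r + ‖1 - l‖ / 2) / 2 ≤ ‖1 - (r : ℂ) * l‖ := by
  have h1 : 1 - r ≤ ‖1 - (r : ℂ) * l‖ := by
    have h := norm_sub_norm_le (1 : ℂ) ((r : ℂ) * l)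
    rw [norm_one, norm_mul, Complex.norm_real, Real.norm_of_nonneg hr0] at h
    have : r * ‖l‖ ≤ r * 1 := mul_le_mul_of_nonneg_left hl hr0
    linarith
  have h2 : ‖1 - l‖ ≤ ‖1 - (r : ℂ) * l‖ + (1 - r) := by
    have e : 1 - l = (1 - (r : ℂ) * l) + (-((1 - r : ℝ) : ℂ) * l) := by push_cast; ring
    rw [e]
    refine le_trans (norm_add_le _ _) ?_
    have : ‖-((1 - r : ℝ) : ℂ) * l‖ ≤ 1 - r := by
      rw [norm_mul, norm_neg, Complex.norm_real, Real.norm_of_nonneg (by linarith)]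
      have := mul_le_mul_of_nonneg_left hl (show 0 ≤ 1 - r by linarith)
      linarith
    linarith
  linarith

/-- TARGET -/
theorem localized (n : ℕ) (hn : 1 ≤ n) (s : ℝ) (hs : 0 < s) (hs2 : s ≤ 2) (K : ℝ) (hK : 0 ≤ K)
    (X₀ : ℝ) (hX : 0 < X₀) : ∃ C : ℝ, 0 < C ∧
    ∀ (F : E n → ℂ) (R₀ : ℝ), 1 < R₀ → DifferentiableOn ℂ F (Metric.ball 0 R₀) →
    ∀ ζ : E n, ‖ζ‖ = 1 → ∀ t : ℝ, 0 < t → t ≤ X₀ →
      ENNReal.ofReal (‖F ((Real.exp (-t) : ℂ) • ζ)‖ ^ s) ≤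
        ENNReal.ofReal (C * t ^ (-(n : ℝ))) *
          ∫⁻ ξ, ENNReal.ofReal (‖F ξ‖ ^ s * (1 + rho ξ ζ / t) ^ (-K)) ∂(sig n) := by
  obtain ⟨C₀, hC₀, hg⟩ := growth n hn s hs hs2
  obtain ⟨m, hm⟩ := exists_nat_ge (K / s)
  have hms : K ≤ m * s := by rwa [div_le_iff₀ hs] at hm
  set c : ℝ := 1 / (1 + X₀) with hc
  have hcpos : 0 < c := by positivity
  have hc1 : c ≤ 1 := by
    rw [hc, div_le_one (by positivity)]; linarith
  set A : ℝ := 8 / c with hA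
  have hApos : 0 < A := by positivity
  refine ⟨C₀ * c ^ (-(n : ℝ)) * A ^ (m * s), by positivity, ?_⟩
  intro F R₀ hR₀ hF ζ hζ t ht htX
  set r : ℝ := Real.exp (-t) with hr
  have hr0 : 0 < r := Real.exp_pos _
  have hr1 : r < 1 := by rw [hr, Real.exp_lt_one_iff]; linarith
  have h1r : c * t ≤ 1 - r := by
    have h1 : (1 + t) * r ≤ 1 := by
      have h2 : 1 + t ≤ Real.exp t := by linarith [Real.add_one_le_exp t]
      have h3 : (1 + t) * r ≤ Real.exp t * r := mul_le_mul_of_nonneg_right h2 hr0.le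
      rw [hr, ← Real.exp_add, add_neg_cancel, Real.exp_zero] at h3
      rw [hr]; exact h3
    have h4 : c * (1 + t) ≤ 1 := by
      rw [hc, div_mul_eq_mul_div, one_mul, div_le_one (by positivity)]; linarith
    -- t r ≤ 1 - r, and c t ≤ t / (1 + t) ≤ 1 - r
    have h5 : c * t * (1 + t) ≤ (1 - r) * (1 + t) := by nlinarith
    exact le_of_mul_le_mul_right h5 (by positivity)
  have h2r : 1 - r ^ 2 ≤ 2 * t := by
    have h1 : r ^ 2 = Real.exp (-(2 * t)) := by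
      rw [hr, sq, ← Real.exp_add]; congr 1; ring
    rw [h1]
    linarith [Real.add_one_le_exp (-(2 * t))]
  have h2r0 : 0 ≤ 1 - r ^ 2 := by nlinarith
  -- the auxiliary function
  set G : E n → ℂ := fun z => ((1 - r ^ 2 : ℝ) : ℂ) / (1 - (r : ℂ) * inner ℂ ζ z) with hG
  have hinner : ∀ z : E n, ‖(inner ℂ ζ z : ℂ)‖ ≤ ‖z‖ := by
    intro z
    have := norm_inner_le_norm (𝕜 := ℂ) ζ z
    rwa [hζ, one_mul] at this
  set R₁ : ℝ := min R₀ r⁻¹ with hR₁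
  have hR₁1 : 1 < R₁ := lt_min hR₀ ((one_lt_inv₀ hr0).mpr hr1)
  have hden : DifferentiableOn ℂ (fun z : E n => (1 : ℂ) - (r : ℂ) * inner ℂ ζ z)
      (Metric.ball 0 R₁) := by
    apply DifferentiableOn.fun_sub (differentiableOn_const _)
    apply DifferentiableOn.fun_mul (differentiableOn_const _)
    exact (innerSL ℂ ζ).differentiable.differentiableOn
  have hden0 : ∀ z ∈ Metric.ball (0 : E n) R₁, (1 : ℂ) - (r : ℂ) * inner ℂ ζ z ≠ 0 := by
    intro z hz h0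
    rw [mem_ball_zero_iff] at hz
    have h1 : ‖(r : ℂ) * inner ℂ ζ z‖ = 1 := by
      have : (r : ℂ) * inner ℂ ζ z = 1 := (sub_eq_zero.mp h0).symm
      rw [this, norm_one]
    rw [norm_mul, Complex.norm_real, Real.norm_of_nonneg hr0.le] at h1
    have h2 : r * ‖(inner ℂ ζ z : ℂ)‖ ≤ r * ‖z‖ := mul_le_mul_of_nonneg_left (hinner z) hr0.le
    have h3 : r * ‖z‖ < r * r⁻¹ :=
      mul_lt_mul_of_pos_left (lt_of_lt_of_le hz (min_le_right _ _)) hr0
    rw [mul_inv_cancel₀ hr0.ne'] at h3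
    linarith
  have hGd : DifferentiableOn ℂ G (Metric.ball 0 R₁) := by
    rw [hG]
    have h := (differentiableOn_const (𝕜 := ℂ) (s := Metric.ball (0 : E n) R₁)
      ((1 - r ^ 2 : ℝ) : ℂ)).fun_mul (hden.fun_inv hden0)
    refine h.congr ?_
    intro z _
    simp only [div_eq_mul_inv]
  have hF1 : DifferentiableOn ℂ (fun z => F z * G z ^ m) (Metric.ball 0 R₁) := by
    exact (hF.mono (Metric.ball_subset_ball (min_le_left _ _))).fun_mul (hGd.fun_pow m)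
  have hmain := hg (fun z => F z * G z ^ m) R₁ hR₁1 hF1 ζ hζ r hr0.le hr1
  have hGζ : G ((r : ℂ) • ζ) = 1 := by
    simp only [hG]
    rw [inner_smul_right, inner_self_eq_norm_sq_to_K, hζ]
    have h1 : (1 : ℂ) - (r : ℂ) * ((r : ℂ) * ((1 : ℝ) : ℂ) ^ 2) = ((1 - r ^ 2 : ℝ) : ℂ) := by
      push_cast; ring
    have h2 : ((1 - r ^ 2 : ℝ) : ℂ) ≠ 0 := by
      have : (1 - r ^ 2 : ℝ) ≠ 0 := by nlinarith
      exact_mod_cast this
    erw [h1]
    exact div_self h2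
  simp only [hGζ, one_pow, mul_one] at hmain
  refine le_trans hmain ?_
  -- pointwise bound
  have hpt : ∀ᵐ ξ ∂(sig n), ENNReal.ofReal (‖F ξ * G ξ ^ m‖ ^ s) ≤
      ENNReal.ofReal (A ^ (m * s)) *
        ENNReal.ofReal (‖F ξ‖ ^ s * (1 + rho ξ ζ / t) ^ (-K)) := by
    filter_upwards [sig_ae_norm hn] with ξ hξ
    rw [← ENNReal.ofReal_mul (by positivity)]
    apply ENNReal.ofReal_le_ofReal
    have hρ : rho ξ ζ = ‖1 - (inner ℂ ζ ξ : ℂ)‖ := by rw [rho_comm]; rfl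
    have hρ0 : 0 ≤ rho ξ ζ := rho_nonneg _ _
    have hb1 : 1 ≤ 1 + rho ξ ζ / t := by
      have : 0 ≤ rho ξ ζ / t := by positivity
      linarith
    have hGb : ‖G ξ‖ ≤ A / (1 + rho ξ ζ / t) := by
      have h1 := one_sub_ge r hr0.le hr1.le (inner ℂ ζ ξ) (by
        have := hinner ξ; rwa [hξ] at this)
      rw [← hρ] at h1
      have h2 : c / 4 * (t * (1 + rho ξ ζ / t)) ≤ ‖1 - (r : ℂ) * inner ℂ ζ ξ‖ := by
        refine le_trans ?_ h1
        have h3 : t * (1 + rho ξ ζ / t) = t + rho ξ ζ := by field_simp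
        rw [h3]
        nlinarith
      have h3 : 0 < c / 4 * (t * (1 + rho ξ ζ / t)) := by positivity
      simp only [hG]
      rw [norm_div, Complex.norm_real, Real.norm_of_nonneg h2r0]
      calc (1 - r ^ 2) / ‖1 - (r : ℂ) * inner ℂ ζ ξ‖ ≤
            2 * t / (c / 4 * (t * (1 + rho ξ ζ / t))) :=
            div_le_div₀ (by positivity) h2r h3 h2
        _ = A / (1 + rho ξ ζ / t) := by
            rw [hA]
            field_simp
            norm_num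
    rw [norm_mul, norm_pow, Real.mul_rpow (norm_nonneg _) (by positivity)]
    have h4 : (‖G ξ‖ ^ m) ^ s ≤ A ^ (m * s) * (1 + rho ξ ζ / t) ^ (-K) := by
      have h5 : (‖G ξ‖ ^ m) ^ s = ‖G ξ‖ ^ ((m : ℝ) * s) := by
        rw [← Real.rpow_natCast, ← Real.rpow_mul (norm_nonneg _)]
      rw [h5]
      have hms0 : 0 ≤ (m : ℝ) * s := by positivity
      calc ‖G ξ‖ ^ ((m : ℝ) * s) ≤ (A / (1 + rho ξ ζ / t)) ^ ((m : ℝ) * s) :=
            Real.rpow_le_rpow (norm_nonneg _) hGb hms0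
        _ = A ^ ((m : ℝ) * s) * (1 + rho ξ ζ / t) ^ (-((m : ℝ) * s)) := by
            rw [Real.div_rpow hApos.le (by linarith), Real.rpow_neg (by linarith)]
            rfl
        _ ≤ A ^ ((m : ℝ) * s) * (1 + rho ξ ζ / t) ^ (-K) := by
            apply mul_le_mul_of_nonneg_left _ (by positivity)
            exact Real.rpow_le_rpow_of_exponent_le hb1 (by linarith)
    calc ‖F ξ‖ ^ s * (‖G ξ‖ ^ m) ^ s ≤ ‖F ξ‖ ^ s * (A ^ (m * s) * (1 + rho ξ ζ / t) ^ (-K)) :=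
          mul_le_mul_of_nonneg_left h4 (by positivity)
      _ = A ^ (m * s) * (‖F ξ‖ ^ s * (1 + rho ξ ζ / t) ^ (-K)) := by ring
  have hint := lintegral_mono_ae hpt
  rw [lintegral_const_mul' _ _ ENNReal.ofReal_ne_top] at hint
  have hconst : C₀ * (1 - r) ^ (-(n : ℝ)) ≤ C₀ * (c ^ (-(n : ℝ)) * t ^ (-(n : ℝ))) := by
    apply mul_le_mul_of_nonneg_left _ hC₀.le
    rw [← Real.mul_rpow hcpos.le ht.le]
    exact Real.rpow_le_rpow_of_nonpos (by positivity) h1r (by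
      have : (0 : ℝ) ≤ n := Nat.cast_nonneg n
      linarith)
  calc ENNReal.ofReal (C₀ * (1 - r) ^ (-(n : ℝ))) *
        ∫⁻ ξ, ENNReal.ofReal (‖F ξ * G ξ ^ m‖ ^ s) ∂(sig n) ≤
        ENNReal.ofReal (C₀ * (c ^ (-(n : ℝ)) * t ^ (-(n : ℝ)))) *
          (ENNReal.ofReal (A ^ (m * s)) *
            ∫⁻ ξ, ENNReal.ofReal (‖F ξ‖ ^ s * (1 + rho ξ ζ / t) ^ (-K)) ∂(sig n)) :=
        mul_le_mul' (ENNReal.ofReal_le_ofReal hconst) hint
    _ = ENNReal.ofReal (C₀ * c ^ (-(n : ℝ)) * A ^ (m * s) * t ^ (-(n : ℝ))) *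
          ∫⁻ ξ, ENNReal.ofReal (‖F ξ‖ ^ s * (1 + rho ξ ζ / t) ^ (-K)) ∂(sig n) := by
        rw [← mul_assoc, ← ENNReal.ofReal_mul (by positivity)]
        congr 2
        ring


end Pool.Agent.HpBall
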