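import Mathlib
import Pool.Agent.HpBall.Defs2
import Pool.Agent.HpBall.Geom
import Pool.Agent.HpBall.Sphere
import Pool.Agent.HpBall.Localized
import Pool.Agent.HpBall.Kernel

set_option autoImplicit false

open MeasureTheory Complex
open scoped ENNReal NNReal

namespace Pool.Agent.HpBall

theorem J15_bump {β : ℝ → ℝ} {a b η : ℝ} (hβ : Bump β a b) (hη : 0 < η) :
    Bump (fun x => β x / (Real.exp (-x) - Real.exp (-((1 + η) * x)))) a b where
  apos := hβ.apos
  ab := hβ.ab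
  smooth := by
    rw [contDiff_iff_contDiffAt]
    intro x
    by_cases hx : x < a
    · have h : (fun x => β x / (Real.exp (-x) - Real.exp (-((1 + η) * x)))) =ᶠ[nhds x]
          fun _ => 0 := by
        filter_upwards [Iio_mem_nhds hx] with y hy
        rw [hβ.lo y (le_of_lt hy), zero_div]
      exact contDiffAt_const.congr_of_eventuallyEq h
    · have hx0 : 0 < x := lt_of_lt_of_le hβ.apos (not_lt.mp hx)
      apply ContDiffAt.div hβ.smooth.contDiffAt
      · apply ContDiff.contDiffAt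
        fun_prop
      · have : Real.exp (-((1 + η) * x)) < Real.exp (-x) := by
          apply Real.exp_lt_exp.mpr
          nlinarith
        exact (sub_pos.mpr this).ne'
  lo := fun x hx => by
    show β x / _ = 0
    rw [hβ.lo x hx, zero_div]
  hi := fun x hx => by
    show β x / _ = 0
    rw [hβ.hi x hx, zero_div]

theorem J15_coef {G : ℂ → ℂ} (hG : DifferentiableOn ℂ G (Metric.ball 0 1)) {r : ℝ} (hr0 : 0 < r)
    (hr1 : r < 1) (k : ℕ) :
    ∫ θ in (0:ℝ)..(2 * Real.pi), Complex.exp (-(θ * I)) ^ k * G (r * Complex.exp (θ * I)) =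
      2 * Real.pi * (tc G k * r ^ k) := by
  have h := DifferentiableOn.circleIntegral_one_div_sub_center_pow_smul hr0 k
    (hG.mono (Metric.closedBall_subset_ball hr1))
  rw [circleIntegral] at h
  have hrc : (r : ℂ) ≠ 0 := by exact_mod_cast hr0.ne'
  have e1 : ∀ θ : ℝ, deriv (circleMap 0 r) θ • (1 / (circleMap 0 r θ - 0) ^ (k + 1)) •
      G (circleMap 0 r θ) =
      (I * ((r : ℂ) ^ k)⁻¹) * (Complex.exp (-(θ * I)) ^ k * G (r * Complex.exp (θ * I))) := by
    intro θ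
    rw [deriv_circleMap, sub_zero, circleMap_zero]
    simp only [smul_eq_mul]
    have h2 : Complex.exp (θ * I) ≠ 0 := Complex.exp_ne_zero _
    rw [Complex.exp_neg, inv_pow]
    have h3 : ((r : ℂ) * Complex.exp (θ * I)) ^ (k + 1) =
        (r : ℂ) ^ k * Complex.exp (θ * I) ^ k * ((r : ℂ) * Complex.exp (θ * I)) := by ring
    rw [h3]
    field_simp
  simp_rw [e1] at h
  rw [intervalIntegral.integral_const_mul] at h
  unfold tc
  set J := ∫ θ in (0:ℝ)..(2 * Real.pi), Complex.exp (-(θ * I)) ^ k * G (r * Complex.exp (θ * I))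
  have hk : (k.factorial : ℂ) ≠ 0 := by exact_mod_cast k.factorial_ne_zero
  have hI : (I : ℂ) ≠ 0 := Complex.I_ne_zero
  rw [smul_eq_mul] at h
  have h3 : J = (I * ((r : ℂ) ^ k)⁻¹)⁻¹ * (2 * Real.pi * I / k.factorial * iteratedDeriv k G 0) := by
    rw [← h, ← mul_assoc, inv_mul_cancel₀ (by
      apply mul_ne_zero hI
      exact inv_ne_zero (pow_ne_zero _ hrc)), one_mul]
  rw [h3]
  field_simp

theorem J15_slice {n : ℕ} {g : E n → ℂ} (hg : DifferentiableOn ℂ g (Metric.ball 0 1)) {ζ : E n}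
    (hζ : ‖ζ‖ = 1) : DifferentiableOn ℂ (fun z : ℂ => g (z • ζ)) (Metric.ball 0 1) := by
  apply hg.comp (f := fun z : ℂ => z • ζ)
  · exact (differentiable_id.smul_const ζ).differentiableOn
  · intro z hz
    rw [mem_ball_zero_iff] at hz ⊢
    rw [norm_smul, hζ, mul_one]
    exact hz

theorem J15_ball {r : ℝ} (hr0 : 0 < r) (hr1 : r < 1) (θ : ℝ) :
    (r : ℂ) * Complex.exp (θ * I) ∈ Metric.ball (0 : ℂ) 1 := by
  rw [mem_ball_zero_iff, norm_mul, Complex.norm_exp_ofReal_mul_I, mul_one, Complex.norm_real,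
    Real.norm_of_nonneg hr0.le]
  exact hr1

theorem J15_cont {G : ℂ → ℂ} (hG : DifferentiableOn ℂ G (Metric.ball 0 1)) {r : ℝ} (hr0 : 0 < r)
    (hr1 : r < 1) : Continuous fun θ : ℝ => G (r * Complex.exp (θ * I)) := by
  have h1 : Continuous fun θ : ℝ => (r : ℂ) * Complex.exp (θ * I) := by fun_prop
  exact hG.continuousOn.comp_continuous h1 (fun θ => J15_ball hr0 hr1 θ)

/-- integral representation of the cut off -/
theorem J15_repr {n : ℕ} {β : ℝ → ℝ} {a b η : ℝ} (hβ : Bump β a b) (hη : 0 < η)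
    {g : E n → ℂ} (hg : DifferentiableOn ℂ g (Metric.ball 0 1)) {N : ℝ} (hN : 0 < N) {ζ : E n}
    (hζ : ‖ζ‖ = 1) :
    ∫ θ in (0:ℝ)..(2 * Real.pi),
      ker (fun x => β x / (Real.exp (-x) - Real.exp (-((1 + η) * x)))) N (Complex.exp (-(θ * I))) *
        (g (((Real.exp (-1 / N) : ℝ) * Complex.exp (θ * I) : ℂ) • ζ) -
          g (((Real.exp (-(1 + η) / N) : ℝ) * Complex.exp (θ * I) : ℂ) • ζ)) =
      2 * Real.pi * cut β N g ζ := by
  set φ : ℝ → ℝ := fun x => β x / (Real.exp (-x) - Real.exp (-((1 + η) * x))) with hφ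
  set r1 : ℝ := Real.exp (-1 / N) with hr1
  set r2 : ℝ := Real.exp (-(1 + η) / N) with hr2
  have hr1p : 0 < r1 := Real.exp_pos _
  have hr2p : 0 < r2 := Real.exp_pos _
  have hr1l : r1 < 1 := by
    rw [hr1, Real.exp_lt_one_iff]
    exact div_neg_of_neg_of_pos (by norm_num) hN
  have hr2l : r2 < 1 := by
    rw [hr2, Real.exp_lt_one_iff]
    exact div_neg_of_neg_of_pos (by linarith) hN
  set G : ℂ → ℂ := fun z => g (z • ζ) with hGdef
  have hG : DifferentiableOn ℂ G (Metric.ball 0 1) := J15_slice hg hζ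
  obtain ⟨m, hm⟩ := exists_nat_ge (b * N)
  have hφ0 : ∀ k : ℕ, k ∉ Finset.range m → β ((k : ℝ) / N) = 0 := by
    intro k hk
    rw [Finset.mem_range, not_lt] at hk
    apply hβ.hi
    rw [le_div_iff₀ hN]
    have : (m : ℝ) ≤ k := by exact_mod_cast hk
    linarith
  have hker : ∀ z : ℂ, ker φ N z = ∑ k ∈ Finset.range m, (φ ((k : ℝ) / N) : ℂ) * z ^ k := by
    intro z
    unfold ker
    apply tsum_eq_sum
    intro k hk
    have : φ ((k : ℝ) / N) = 0 := by
      show β _ / _ = 0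
      rw [hφ0 k hk, zero_div]
    rw [this]; simp
  have hcut : cut β N g ζ = ∑ k ∈ Finset.range m, (β ((k : ℝ) / N) : ℂ) * tc G k := by
    unfold cut
    apply tsum_eq_sum
    intro k hk
    rw [hφ0 k hk]; simp
  have hφβ : ∀ k : ℕ, (φ ((k : ℝ) / N) : ℂ) * ((r1 : ℂ) ^ k - (r2 : ℂ) ^ k) =
      (β ((k : ℝ) / N) : ℂ) := by
    intro k
    have e1 : r1 ^ k = Real.exp (-((k : ℝ) / N)) := by
      rw [hr1, ← Real.exp_nat_mul]; congr 1; ring
    have e2 : r2 ^ k = Real.exp (-((1 + η) * ((k : ℝ) / N))) := by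
      rw [hr2, ← Real.exp_nat_mul]; congr 1; ring
    have e3 : φ ((k : ℝ) / N) * (r1 ^ k - r2 ^ k) = β ((k : ℝ) / N) := by
      rw [e1, e2]
      rcases Nat.eq_zero_or_pos k with hk | hk
      · subst hk
        have h0 : β (((0 : ℕ) : ℝ) / N) = 0 := by
          apply hβ.lo
          simp [hβ.apos.le]
        show β _ / _ * _ = _
        rw [h0]; simp
      · have hx : 0 < (k : ℝ) / N := by positivity
        have : Real.exp (-((1 + η) * ((k : ℝ) / N))) < Real.exp (-((k : ℝ) / N)) := by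
          apply Real.exp_lt_exp.mpr
          nlinarith
        exact div_mul_cancel₀ _ (sub_pos.mpr this).ne'
    exact_mod_cast e3
  have hint : ∀ θ : ℝ, ker φ N (Complex.exp (-(θ * I))) *
        (G (r1 * Complex.exp (θ * I)) - G (r2 * Complex.exp (θ * I))) =
      ∑ k ∈ Finset.range m, ((φ ((k : ℝ) / N) : ℂ) *
          (Complex.exp (-(θ * I)) ^ k * G (r1 * Complex.exp (θ * I))) -
        (φ ((k : ℝ) / N) : ℂ) *
          (Complex.exp (-(θ * I)) ^ k * G (r2 * Complex.exp (θ * I)))) := by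
    intro θ
    rw [hker, Finset.sum_mul]
    apply Finset.sum_congr rfl
    intro k _
    ring
  have c1 : Continuous fun θ : ℝ => G (r1 * Complex.exp (θ * I)) := J15_cont hG hr1p hr1l
  have c2 : Continuous fun θ : ℝ => G (r2 * Complex.exp (θ * I)) := J15_cont hG hr2p hr2l
  have d1 : ∀ k : ℕ, Continuous fun θ : ℝ => (φ ((k : ℝ) / N) : ℂ) *
      (Complex.exp (-(θ * I)) ^ k * G (r1 * Complex.exp (θ * I))) := by
    intro k
    have : Continuous fun θ : ℝ => Complex.exp (-(θ * I)) ^ k := by fun_prop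
    exact continuous_const.mul (this.mul c1)
  have d2 : ∀ k : ℕ, Continuous fun θ : ℝ => (φ ((k : ℝ) / N) : ℂ) *
      (Complex.exp (-(θ * I)) ^ k * G (r2 * Complex.exp (θ * I))) := by
    intro k
    have : Continuous fun θ : ℝ => Complex.exp (-(θ * I)) ^ k := by fun_prop
    exact continuous_const.mul (this.mul c2)
  calc ∫ θ in (0:ℝ)..(2 * Real.pi), ker φ N (Complex.exp (-(θ * I))) *
        (G (r1 * Complex.exp (θ * I)) - G (r2 * Complex.exp (θ * I)))
      = ∫ θ in (0:ℝ)..(2 * Real.pi), ∑ k ∈ Finset.range m, ((φ ((k : ℝ) / N) : ℂ) *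
          (Complex.exp (-(θ * I)) ^ k * G (r1 * Complex.exp (θ * I))) -
        (φ ((k : ℝ) / N) : ℂ) *
          (Complex.exp (-(θ * I)) ^ k * G (r2 * Complex.exp (θ * I)))) := by
        congr 1
        ext θ
        exact hint θ
    _ = ∑ k ∈ Finset.range m, ∫ θ in (0:ℝ)..(2 * Real.pi), ((φ ((k : ℝ) / N) : ℂ) *
          (Complex.exp (-(θ * I)) ^ k * G (r1 * Complex.exp (θ * I))) -
        (φ ((k : ℝ) / N) : ℂ) *
          (Complex.exp (-(θ * I)) ^ k * G (r2 * Complex.exp (θ * I)))) := by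
        apply intervalIntegral.integral_finsetSum
        intro k _
        exact ((d1 k).sub (d2 k)).intervalIntegrable _ _
    _ = ∑ k ∈ Finset.range m, 2 * Real.pi * ((β ((k : ℝ) / N) : ℂ) * tc G k) := by
        apply Finset.sum_congr rfl
        intro k _
        rw [intervalIntegral.integral_sub ((d1 k).intervalIntegrable _ _)
          ((d2 k).intervalIntegrable _ _), intervalIntegral.integral_const_mul,
          intervalIntegral.integral_const_mul, J15_coef hG hr1p hr1l, J15_coef hG hr2p hr2l,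
          ← hφβ k]
        ring
    _ = 2 * Real.pi * cut β N g ζ := by
        rw [← Finset.mul_sum, hcut]

theorem J15_cs {f : ℝ → ℝ} {a b : ℝ} (hab : a < b) (hf : ContinuousOn f (Set.uIcc a b)) :
    (∫ t in a..b, f t) ^ 2 ≤ (b - a) * ∫ t in a..b, f t ^ 2 := by
  have hL : 0 < b - a := by linarith
  set J := ∫ t in a..b, f t with hJ
  set m := J / (b - a) with hm
  have i1 : IntervalIntegrable f volume a b := hf.intervalIntegrable
  have i2 : IntervalIntegrable (fun t => f t ^ 2) volume a b := (hf.pow 2).intervalIntegrable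
  have h0 : 0 ≤ ∫ t in a..b, (f t - m) ^ 2 :=
    intervalIntegral.integral_nonneg hab.le (fun t _ => sq_nonneg _)
  have h1 : ∫ t in a..b, (f t - m) ^ 2 = (∫ t in a..b, f t ^ 2) - 2 * m * J + m ^ 2 * (b - a) := by
    have e1 : (fun t => (f t - m) ^ 2) = fun t => (f t ^ 2 - 2 * m * f t) + m ^ 2 := by
      ext t; ring
    rw [e1, intervalIntegral.integral_add (i2.sub (i1.const_mul _)) intervalIntegrable_const,
      intervalIntegral.integral_sub i2 (i1.const_mul _), intervalIntegral.integral_const_mul,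
      intervalIntegral.integral_const, smul_eq_mul]
    ring
  rw [h1] at h0
  have h2 : m * (b - a) = J := div_mul_cancel₀ _ hL.ne'
  have h3 : 0 ≤ (b - a) * ((∫ t in a..b, f t ^ 2) - 2 * m * J + m ^ 2 * (b - a)) :=
    mul_nonneg hL.le h0
  have h4 : (b - a) * ((∫ t in a..b, f t ^ 2) - 2 * m * J + m ^ 2 * (b - a)) =
      (b - a) * (∫ t in a..b, f t ^ 2) - 2 * (m * (b - a)) * J + (m * (b - a)) ^ 2 := by ring
  rw [h4, h2] at h3
  nlinarith

theorem J15_slice' {n : ℕ} {g : E n → ℂ} (hg : DifferentiableOn ℂ g (Metric.ball 0 1)) {ζ : E n}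
    (hζ : ‖ζ‖ = 1) : DifferentiableOn ℂ (fun z : ℂ => g (z • ζ)) (Metric.ball 0 1) := by
  apply hg.comp (f := fun z : ℂ => z • ζ)
  · exact (differentiable_id.smul_const ζ).differentiableOn
  · intro z hz
    rw [mem_ball_zero_iff] at hz ⊢
    rw [norm_smul, hζ, mul_one]
    exact hz

theorem J15_rad {n : ℕ} {g : E n → ℂ} (hg : DifferentiableOn ℂ g (Metric.ball 0 1)) {ξ : E n}
    (hξ : ‖ξ‖ = 1) {z : ℂ} (hz : ‖z‖ < 1) :
    rad g (z • ξ) = z * deriv (fun z : ℂ => g (z • ξ)) z := by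
  have hmem : z • ξ ∈ Metric.ball (0 : E n) 1 := by
    rw [mem_ball_zero_iff, norm_smul, hξ, mul_one]; exact hz
  have h1 : HasFDerivAt g (fderiv ℂ g (z • ξ)) (z • ξ) :=
    (hg.differentiableAt (Metric.isOpen_ball.mem_nhds hmem)).hasFDerivAt
  have h2 : HasDerivAt (fun z : ℂ => z • ξ) ((1 : ℂ) • ξ) z := (hasDerivAt_id z).smul_const ξ
  have h3 := h1.comp_hasDerivAt z h2
  have h4 : deriv (fun z : ℂ => g (z • ξ)) z = fderiv ℂ g (z • ξ) ((1 : ℂ) • ξ) := h3.deriv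
  rw [h4, one_smul]
  unfold rad
  rw [ContinuousLinearMap.map_smul, smul_eq_mul]

theorem J15_radial {n : ℕ} {g : E n → ℂ} (hg : DifferentiableOn ℂ g (Metric.ball 0 1)) {ξ : E n}
    (hξ : ‖ξ‖ = 1) {a b : ℝ} (ha : 0 < a) (hab : a < b) :
    ENNReal.ofReal (‖g ((Real.exp (-a) : ℂ) • ξ) - g ((Real.exp (-b) : ℂ) • ξ)‖ ^ 2) ≤
      ENNReal.ofReal (b - a) * ∫⁻ t in Set.Ioc a b,
        ENNReal.ofReal (‖rad g ((Real.exp (-t) : ℂ) • ξ)‖ ^ 2) := by
  set G : ℂ → ℂ := fun z => g (z • ξ) with hGdef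
  have hG : DifferentiableOn ℂ G (Metric.ball 0 1) := J15_slice' hg hξ
  have hG' : ContinuousOn (deriv G) (Metric.ball 0 1) := (hG.deriv Metric.isOpen_ball).continuousOn
  have hnorm : ∀ t : ℝ, 0 < t → ‖(Real.exp (-t) : ℂ)‖ < 1 := by
    intro t ht
    rw [Complex.norm_real, Real.norm_of_nonneg (Real.exp_pos _).le, Real.exp_lt_one_iff]
    linarith
  set r : ℝ → ℂ := fun t => (Real.exp (-t) : ℂ) * deriv G (Real.exp (-t) : ℂ) with hr
  have hsub : Set.uIcc a b ⊆ Set.Ioi 0 := by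
    rw [Set.uIcc_of_le hab.le]
    intro t ht
    exact lt_of_lt_of_le ha ht.1
  have hexpc : Continuous fun t : ℝ => (Real.exp (-t) : ℂ) := by fun_prop
  have hrc : ContinuousOn r (Set.uIcc a b) := by
    apply ContinuousOn.mul hexpc.continuousOn
    apply hG'.comp hexpc.continuousOn
    intro t ht
    rw [mem_ball_zero_iff]
    exact hnorm t (hsub ht)
  have hderiv : ∀ t ∈ Set.uIcc a b, HasDerivAt (fun t : ℝ => - G (Real.exp (-t) : ℂ)) (r t) t := by
    intro t ht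
    have hmem : (Real.exp (-t) : ℂ) ∈ Metric.ball (0 : ℂ) 1 := by
      rw [mem_ball_zero_iff]; exact hnorm t (hsub ht)
    have h1 : HasDerivAt G (deriv G (Real.exp (-t) : ℂ)) (Real.exp (-t) : ℂ) :=
      (hG.differentiableAt (Metric.isOpen_ball.mem_nhds hmem)).hasDerivAt
    have h2 : HasDerivAt (fun t : ℝ => Real.exp (-t)) (Real.exp (-t) * (-1)) t :=
      ((hasDerivAt_id t).neg).exp
    have h3 := h1.comp_ofReal
    have h4 : HasDerivAt (fun t : ℝ => (Real.exp (-t) : ℂ)) ((Real.exp (-t) * (-1) : ℝ) : ℂ) t :=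
      h2.ofReal_comp
    have h5 := (HasDerivAt.comp t h1 h4).neg
    have e : r t = -(deriv G (Real.exp (-t) : ℂ) * ((Real.exp (-t) * (-1) : ℝ) : ℂ)) := by
      rw [hr]
      push_cast
      ring
    rw [e]
    exact h5
  have hFTC := intervalIntegral.integral_eq_sub_of_hasDerivAt hderiv hrc.intervalIntegrable
  have h1 : ‖g ((Real.exp (-a) : ℂ) • ξ) - g ((Real.exp (-b) : ℂ) • ξ)‖ ≤ ∫ t in a..b, ‖r t‖ := by
    have e1 : g ((Real.exp (-a) : ℂ) • ξ) - g ((Real.exp (-b) : ℂ) • ξ) = ∫ t in a..b, r t := by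
      rw [hFTC]
      show G _ - G _ = _
      ring
    rw [e1]
    exact intervalIntegral.norm_integral_le_integral_norm hab.le
  have h2 := J15_cs hab hrc.norm
  have h3 : ‖g ((Real.exp (-a) : ℂ) • ξ) - g ((Real.exp (-b) : ℂ) • ξ)‖ ^ 2 ≤
      (b - a) * ∫ t in a..b, ‖r t‖ ^ 2 :=
    (pow_le_pow_left₀ (norm_nonneg _) h1 2).trans h2
  refine (ENNReal.ofReal_le_ofReal h3).trans ?_
  rw [ENNReal.ofReal_mul (by linarith)]
  gcongr
  have hint : IntegrableOn (fun t => ‖r t‖ ^ 2) (Set.Ioc a b) :=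
    ((hrc.norm.pow 2).intervalIntegrable).1
  rw [intervalIntegral.integral_of_le hab.le, ofReal_integral_eq_lintegral_ofReal hint
    (Filter.Eventually.of_forall fun t => sq_nonneg _)]
  apply le_of_eq
  apply setLIntegral_congr_fun measurableSet_Ioc
  intro t ht
  have ht0 : 0 < t := lt_trans ha ht.1
  show ENNReal.ofReal (‖r t‖ ^ 2) = ENNReal.ofReal (‖rad g ((Real.exp (-t) : ℂ) • ξ)‖ ^ 2)
  rw [J15_rad hg hξ (hnorm t ht0)]

theorem J15_delta (θ : ℝ) : ‖1 - Complex.exp (-(θ * I))‖ = 2 * |Real.sin (θ / 2)| := by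
  have h := Complex.norm_exp_I_mul_ofReal_sub_one (-θ)
  rw [norm_sub_rev]
  have e : (I * ((-θ : ℝ) : ℂ)) = -(θ * I) := by push_cast; ring
  rw [e] at h
  rw [h, Real.norm_eq_abs, abs_mul, abs_of_pos (by norm_num : (0 : ℝ) < 2), neg_div, Real.sin_neg,
    abs_neg]

theorem J15_delta_lower {θ : ℝ} (h0 : 0 ≤ θ) (h1 : θ ≤ 2 * Real.pi) :
    2 / Real.pi * θ ≤ ‖1 - Complex.exp (-(θ * I))‖ ∨
      2 / Real.pi * (2 * Real.pi - θ) ≤ ‖1 - Complex.exp (-(θ * I))‖ := by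
  rw [J15_delta]
  have hpi := Real.pi_pos
  rcases le_total θ Real.pi with h | h
  · left
    have h2 := Real.mul_le_sin (x := θ / 2) (by linarith) (by linarith)
    have h3 := le_abs_self (Real.sin (θ / 2))
    linarith
  · right
    have h2 := Real.mul_le_sin (x := Real.pi - θ / 2) (by linarith) (by linarith)
    rw [Real.sin_pi_sub] at h2
    have h3 := le_abs_self (Real.sin (θ / 2))
    have h4 : 2 / Real.pi * (2 * Real.pi - θ) = 2 * (2 / Real.pi * (Real.pi - θ / 2)) := by ring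
    rw [h4]
    linarith

theorem J15_int1 {N : ℝ} (hN : 0 < N) :
    ∫ θ in (0:ℝ)..(2 * Real.pi), N * ((1 + 2 / Real.pi * N * θ) ^ 2)⁻¹ ≤ Real.pi / 2 := by
  have hpi := Real.pi_pos
  set c : ℝ := 2 / Real.pi with hc
  have hc0 : 0 < c := by positivity
  have hpos : ∀ θ ∈ Set.uIcc (0:ℝ) (2 * Real.pi), 0 < 1 + c * N * θ := by
    intro θ hθ
    rw [Set.uIcc_of_le (by positivity)] at hθ
    have := mul_nonneg (mul_pos hc0 hN).le hθ.1
    linarith
  have hd : ∀ θ ∈ Set.uIcc (0:ℝ) (2 * Real.pi),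
      HasDerivAt (fun θ : ℝ => -(1 / c) * (1 + c * N * θ)⁻¹) (N * ((1 + c * N * θ) ^ 2)⁻¹) θ := by
    intro θ hθ
    have h1 : HasDerivAt (fun θ : ℝ => 1 + c * N * θ) (c * N) θ := by
      have := ((hasDerivAt_id θ).const_mul (c * N)).const_add 1
      simpa using this
    have h2 := (h1.inv (hpos θ hθ).ne').const_mul (-(1 / c))
    have e : N * ((1 + c * N * θ) ^ 2)⁻¹ = -(1 / c) * (-(c * N) / (1 + c * N * θ) ^ 2) := by
      have := (hpos θ hθ).ne'
      field_simp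
    rw [e]
    exact h2
  have hcont : ContinuousOn (fun θ : ℝ => N * ((1 + c * N * θ) ^ 2)⁻¹)
      (Set.uIcc (0:ℝ) (2 * Real.pi)) := by
    apply ContinuousOn.mul continuousOn_const
    apply ContinuousOn.inv₀ (by fun_prop)
    intro θ hθ
    exact (pow_pos (hpos θ hθ) 2).ne'
  rw [intervalIntegral.integral_eq_sub_of_hasDerivAt hd hcont.intervalIntegrable]
  have h3 : 0 < 1 + c * N * (2 * Real.pi) := by positivity
  have h4 : 0 ≤ (1 + c * N * (2 * Real.pi))⁻¹ := by positivity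
  have h5 : 1 / c = Real.pi / 2 := by rw [hc]; field_simp
  rw [h5]
  have h6 : 0 ≤ Real.pi / 2 * (1 + c * N * (2 * Real.pi))⁻¹ := by positivity
  simp only [mul_zero, add_zero, inv_one, mul_one]
  linarith

theorem J15_wcont (N : ℝ) (hN : 0 < N) :
    Continuous fun θ : ℝ => N * ((1 + N * ‖1 - Complex.exp (-(θ * I))‖) ^ 2)⁻¹ := by
  apply Continuous.mul continuous_const
  apply Continuous.inv₀ (by fun_prop)
  intro θ
  positivity

theorem J15_int {N : ℝ} (hN : 0 < N) :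
    ∫ θ in (0:ℝ)..(2 * Real.pi), N * ((1 + N * ‖1 - Complex.exp (-(θ * I))‖) ^ 2)⁻¹ ≤ Real.pi := by
  have hpi := Real.pi_pos
  have h1 := J15_int1 hN
  have hc0 : 0 < 2 / Real.pi := by positivity
  have hcont : ContinuousOn (fun θ : ℝ => N * ((1 + 2 / Real.pi * N * θ) ^ 2)⁻¹)
      (Set.uIcc (0:ℝ) (2 * Real.pi)) := by
    apply ContinuousOn.mul continuousOn_const
    apply ContinuousOn.inv₀ (by fun_prop)
    intro θ hθ
    rw [Set.uIcc_of_le (by positivity)] at hθ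
    have := mul_nonneg (mul_pos hc0 hN).le hθ.1
    have h2 : 0 < 1 + 2 / Real.pi * N * θ := by linarith
    exact (pow_pos h2 2).ne'
  have i1 : IntervalIntegrable (fun θ : ℝ => N * ((1 + 2 / Real.pi * N * θ) ^ 2)⁻¹) volume 0
      (2 * Real.pi) := hcont.intervalIntegrable
  have h2 : ∫ θ in (0:ℝ)..(2 * Real.pi), N * ((1 + 2 / Real.pi * N * (2 * Real.pi - θ)) ^ 2)⁻¹ =
      ∫ θ in (0:ℝ)..(2 * Real.pi), N * ((1 + 2 / Real.pi * N * θ) ^ 2)⁻¹ := by
    rw [intervalIntegral.integral_comp_sub_left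
      (fun θ : ℝ => N * ((1 + 2 / Real.pi * N * θ) ^ 2)⁻¹) (2 * Real.pi)]
    simp
  have i2 : IntervalIntegrable (fun θ : ℝ => N * ((1 + 2 / Real.pi * N * (2 * Real.pi - θ)) ^ 2)⁻¹)
      volume 0 (2 * Real.pi) := by
    have := i1.comp_sub_left (2 * Real.pi)
    simpa using this.symm
  calc ∫ θ in (0:ℝ)..(2 * Real.pi), N * ((1 + N * ‖1 - Complex.exp (-(θ * I))‖) ^ 2)⁻¹
      ≤ ∫ θ in (0:ℝ)..(2 * Real.pi), (N * ((1 + 2 / Real.pi * N * θ) ^ 2)⁻¹ +
          N * ((1 + 2 / Real.pi * N * (2 * Real.pi - θ)) ^ 2)⁻¹) := by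
        apply intervalIntegral.integral_mono_on (by positivity)
          ((J15_wcont N hN).intervalIntegrable _ _) (i1.add i2)
        intro θ hθ
        have p1 : 0 ≤ N * ((1 + 2 / Real.pi * N * θ) ^ 2)⁻¹ := by positivity
        have p2 : 0 ≤ N * ((1 + 2 / Real.pi * N * (2 * Real.pi - θ)) ^ 2)⁻¹ := by positivity
        rcases J15_delta_lower hθ.1 hθ.2 with h | h
        · have h3 : N * ((1 + N * ‖1 - Complex.exp (-(θ * I))‖) ^ 2)⁻¹ ≤
              N * ((1 + 2 / Real.pi * N * θ) ^ 2)⁻¹ := by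
            apply mul_le_mul_of_nonneg_left _ hN.le
            have h4 : 0 < 1 + 2 / Real.pi * N * θ := by
              have := mul_nonneg (mul_pos hc0 hN).le hθ.1
              linarith
            apply inv_anti₀ (pow_pos h4 2)
            apply pow_le_pow_left₀ h4.le
            have := mul_le_mul_of_nonneg_left h hN.le
            linarith
          linarith
        · have h3 : N * ((1 + N * ‖1 - Complex.exp (-(θ * I))‖) ^ 2)⁻¹ ≤
              N * ((1 + 2 / Real.pi * N * (2 * Real.pi - θ)) ^ 2)⁻¹ := by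
            apply mul_le_mul_of_nonneg_left _ hN.le
            have h4 : 0 < 1 + 2 / Real.pi * N * (2 * Real.pi - θ) := by
              have := mul_nonneg (mul_pos hc0 hN).le (sub_nonneg.mpr hθ.2)
              linarith
            apply inv_anti₀ (pow_pos h4 2)
            apply pow_le_pow_left₀ h4.le
            have := mul_le_mul_of_nonneg_left h hN.le
            linarith
          linarith
    _ = (∫ θ in (0:ℝ)..(2 * Real.pi), N * ((1 + 2 / Real.pi * N * θ) ^ 2)⁻¹) +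
        ∫ θ in (0:ℝ)..(2 * Real.pi), N * ((1 + 2 / Real.pi * N * (2 * Real.pi - θ)) ^ 2)⁻¹ :=
        intervalIntegral.integral_add i1 i2
    _ ≤ Real.pi / 2 + Real.pi / 2 := by rw [h2]; exact add_le_add h1 h1
    _ = Real.pi := by ring

theorem J15_rho_rot {n : ℕ} {ζ : E n} (hζ : ‖ζ‖ = 1) (θ : ℝ) :
    rho (Complex.exp (θ * I) • ζ) ζ = ‖1 - Complex.exp (-(θ * I))‖ := by
  unfold rho
  rw [inner_smul_left, inner_self_eq_norm_sq_to_K, hζ, ← Complex.exp_conj]
  congr 2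
  simp

theorem J15_meas_rad {n : ℕ} (g : E n → ℂ) : Measurable (rad g) := by
  have h1 : Measurable (fderiv ℂ g) := measurable_fderiv ℂ g
  have h2 : Measurable fun z : E n => (fderiv ℂ g z, z) := h1.prodMk measurable_id
  have h3 : Continuous fun p : (E n →L[ℂ] ℂ) × E n => p.1 p.2 :=
    isBoundedBilinearMap_apply.continuous
  exact h3.measurable.comp h2

theorem J15_meas' {n : ℕ} (g : E n → ℂ) (N K : ℝ) (ζ : E n) :
    Measurable (Function.uncurry fun (ξ : E n) (t : ℝ) =>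
      ENNReal.ofReal (‖rad g ((Real.exp (-t) : ℂ) • ξ)‖ ^ 2 * (1 + N * rho ξ ζ) ^ (-K))) := by
  have h1 : Measurable fun p : E n × ℝ => rad g ((Real.exp (-p.2) : ℂ) • p.1) := by
    apply (J15_meas_rad g).comp
    have : Continuous fun p : E n × ℝ => (Real.exp (-p.2) : ℂ) • p.1 := by fun_prop
    exact this.measurable
  have h2 : Measurable fun p : E n × ℝ => rho p.1 ζ := by
    have : Continuous fun p : E n × ℝ => rho p.1 ζ := by
      unfold rho; fun_prop
    exact this.measurable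
  exact ((h1.norm.pow_const 2).mul
    (((h2.const_mul N).const_add 1).pow_const (-K))).ennreal_ofReal

theorem J15_swap {n : ℕ} (g : E n → ℂ) (N K : ℝ) (ζ : E n) (a b : ℝ) :
    ∫⁻ ξ, (∫⁻ t in Set.Ioc a b,
      ENNReal.ofReal (‖rad g ((Real.exp (-t) : ℂ) • ξ)‖ ^ 2 * (1 + N * rho ξ ζ) ^ (-K))) ∂(sig n) =
    ∫⁻ t in Set.Ioc a b, ∫⁻ ξ,
      ENNReal.ofReal (‖rad g ((Real.exp (-t) : ℂ) • ξ)‖ ^ 2 * (1 + N * rho ξ ζ) ^ (-K)) ∂(sig n) :=
  lintegral_lintegral_swap (J15_meas' g N K ζ).aemeasurable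

/-- pointwise bound of the difference on the unit circle -/
theorem J15_point (n : ℕ) (hn : 1 ≤ n) (η : ℝ) (hη0 : 0 < η) (hη1 : η < 1) (K : ℝ) (hK : 0 ≤ K)
    (N₀ : ℝ) (hN₀ : 0 < N₀) : ∃ C : ℝ, 0 < C ∧
    ∀ g : E n → ℂ, DifferentiableOn ℂ g (Metric.ball 0 1) → ∀ N : ℝ, N₀ ≤ N → ∀ ζ : E n,
    ‖ζ‖ = 1 → ∀ θ : ℝ,
      ENNReal.ofReal (‖g (((Real.exp (-1 / N) : ℝ) * Complex.exp (θ * I) : ℂ) • ζ) -
          g (((Real.exp (-(1 + η) / N) : ℝ) * Complex.exp (θ * I) : ℂ) • ζ)‖ ^ 2) ≤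
        ENNReal.ofReal (C * N ^ ((n : ℝ) - 1) * (1 + N * ‖1 - Complex.exp (-(θ * I))‖) ^ K) *
        ∫⁻ t in Set.Ioc ((1 - η) / N) (1 / N), ∫⁻ ξ,
          ENNReal.ofReal (‖rad g ((Real.exp (-t) : ℂ) • ξ)‖ ^ 2 *
            (1 + N * rho ξ ζ) ^ (-K)) ∂(sig n) := by
  obtain ⟨C2, hC2, hloc⟩ := localized n hn 2 (by norm_num) le_rfl K hK (η / N₀) (by positivity)
  refine ⟨C2 * η ^ (-(n : ℝ)) * η * 2 ^ K, by positivity, ?_⟩
  intro g hg N hN ζ hζ θ
  have hN0 : 0 < N := lt_of_lt_of_le hN₀ hN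
  set δ := ‖1 - Complex.exp (-(θ * I))‖ with hδ
  have hδ0 : 0 ≤ δ := norm_nonneg _
  set a1 : ℝ := (1 - η) / N with ha1
  set b1 : ℝ := 1 / N with hb1
  have ha1p : 0 < a1 := by rw [ha1]; apply div_pos _ hN0; linarith
  have hb1p : 0 < b1 := by rw [hb1]; positivity
  have hab : a1 < b1 := by
    rw [ha1, hb1]; apply div_lt_div_of_pos_right _ hN0; linarith
  set t0 : ℝ := η / N with ht0
  have ht0p : 0 < t0 := by positivity
  have hbt : b1 - a1 = t0 := by rw [ha1, hb1, ht0]; ring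
  set F : E n → ℂ := fun w => g ((Real.exp (-a1) : ℂ) • w) - g ((Real.exp (-b1) : ℂ) • w) with hF
  set R₀ : ℝ := Real.exp a1 with hR₀
  have hR1 : 1 < R₀ := by rw [hR₀, Real.one_lt_exp_iff]; exact ha1p
  have hFd : DifferentiableOn ℂ F (Metric.ball 0 R₀) := by
    have hsub : ∀ c : ℝ, a1 ≤ c → DifferentiableOn ℂ (fun w : E n => g ((Real.exp (-c) : ℂ) • w))
        (Metric.ball 0 R₀) := by
      intro c hc
      apply hg.comp (f := fun w : E n => (Real.exp (-c) : ℂ) • w)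
      · exact differentiableOn_id.const_smul (Real.exp (-c) : ℂ)
      · intro w hw
        rw [mem_ball_zero_iff] at hw ⊢
        rw [norm_smul, Complex.norm_real, Real.norm_of_nonneg (Real.exp_pos _).le]
        calc Real.exp (-c) * ‖w‖ < Real.exp (-c) * R₀ :=
              mul_lt_mul_of_pos_left hw (Real.exp_pos _)
          _ = Real.exp (a1 - c) := by rw [hR₀, ← Real.exp_add]; congr 1; ring
          _ ≤ 1 := by rw [Real.exp_le_one_iff]; linarith
    exact (hsub a1 le_rfl).sub (hsub b1 hab.le)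
  set ζθ : E n := Complex.exp (θ * I) • ζ with hζθ
  have hζθn : ‖ζθ‖ = 1 := by
    rw [hζθ, norm_smul, Complex.norm_exp_ofReal_mul_I, hζ, mul_one]
  have ht0X : t0 ≤ η / N₀ := by
    rw [ht0]; exact div_le_div_of_nonneg_left hη0.le hN₀ hN
  have h1 := hloc F R₀ hR1 hFd ζθ hζθn t0 ht0p ht0X
  have e1 : F ((Real.exp (-t0) : ℂ) • ζθ) =
      g (((Real.exp (-1 / N) : ℝ) * Complex.exp (θ * I) : ℂ) • ζ) -
          g (((Real.exp (-(1 + η) / N) : ℝ) * Complex.exp (θ * I) : ℂ) • ζ) := by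
    show g _ - g _ = _
    rw [hζθ]
    congr 2
    · rw [smul_smul, smul_smul]
      congr 1
      rw [← Complex.ofReal_mul, ← Real.exp_add]
      congr 3
      rw [ha1, ht0]; ring
    · rw [smul_smul, smul_smul]
      congr 1
      rw [← Complex.ofReal_mul, ← Real.exp_add]
      congr 3
      rw [hb1, ht0]; ring
  rw [e1, Real.rpow_two] at h1
  refine h1.trans ?_
  -- pointwise bound
  have hpt : ∀ ξ : E n, ‖ξ‖ = 1 →
      ENNReal.ofReal (‖F ξ‖ ^ (2 : ℝ) * (1 + rho ξ ζθ / t0) ^ (-K)) ≤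
      ENNReal.ofReal (t0 * (2 ^ K * (1 + N * δ) ^ K)) * ∫⁻ t in Set.Ioc a1 b1,
        ENNReal.ofReal (‖rad g ((Real.exp (-t) : ℂ) • ξ)‖ ^ 2 * (1 + N * rho ξ ζ) ^ (-K)) := by
    intro ξ hξ
    have hr := J15_radial hg hξ ha1p hab
    have hρ1 := rho_nonneg ξ ζθ
    have hρ2 := rho_nonneg ξ ζ
    have hX : 0 < 1 + N * rho ξ ζθ := by positivity
    have hY : 0 < 1 + N * rho ξ ζ := by positivity
    have hD : 0 < 1 + N * δ := by positivity
    have hYX : 1 + N * rho ξ ζ ≤ 2 * (1 + N * rho ξ ζθ) * (1 + N * δ) := by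
      have := one_add_rho_mul (x := ξ) (y := ζθ) (z := ζ) hξ.le hζθn hζ.le hN0.le
      rw [hζθ, J15_rho_rot hζ θ] at this
      exact this
    have hc1 : (1 + rho ξ ζθ / t0) ^ (-K) ≤ (1 + N * rho ξ ζθ) ^ (-K) := by
      apply Real.rpow_le_rpow_of_nonpos hX _ (by linarith)
      have : N * rho ξ ζθ ≤ rho ξ ζθ / t0 := by
        rw [le_div_iff₀ ht0p, ht0]
        have : N * rho ξ ζθ * (η / N) = rho ξ ζθ * η := by field_simp
        rw [this]
        nlinarith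
      linarith
    have hc2 : (1 + N * rho ξ ζθ) ^ (-K) ≤ (2 ^ K * (1 + N * δ) ^ K) * (1 + N * rho ξ ζ) ^ (-K) := by
      have hZ : (1 + N * rho ξ ζ) / (2 * (1 + N * δ)) ≤ 1 + N * rho ξ ζθ := by
        rw [div_le_iff₀ (by positivity)]
        linarith
      have hZ0 : 0 < (1 + N * rho ξ ζ) / (2 * (1 + N * δ)) := by positivity
      have := Real.rpow_le_rpow_of_nonpos hZ0 hZ (by linarith : -K ≤ 0)
      refine this.trans (le_of_eq ?_)
      rw [Real.div_rpow hY.le (by positivity), Real.rpow_neg (by positivity : 0 ≤ 2 * (1 + N * δ)),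
        div_inv_eq_mul, Real.mul_rpow (by norm_num) hD.le]
      ring
    have hcc := hc1.trans hc2
    rw [Real.rpow_two]
    set c : ℝ := (1 + N * rho ξ ζ) ^ (-K) with hc
    have hc0 : 0 ≤ c := Real.rpow_nonneg hY.le _
    calc ENNReal.ofReal (‖F ξ‖ ^ 2 * (1 + rho ξ ζθ / t0) ^ (-K))
        ≤ ENNReal.ofReal (‖F ξ‖ ^ 2 * ((2 ^ K * (1 + N * δ) ^ K) * c)) := by
          apply ENNReal.ofReal_le_ofReal
          exact mul_le_mul_of_nonneg_left hcc (sq_nonneg _)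
      _ = ENNReal.ofReal (‖F ξ‖ ^ 2) * ENNReal.ofReal ((2 ^ K * (1 + N * δ) ^ K) * c) := by
          rw [ENNReal.ofReal_mul (sq_nonneg _)]
      _ ≤ (ENNReal.ofReal t0 * ∫⁻ t in Set.Ioc a1 b1,
            ENNReal.ofReal (‖rad g ((Real.exp (-t) : ℂ) • ξ)‖ ^ 2)) *
              ENNReal.ofReal ((2 ^ K * (1 + N * δ) ^ K) * c) := by
          rw [hbt] at hr
          exact mul_le_mul' hr le_rfl
      _ = ENNReal.ofReal (t0 * (2 ^ K * (1 + N * δ) ^ K)) *
            ((∫⁻ t in Set.Ioc a1 b1, ENNReal.ofReal (‖rad g ((Real.exp (-t) : ℂ) • ξ)‖ ^ 2)) *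
              ENNReal.ofReal c) := by
          rw [ENNReal.ofReal_mul ht0p.le, ENNReal.ofReal_mul (by positivity)]
          ring
      _ = _ := by
          rw [← lintegral_mul_const' _ _ ENNReal.ofReal_ne_top]
          congr 1
          apply lintegral_congr
          intro t
          rw [ENNReal.ofReal_mul (sq_nonneg _)]
  have hint : ∫⁻ ξ, ENNReal.ofReal (‖F ξ‖ ^ (2 : ℝ) * (1 + rho ξ ζθ / t0) ^ (-K)) ∂(sig n) ≤
      ENNReal.ofReal (t0 * (2 ^ K * (1 + N * δ) ^ K)) * ∫⁻ t in Set.Ioc a1 b1, ∫⁻ ξ,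
        ENNReal.ofReal (‖rad g ((Real.exp (-t) : ℂ) • ξ)‖ ^ 2 * (1 + N * rho ξ ζ) ^ (-K))
          ∂(sig n) := by
    set c0 : ℝ≥0∞ := ENNReal.ofReal (t0 * (2 ^ K * (1 + N * δ) ^ K)) with hc0
    have hc0t : c0 ≠ ⊤ := ENNReal.ofReal_ne_top
    have hsw := J15_swap g N K ζ a1 b1
    rw [← hsw, ← lintegral_const_mul' _ _ hc0t]
    apply lintegral_mono_ae
    filter_upwards [sig_ae_norm hn] with ξ hξ
    exact hpt ξ hξ
  calc ENNReal.ofReal (C2 * t0 ^ (-(n : ℝ))) *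
        ∫⁻ ξ, ENNReal.ofReal (‖F ξ‖ ^ (2 : ℝ) * (1 + rho ξ ζθ / t0) ^ (-K)) ∂(sig n)
      ≤ ENNReal.ofReal (C2 * t0 ^ (-(n : ℝ))) *
        (ENNReal.ofReal (t0 * (2 ^ K * (1 + N * δ) ^ K)) * ∫⁻ t in Set.Ioc a1 b1, ∫⁻ ξ,
        ENNReal.ofReal (‖rad g ((Real.exp (-t) : ℂ) • ξ)‖ ^ 2 * (1 + N * rho ξ ζ) ^ (-K))
          ∂(sig n)) := by gcongr
    _ = _ := by
        rw [← mul_assoc, ← ENNReal.ofReal_mul (by positivity)]
        congr 2
        rw [ht0, Real.div_rpow hη0.le hN0.le, Real.rpow_neg hN0.le, div_inv_eq_mul,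
          Real.rpow_sub_one hN0.ne']
        field_simp

/-- TARGET -/
theorem coef_bound (n : ℕ) (hn : 1 ≤ n) (β : ℝ → ℝ) (a b : ℝ) (hβ : Bump β a b) (K : ℝ)
    (hK : 0 ≤ K) (N₀ : ℝ) (hN₀ : 0 < N₀) : ∃ C : ℝ, 0 < C ∧
    ∀ g : E n → ℂ, DifferentiableOn ℂ g (Metric.ball 0 1) → ∀ N : ℝ, N₀ ≤ N → ∀ ζ : E n,
    ‖ζ‖ = 1 →
      ENNReal.ofReal (‖cut β N g ζ‖ ^ 2) ≤ ENNReal.ofReal (C * N ^ ((n : ℝ) - 1)) *
        ∫⁻ t in Set.Ioc ((2 : ℝ) ^ (-(1 / (n : ℝ))) / N) (1 / N), ∫⁻ ξ,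
          ENNReal.ofReal (‖rad g ((Real.exp (-t) : ℂ) • ξ)‖ ^ 2 *
            (1 + N * rho ξ ζ) ^ (-K)) ∂(sig n) := by
  have hn' : (0 : ℝ) < n := by exact_mod_cast hn
  set η : ℝ := 1 - (2 : ℝ) ^ (-(1 / (n : ℝ))) with hη
  have hpow0 : 0 < (2 : ℝ) ^ (-(1 / (n : ℝ))) := by positivity
  have hpow1 : (2 : ℝ) ^ (-(1 / (n : ℝ))) < 1 := by
    apply Real.rpow_lt_one_of_one_lt_of_neg (by norm_num)
    have : 0 < 1 / (n : ℝ) := by positivity
    linarith
  have hη0 : 0 < η := by rw [hη]; linarith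
  have hη1 : η < 1 := by rw [hη]; linarith
  have hη2 : (2 : ℝ) ^ (-(1 / (n : ℝ))) = 1 - η := by rw [hη]; ring
  obtain ⟨C7, hC7, hpt⟩ := J15_point n hn η hη0 hη1 K hK N₀ hN₀
  set m : ℕ := ⌈K⌉₊ with hm
  have hmK : K ≤ m := Nat.le_ceil K
  have hφ := J15_bump hβ hη0
  obtain ⟨C1, hC1, hker⟩ := multiplier_kernel _ a b hφ (m + 2) N₀ hN₀
  refine ⟨C1 ^ 2 * C7, by positivity, ?_⟩
  intro g hg N hN ζ hζ
  have hN0 : 0 < N := lt_of_lt_of_le hN₀ hN
  rw [hη2]
  set A : ℝ≥0∞ := ∫⁻ t in Set.Ioc ((1 - η) / N) (1 / N), ∫⁻ ξ,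
          ENNReal.ofReal (‖rad g ((Real.exp (-t) : ℂ) • ξ)‖ ^ 2 *
            (1 + N * rho ξ ζ) ^ (-K)) ∂(sig n) with hA
  have hNp : 0 < N ^ ((n : ℝ) - 1) := Real.rpow_pos_of_pos hN0 _
  by_cases hAtop : A = ⊤
  · rw [hAtop, ENNReal.mul_top]
    · exact le_top
    · rw [Ne, ENNReal.ofReal_eq_zero, not_le]
      positivity
  have hAeq : A = ENNReal.ofReal A.toReal := (ENNReal.ofReal_toReal hAtop).symm
  set A' := A.toReal with hA'
  have hA'0 : 0 ≤ A' := ENNReal.toReal_nonneg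
  set S : ℝ := Real.sqrt (C7 * N ^ ((n : ℝ) - 1) * A') with hS
  have hS0 : 0 ≤ S := Real.sqrt_nonneg _
  have hSsq : S ^ 2 = C7 * N ^ ((n : ℝ) - 1) * A' := Real.sq_sqrt (by positivity)
  set FF : ℝ → ℂ := fun θ => g (((Real.exp (-1 / N) : ℝ) * Complex.exp (θ * I) : ℂ) • ζ) -
          g (((Real.exp (-(1 + η) / N) : ℝ) * Complex.exp (θ * I) : ℂ) • ζ) with hFF
  have hFb : ∀ θ : ℝ, ‖FF θ‖ ≤ S * (1 + N * ‖1 - Complex.exp (-(θ * I))‖) ^ m := by
    intro θ
    have h1 := hpt g hg N hN ζ hζ θ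
    rw [← hA, hAeq, ← ENNReal.ofReal_mul (by positivity),
      ENNReal.ofReal_le_ofReal_iff (by positivity)] at h1
    set D := 1 + N * ‖1 - Complex.exp (-(θ * I))‖ with hD
    have hD1 : 1 ≤ D := by
      have : 0 ≤ N * ‖1 - Complex.exp (-(θ * I))‖ := by positivity
      linarith
    have hDK : D ^ K ≤ (D ^ m) ^ 2 := by
      calc D ^ K ≤ D ^ (m : ℝ) := Real.rpow_le_rpow_of_exponent_le hD1 hmK
        _ = D ^ m := Real.rpow_natCast D m
        _ ≤ (D ^ m) ^ 2 := by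
            have : 1 ≤ D ^ m := one_le_pow₀ hD1
            nlinarith
    have h2 : ‖FF θ‖ ^ 2 ≤ (S * D ^ m) ^ 2 := by
      calc ‖FF θ‖ ^ 2 ≤ C7 * N ^ ((n : ℝ) - 1) * D ^ K * A' := h1
        _ ≤ C7 * N ^ ((n : ℝ) - 1) * (D ^ m) ^ 2 * A' := by gcongr
        _ = (S * D ^ m) ^ 2 := by rw [mul_pow, hSsq]; ring
    exact le_of_sq_le_sq h2 (by positivity)
  have hrep := J15_repr hβ hη0 hg hN0 hζ
  have hbound : ‖∫ θ in (0:ℝ)..(2 * Real.pi),
      ker (fun x => β x / (Real.exp (-x) - Real.exp (-((1 + η) * x)))) N (Complex.exp (-(θ * I))) *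
        FF θ‖ ≤ ∫ θ in (0:ℝ)..(2 * Real.pi),
          C1 * S * (N * ((1 + N * ‖1 - Complex.exp (-(θ * I))‖) ^ 2)⁻¹) := by
    apply intervalIntegral.norm_integral_le_of_norm_le (by positivity)
    · filter_upwards with θ _
      rw [norm_mul]
      have hz : ‖Complex.exp (-(θ * I))‖ ≤ 1 := by
        have : -(θ * I) = ((-θ : ℝ) : ℂ) * I := by push_cast; ring
        rw [this, Complex.norm_exp_ofReal_mul_I]
      have k1 := hker N hN (Complex.exp (-(θ * I))) hz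
      have k2 := hFb θ
      set D := 1 + N * ‖1 - Complex.exp (-(θ * I))‖ with hD
      have hD0 : 0 < D := by positivity
      have k3 : D ^ (-((m + 2 : ℕ) : ℝ)) = (D ^ (m + 2))⁻¹ := by
        rw [Real.rpow_neg hD0.le, Real.rpow_natCast]
      rw [k3] at k1
      calc ‖ker (fun x => β x / (Real.exp (-x) - Real.exp (-((1 + η) * x)))) N
            (Complex.exp (-(θ * I)))‖ * ‖FF θ‖ ≤ (C1 * N * (D ^ (m + 2))⁻¹) * (S * D ^ m) :=
            mul_le_mul k1 k2 (norm_nonneg _) (by positivity)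
        _ = C1 * S * (N * (D ^ 2)⁻¹) := by
            rw [pow_add]
            field_simp
    · exact (continuous_const.mul (J15_wcont N hN0)).intervalIntegrable _ _
  rw [hrep, intervalIntegral.integral_const_mul] at hbound
  have hI := J15_int hN0
  have h5 : ‖(2 * Real.pi * cut β N g ζ : ℂ)‖ = 2 * Real.pi * ‖cut β N g ζ‖ := by
    rw [norm_mul, norm_mul, Complex.norm_real, Real.norm_of_nonneg Real.pi_pos.le]
    norm_num
  rw [h5] at hbound
  have h6 : 2 * Real.pi * ‖cut β N g ζ‖ ≤ C1 * S * Real.pi :=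
    hbound.trans (mul_le_mul_of_nonneg_left hI (by positivity))
  have hpi := Real.pi_pos
  have h7 : ‖cut β N g ζ‖ ≤ C1 * S := by
    have h8 : 0 ≤ C1 * S := by positivity
    nlinarith
  rw [hAeq, ← ENNReal.ofReal_mul (by positivity)]
  apply ENNReal.ofReal_le_ofReal
  calc ‖cut β N g ζ‖ ^ 2 ≤ (C1 * S) ^ 2 := pow_le_pow_left₀ (norm_nonneg _) h7 2
    _ = C1 ^ 2 * C7 * N ^ ((n : ℝ) - 1) * A' := by rw [mul_pow, hSsq]; ring


end Pool.Agent.HpBall
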