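import Mathlib

set_option autoImplicit false

open MeasureTheory Complex
open scoped ENNReal NNReal

namespace Pool.Agent.HpBall

/-- real part of the `TT*` argument -/
theorem maximal_abstract_real {X : Type} [Fintype X]
    (w : ℝ) (hw : 0 ≤ w) (L : ℕ) (κ : ℕ → X → X → ℝ) (hκ0 : ∀ l x x', 0 ≤ κ l x x')
    (C : ℝ) (hC : 0 < C)
    (h2 : ∀ l m, l ≤ m → m < L → ∀ x x', w * ∑ z, κ l x z * κ m x' z ≤ C * κ l x x')
    (sel : X → ℕ) (hsel : ∀ x, sel x < L) (A : X → ℝ) (hA : ∀ x, 0 ≤ A x) :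
    w ^ 2 * ∑ x, ∑ x', A x * A x' * κ (sel x) x x' ≤ 2 * C * (w * ∑ x, A x ^ 2) := by
  set Q := w ^ 2 * ∑ x, ∑ x', A x * A x' * κ (sel x) x x' with hQ
  have hQ0 : 0 ≤ Q := by
    refine mul_nonneg (sq_nonneg _) (Finset.sum_nonneg fun x _ => Finset.sum_nonneg fun x' _ => ?_)
    exact mul_nonneg (mul_nonneg (hA _) (hA _)) (hκ0 _ _ _)
  set T := w * ∑ x, A x ^ 2 with hT
  have hT0 : 0 ≤ T := mul_nonneg hw (Finset.sum_nonneg fun x _ => sq_nonneg _)
  set S : X → ℝ := fun z => w * ∑ x, A x * κ (sel x) x z with hS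
  have hQS : Q = w * ∑ z, A z * S z := by
    simp only [hQ, hS]
    rw [Finset.sum_comm, Finset.mul_sum, Finset.mul_sum]
    refine Finset.sum_congr rfl fun z _ => ?_
    rw [Finset.mul_sum, Finset.mul_sum, Finset.mul_sum, Finset.mul_sum]
    refine Finset.sum_congr rfl fun x _ => ?_
    ring
  have hswap : ∑ x, ∑ x', A x * A x' * κ (sel x') x' x = ∑ x, ∑ x', A x * A x' * κ (sel x) x x' := by
    rw [Finset.sum_comm]
    refine Finset.sum_congr rfl fun x _ => Finset.sum_congr rfl fun x' _ => ?_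
    ring
  have hSS : w * ∑ z, S z ^ 2 ≤ 2 * C * Q := by
    have e1 : w * ∑ z, S z ^ 2 =
        w ^ 2 * ∑ x, ∑ x', A x * A x' * (w * ∑ z, κ (sel x) x z * κ (sel x') x' z) := by
      have e2 : ∀ z, S z ^ 2 = w ^ 2 * ∑ x, ∑ x', A x * A x' * (κ (sel x) x z * κ (sel x') x' z) := by
        intro z
        simp only [hS]
        rw [mul_pow, sq (∑ x, A x * κ (sel x) x z), Finset.sum_mul_sum]
        congr 1
        refine Finset.sum_congr rfl fun x _ => Finset.sum_congr rfl fun x' _ => ?_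
        ring
      simp_rw [e2]
      rw [← Finset.mul_sum, Finset.sum_comm]
      have e3 : ∀ x, ∑ z, ∑ x', A x * A x' * (κ (sel x) x z * κ (sel x') x' z) =
          ∑ x', A x * A x' * ∑ z, (κ (sel x) x z * κ (sel x') x' z) := by
        intro x
        rw [Finset.sum_comm]
        refine Finset.sum_congr rfl fun x' _ => ?_
        rw [Finset.mul_sum]
      simp_rw [e3]
      rw [mul_left_comm, Finset.mul_sum]
      congr 1
      refine Finset.sum_congr rfl fun x _ => ?_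
      rw [Finset.mul_sum]
      refine Finset.sum_congr rfl fun x' _ => ?_
      ring
    have e4 : ∀ x x', w * ∑ z, κ (sel x) x z * κ (sel x') x' z ≤
        C * (κ (sel x) x x' + κ (sel x') x' x) := by
      intro x x'
      rcases le_total (sel x) (sel x') with h | h
      · refine (h2 _ _ h (hsel _) x x').trans ?_
        have := hκ0 (sel x') x' x
        nlinarith
      · have h3 := h2 _ _ h (hsel _) x' x
        have e5 : ∑ z, κ (sel x) x z * κ (sel x') x' z = ∑ z, κ (sel x') x' z * κ (sel x) x z :=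
          Finset.sum_congr rfl fun z _ => mul_comm _ _
        rw [e5]
        refine h3.trans ?_
        have := hκ0 (sel x) x x'
        nlinarith
    rw [e1]
    calc w ^ 2 * ∑ x, ∑ x', A x * A x' * (w * ∑ z, κ (sel x) x z * κ (sel x') x' z)
        ≤ w ^ 2 * ∑ x, ∑ x', A x * A x' * (C * (κ (sel x) x x' + κ (sel x') x' x)) := by
          refine mul_le_mul_of_nonneg_left ?_ (sq_nonneg _)
          refine Finset.sum_le_sum fun x _ => Finset.sum_le_sum fun x' _ => ?_
          exact mul_le_mul_of_nonneg_left (e4 x x') (mul_nonneg (hA _) (hA _))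
      _ = C * (w ^ 2 * ∑ x, ∑ x', A x * A x' * κ (sel x) x x' +
            w ^ 2 * ∑ x, ∑ x', A x * A x' * κ (sel x') x' x) := by
          rw [← mul_add, ← Finset.sum_add_distrib]
          simp_rw [← Finset.sum_add_distrib]
          rw [mul_left_comm]
          congr 1
          rw [Finset.mul_sum]
          refine Finset.sum_congr rfl fun x _ => ?_
          rw [Finset.mul_sum]
          refine Finset.sum_congr rfl fun x' _ => ?_
          ring
      _ = 2 * C * Q := by rw [hswap]; ring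
  -- Cauchy-Schwarz
  have hCS : (∑ z : X, A z * S z) ^ 2 ≤ (∑ z : X, A z ^ 2) * ∑ z : X, S z ^ 2 :=
    Finset.sum_mul_sq_le_sq_mul_sq _ _ _
  have h3 : Q ^ 2 ≤ T * (2 * C * Q) := by
    calc Q ^ 2 = w ^ 2 * (∑ z, A z * S z) ^ 2 := by rw [hQS, mul_pow]
      _ ≤ w ^ 2 * ((∑ z, A z ^ 2) * ∑ z, S z ^ 2) := mul_le_mul_of_nonneg_left hCS (sq_nonneg _)
      _ = T * (w * ∑ z, S z ^ 2) := by rw [hT]; ring
      _ ≤ T * (2 * C * Q) := mul_le_mul_of_nonneg_left hSS hT0
  rcases hQ0.eq_or_lt with h | h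
  · rw [← h]; positivity
  · have h4 : Q * Q ≤ (2 * C * T) * Q := by nlinarith
    exact le_of_mul_le_mul_right h4 h

/-- Cauchy-Schwarz for `lintegral` -/
theorem lintegral_mul_sq_le {Y : Type} [MeasurableSpace Y] (ν : Measure Y)
    (f g : Y → ℝ≥0∞) (hf : AEMeasurable f ν) (hg : AEMeasurable g ν) :
    (∫⁻ y, f y * g y ∂ν) ^ 2 ≤ (∫⁻ y, f y ^ 2 ∂ν) * ∫⁻ y, g y ^ 2 ∂ν := by
  have h := ENNReal.lintegral_mul_le_Lp_mul_Lq ν (p := 2) (q := 2) Real.HolderConjugate.two_two hf hg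
  have h2 : (∫⁻ y, f y * g y ∂ν) ^ (2 : ℝ) ≤
      ((∫⁻ y, f y ^ (2 : ℝ) ∂ν) ^ (1 / (2 : ℝ)) * (∫⁻ y, g y ^ (2 : ℝ) ∂ν) ^ (1 / (2 : ℝ))) ^ (2 : ℝ) :=
    ENNReal.rpow_le_rpow h (by norm_num)
  rw [ENNReal.mul_rpow_of_nonneg _ _ (by norm_num : (0 : ℝ) ≤ 2), ← ENNReal.rpow_mul,
    ← ENNReal.rpow_mul] at h2
  norm_num at h2
  exact h2

/-- TARGET -/
theorem maximal_abstract {X Y : Type} [Fintype X] [MeasurableSpace Y] (ν : Measure Y)
    (w : ℝ) (hw : 0 ≤ w) (L : ℕ) (k : ℕ → X → Y → ℝ) (hk0 : ∀ l x y, 0 ≤ k l x y)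
    (hkm : ∀ l x, Measurable (k l x)) (κ : ℕ → X → X → ℝ) (hκ0 : ∀ l x x', 0 ≤ κ l x x')
    (C : ℝ) (hC : 0 < C)
    (h1 : ∀ l m, l ≤ m → m < L → ∀ x x', ∫⁻ y, ENNReal.ofReal (k l x y * k m x' y) ∂ν ≤
      ENNReal.ofReal (C * κ l x x'))
    (h2 : ∀ l m, l ≤ m → m < L → ∀ x x', w * ∑ z, κ l x z * κ m x' z ≤ C * κ l x x')
    (u : Y → ℝ≥0∞) (hu : Measurable u) (sel : X → ℕ) (hsel : ∀ x, sel x < L) :
    ENNReal.ofReal w * ∑ x, (∫⁻ y, ENNReal.ofReal (k (sel x) x y) * u y ∂ν) ^ 2 ≤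
      ENNReal.ofReal (4 * C ^ 2) * ∫⁻ y, u y ^ 2 ∂ν := by
  by_cases hU : ∫⁻ y, u y ^ 2 ∂ν = ⊤
  · rw [hU, ENNReal.mul_top (by rw [Ne, ENNReal.ofReal_eq_zero, not_le]; positivity)]
    exact le_top
  set a : X → ℝ≥0∞ := fun x => ∫⁻ y, ENNReal.ofReal (k (sel x) x y) * u y ∂ν with ha
  have hm : ∀ x, Measurable fun y => ENNReal.ofReal (k (sel x) x y) :=
    fun x => (hkm _ _).ennreal_ofReal
  have hafin : ∀ x, a x ≠ ⊤ := by
    intro x
    have h3 : a x ^ 2 ≤ (∫⁻ y, ENNReal.ofReal (k (sel x) x y) ^ 2 ∂ν) * ∫⁻ y, u y ^ 2 ∂ν :=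
      lintegral_mul_sq_le ν _ _ (hm x).aemeasurable hu.aemeasurable
    have h4 : ∫⁻ y, ENNReal.ofReal (k (sel x) x y) ^ 2 ∂ν ≤ ENNReal.ofReal (C * κ (sel x) x x) := by
      have h5 := h1 (sel x) (sel x) le_rfl (hsel x) x x
      refine le_trans (le_of_eq ?_) h5
      refine lintegral_congr fun y => ?_
      rw [← ENNReal.ofReal_pow (hk0 _ _ _), sq]
    have h6 : a x ^ 2 ≠ ⊤ := by
      refine ne_top_of_le_ne_top (ENNReal.mul_ne_top ?_ hU) h3
      exact ne_top_of_le_ne_top ENNReal.ofReal_ne_top h4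
    intro h7
    rw [h7] at h6
    exact h6 (by simp)
  set A : X → ℝ := fun x => (a x).toReal with hA
  have hA0 : ∀ x, 0 ≤ A x := fun x => ENNReal.toReal_nonneg
  have haA : ∀ x, a x = ENNReal.ofReal (A x) := fun x => (ENNReal.ofReal_toReal (hafin x)).symm
  set Φ : Y → ℝ := fun y => ∑ x, A x * k (sel x) x y with hΦ
  have hΦ0 : ∀ y, 0 ≤ Φ y := fun y => Finset.sum_nonneg fun x _ => mul_nonneg (hA0 _) (hk0 _ _ _)
  have hΦm : Measurable Φ := Finset.measurable_sum _ fun x _ => (hkm _ _).const_mul _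
  set T : ℝ := w * ∑ x, A x ^ 2 with hT
  have hT0 : 0 ≤ T := mul_nonneg hw (Finset.sum_nonneg fun x _ => sq_nonneg _)
  have hLHS : ENNReal.ofReal w * ∑ x, a x ^ 2 = ENNReal.ofReal T := by
    rw [hT, ENNReal.ofReal_mul hw, ENNReal.ofReal_sum_of_nonneg fun x _ => sq_nonneg _]
    congr 1
    refine Finset.sum_congr rfl fun x _ => ?_
    rw [haA, ENNReal.ofReal_pow (hA0 x)]
  have hTint : ENNReal.ofReal T = ∫⁻ y, ENNReal.ofReal (w * Φ y) * u y ∂ν := by
    have h3 : ∀ y, ENNReal.ofReal (w * Φ y) * u y =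
        ∑ x, ENNReal.ofReal (w * A x) * (ENNReal.ofReal (k (sel x) x y) * u y) := by
      intro y
      have : w * Φ y = ∑ x, (w * A x) * k (sel x) x y := by
        rw [hΦ, Finset.mul_sum]
        exact Finset.sum_congr rfl fun x _ => by ring
      rw [this, ENNReal.ofReal_sum_of_nonneg (fun x _ =>
        mul_nonneg (mul_nonneg hw (hA0 _)) (hk0 _ _ _)), Finset.sum_mul]
      refine Finset.sum_congr rfl fun x _ => ?_
      rw [ENNReal.ofReal_mul (mul_nonneg hw (hA0 _)), mul_assoc]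
    have hm2 : ∀ x, Measurable fun y => ENNReal.ofReal (k (sel x) x y) * u y :=
      fun x => (hm x).mul hu
    simp_rw [h3]
    rw [lintegral_finsetSum _ (fun x _ => (hm2 x).const_mul _)]
    simp_rw [lintegral_const_mul _ (hm2 _)]
    rw [← hLHS, Finset.mul_sum]
    refine Finset.sum_congr rfl fun x _ => ?_
    change _ = ENNReal.ofReal (w * A x) * a x
    rw [ENNReal.ofReal_mul hw, ← haA, sq, mul_assoc]
  have hsq : ENNReal.ofReal T ^ 2 ≤ (∫⁻ y, ENNReal.ofReal (w * Φ y) ^ 2 ∂ν) * ∫⁻ y, u y ^ 2 ∂ν := by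
    rw [hTint]
    exact lintegral_mul_sq_le ν _ _ (hΦm.const_mul _).ennreal_ofReal.aemeasurable hu.aemeasurable
  have hR : ∫⁻ y, ENNReal.ofReal (w * Φ y) ^ 2 ∂ν ≤ ENNReal.ofReal (4 * C ^ 2 * T) := by
    have h3 : ∀ y, ENNReal.ofReal (w * Φ y) ^ 2 =
        ∑ x, ∑ x', ENNReal.ofReal (w ^ 2 * (A x * A x')) *
          ENNReal.ofReal (k (sel x) x y * k (sel x') x' y) := by
      intro y
      rw [← ENNReal.ofReal_pow (mul_nonneg hw (hΦ0 y))]
      have : (w * Φ y) ^ 2 = ∑ x, ∑ x', (w ^ 2 * (A x * A x')) *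
          (k (sel x) x y * k (sel x') x' y) := by
        rw [mul_pow, sq (Φ y), hΦ, Finset.sum_mul_sum, Finset.mul_sum]
        refine Finset.sum_congr rfl fun x _ => ?_
        rw [Finset.mul_sum]
        refine Finset.sum_congr rfl fun x' _ => ?_
        ring
      rw [this, ENNReal.ofReal_sum_of_nonneg (fun x _ => Finset.sum_nonneg fun x' _ =>
        mul_nonneg (mul_nonneg (sq_nonneg _) (mul_nonneg (hA0 _) (hA0 _)))
          (mul_nonneg (hk0 _ _ _) (hk0 _ _ _)))]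
      refine Finset.sum_congr rfl fun x _ => ?_
      rw [ENNReal.ofReal_sum_of_nonneg (fun x' _ =>
        mul_nonneg (mul_nonneg (sq_nonneg _) (mul_nonneg (hA0 _) (hA0 _)))
          (mul_nonneg (hk0 _ _ _) (hk0 _ _ _)))]
      refine Finset.sum_congr rfl fun x' _ => ?_
      rw [ENNReal.ofReal_mul (mul_nonneg (sq_nonneg _) (mul_nonneg (hA0 _) (hA0 _)))]
    have hmm : ∀ x x', Measurable fun y => ENNReal.ofReal (k (sel x) x y * k (sel x') x' y) :=
      fun x x' => ((hkm _ _).mul (hkm _ _)).ennreal_ofReal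
    simp_rw [h3]
    rw [lintegral_finsetSum _ (fun x _ => Finset.measurable_sum _ fun x' _ =>
      (hmm x x').const_mul _)]
    have h4 : ∀ x, ∫⁻ y, ∑ x', ENNReal.ofReal (w ^ 2 * (A x * A x')) *
          ENNReal.ofReal (k (sel x) x y * k (sel x') x' y) ∂ν =
        ∑ x', ENNReal.ofReal (w ^ 2 * (A x * A x')) *
          ∫⁻ y, ENNReal.ofReal (k (sel x) x y * k (sel x') x' y) ∂ν := by
      intro x
      rw [lintegral_finsetSum _ (fun x' _ => (hmm x x').const_mul _)]
      refine Finset.sum_congr rfl fun x' _ => ?_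
      rw [lintegral_const_mul _ (hmm x x')]
    simp_rw [h4]
    have h5 : ∀ x x', ∫⁻ y, ENNReal.ofReal (k (sel x) x y * k (sel x') x' y) ∂ν ≤
        ENNReal.ofReal (C * (κ (sel x) x x' + κ (sel x') x' x)) := by
      intro x x'
      rcases le_total (sel x) (sel x') with h | h
      · refine (h1 _ _ h (hsel _) x x').trans (ENNReal.ofReal_le_ofReal ?_)
        have := hκ0 (sel x') x' x
        nlinarith
      · have h6 := h1 _ _ h (hsel _) x' x
        simp_rw [mul_comm (k (sel x') x' _)] at h6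
        refine h6.trans (ENNReal.ofReal_le_ofReal ?_)
        have := hκ0 (sel x) x x'
        nlinarith
    calc ∑ x, ∑ x', ENNReal.ofReal (w ^ 2 * (A x * A x')) *
          ∫⁻ y, ENNReal.ofReal (k (sel x) x y * k (sel x') x' y) ∂ν
        ≤ ∑ x, ∑ x', ENNReal.ofReal (w ^ 2 * (A x * A x')) *
          ENNReal.ofReal (C * (κ (sel x) x x' + κ (sel x') x' x)) :=
          Finset.sum_le_sum fun x _ => Finset.sum_le_sum fun x' _ => mul_le_mul_right (h5 x x') _
      _ = ENNReal.ofReal (∑ x, ∑ x', (w ^ 2 * (A x * A x')) *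
            (C * (κ (sel x) x x' + κ (sel x') x' x))) := by
          rw [ENNReal.ofReal_sum_of_nonneg (fun x _ => Finset.sum_nonneg fun x' _ =>
            mul_nonneg (mul_nonneg (sq_nonneg _) (mul_nonneg (hA0 _) (hA0 _)))
              (mul_nonneg hC.le (add_nonneg (hκ0 _ _ _) (hκ0 _ _ _))))]
          refine Finset.sum_congr rfl fun x _ => ?_
          rw [ENNReal.ofReal_sum_of_nonneg (fun x' _ =>
            mul_nonneg (mul_nonneg (sq_nonneg _) (mul_nonneg (hA0 _) (hA0 _)))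
              (mul_nonneg hC.le (add_nonneg (hκ0 _ _ _) (hκ0 _ _ _))))]
          refine Finset.sum_congr rfl fun x' _ => ?_
          rw [ENNReal.ofReal_mul (mul_nonneg (sq_nonneg _) (mul_nonneg (hA0 _) (hA0 _)))]
      _ ≤ ENNReal.ofReal (4 * C ^ 2 * T) := by
          refine ENNReal.ofReal_le_ofReal ?_
          have hreal := maximal_abstract_real w hw L κ hκ0 C hC h2 sel hsel A hA0
          have hswap : ∑ x, ∑ x', A x * A x' * κ (sel x') x' x =
              ∑ x, ∑ x', A x * A x' * κ (sel x) x x' := by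
            rw [Finset.sum_comm]
            refine Finset.sum_congr rfl fun x _ => Finset.sum_congr rfl fun x' _ => ?_
            ring
          have e1 : ∑ x, ∑ x', (w ^ 2 * (A x * A x')) *
              (C * (κ (sel x) x x' + κ (sel x') x' x)) =
              C * (w ^ 2 * ∑ x, ∑ x', A x * A x' * κ (sel x) x x' +
                w ^ 2 * ∑ x, ∑ x', A x * A x' * κ (sel x') x' x) := by
            rw [← mul_add, ← Finset.sum_add_distrib]
            simp_rw [← Finset.sum_add_distrib]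
            rw [← mul_assoc, Finset.mul_sum]
            refine Finset.sum_congr rfl fun x _ => ?_
            rw [Finset.mul_sum]
            refine Finset.sum_congr rfl fun x' _ => ?_
            ring
          rw [e1, hswap]
          nlinarith
  have hfin : ENNReal.ofReal T ^ 2 ≤ ENNReal.ofReal T * (ENNReal.ofReal (4 * C ^ 2) *
      ∫⁻ y, u y ^ 2 ∂ν) := by
    refine hsq.trans ((mul_le_mul_left hR _).trans (le_of_eq ?_))
    rw [ENNReal.ofReal_mul (by positivity)]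
    ring
  change ENNReal.ofReal w * ∑ x, a x ^ 2 ≤ _
  rw [hLHS]
  by_cases hTz : ENNReal.ofReal T = 0
  · rw [hTz]; exact bot_le
  · rw [sq] at hfin
    exact (ENNReal.mul_le_mul_iff_right hTz ENNReal.ofReal_ne_top).1 hfin


end Pool.Agent.HpBall
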