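import Mathlib
import Pool.Agent.HpBall.Defs2
import Pool.Agent.HpBall.Geom
import Pool.Agent.HpBall.Sphere
import Pool.Agent.HpBall.MaxAbs
import Pool.Agent.HpBall.KerInt

set_option autoImplicit false

open MeasureTheory Complex
open scoped ENNReal NNReal

namespace Pool.Agent.HpBall

/-- the basic kernel -/
noncomputable def tmg (n : ℕ) (K N r : ℝ) : ℝ := N ^ (n : ℝ) * (1 + N * r) ^ (-K)

lemma tmg_nonneg (n : ℕ) (K : ℝ) {N r : ℝ} (hN : 0 < N) (hr : 0 ≤ r) : 0 ≤ tmg n K N r := by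
  unfold tmg; positivity

/-- comparison of kernels -/
lemma tmg_cmp (n : ℕ) {K : ℝ} (hK : 0 < K) {N r b c : ℝ} (hN : 0 < N) (hr : 0 ≤ r) (hb : 0 ≤ b)
    (hc : 0 < c) (h : 1 + N * b ≤ c * (1 + N * r)) : tmg n K N r ≤ c ^ K * tmg n K N b := by
  unfold tmg
  have h1 : (1 + N * r) ^ (-K) ≤ c ^ K * (1 + N * b) ^ (-K) := by
    have hb1 : 0 < 1 + N * b := by positivity
    have hr1 : 0 < 1 + N * r := by positivity
    have h2 : (1 + N * b) / c ≤ 1 + N * r := by
      rw [div_le_iff₀ hc]; linarith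
    have h3 := Real.rpow_le_rpow_of_nonpos (div_pos hb1 hc) h2 (by linarith : -K ≤ 0)
    refine h3.trans (le_of_eq ?_)
    rw [Real.div_rpow hb1.le hc.le, Real.rpow_neg hc.le, div_inv_eq_mul, mul_comm]
  calc N ^ (n : ℝ) * (1 + N * r) ^ (-K) ≤ N ^ (n : ℝ) * (c ^ K * (1 + N * b) ^ (-K)) := by
        gcongr
    _ = _ := by ring

lemma tm_key (n : ℕ) {K : ℝ} (hK : (n : ℝ) < K) {T : ℝ} (hT : 0 ≤ T) {N M r s b : ℝ}
    (hN : 0 < N) (hNM : N ≤ M) (hr : 0 ≤ r) (hs : 0 ≤ s) (hb : 0 ≤ b)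
    (h : N * b ≤ 3 * (N * r + T + N * s)) :
    tmg n K N r * tmg n K M s ≤
      (12 * (1 + T)) ^ K * tmg n K N b * (tmg n K M s + tmg n K N r) := by
  have hM : 0 < M := lt_of_lt_of_le hN hNM
  have hK0 : 0 < K := lt_of_le_of_lt (Nat.cast_nonneg n) hK
  have hc : 0 < 12 * (1 + T) := by positivity
  have hg1 := tmg_nonneg n K hN hr
  have hg2 := tmg_nonneg n K hM hs
  have hg3 := tmg_nonneg n K hN hb
  have hcK : 0 < (12 * (1 + T)) ^ K := Real.rpow_pos_of_pos hc K
  have hNr : 0 ≤ N * r := by positivity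
  have hNs : 0 ≤ N * s := by positivity
  have hTNr : 0 ≤ T * (N * r) := by positivity
  have hTNs : 0 ≤ T * (N * s) := by positivity
  by_cases hcase : s ≤ r ∨ N * s ≤ 1
  · have hcmp : 1 + N * b ≤ 12 * (1 + T) * (1 + N * r) := by
      rcases hcase with h1 | h1
      · have h2 : N * s ≤ N * r := by gcongr
        nlinarith
      · nlinarith
    have h1 := tmg_cmp n hK0 hN hr hb hc hcmp
    calc tmg n K N r * tmg n K M s ≤ ((12 * (1 + T)) ^ K * tmg n K N b) * tmg n K M s := by gcongr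
      _ ≤ (12 * (1 + T)) ^ K * tmg n K N b * (tmg n K M s + tmg n K N r) := by
          gcongr
          linarith
  · push Not at hcase
    obtain ⟨hrs, hNs1⟩ := hcase
    have h2 : N * r ≤ N * s := by
      have := hrs.le
      gcongr
    -- M / N
    have hq : 0 < M / N := by positivity
    have hq1 : 1 ≤ M / N := by rw [le_div_iff₀ hN]; linarith
    have hcmp : (M / N) * (1 + N * b) ≤ 12 * (1 + T) * (1 + M * s) := by
      have e1 : (M / N) * (1 + N * b) ≤ (M / N) * (6 * (1 + T) * (1 + N * s)) := by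
        apply mul_le_mul_of_nonneg_left _ hq.le
        nlinarith
      have e2 : (M / N) * (1 + N * s) ≤ 2 * (1 + M * s) := by
        rw [div_mul_eq_mul_div, div_le_iff₀ hN]
        have : M ≤ M * (N * s) := by nlinarith
        nlinarith
      calc (M / N) * (1 + N * b) ≤ (M / N) * (6 * (1 + T) * (1 + N * s)) := e1
        _ = 6 * (1 + T) * ((M / N) * (1 + N * s)) := by ring
        _ ≤ 6 * (1 + T) * (2 * (1 + M * s)) := by gcongr
        _ = _ := by ring
    have hb1 : 0 < 1 + N * b := by positivity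
    have hM1 : 0 < 1 + M * s := by positivity
    have h3 : (1 + M * s) ^ (-K) ≤ (12 * (1 + T)) ^ K * ((M / N) ^ (-K) * (1 + N * b) ^ (-K)) := by
      have h4 : (M / N) * (1 + N * b) / (12 * (1 + T)) ≤ 1 + M * s := by
        rw [div_le_iff₀ hc]; linarith
      have h5 := Real.rpow_le_rpow_of_nonpos (by positivity) h4 (by linarith : -K ≤ 0)
      refine h5.trans (le_of_eq ?_)
      rw [Real.div_rpow (by positivity) hc.le, Real.mul_rpow hq.le hb1.le, Real.rpow_neg hc.le,
        div_inv_eq_mul, mul_comm]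
    have h6 : M ^ (n : ℝ) * (M / N) ^ (-K) ≤ N ^ (n : ℝ) := by
      have e1 : M ^ (n : ℝ) = N ^ (n : ℝ) * (M / N) ^ (n : ℝ) := by
        rw [← Real.mul_rpow hN.le hq.le]
        congr 1
        field_simp
      rw [e1, mul_assoc, ← Real.rpow_add hq]
      have e2 : (M / N) ^ ((n : ℝ) + -K) ≤ 1 := Real.rpow_le_one_of_one_le_of_nonpos hq1 (by linarith)
      have e3 : 0 ≤ N ^ (n : ℝ) := by positivity
      nlinarith
    have h7 : tmg n K M s ≤ (12 * (1 + T)) ^ K * tmg n K N b := by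
      unfold tmg
      calc M ^ (n : ℝ) * (1 + M * s) ^ (-K)
          ≤ M ^ (n : ℝ) * ((12 * (1 + T)) ^ K * ((M / N) ^ (-K) * (1 + N * b) ^ (-K))) := by gcongr
        _ = (12 * (1 + T)) ^ K * ((M ^ (n : ℝ) * (M / N) ^ (-K)) * (1 + N * b) ^ (-K)) := by ring
        _ ≤ (12 * (1 + T)) ^ K * (N ^ (n : ℝ) * (1 + N * b) ^ (-K)) := by gcongr
    calc tmg n K N r * tmg n K M s ≤ tmg n K N r * ((12 * (1 + T)) ^ K * tmg n K N b) := by gcongr
      _ = (12 * (1 + T)) ^ K * tmg n K N b * tmg n K N r := by ring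
      _ ≤ (12 * (1 + T)) ^ K * tmg n K N b * (tmg n K M s + tmg n K N r) := by
          gcongr
          linarith

lemma tm_sum_range_div (F : ℕ → ℝ) (a b : ℕ) (hb : 0 < b) :
    ∑ j ∈ Finset.range (a * b), F (j / b) = b * ∑ i ∈ Finset.range a, F i := by
  induction a with
  | zero => simp
  | succ a ih =>
    rw [Nat.succ_mul, Finset.sum_range_add, ih, Finset.sum_range_succ, mul_add]
    congr 1
    rw [Finset.sum_congr rfl (g := fun _ => F a)]
    · simp
    · intro j hj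
      rw [Finset.mem_range] at hj
      congr 1
      rw [mul_comm, Nat.mul_add_div hb, Nat.div_eq_of_lt hj, add_zero]

lemma tm_sc_pos (n l : ℕ) : 0 < sc n l := by unfold sc; positivity

lemma tm_sc_pow (n l : ℕ) (hn : 1 ≤ n) : sc n l ^ (n : ℝ) = 2 ^ l := by
  unfold sc
  have hn0 : (n : ℝ) ≠ 0 := by
    have : 0 < n := hn
    positivity
  rw [← Real.rpow_mul (by norm_num), div_mul_cancel₀ _ hn0, Real.rpow_natCast]

lemma tm_sc_mono (n : ℕ) {l m : ℕ} (h : l ≤ m) : sc n l ≤ sc n m := by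
  unfold sc
  apply Real.rpow_le_rpow_of_exponent_le (by norm_num)
  gcongr

/-- TARGET -/
theorem tree_maximal (n : ℕ) (hn : 1 ≤ n) (pt : ℕ → ℕ → E n) (c C : ℝ) (hT : TreeFam n pt c C)
    (A : ℝ) (hA : 0 < A) (K : ℝ) (hK : (n : ℝ) < K) : ∃ D : ℝ, 0 < D ∧
    ∀ (u : E n → ℝ≥0∞), Measurable u → ∀ (L : ℕ) (sel : ℕ → ℕ), (∀ j, sel j < L) →
      ENNReal.ofReal (1 / 2 ^ L) * ∑ j ∈ Finset.range (2 ^ L),
        (ENNReal.ofReal ((A * sc n (sel j)) ^ (n : ℝ)) * ∫⁻ η, ENNReal.ofReal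
          ((1 + A * sc n (sel j) * rho η (pt (sel j) (j / 2 ^ (L - sel j)))) ^ (-K)) * u η
            ∂(sig n)) ^ 2 ≤
      ENNReal.ofReal D * ∫⁻ η, u η ^ 2 ∂(sig n) := by
  have hK0 : 0 < K := lt_of_le_of_lt (Nat.cast_nonneg n) hK
  obtain ⟨C1, hC1, hker⟩ := kernel_int n hn K hK
  obtain ⟨D1, hD1, hcnt⟩ := counting n hn pt c C hT K hK
  -- C is nonnegative
  have hC0 : 0 ≤ C := by
    have h := hT.nest 0 0 0 le_rfl (by norm_num)
    refine le_trans ?_ h
    exact mul_nonneg (tm_sc_pos _ _).le (rho_nonneg _ _)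
  set T : ℝ := A * C with hTdef
  have hT0 : 0 ≤ T := by positivity
  -- integral of the kernel
  have hint : ∀ ζ : E n, ‖ζ‖ = 1 → ∀ N : ℝ, 0 < N →
      ∫⁻ ξ, ENNReal.ofReal (tmg n K N (rho ξ ζ)) ∂(sig n) ≤ ENNReal.ofReal C1 := by
    intro ζ hζ N hN
    have h1 := hker ζ hζ N hN
    have h2 : ∀ ξ : E n, ENNReal.ofReal (tmg n K N (rho ξ ζ)) =
        ENNReal.ofReal (N ^ (n : ℝ)) * ENNReal.ofReal ((1 + N * rho ξ ζ) ^ (-K)) := by
      intro ξ
      unfold tmg
      rw [ENNReal.ofReal_mul (by positivity)]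
    simp_rw [h2]
    rw [lintegral_const_mul' _ _ ENNReal.ofReal_ne_top]
    calc ENNReal.ofReal (N ^ (n : ℝ)) * ∫⁻ ξ, ENNReal.ofReal ((1 + N * rho ξ ζ) ^ (-K)) ∂(sig n)
        ≤ ENNReal.ofReal (N ^ (n : ℝ)) * ENNReal.ofReal (C1 * N ^ (-(n : ℝ))) := by gcongr
      _ = ENNReal.ofReal C1 := by
          rw [← ENNReal.ofReal_mul (by positivity)]
          congr 1
          rw [Real.rpow_neg hN.le]
          have : N ^ (n : ℝ) ≠ 0 := (Real.rpow_pos_of_pos hN _).ne'
          field_simp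
  -- discrete sum of the kernel
  set cA : ℝ := min 1 A with hcA
  have hcA0 : 0 < cA := lt_min one_pos hA
  set D2 : ℝ := A ^ (n : ℝ) * (cA ^ (-K) * D1) with hD2def
  have hD2 : 0 < D2 := by positivity
  have hsum : ∀ (L m : ℕ), m < L → ∀ ζ : E n, ‖ζ‖ = 1 →
      (1 / 2 ^ L : ℝ) * ∑ j ∈ Finset.range (2 ^ L),
        tmg n K (A * sc n m) (rho ζ (pt m (j / 2 ^ (L - m)))) ≤ D2 := by
    intro L m hm ζ hζ
    have hsplit : 2 ^ L = 2 ^ m * 2 ^ (L - m) := by
      rw [← pow_add]; congr 1; omega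
    have hs1 := tm_sum_range_div (fun i => tmg n K (A * sc n m) (rho ζ (pt m i))) (2 ^ m) (2 ^ (L - m))
      (by positivity)
    rw [← hsplit] at hs1
    rw [hs1]
    have hs2 : ∑ i ∈ Finset.range (2 ^ m), tmg n K (A * sc n m) (rho ζ (pt m i)) ≤
        2 ^ m * D2 := by
      have hpt : ∀ i, tmg n K (A * sc n m) (rho ζ (pt m i)) ≤
          (2 ^ m * (A ^ (n : ℝ) * cA ^ (-K))) * (1 + sc n m * rho ζ (pt m i)) ^ (-K) := by
        intro i
        unfold tmg
        have hr := rho_nonneg ζ (pt m i)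
        have hsc := tm_sc_pos n m
        have e1 : (A * sc n m) ^ (n : ℝ) = A ^ (n : ℝ) * 2 ^ m := by
          rw [Real.mul_rpow hA.le hsc.le, tm_sc_pow n m hn]
        have e2 : (1 + A * sc n m * rho ζ (pt m i)) ^ (-K) ≤
            cA ^ (-K) * (1 + sc n m * rho ζ (pt m i)) ^ (-K) := by
          rw [← Real.mul_rpow hcA0.le (by positivity)]
          apply Real.rpow_le_rpow_of_nonpos (by positivity) _ (by linarith)
          have h3 : cA ≤ 1 := min_le_left _ _
          have h4 : cA ≤ A := min_le_right _ _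
          have h5 : 0 ≤ sc n m * rho ζ (pt m i) := by positivity
          nlinarith
        rw [e1]
        calc A ^ (n : ℝ) * 2 ^ m * (1 + A * sc n m * rho ζ (pt m i)) ^ (-K)
            ≤ A ^ (n : ℝ) * 2 ^ m * (cA ^ (-K) * (1 + sc n m * rho ζ (pt m i)) ^ (-K)) := by gcongr
          _ = _ := by ring
      calc ∑ i ∈ Finset.range (2 ^ m), tmg n K (A * sc n m) (rho ζ (pt m i))
          ≤ ∑ i ∈ Finset.range (2 ^ m),
            (2 ^ m * (A ^ (n : ℝ) * cA ^ (-K))) * (1 + sc n m * rho ζ (pt m i)) ^ (-K) :=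
            Finset.sum_le_sum (fun i _ => hpt i)
        _ = (2 ^ m * (A ^ (n : ℝ) * cA ^ (-K))) * ∑ i ∈ Finset.range (2 ^ m),
            (1 + sc n m * rho ζ (pt m i)) ^ (-K) := by rw [Finset.mul_sum]
        _ ≤ (2 ^ m * (A ^ (n : ℝ) * cA ^ (-K))) * D1 := by
            gcongr
            exact hcnt m ζ hζ
        _ = 2 ^ m * D2 := by rw [hD2def]; ring
    calc (1 / 2 ^ L : ℝ) * (((2 ^ (L - m) : ℕ) : ℝ) *
          ∑ i ∈ Finset.range (2 ^ m), tmg n K (A * sc n m) (rho ζ (pt m i)))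
        ≤ (1 / 2 ^ L : ℝ) * (((2 ^ (L - m) : ℕ) : ℝ) * (2 ^ m * D2)) := by gcongr
      _ = D2 := by
          have e1 : (2 : ℝ) ^ L = 2 ^ m * 2 ^ (L - m) := by exact_mod_cast hsplit
          push_cast
          rw [e1]
          field_simp
  -- the constants
  set C0 : ℝ := (12 * (1 + T)) ^ K with hC0def
  have hC0p : 0 < C0 := Real.rpow_pos_of_pos (by positivity) K
  set C2 : ℝ := (2 * (1 + T)) ^ K with hC2def
  have hC2p : 0 < C2 := Real.rpow_pos_of_pos (by positivity) K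
  set CC : ℝ := C0 * C2 * (2 * C1 + 2 * D2) with hCC
  have hCCp : 0 < CC := by positivity
  refine ⟨4 * CC ^ 2, by positivity, ?_⟩
  intro u hu L sel hsel
  -- points
  set ζ : ℕ → Fin (2 ^ L) → E n := fun l x => pt l (x.val / 2 ^ (L - l)) with hζdef
  have hζ1 : ∀ l x, ‖ζ l x‖ = 1 := fun l x => hT.unit _ _
  have hNpos : ∀ l, 0 < A * sc n l := fun l => mul_pos hA (tm_sc_pos n l)
  have hnest : ∀ l m, l ≤ m → m < L → ∀ x, (A * sc n l) * rho (ζ m x) (ζ l x) ≤ T := by
    intro l m hlm hmL x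
    have hj : x.val / 2 ^ (L - m) < 2 ^ m := by
      rw [Nat.div_lt_iff_lt_mul (by positivity), ← pow_add]
      have : m + (L - m) = L := by omega
      rw [this]; exact x.2
    have h1 := hT.nest l m (x.val / 2 ^ (L - m)) hlm hj
    rw [Nat.div_div_eq_div_mul, ← pow_add, show L - m + (m - l) = L - l by omega] at h1
    calc (A * sc n l) * rho (ζ m x) (ζ l x) = A * (sc n l * rho (ζ m x) (ζ l x)) := by ring
      _ ≤ A * C := by gcongr
  set k : ℕ → Fin (2 ^ L) → E n → ℝ := fun l x η => tmg n K (A * sc n l) (rho η (ζ l x)) with hkdef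
  set κ : ℕ → Fin (2 ^ L) → Fin (2 ^ L) → ℝ := fun l x x' =>
    tmg n K (A * sc n l) (rho (ζ l x) (ζ l x')) with hκdef
  have hk0 : ∀ l x y, 0 ≤ k l x y := fun l x y => tmg_nonneg n K (hNpos l) (rho_nonneg _ _)
  have hκ0 : ∀ l x x', 0 ≤ κ l x x' := fun l x y => tmg_nonneg n K (hNpos l) (rho_nonneg _ _)
  have hkm : ∀ l x, Measurable (k l x) := by
    intro l x
    simp only [hkdef, tmg, rho]
    apply Measurable.const_mul
    apply Measurable.pow_const
    apply Measurable.const_add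
    apply Measurable.const_mul
    apply Measurable.norm
    apply Measurable.const_sub
    fun_prop
  -- comparison of b with kappa
  have hbκ : ∀ l m, l ≤ m → m < L → ∀ x x',
      tmg n K (A * sc n l) (rho (ζ l x) (ζ m x')) ≤ C2 * κ l x x' := by
    intro l m hlm hmL x x'
    apply tmg_cmp n hK0 (hNpos l) (rho_nonneg _ _) (rho_nonneg _ _) (by positivity)
    have h1 := one_add_rho_mul (x := ζ l x) (y := ζ m x') (z := ζ l x') (hζ1 _ _).le (hζ1 _ _)
      (hζ1 _ _).le (hNpos l).le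
    have h2 := hnest l m hlm hmL x'
    have h3 : 0 ≤ (A * sc n l) * rho (ζ l x) (ζ m x') := mul_nonneg (hNpos l).le (rho_nonneg _ _)
    calc 1 + A * sc n l * rho (ζ l x) (ζ l x')
        ≤ 2 * (1 + A * sc n l * rho (ζ l x) (ζ m x')) * (1 + A * sc n l * rho (ζ m x') (ζ l x')) := h1
      _ ≤ 2 * (1 + A * sc n l * rho (ζ l x) (ζ m x')) * (1 + T) := by gcongr
      _ = _ := by ring
  have hscm : ∀ l m, l ≤ m → A * sc n l ≤ A * sc n m := by
    intro l m hlm
    have := tm_sc_mono n hlm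
    gcongr
  have h1 : ∀ l m, l ≤ m → m < L → ∀ x x', ∫⁻ y, ENNReal.ofReal (k l x y * k m x' y) ∂(sig n) ≤
      ENNReal.ofReal (CC * κ l x x') := by
    intro l m hlm hmL x x'
    set b := rho (ζ l x) (ζ m x') with hb
    have hb0 : 0 ≤ b := rho_nonneg _ _
    have hpt : ∀ᵐ y ∂(sig n), ENNReal.ofReal (k l x y * k m x' y) ≤
        ENNReal.ofReal (C0 * tmg n K (A * sc n l) b) *
          (ENNReal.ofReal (k m x' y) + ENNReal.ofReal (k l x y)) := by
      filter_upwards [sig_ae_norm hn] with y hy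
      rw [← ENNReal.ofReal_add (hk0 _ _ _) (hk0 _ _ _), ← ENNReal.ofReal_mul (by
        have := tmg_nonneg n K (hNpos l) hb0
        positivity)]
      apply ENNReal.ofReal_le_ofReal
      apply tm_key n hK hT0 (hNpos l) (hscm l m hlm) (rho_nonneg _ _) (rho_nonneg _ _) hb0
      have h2 := rho_triangle (x := ζ l x) (y := y) (z := ζ m x') (hζ1 _ _).le hy (hζ1 _ _).le
      rw [rho_comm (ζ l x) y] at h2
      have h3 := rho_nonneg y (ζ l x)
      have h4 := rho_nonneg y (ζ m x')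
      have h5 : 0 < A * sc n l := hNpos l
      calc A * sc n l * b ≤ A * sc n l * (2 * (rho y (ζ l x) + rho y (ζ m x'))) := by
            gcongr
        _ ≤ 3 * (A * sc n l * rho y (ζ l x) + T + A * sc n l * rho y (ζ m x')) := by
            have h6 : 0 ≤ A * sc n l * rho y (ζ l x) := by positivity
            have h7 : 0 ≤ A * sc n l * rho y (ζ m x') := by positivity
            nlinarith
    calc ∫⁻ y, ENNReal.ofReal (k l x y * k m x' y) ∂(sig n)
        ≤ ∫⁻ y, ENNReal.ofReal (C0 * tmg n K (A * sc n l) b) *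
          (ENNReal.ofReal (k m x' y) + ENNReal.ofReal (k l x y)) ∂(sig n) := lintegral_mono_ae hpt
      _ = ENNReal.ofReal (C0 * tmg n K (A * sc n l) b) *
          (∫⁻ y, ENNReal.ofReal (k m x' y) ∂(sig n) + ∫⁻ y, ENNReal.ofReal (k l x y) ∂(sig n)) := by
          rw [lintegral_const_mul' _ _ ENNReal.ofReal_ne_top, lintegral_add_left]
          exact (hkm m x').ennreal_ofReal
      _ ≤ ENNReal.ofReal (C0 * tmg n K (A * sc n l) b) *
          (ENNReal.ofReal C1 + ENNReal.ofReal C1) := by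
          gcongr
          · exact hint _ (hζ1 _ _) _ (hNpos m)
          · exact hint _ (hζ1 _ _) _ (hNpos l)
      _ = ENNReal.ofReal (C0 * tmg n K (A * sc n l) b * (C1 + C1)) := by
          rw [← ENNReal.ofReal_add hC1.le hC1.le, ← ENNReal.ofReal_mul (by
            have := tmg_nonneg n K (hNpos l) hb0
            positivity)]
      _ ≤ ENNReal.ofReal (CC * κ l x x') := by
          apply ENNReal.ofReal_le_ofReal
          have h2 := hbκ l m hlm hmL x x'
          rw [← hb] at h2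
          have h3 := hκ0 l x x'
          calc C0 * tmg n K (A * sc n l) b * (C1 + C1) ≤ C0 * (C2 * κ l x x') * (C1 + C1) := by gcongr
            _ = C0 * C2 * (2 * C1) * κ l x x' := by ring
            _ ≤ C0 * C2 * (2 * C1 + 2 * D2) * κ l x x' := by
                gcongr
                linarith
  have hsumF : ∀ (m : ℕ), m < L → ∀ η : E n, ‖η‖ = 1 →
      (1 / 2 ^ L : ℝ) * ∑ z : Fin (2 ^ L), tmg n K (A * sc n m) (rho η (ζ m z)) ≤ D2 := by
    intro m hm η hη
    have h2 := hsum L m hm η hη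
    rw [Finset.sum_range] at h2
    exact h2
  have h2 : ∀ l m, l ≤ m → m < L → ∀ x x', (1 / 2 ^ L : ℝ) * ∑ z, κ l x z * κ m x' z ≤
      CC * κ l x x' := by
    intro l m hlm hmL x x'
    set b := rho (ζ l x) (ζ m x') with hb
    have hb0 : 0 ≤ b := rho_nonneg _ _
    have hgb := tmg_nonneg n K (hNpos l) hb0
    have hpt : ∀ z, κ l x z * κ m x' z ≤
        C0 * tmg n K (A * sc n l) b * (κ m x' z + κ l x z) := by
      intro z
      apply tm_key n hK hT0 (hNpos l) (hscm l m hlm) (rho_nonneg _ _) (rho_nonneg _ _) hb0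
      have t1 := sqrt_rho_triangle (x := ζ l x) (y := ζ l z) (z := ζ m x') (hζ1 _ _).le (hζ1 _ _)
        (hζ1 _ _).le
      have t2 := sqrt_rho_triangle (x := ζ l z) (y := ζ m z) (z := ζ m x') (hζ1 _ _).le (hζ1 _ _)
        (hζ1 _ _).le
      have t3 := hnest l m hlm hmL z
      rw [rho_comm (ζ m z) (ζ l z)] at t3
      rw [rho_comm (ζ m z) (ζ m x')] at t2
      set r1 := rho (ζ l x) (ζ l z)
      set r2 := rho (ζ l z) (ζ m z)
      set r3 := rho (ζ m x') (ζ m z)
      have q1 : 0 ≤ r1 := rho_nonneg _ _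
      have q2 : 0 ≤ r2 := rho_nonneg _ _
      have q3 : 0 ≤ r3 := rho_nonneg _ _
      have t4 : Real.sqrt b ≤ Real.sqrt r1 + Real.sqrt r2 + Real.sqrt r3 := by linarith
      have t5 : b ≤ 3 * (r1 + r2 + r3) := by
        have e0 : b ≤ (Real.sqrt r1 + Real.sqrt r2 + Real.sqrt r3) ^ 2 := by
          rw [← Real.sq_sqrt hb0]
          gcongr
        have e1 := Real.sq_sqrt q1
        have e2 := Real.sq_sqrt q2
        have e3 := Real.sq_sqrt q3
        nlinarith [sq_nonneg (Real.sqrt r1 - Real.sqrt r2), sq_nonneg (Real.sqrt r1 - Real.sqrt r3),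
          sq_nonneg (Real.sqrt r2 - Real.sqrt r3)]
      have h5 : 0 < A * sc n l := hNpos l
      calc A * sc n l * b ≤ A * sc n l * (3 * (r1 + r2 + r3)) := by gcongr
        _ = 3 * (A * sc n l * r1 + A * sc n l * r2 + A * sc n l * r3) := by ring
        _ ≤ 3 * (A * sc n l * r1 + T + A * sc n l * r3) := by gcongr
    calc (1 / 2 ^ L : ℝ) * ∑ z, κ l x z * κ m x' z
        ≤ (1 / 2 ^ L : ℝ) * ∑ z, C0 * tmg n K (A * sc n l) b * (κ m x' z + κ l x z) := by
          apply mul_le_mul_of_nonneg_left _ (by positivity)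
          exact Finset.sum_le_sum (fun z _ => hpt z)
      _ = C0 * tmg n K (A * sc n l) b * ((1 / 2 ^ L : ℝ) * ∑ z, κ m x' z +
            (1 / 2 ^ L : ℝ) * ∑ z, κ l x z) := by
          rw [← Finset.mul_sum, Finset.sum_add_distrib]; ring
      _ ≤ C0 * tmg n K (A * sc n l) b * (D2 + D2) := by
          gcongr
          · exact hsumF m hmL _ (hζ1 _ _)
          · exact hsumF l (lt_of_le_of_lt hlm hmL) _ (hζ1 _ _)
      _ ≤ C0 * (C2 * κ l x x') * (D2 + D2) := by
          have h3 := hbκ l m hlm hmL x x'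
          rw [← hb] at h3
          gcongr
      _ = C0 * C2 * (2 * D2) * κ l x x' := by ring
      _ ≤ CC * κ l x x' := by
          have h3 := hκ0 l x x'
          rw [hCC]
          gcongr
          linarith
  have hmain := maximal_abstract (sig n) (1 / 2 ^ L) (by positivity) L k hk0 hkm κ hκ0 CC hCCp h1 h2
    u hu (fun x => sel x.val) (fun x => hsel _)
  refine le_trans (le_of_eq ?_) hmain
  congr 1
  rw [Finset.sum_range]
  apply Finset.sum_congr rfl
  intro x _
  congr 1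
  rw [← lintegral_const_mul' _ _ ENNReal.ofReal_ne_top]
  apply lintegral_congr
  intro η
  simp only [hkdef, tmg, hζdef]
  rw [← mul_assoc, ← ENNReal.ofReal_mul (Real.rpow_nonneg (hNpos _).le _)]

end Pool.Agent.HpBall
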