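import Mathlib
import Pool.Agent.HpBall.Defs2
import Pool.Agent.HpBall.Weights
import Pool.Agent.HpBall.Combine

set_option autoImplicit false

open MeasureTheory Complex
open scoped ENNReal NNReal

namespace Pool.Agent.HpBall

theorem analysis_bound (n : ℕ) (hn : 1 ≤ n) (p : ℝ) (hp : 0 < p) (hp1 : p < 1)
    (pt : ℕ → ℕ → E n) (c C : ℝ) (hT : TreeFam n pt c C) (A : ℝ) (hA : 0 < A)
    (β : ℝ → ℝ) (a b : ℝ) (hβ : Bump β a b) : ∃ D : ℝ, 0 < D ∧
    ∀ g : E n → ℂ, DifferentiableOn ℂ g (Metric.ball 0 1) → ∀ M : ℝ, 0 ≤ M →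
    (∀ r : ℝ, 0 ≤ r → r < 1 →
      ∫⁻ ξ, ENNReal.ofReal (‖g ((r : ℂ) • ξ)‖ ^ p) ∂(sig n) ≤ ENNReal.ofReal M) →
    ∀ L : ℕ, fnorm p L (fun l i => cut β (A * sc n l) g (pt l i)) ≤ D * M := by
  obtain ⟨D, hD, hW⟩ := weights_bound n hn p hp hp1 pt c C hT A hA β a b hβ
  obtain ⟨D', hD', hF⟩ := fnorm_of_weights p hp hp1 D hD
  refine ⟨D', hD', fun g hg M hM hgM L => ?_⟩
  rcases Nat.eq_zero_or_pos L with hL | hL
  · subst hL
    have : fnorm p 0 (fun l i => cut β (A * sc n l) g (pt l i)) = 0 := by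
      simp [fnorm, Real.zero_rpow (show p / 2 ≠ 0 by positivity)]
    rw [this]
    positivity
  -- approximate M from above
  have key : ∀ δ : ℝ, 0 < δ → fnorm p L (fun l i => cut β (A * sc n l) g (pt l i)) ≤
      D' * (M + δ) := by
    intro δ hδ
    obtain ⟨W, hW0, hW1, hW2⟩ := hW g hg (M + δ) (by linarith) (fun r hr0 hr1 =>
      (hgM r hr0 hr1).trans (ENNReal.ofReal_le_ofReal (by linarith))) L hL
    exact hF L _ W (M + δ) hL (by linarith) hW0 hW1 hW2
  apply le_of_forall_pos_le_add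
  intro e he
  have := key (e / D') (by positivity)
  calc _ ≤ D' * (M + e / D') := this
    _ = D' * M + e := by field_simp

end Pool.Agent.HpBall
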