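import Mathlib
import Pool.Agent.HpBall.Defs2
import Pool.Agent.HpBall.Geom
import Pool.Agent.HpBall.Sphere

set_option autoImplicit false

open MeasureTheory Complex
open scoped ENNReal NNReal

namespace Pool.Agent.HpBall

lemma atomic_geom (q : ℝ) (hq : 1 < q) (F : Finset ℤ) : ∀ K : ℤ, (∀ k ∈ F, k ≤ K) →
    ∑ k ∈ F, q ^ k ≤ q ^ K * (q / (q - 1)) := by
  have hq0 : 0 < q := by linarith
  have hq1 : 0 < q - 1 := by linarith
  induction F using Finset.induction_on_max with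
  | empty => intro K _; simp; positivity
  | insert a s hs ih =>
    intro K hK
    have hnot : a ∉ s := fun h => lt_irrefl _ (hs a h)
    rw [Finset.sum_insert hnot]
    have h1 := ih (a - 1) (fun k hk => by have := hs k hk; omega)
    have h2 : q ^ (a - 1) * (q / (q - 1)) = q ^ a / (q - 1) := by
      rw [zpow_sub_one₀ hq0.ne']; field_simp
    have h3 : q ^ a ≤ q ^ K := zpow_le_zpow_right₀ hq.le (hK a (Finset.mem_insert_self _ _))
    have h4 : q ^ a + q ^ a / (q - 1) = q ^ a * (q / (q - 1)) := by field_simp; ring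
    calc q ^ a + ∑ k ∈ s, q ^ k ≤ q ^ a + q ^ a / (q - 1) := by rw [h2] at h1; linarith
      _ = q ^ a * (q / (q - 1)) := h4
      _ ≤ q ^ K * (q / (q - 1)) := by
        apply mul_le_mul_of_nonneg_right h3; positivity

noncomputable def atomicSsq (L : ℕ) (c : ℕ → ℕ → ℂ) (j : ℕ) : ℝ :=
  ∑ l ∈ Finset.range L, ‖c l (j / 2 ^ (L - l))‖ ^ 2

def atomicLvs (L : ℕ) (ν : ℕ × ℕ) : Finset ℕ :=
  (Finset.range (2 ^ L)).filter (fun j => j / 2 ^ (L - ν.1) = ν.2)

lemma atomicSsq_nonneg (L : ℕ) (c : ℕ → ℕ → ℂ) (j : ℕ) : 0 ≤ atomicSsq L c j :=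
  Finset.sum_nonneg fun _ _ => by positivity

lemma atomic_card_lvs {L : ℕ} {ν : ℕ × ℕ} (hl : ν.1 ≤ L) (hi : ν.2 < 2 ^ ν.1) :
    (atomicLvs L ν).card = 2 ^ (L - ν.1) := by
  obtain ⟨l, i⟩ := ν
  simp only at hl hi
  have hpos : 0 < 2 ^ (L - l) := by positivity
  have h2 : 2 ^ L = 2 ^ l * 2 ^ (L - l) := by rw [← pow_add]; congr 1; omega
  have : atomicLvs L (l, i) = Finset.Ico (i * 2 ^ (L - l)) ((i + 1) * 2 ^ (L - l)) := by
    ext j
    simp only [atomicLvs, Finset.mem_filter, Finset.mem_range, Finset.mem_Ico]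
    constructor
    · rintro ⟨_, h⟩
      constructor
      · rw [← h]; exact Nat.div_mul_le_self _ _
      · rw [← h, add_mul, one_mul]; exact Nat.lt_div_mul_add hpos
    · rintro ⟨h, h'⟩
      refine ⟨?_, ?_⟩
      · calc j < (i + 1) * 2 ^ (L - l) := h'
          _ ≤ 2 ^ l * 2 ^ (L - l) := Nat.mul_le_mul_right _ hi
          _ = 2 ^ L := h2.symm
      · exact Nat.div_eq_of_lt_le h h'
  rw [this, Nat.card_Ico, Nat.add_mul, one_mul, Nat.add_sub_cancel_left]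

lemma atomic_anc {L l m j : ℕ} (h1 : m ≤ l) (h2 : l ≤ L) :
    j / 2 ^ (L - l) / 2 ^ (l - m) = j / 2 ^ (L - m) := by
  rw [Nat.div_div_eq_div_mul, ← pow_add]
  congr 2; omega

lemma atomic_le_Ssq {L : ℕ} (c : ℕ → ℕ → ℂ) {l : ℕ} (hl : l < L) (j : ℕ) :
    ‖c l (j / 2 ^ (L - l))‖ ^ 2 ≤ atomicSsq L c j :=
  Finset.single_le_sum (f := fun l => ‖c l (j / 2 ^ (L - l))‖ ^ 2)
    (fun _ _ => by positivity) (Finset.mem_range.2 hl)

lemma atomic_kap_exists (L : ℕ) (c : ℕ → ℕ → ℂ) (ν : ℕ × ℕ) (hl : ν.1 < L) (hi : ν.2 < 2 ^ ν.1)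
    (hc : c ν.1 ν.2 ≠ 0) : ∃ k : ℤ,
    (atomicLvs L ν).card < 2 * ((atomicLvs L ν).filter (fun j => (4 : ℝ) ^ k < atomicSsq L c j)).card ∧
    2 * ((atomicLvs L ν).filter (fun j => (4 : ℝ) ^ (k + 1) < atomicSsq L c j)).card ≤ (atomicLvs L ν).card := by
  have hcard := atomic_card_lvs hl.le hi
  have hcpos : 0 < (atomicLvs L ν).card := by rw [hcard]; positivity
  obtain ⟨ub, h1, h2⟩ := Int.exists_greatest_of_bdd
    (P := fun k : ℤ => (atomicLvs L ν).card < 2 * ((atomicLvs L ν).filter (fun j => (4 : ℝ) ^ k < atomicSsq L c j)).card)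
    (by
      obtain ⟨n, hn⟩ := pow_unbounded_of_one_lt (∑ j ∈ atomicLvs L ν, atomicSsq L c j) (show (1 : ℝ) < 4 by norm_num)
      refine ⟨n, fun z hz => ?_⟩
      by_contra hcon
      push Not at hcon
      have : ((atomicLvs L ν).filter (fun j => (4 : ℝ) ^ z < atomicSsq L c j)) = ∅ := by
        rw [Finset.filter_eq_empty_iff]
        intro j hj
        have h3 : atomicSsq L c j ≤ ∑ j ∈ atomicLvs L ν, atomicSsq L c j :=
          Finset.single_le_sum (f := fun j => atomicSsq L c j) (fun _ _ => atomicSsq_nonneg _ _ _) hj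
        have h4 : (4 : ℝ) ^ (n : ℤ) ≤ 4 ^ z := zpow_le_zpow_right₀ (by norm_num) hcon.le
        rw [zpow_natCast] at h4
        linarith
      rw [this] at hz
      simp at hz)
    (by
      have hpos : 0 < ‖c ν.1 ν.2‖ ^ 2 := by positivity
      obtain ⟨n, hn⟩ := exists_pow_lt_of_lt_one hpos (show (1 / 4 : ℝ) < 1 by norm_num)
      refine ⟨-(n : ℤ), ?_⟩
      have : ((atomicLvs L ν).filter (fun j => (4 : ℝ) ^ (-(n : ℤ)) < atomicSsq L c j)) = atomicLvs L ν := by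
        rw [Finset.filter_eq_self]
        intro j hj
        have h3 := atomic_le_Ssq c hl j
        have h5 : j / 2 ^ (L - ν.1) = ν.2 := (Finset.mem_filter.1 hj).2
        rw [h5] at h3
        have h4 : (4 : ℝ) ^ (-(n : ℤ)) = (1 / 4) ^ n := by
          rw [zpow_neg, zpow_natCast, one_div, inv_pow]
        rw [h4]
        linarith
      rw [this]
      omega)
  refine ⟨ub, h1, ?_⟩
  by_contra hcon
  push Not at hcon
  have := h2 (ub + 1) hcon
  omega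


lemma atomic_X_bound (L : ℕ) (c : ℕ → ℕ → ℂ) (hc : ∀ l i, c l i ≠ 0 → l < L ∧ i < 2 ^ l)
    (κ : ℕ × ℕ → ℤ)
    (hκ : ∀ ν : ℕ × ℕ, c ν.1 ν.2 ≠ 0 →
      2 * ((atomicLvs L ν).filter (fun j => (4 : ℝ) ^ (κ ν + 1) < atomicSsq L c j)).card ≤ (atomicLvs L ν).card)
    (τ : ℕ × ℕ) (hτ : c τ.1 τ.2 ≠ 0) (a : ℕ → ℕ → ℂ)
    (ha : ∀ l i, a l i ≠ 0 → a l i = c l i ∧ κ (l, i) = κ τ ∧ τ.1 ≤ l ∧ i / 2 ^ (l - τ.1) = τ.2) :
    2 ^ τ.1 * ∑ l ∈ Finset.range L, (1 / 2 ^ l) * ∑ i ∈ Finset.range (2 ^ l), ‖a l i‖ ^ 2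
      ≤ 2 * (4 : ℝ) ^ (κ τ + 1) := by
  classical
  obtain ⟨hτL, hτi⟩ := hc _ _ hτ
  set k := κ τ with hk
  set G : Finset ℕ := (atomicLvs L τ).filter (fun j => ¬ (4 : ℝ) ^ (k + 1) < atomicSsq L c j) with hG
  -- single node bound
  have key : ∀ l < L, ∀ i < 2 ^ l, (1 / 2 ^ l : ℝ) * ‖a l i‖ ^ 2 ≤
      (2 / 2 ^ L) * ∑ j ∈ (Finset.range (2 ^ L)).filter (fun j => j / 2 ^ (L - l) = i),
        (if j ∈ G then ‖c l (j / 2 ^ (L - l))‖ ^ 2 else 0) := by
    intro l hl i hi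
    by_cases h0 : a l i = 0
    · rw [h0]; simp only [norm_zero]
      have : 0 ≤ (2 / 2 ^ L : ℝ) * ∑ j ∈ (Finset.range (2 ^ L)).filter (fun j => j / 2 ^ (L - l) = i),
        (if j ∈ G then ‖c l (j / 2 ^ (L - l))‖ ^ 2 else 0) := by
        apply mul_nonneg (by positivity)
        apply Finset.sum_nonneg; intro j _; split_ifs <;> positivity
      simpa using this
    · obtain ⟨e1, e2, e3, e4⟩ := ha l i h0
      have hcl : c l i ≠ 0 := by rw [← e1]; exact h0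
      have hcard := atomic_card_lvs (L := L) (ν := (l, i)) hl.le hi
      have h1 := hκ (l, i) hcl
      rw [e2] at h1
      have hsplit := Finset.card_filter_add_card_filter_not (s := atomicLvs L (l, i))
        (fun j => (4 : ℝ) ^ (k + 1) < atomicSsq L c j)
      have h2 : (atomicLvs L (l, i)).card ≤
          2 * ((atomicLvs L (l, i)).filter (fun j => ¬ (4 : ℝ) ^ (k + 1) < atomicSsq L c j)).card := by
        omega
      have h3 : ∑ j ∈ (Finset.range (2 ^ L)).filter (fun j => j / 2 ^ (L - l) = i),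
          (if j ∈ G then ‖c l (j / 2 ^ (L - l))‖ ^ 2 else 0) =
          ((atomicLvs L (l, i)).filter (fun j => ¬ (4 : ℝ) ^ (k + 1) < atomicSsq L c j)).card * ‖c l i‖ ^ 2 := by
        rw [← nsmul_eq_mul, ← Finset.sum_const, Finset.sum_filter
          (s := atomicLvs L (l, i))]
        apply Finset.sum_congr rfl
        intro j hj
        obtain ⟨hj1, hj2⟩ := Finset.mem_filter.1 hj
        rw [hj2]
        have : j ∈ G ↔ ¬ (4 : ℝ) ^ (k + 1) < atomicSsq L c j := by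
          rw [hG, Finset.mem_filter]
          constructor
          · exact fun h => h.2
          · intro h
            refine ⟨?_, h⟩
            rw [atomicLvs, Finset.mem_filter]
            refine ⟨hj1, ?_⟩
            rw [← atomic_anc e3 hl.le, hj2, e4]
        simp only [this]
      rw [h3, e1]
      have h4 : (2 : ℝ) ^ (L - l) ≤
          2 * ((atomicLvs L (l, i)).filter (fun j => ¬ (4 : ℝ) ^ (k + 1) < atomicSsq L c j)).card := by
        have : (2 : ℕ) ^ (L - l) ≤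
          2 * ((atomicLvs L (l, i)).filter (fun j => ¬ (4 : ℝ) ^ (k + 1) < atomicSsq L c j)).card := by
          rw [← hcard]; exact h2
        exact_mod_cast this
      have h5 : (2 : ℝ) ^ L = 2 ^ l * 2 ^ (L - l) := by
        rw [← pow_add]; congr 1; omega
      have h6 : (1 / 2 ^ l : ℝ) = 2 ^ (L - l) / 2 ^ L := by
        rw [h5]; field_simp
      rw [h6]
      calc (2 : ℝ) ^ (L - l) / 2 ^ L * ‖c l i‖ ^ 2
          ≤ (2 * ((atomicLvs L (l, i)).filter (fun j => ¬ (4 : ℝ) ^ (k + 1) < atomicSsq L c j)).card) / 2 ^ L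
            * ‖c l i‖ ^ 2 := by gcongr
        _ = _ := by ring
  have hsum : ∑ l ∈ Finset.range L, (1 / 2 ^ l) * ∑ i ∈ Finset.range (2 ^ l), ‖a l i‖ ^ 2 ≤
      (2 / 2 ^ L : ℝ) * ∑ j ∈ G, atomicSsq L c j := by
    calc ∑ l ∈ Finset.range L, (1 / 2 ^ l : ℝ) * ∑ i ∈ Finset.range (2 ^ l), ‖a l i‖ ^ 2
        ≤ ∑ l ∈ Finset.range L, (2 / 2 ^ L : ℝ) * ∑ j ∈ Finset.range (2 ^ L),
          (if j ∈ G then ‖c l (j / 2 ^ (L - l))‖ ^ 2 else 0) := by
          apply Finset.sum_le_sum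
          intro l hl
          have hl' := Finset.mem_range.1 hl
          rw [Finset.mul_sum]
          have hmaps : ∀ j ∈ Finset.range (2 ^ L), j / 2 ^ (L - l) ∈ Finset.range (2 ^ l) := by
            intro j hj
            rw [Finset.mem_range] at hj ⊢
            apply Nat.div_lt_of_lt_mul
            calc j < 2 ^ L := hj
              _ = 2 ^ (L - l) * 2 ^ l := by rw [← pow_add]; congr 1; omega
          rw [← Finset.sum_fiberwise_of_maps_to hmaps, Finset.mul_sum]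
          apply Finset.sum_le_sum
          intro i hi
          exact key l hl' i (Finset.mem_range.1 hi)
      _ = (2 / 2 ^ L : ℝ) * ∑ j ∈ G, atomicSsq L c j := by
          rw [← Finset.mul_sum, Finset.sum_comm]
          congr 1
          rw [← Finset.sum_filter_add_sum_filter_not (Finset.range (2 ^ L)) (fun j => j ∈ G)]
          have hz : ∑ x ∈ (Finset.range (2 ^ L)).filter (fun j => ¬ j ∈ G), ∑ y ∈ Finset.range L,
              (if x ∈ G then ‖c y (x / 2 ^ (L - y))‖ ^ 2 else 0) = 0 := by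
            apply Finset.sum_eq_zero
            intro x hx
            have := (Finset.mem_filter.1 hx).2
            simp [this]
          rw [hz, add_zero]
          have hGe : (Finset.range (2 ^ L)).filter (fun j => j ∈ G) = G := by
            ext j
            simp only [Finset.mem_filter, hG, atomicLvs]
            tauto
          rw [hGe]
          apply Finset.sum_congr rfl
          intro j hj
          simp [hj, atomicSsq]
  have hG2 : ∑ j ∈ G, atomicSsq L c j ≤ 2 ^ (L - τ.1) * (4 : ℝ) ^ (k + 1) := by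
    calc ∑ j ∈ G, atomicSsq L c j ≤ ∑ j ∈ G, (4 : ℝ) ^ (k + 1) := by
          apply Finset.sum_le_sum
          intro j hj
          exact not_lt.1 (Finset.mem_filter.1 hj).2
      _ = G.card * (4 : ℝ) ^ (k + 1) := by rw [Finset.sum_const, nsmul_eq_mul]
      _ ≤ 2 ^ (L - τ.1) * (4 : ℝ) ^ (k + 1) := by
          have : G.card ≤ 2 ^ (L - τ.1) := by
            rw [← atomic_card_lvs hτL.le hτi]; exact Finset.card_filter_le _ _
          gcongr
          exact_mod_cast this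
  have h5 : (2 : ℝ) ^ L = 2 ^ τ.1 * 2 ^ (L - τ.1) := by
    rw [← pow_add]; congr 1; omega
  calc 2 ^ τ.1 * ∑ l ∈ Finset.range L, (1 / 2 ^ l) * ∑ i ∈ Finset.range (2 ^ l), ‖a l i‖ ^ 2
      ≤ 2 ^ τ.1 * ((2 / 2 ^ L : ℝ) * (2 ^ (L - τ.1) * (4 : ℝ) ^ (k + 1))) := by
        apply mul_le_mul_of_nonneg_left _ (by positivity)
        exact hsum.trans (mul_le_mul_of_nonneg_left hG2 (by positivity))
    _ = 2 * (4 : ℝ) ^ (k + 1) := by
        rw [h5]; field_simp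

/-- TARGET -/
theorem atomic (p : ℝ) (hp : 0 < p) (hp2 : p ≤ 2) : ∃ C : ℝ, 0 < C ∧
    ∀ (L : ℕ) (Φ : (ℕ → ℕ → ℂ) → ℝ≥0∞) (C₀ : ℝ), 0 ≤ C₀ → Φ 0 = 0 →
    (∀ a b, Φ (a + b) ≤ Φ a + Φ b) →
    (∀ m j, m < L → j < 2 ^ m → ∀ a : ℕ → ℕ → ℂ,
      (∀ l i, a l i ≠ 0 → m ≤ l ∧ l < L ∧ i / 2 ^ (l - m) = j) →
      Φ a ≤ ENNReal.ofReal (C₀ * (1 / 2 ^ m) * (2 ^ m * ∑ l ∈ Finset.range L,
        (1 / 2 ^ l) * ∑ i ∈ Finset.range (2 ^ l), ‖a l i‖ ^ 2) ^ (p / 2))) →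
    ∀ c : ℕ → ℕ → ℂ, (∀ l i, c l i ≠ 0 → l < L ∧ i < 2 ^ l) →
      Φ c ≤ ENNReal.ofReal (C * C₀ * fnorm p L c) := by
  classical
  set q : ℝ := (4 : ℝ) ^ (p / 2) with hq
  have hq1 : 1 < q := Real.one_lt_rpow (by norm_num) (by positivity)
  have hq0 : 0 < q := by linarith
  have hqq : 0 < q - 1 := by linarith
  refine ⟨8 ^ (p / 2) * 2 * (q / (q - 1)), by positivity, ?_⟩
  intro L Φ C₀ hC₀ hΦ0 hΦ hatom c hc
  -- the function kappa
  have hex : ∀ ν : ℕ × ℕ, ∃ k : ℤ, c ν.1 ν.2 ≠ 0 →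
      (atomicLvs L ν).card < 2 * ((atomicLvs L ν).filter (fun j => (4 : ℝ) ^ k < atomicSsq L c j)).card ∧
      2 * ((atomicLvs L ν).filter (fun j => (4 : ℝ) ^ (k + 1) < atomicSsq L c j)).card ≤ (atomicLvs L ν).card := by
    intro ν
    by_cases h : c ν.1 ν.2 = 0
    · exact ⟨0, fun h' => absurd h h'⟩
    · obtain ⟨k, hk⟩ := atomic_kap_exists L c ν (hc _ _ h).1 (hc _ _ h).2 h
      exact ⟨k, fun _ => hk⟩
  choose κ hκ using hex
  -- the minimal level
  have hex2 : ∀ ν : ℕ × ℕ, ∃ m : ℕ, c ν.1 ν.2 ≠ 0 →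
      m ≤ ν.1 ∧ c m (ν.2 / 2 ^ (ν.1 - m)) ≠ 0 ∧ κ (m, ν.2 / 2 ^ (ν.1 - m)) = κ ν ∧
      ∀ m' ≤ ν.1, c m' (ν.2 / 2 ^ (ν.1 - m')) ≠ 0 → κ (m', ν.2 / 2 ^ (ν.1 - m')) = κ ν → m ≤ m' := by
    intro ν
    by_cases h : c ν.1 ν.2 = 0
    · exact ⟨0, fun h' => absurd h h'⟩
    · have hw : ∃ m : ℕ, m ≤ ν.1 ∧ c m (ν.2 / 2 ^ (ν.1 - m)) ≠ 0 ∧
          κ (m, ν.2 / 2 ^ (ν.1 - m)) = κ ν := ⟨ν.1, le_rfl, by simpa using h, by simp⟩
      refine ⟨Nat.find hw, fun _ => ⟨(Nat.find_spec hw).1, (Nat.find_spec hw).2.1,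
        (Nat.find_spec hw).2.2, ?_⟩⟩
      intro m' h1 h2 h3
      exact Nat.find_min' hw ⟨h1, h2, h3⟩
  choose mm hmm using hex2
  set μ : ℕ × ℕ → ℕ × ℕ := fun ν => (mm ν, ν.2 / 2 ^ (ν.1 - mm ν)) with hμ
  set Sig : Finset (ℕ × ℕ) := ((Finset.range L) ×ˢ (Finset.range (2 ^ L))).filter
    (fun ν => c ν.1 ν.2 ≠ 0) with hSig
  have memSig : ∀ ν : ℕ × ℕ, ν ∈ Sig ↔ c ν.1 ν.2 ≠ 0 := by
    intro ν
    rw [hSig, Finset.mem_filter, Finset.mem_product, Finset.mem_range, Finset.mem_range]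
    constructor
    · exact fun h => h.2
    · intro h
      obtain ⟨h1, h2⟩ := hc _ _ h
      refine ⟨⟨h1, h2.trans_le ?_⟩, h⟩
      exact Nat.pow_le_pow_right (by norm_num) h1.le
  set T : Finset (ℕ × ℕ) := Sig.image μ with hT
  set at' : ℕ × ℕ → ℕ → ℕ → ℂ := fun τ l i => if μ (l, i) = τ then c l i else 0 with hat
  have hcsum : c = ∑ τ ∈ T, at' τ := by
    ext l i
    rw [Finset.sum_apply, Finset.sum_apply]
    simp only [hat]
    rw [Finset.sum_ite_eq]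
    split_ifs with h
    · rfl
    · by_contra h0
      exact h (Finset.mem_image_of_mem _ ((memSig (l, i)).2 h0))
  have hTprop : ∀ τ ∈ T, c τ.1 τ.2 ≠ 0 := by
    intro τ hτ
    obtain ⟨ν, hν, rfl⟩ := Finset.mem_image.1 hτ
    exact (hmm ν ((memSig ν).1 hν)).2.1
  have hatsub : ∀ τ, ∀ l i, at' τ l i ≠ 0 → at' τ l i = c l i ∧ κ (l, i) = κ τ ∧ τ.1 ≤ l ∧
      i / 2 ^ (l - τ.1) = τ.2 := by
    intro τ l i h
    simp only [hat] at h ⊢
    by_cases h1 : μ (l, i) = τ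
    · rw [if_pos h1] at h ⊢
      have h2 := hmm (l, i) h
      subst h1
      exact ⟨rfl, h2.2.2.1.symm, h2.1, rfl⟩
    · rw [if_neg h1] at h; exact absurd rfl h
  have hone : ∀ τ ∈ T, Φ (at' τ) ≤ ENNReal.ofReal (C₀ * 8 ^ (p / 2) *
      ((2 / 2 ^ L) * ∑ j ∈ Finset.range (2 ^ L), if j ∈ atomicLvs L τ ∧ (4 : ℝ) ^ (κ τ) < atomicSsq L c j
        then q ^ (κ τ) else 0)) := by
    intro τ hτ
    have hcτ := hTprop τ hτ
    obtain ⟨hτL, hτi⟩ := hc _ _ hcτ
    have h1 := hatom τ.1 τ.2 hτL hτi (at' τ) (by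
      intro l i h
      obtain ⟨e1, e2, e3, e4⟩ := hatsub τ l i h
      refine ⟨e3, ?_, e4⟩
      have : c l i ≠ 0 := by rw [← e1]; exact h
      exact (hc _ _ this).1)
    refine h1.trans (ENNReal.ofReal_le_ofReal ?_)
    have hX := atomic_X_bound L c hc κ (fun ν h => (hκ ν h).2) τ hcτ (at' τ) (hatsub τ)
    have hX0 : 0 ≤ 2 ^ τ.1 * ∑ l ∈ Finset.range L, (1 / 2 ^ l : ℝ) *
        ∑ i ∈ Finset.range (2 ^ l), ‖at' τ l i‖ ^ 2 := by positivity
    have hX2 : (2 ^ τ.1 * ∑ l ∈ Finset.range L, (1 / 2 ^ l : ℝ) *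
        ∑ i ∈ Finset.range (2 ^ l), ‖at' τ l i‖ ^ 2) ^ (p / 2) ≤ 8 ^ (p / 2) * q ^ (κ τ) := by
      calc _ ≤ (2 * (4 : ℝ) ^ (κ τ + 1)) ^ (p / 2) := Real.rpow_le_rpow hX0 hX (by positivity)
        _ = (8 * (4 : ℝ) ^ (κ τ)) ^ (p / 2) := by
            congr 1; rw [zpow_add_one₀ (by norm_num)]; ring
        _ = 8 ^ (p / 2) * ((4 : ℝ) ^ (κ τ)) ^ (p / 2) :=
            Real.mul_rpow (by norm_num) (by positivity)
        _ = 8 ^ (p / 2) * q ^ (κ τ) := by
            congr 1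
            rw [hq, ← Real.rpow_intCast, ← Real.rpow_intCast, ← Real.rpow_mul (by norm_num),
              ← Real.rpow_mul (by norm_num), mul_comm]
    have hcard : (1 / 2 ^ τ.1 : ℝ) ≤ (2 / 2 ^ L) *
        ((atomicLvs L τ).filter (fun j => (4 : ℝ) ^ (κ τ) < atomicSsq L c j)).card := by
      have h2 := (hκ τ hcτ).1
      rw [atomic_card_lvs hτL.le hτi] at h2
      have h3 : (2 : ℝ) ^ (L - τ.1) ≤
          2 * ((atomicLvs L τ).filter (fun j => (4 : ℝ) ^ (κ τ) < atomicSsq L c j)).card := by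
        exact_mod_cast h2.le
      have h5 : (2 : ℝ) ^ L = 2 ^ τ.1 * 2 ^ (L - τ.1) := by
        rw [← pow_add]; congr 1; omega
      have h6 : (1 / 2 ^ τ.1 : ℝ) = 2 ^ (L - τ.1) / 2 ^ L := by
        rw [h5]; field_simp
      rw [h6]
      calc (2 : ℝ) ^ (L - τ.1) / 2 ^ L ≤
          (2 * ((atomicLvs L τ).filter (fun j => (4 : ℝ) ^ (κ τ) < atomicSsq L c j)).card) / 2 ^ L := by
            gcongr
        _ = _ := by ring
    have hsumeq : ∑ j ∈ Finset.range (2 ^ L), (if j ∈ atomicLvs L τ ∧ (4 : ℝ) ^ (κ τ) < atomicSsq L c j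
        then q ^ (κ τ) else 0) =
        ((atomicLvs L τ).filter (fun j => (4 : ℝ) ^ (κ τ) < atomicSsq L c j)).card * q ^ (κ τ) := by
      rw [← nsmul_eq_mul, ← Finset.sum_const, ← Finset.sum_filter]
      apply Finset.sum_congr _ (fun _ _ => rfl)
      ext j
      simp only [Finset.mem_filter, atomicLvs]
      tauto
    rw [hsumeq]
    calc C₀ * (1 / 2 ^ τ.1) * (2 ^ τ.1 * ∑ l ∈ Finset.range L, (1 / 2 ^ l : ℝ) *
        ∑ i ∈ Finset.range (2 ^ l), ‖at' τ l i‖ ^ 2) ^ (p / 2)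
        ≤ C₀ * ((2 / 2 ^ L) *
          ((atomicLvs L τ).filter (fun j => (4 : ℝ) ^ (κ τ) < atomicSsq L c j)).card) *
          (8 ^ (p / 2) * q ^ (κ τ)) := by
          apply mul_le_mul _ hX2 (Real.rpow_nonneg hX0 _) (mul_nonneg hC₀ (mul_nonneg (by positivity) (Nat.cast_nonneg _)))
          exact mul_le_mul_of_nonneg_left hcard hC₀
      _ = _ := by ring
  -- summation over T for a fixed leaf
  have hleaf : ∀ j ∈ Finset.range (2 ^ L), ∑ τ ∈ T, (if j ∈ atomicLvs L τ ∧ (4 : ℝ) ^ (κ τ) < atomicSsq L c j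
        then q ^ (κ τ) else 0) ≤ (atomicSsq L c j) ^ (p / 2) * (q / (q - 1)) := by
    intro j hj
    rw [← Finset.sum_filter]
    set T' := T.filter (fun τ => j ∈ atomicLvs L τ ∧ (4 : ℝ) ^ (κ τ) < atomicSsq L c j) with hT'
    have hinj : Set.InjOn κ (T' : Set (ℕ × ℕ)) := by
      have aux : ∀ τ₁ ∈ T', ∀ τ₂ ∈ T', κ τ₁ = κ τ₂ → τ₁.1 ≤ τ₂.1 → τ₁ = τ₂ := by
        intro τ₁ h₁ τ₂ h₂ hk hle
        have hj1 : j / 2 ^ (L - τ₁.1) = τ₁.2 :=
          (Finset.mem_filter.1 (Finset.mem_filter.1 h₁).2.1).2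
        have hj2 : j / 2 ^ (L - τ₂.1) = τ₂.2 :=
          (Finset.mem_filter.1 (Finset.mem_filter.1 h₂).2.1).2
        have hT1 := (Finset.mem_filter.1 h₁).1
        have hT2 := (Finset.mem_filter.1 h₂).1
        have hc1 := hTprop τ₁ hT1
        have hc2 := hTprop τ₂ hT2
        obtain ⟨ν, hν, hντ⟩ := Finset.mem_image.1 hT2
        have hν' := (memSig ν).1 hν
        obtain ⟨m1, m2, m3, m4⟩ := hmm ν hν'
        have e1 : mm ν = τ₂.1 := congrArg Prod.fst hντ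
        have e2 : ν.2 / 2 ^ (ν.1 - τ₂.1) = τ₂.2 := by rw [← e1]; exact congrArg Prod.snd hντ
        have hle2 : τ₂.1 ≤ ν.1 := by rw [← e1]; exact m1
        have e3 : ν.2 / 2 ^ (ν.1 - τ₁.1) = τ₁.2 := by
          rw [← hj1, ← atomic_anc hle (hc _ _ hc2).1.le, hj2, ← e2, Nat.div_div_eq_div_mul, ← pow_add]
          congr 2; omega
        have hkν : κ ν = κ τ₂ := by
          have : (mm ν, ν.2 / 2 ^ (ν.1 - mm ν)) = τ₂ := hντ
          rw [← this]; exact m3.symm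
        have := m4 τ₁.1 (hle.trans hle2) (by rw [e3]; exact hc1) (by
          rw [e3, hkν, ← hk])
        have e4 : τ₁.1 = τ₂.1 := by omega
        apply Prod.ext e4
        rw [← hj1, ← hj2, e4]
      intro τ₁ h₁ τ₂ h₂ hk
      rcases le_total τ₁.1 τ₂.1 with h | h
      · exact aux τ₁ h₁ τ₂ h₂ hk h
      · exact (aux τ₂ h₂ τ₁ h₁ hk.symm h).symm
    have himg : ∑ τ ∈ T', q ^ (κ τ) = ∑ k ∈ T'.image κ, q ^ k := by
      rw [Finset.sum_image hinj]
    rw [himg]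
    rcases (T'.image κ).eq_empty_or_nonempty with he | hne
    · rw [he, Finset.sum_empty]
      have := atomicSsq_nonneg L c j
      positivity
    · have hmax := Finset.max'_mem _ hne
      set K := (T'.image κ).max' hne with hK
      have h1 := atomic_geom q hq1 (T'.image κ) K (fun k hk => Finset.le_max' _ _ hk)
      refine h1.trans (mul_le_mul_of_nonneg_right ?_ (by positivity))
      obtain ⟨τ, hτ, hτK⟩ := Finset.mem_image.1 hmax
      have h2 : (4 : ℝ) ^ K < atomicSsq L c j := by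
        rw [← hτK]; exact (Finset.mem_filter.1 hτ).2.2
      have h3 : q ^ K = ((4 : ℝ) ^ K) ^ (p / 2) := by
        rw [hq, ← Real.rpow_intCast, ← Real.rpow_intCast, ← Real.rpow_mul (by norm_num),
              ← Real.rpow_mul (by norm_num), mul_comm]
      rw [h3]
      exact Real.rpow_le_rpow (by positivity) h2.le (by positivity)
  calc Φ c = Φ (∑ τ ∈ T, at' τ) := by rw [← hcsum]
    _ ≤ ∑ τ ∈ T, Φ (at' τ) := Finset.le_sum_of_subadditive Φ hΦ0.le hΦ T at'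
    _ ≤ ∑ τ ∈ T, ENNReal.ofReal (C₀ * 8 ^ (p / 2) *
      ((2 / 2 ^ L) * ∑ j ∈ Finset.range (2 ^ L), if j ∈ atomicLvs L τ ∧ (4 : ℝ) ^ (κ τ) < atomicSsq L c j
        then q ^ (κ τ) else 0)) := Finset.sum_le_sum hone
    _ = ENNReal.ofReal (∑ τ ∈ T, (C₀ * 8 ^ (p / 2) *
      ((2 / 2 ^ L) * ∑ j ∈ Finset.range (2 ^ L), if j ∈ atomicLvs L τ ∧ (4 : ℝ) ^ (κ τ) < atomicSsq L c j
        then q ^ (κ τ) else 0))) := by
        rw [ENNReal.ofReal_sum_of_nonneg]
        intro τ _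
        apply mul_nonneg (by positivity)
        apply mul_nonneg (by positivity)
        apply Finset.sum_nonneg
        intro j _
        split_ifs <;> positivity
    _ ≤ _ := by
        apply ENNReal.ofReal_le_ofReal
        rw [← Finset.mul_sum, ← Finset.mul_sum, Finset.sum_comm]
        have h1 : ∑ j ∈ Finset.range (2 ^ L), ∑ τ ∈ T,
            (if j ∈ atomicLvs L τ ∧ (4 : ℝ) ^ (κ τ) < atomicSsq L c j then q ^ (κ τ) else 0) ≤
            ∑ j ∈ Finset.range (2 ^ L), (atomicSsq L c j) ^ (p / 2) * (q / (q - 1)) :=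
          Finset.sum_le_sum hleaf
        rw [← Finset.sum_mul] at h1
        calc C₀ * 8 ^ (p / 2) * ((2 / 2 ^ L) * ∑ j ∈ Finset.range (2 ^ L), ∑ τ ∈ T,
            (if j ∈ atomicLvs L τ ∧ (4 : ℝ) ^ (κ τ) < atomicSsq L c j then q ^ (κ τ) else 0))
            ≤ C₀ * 8 ^ (p / 2) * ((2 / 2 ^ L) *
              ((∑ j ∈ Finset.range (2 ^ L), (atomicSsq L c j) ^ (p / 2)) * (q / (q - 1)))) := by
              apply mul_le_mul_of_nonneg_left _ (by positivity)
              exact mul_le_mul_of_nonneg_left h1 (by positivity)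
          _ = 8 ^ (p / 2) * 2 * (q / (q - 1)) * C₀ * fnorm p L c := by
              simp only [fnorm, atomicSsq]
              ring

end Pool.Agent.HpBall
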