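import Mathlib
import Pool.Agent.HpBall.Defs2
import Pool.Agent.HpBall.Geom
import Pool.Agent.HpBall.Sphere

set_option autoImplicit false

open MeasureTheory Complex
open scoped ENNReal NNReal

namespace Pool.Agent.HpBall


theorem rho_single_exp (a b : ℝ) :
    rho (EuclideanSpace.single (0 : Fin 1) (Complex.exp (I * (a : ℂ))))
      (EuclideanSpace.single (0 : Fin 1) (Complex.exp (I * (b : ℂ)))) =
      ‖Complex.exp (I * ((b - a : ℝ) : ℂ)) - 1‖ := by
  unfold rho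
  rw [EuclideanSpace.inner_single_left, EuclideanSpace.single_apply, if_pos rfl,
    ← Complex.exp_conj, ← Complex.exp_add, ← norm_neg, neg_sub]
  congr 3
  simp only [map_mul, Complex.conj_I, Complex.conj_ofReal]
  push_cast
  ring

theorem pt_eq (l i : ℕ) : Complex.exp (2 * Real.pi * I * (i : ℂ) / 2 ^ l) =
    Complex.exp (I * ((2 * Real.pi * ((i : ℝ) / 2 ^ l) : ℝ) : ℂ)) := by
  congr 1
  push_cast
  ring

theorem sc_one (l : ℕ) : sc 1 l = 2 ^ l := by
  unfold sc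
  simp

theorem sin_pi_ge {x : ℝ} (l : ℕ) (h1 : 1 / 2 ^ l ≤ x) (h2 : x ≤ 1 - 1 / 2 ^ l) :
    2 / 2 ^ l ≤ Real.sin (Real.pi * x) := by
  have hl : (0 : ℝ) < 1 / 2 ^ l := by positivity
  have hpi := Real.pi_pos
  rcases le_total x (1 / 2) with h | h
  · have := Real.mul_le_sin (x := Real.pi * x) (mul_nonneg hpi.le (by linarith)) (by nlinarith)
    refine le_trans ?_ this
    rw [← mul_assoc, div_mul_cancel₀ _ hpi.ne']
    calc (2 : ℝ) / 2 ^ l = 2 * (1 / 2 ^ l) := by ring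
      _ ≤ 2 * x := by gcongr
  · have h3 : 0 ≤ 1 - x := by linarith
    have := Real.mul_le_sin (x := Real.pi * (1 - x)) (mul_nonneg hpi.le h3) (by nlinarith)
    have h4 : Real.sin (Real.pi * (1 - x)) = Real.sin (Real.pi * x) := by
      rw [mul_sub, mul_one, Real.sin_pi_sub]
    rw [← h4]
    refine le_trans ?_ this
    rw [← mul_assoc, div_mul_cancel₀ _ hpi.ne']
    calc (2 : ℝ) / 2 ^ l = 2 * (1 / 2 ^ l) := by ring
      _ ≤ 2 * (1 - x) := by gcongr; linarith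

theorem sep_aux {l i j : ℕ} (hj : j < 2 ^ l) (hij : i < j) :
    4 / 2 ^ l ≤ ‖(2 : ℝ) * Real.sin ((2 * Real.pi * ((j : ℝ) / 2 ^ l) -
      2 * Real.pi * ((i : ℝ) / 2 ^ l)) / 2)‖ := by
  have hp : (0 : ℝ) < 2 ^ l := by positivity
  have e : (2 * Real.pi * ((j : ℝ) / 2 ^ l) - 2 * Real.pi * ((i : ℝ) / 2 ^ l)) / 2 =
      Real.pi * (((j : ℝ) - i) / 2 ^ l) := by ring
  rw [e]
  have h1 : (1 : ℝ) / 2 ^ l ≤ ((j : ℝ) - i) / 2 ^ l := by
    have : (i : ℝ) + 1 ≤ j := by exact_mod_cast hij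
    gcongr
    linarith
  have h2 : ((j : ℝ) - i) / 2 ^ l ≤ 1 - 1 / 2 ^ l := by
    have h3 : (j : ℝ) + 1 ≤ 2 ^ l := by exact_mod_cast hj
    have h4 : (0 : ℝ) ≤ i := by positivity
    have : (1 : ℝ) - 1 / 2 ^ l = (2 ^ l - 1) / 2 ^ l := by field_simp
    rw [this]
    exact div_le_div_of_nonneg_right (by linarith) hp.le
  have h := sin_pi_ge l h1 h2
  have h0 : 0 ≤ Real.sin (Real.pi * (((j : ℝ) - i) / 2 ^ l)) := le_trans (by positivity) h
  rw [Real.norm_of_nonneg (by positivity)]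
  calc (4 : ℝ) / 2 ^ l = 2 * (2 / 2 ^ l) := by ring
    _ ≤ _ := by gcongr

/-- TARGET -/
theorem circle_tree : ∃ (c C : ℝ), TreeFam 1
    (fun l i => EuclideanSpace.single 0 (Complex.exp (2 * Real.pi * I * (i : ℂ) / 2 ^ l))) c C := by
  refine ⟨4, 2 * Real.pi, ?_, by norm_num, ?_, ?_⟩
  · intro l i
    simp only [pt_eq]
    rw [EuclideanSpace.norm_single, Complex.norm_exp_I_mul_ofReal]
  · intro l i j hi hj hij
    simp only [pt_eq]
    rw [sc_one, rho_single_exp, Complex.norm_exp_I_mul_ofReal_sub_one]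
    have hp : (0 : ℝ) < 2 ^ l := by positivity
    rcases lt_or_gt_of_ne hij with h | h
    · have := sep_aux hj h
      calc (4 : ℝ) = 2 ^ l * (4 / 2 ^ l) := by field_simp
        _ ≤ _ := by gcongr
    · have := sep_aux hi h
      have e : (2 * Real.pi * ((j : ℝ) / 2 ^ l) - 2 * Real.pi * ((i : ℝ) / 2 ^ l)) / 2 =
        -((2 * Real.pi * ((i : ℝ) / 2 ^ l) - 2 * Real.pi * ((j : ℝ) / 2 ^ l)) / 2) := by ring
      rw [e, Real.sin_neg, mul_neg, norm_neg]
      calc (4 : ℝ) = 2 ^ l * (4 / 2 ^ l) := by field_simp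
        _ ≤ _ := by gcongr
  · intro l m j hlm hj
    simp only [pt_eq]
    rw [sc_one, rho_single_exp]
    refine (mul_le_mul_of_nonneg_left (Real.norm_exp_I_mul_ofReal_sub_one_le) (by positivity)).trans
      ?_
    set i := j / 2 ^ (m - l) with hi
    have hp : (0 : ℝ) < 2 ^ l := by positivity
    have hm : (0 : ℝ) < 2 ^ m := by positivity
    have hml : (2 : ℝ) ^ m = 2 ^ (m - l) * 2 ^ l := by
      rw [← pow_add, Nat.sub_add_cancel hlm]
    have h1 : (i : ℝ) / 2 ^ l = (i * 2 ^ (m - l)) / 2 ^ m := by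
      rw [hml]
      field_simp
    have h2 : (i : ℝ) * 2 ^ (m - l) ≤ j := by
      have : i * 2 ^ (m - l) ≤ j := Nat.div_mul_le_self j _
      exact_mod_cast this
    have h3 : (j : ℝ) ≤ i * 2 ^ (m - l) + 2 ^ (m - l) := by
      have : j < i * 2 ^ (m - l) + 2 ^ (m - l) := by
        have := Nat.lt_div_mul_add (a := j) (b := 2 ^ (m - l)) (by positivity)
        exact this
      exact_mod_cast this.le
    have h4 : 2 * Real.pi * ((i : ℝ) / 2 ^ l) - 2 * Real.pi * ((j : ℝ) / 2 ^ m) =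
        -(2 * Real.pi * ((j - i * 2 ^ (m - l)) / 2 ^ m)) := by rw [h1]; ring
    have h5 : (0 : ℝ) ≤ (j - i * 2 ^ (m - l)) / 2 ^ m := div_nonneg (by linarith) hm.le
    rw [h4, norm_neg, Real.norm_of_nonneg (by positivity)]
    have h6 : ((j : ℝ) - i * 2 ^ (m - l)) / 2 ^ m ≤ 2 ^ (m - l) / 2 ^ m := by gcongr; linarith
    have h7 : (2 : ℝ) ^ l * (2 ^ (m - l) / 2 ^ m) = 1 := by
      rw [hml]; field_simp
    calc (2 : ℝ) ^ l * (2 * Real.pi * ((j - i * 2 ^ (m - l)) / 2 ^ m))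
        ≤ (2 : ℝ) ^ l * (2 * Real.pi * (2 ^ (m - l) / 2 ^ m)) := by gcongr
      _ = 2 * Real.pi * ((2 : ℝ) ^ l * (2 ^ (m - l) / 2 ^ m)) := by ring
      _ = 2 * Real.pi := by rw [h7, mul_one]

end Pool.Agent.HpBall
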