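import Mathlib
import Pool.Agent.HpBall.Defs2
import Pool.Agent.HpBall.Geom
import Pool.Agent.HpBall.Sphere
import Pool.Agent.HpBall.KerInt

set_option autoImplicit false

open MeasureTheory Complex
open scoped ENNReal NNReal

namespace Pool.Agent.HpBall

lemma sc_pos (n l : ℕ) : 0 < sc n l := Real.rpow_pos_of_pos (by norm_num) _

lemma one_le_sc (n l : ℕ) : 1 ≤ sc n l := by
  apply Real.one_le_rpow (by norm_num)
  positivity

lemma sc_pow (n l : ℕ) (hn : 1 ≤ n) : sc n l ^ (n : ℝ) = 2 ^ l := by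
  unfold sc
  rw [← Real.rpow_mul (by norm_num)]
  have : (n : ℝ) ≠ 0 := by positivity
  rw [div_mul_cancel₀ _ this, Real.rpow_natCast]

lemma sc_rpow_neg (n l : ℕ) (hn : 1 ≤ n) : sc n l ^ (-(n : ℝ)) = 1 / 2 ^ l := by
  rw [Real.rpow_neg (sc_pos n l).le, sc_pow n l hn, one_div]

/-- counting with an additional dilation -/
lemma counting_A (n : ℕ) (hn : 1 ≤ n) (pt : ℕ → ℕ → E n) (c C : ℝ) (hT : TreeFam n pt c C)
    (A : ℝ) (hA : 0 < A) (K : ℝ) (hK : (n : ℝ) < K) : ∃ D : ℝ, 0 < D ∧ ∀ (l : ℕ) (ξ : E n),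
      ‖ξ‖ = 1 → ∑ i ∈ Finset.range (2 ^ l), (1 + A * sc n l * rho ξ (pt l i)) ^ (-K) ≤ D := by
  obtain ⟨D, hD, h⟩ := counting n hn pt c C hT K hK
  have hK0 : 0 < K := lt_of_le_of_lt (Nat.cast_nonneg n) hK
  set a := min 1 A with ha
  have ha0 : 0 < a := lt_min one_pos hA
  refine ⟨a ^ (-K) * D, by positivity, fun l ξ hξ => ?_⟩
  calc ∑ i ∈ Finset.range (2 ^ l), (1 + A * sc n l * rho ξ (pt l i)) ^ (-K)
      ≤ ∑ i ∈ Finset.range (2 ^ l), a ^ (-K) * (1 + sc n l * rho ξ (pt l i)) ^ (-K) := by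
        apply Finset.sum_le_sum
        intro i _
        have hr := rho_nonneg ξ (pt l i)
        have hs := (sc_pos n l).le
        have h1 : 0 ≤ sc n l * rho ξ (pt l i) := by positivity
        rw [← Real.mul_rpow ha0.le (by positivity)]
        apply Real.rpow_le_rpow_of_nonpos (by positivity)
        · have h2 : a ≤ 1 := min_le_left _ _
          have h3 : a ≤ A := min_le_right _ _
          nlinarith
        · linarith
    _ = a ^ (-K) * ∑ i ∈ Finset.range (2 ^ l), (1 + sc n l * rho ξ (pt l i)) ^ (-K) := by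
        rw [Finset.mul_sum]
    _ ≤ a ^ (-K) * D := by
        gcongr
        exact h l ξ hξ

/-- kernel integral at scale A * sc -/
lemma kernel_int_A (n : ℕ) (hn : 1 ≤ n) (A : ℝ) (hA : 0 < A) (K : ℝ) (hK : (n : ℝ) < K) :
    ∃ D : ℝ, 0 < D ∧ ∀ ζ : E n, ‖ζ‖ = 1 → ∀ l : ℕ,
      ∫⁻ ξ, ENNReal.ofReal ((1 + A * sc n l * rho ξ ζ) ^ (-K)) ∂(sig n) ≤
        ENNReal.ofReal (D * (1 / 2 ^ l)) := by
  obtain ⟨D, hD, h⟩ := kernel_int n hn K hK
  refine ⟨D * A ^ (-(n : ℝ)), by positivity, fun ζ hζ l => ?_⟩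
  have := h ζ hζ (A * sc n l) (mul_pos hA (sc_pos n l))
  rw [Real.mul_rpow hA.le (sc_pos n l).le, sc_rpow_neg n l hn] at this
  rw [mul_assoc]
  exact this

lemma meas_rho (n : ℕ) (ζ : E n) : Continuous (fun ξ : E n => rho ξ ζ) := by
  unfold rho
  fun_prop

/-- level L2 bound -/
lemma level_l2 (n : ℕ) (hn : 1 ≤ n) (pt : ℕ → ℕ → E n) (c C : ℝ) (hT : TreeFam n pt c C)
    (A : ℝ) (hA : 0 < A) (K : ℝ) (hK : (n : ℝ) < K) (B : ℝ) : ∃ D : ℝ, 0 < D ∧
    ∀ (Ψ : ℕ → ℕ → E n → ℂ),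
    (∀ l i, i < 2 ^ l → ∀ ξ : E n, ‖ξ‖ = 1 → ∀ r : ℝ, 0 ≤ r → r ≤ 1 →
      ‖Ψ l i ((r : ℂ) • ξ)‖ ≤ B * (1 + A * sc n l * rho ξ (pt l i)) ^ (-K)) →
    ∀ (x : ℕ → ℂ) (l : ℕ) (r : ℝ), 0 ≤ r → r ≤ 1 →
      ∫⁻ ξ, ENNReal.ofReal (‖∑ i ∈ Finset.range (2 ^ l), x i * Ψ l i ((r : ℂ) • ξ)‖ ^ 2) ∂(sig n) ≤
        ENNReal.ofReal (D * ((1 / 2 ^ l) * ∑ i ∈ Finset.range (2 ^ l), ‖x i‖ ^ 2)) := by
  obtain ⟨D1, hD1, h1⟩ := counting_A n hn pt c C hT A hA K hK
  obtain ⟨D2, hD2, h2⟩ := kernel_int_A n hn A hA K hK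
  refine ⟨B ^ 2 * D1 * D2 + 1, by positivity, fun Ψ hΨ x l r hr0 hr1 => ?_⟩
  have key : ∀ᵐ ξ ∂(sig n), ENNReal.ofReal
      (‖∑ i ∈ Finset.range (2 ^ l), x i * Ψ l i ((r : ℂ) • ξ)‖ ^ 2) ≤
      ∑ i ∈ Finset.range (2 ^ l), ENNReal.ofReal (B ^ 2 * D1 * ‖x i‖ ^ 2) *
        ENNReal.ofReal ((1 + A * sc n l * rho ξ (pt l i)) ^ (-K)) := by
    filter_upwards [sig_ae_norm hn] with ξ hξ
    have hk0 : ∀ i, 0 < (1 + A * sc n l * rho ξ (pt l i)) ^ (-K) := by
      intro i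
      have := rho_nonneg ξ (pt l i)
      have := (sc_pos n l).le
      positivity
    have e1 : ‖∑ i ∈ Finset.range (2 ^ l), x i * Ψ l i ((r : ℂ) • ξ)‖ ≤
        ∑ i ∈ Finset.range (2 ^ l), (‖x i‖ * |B|) * (1 + A * sc n l * rho ξ (pt l i)) ^ (-K) := by
      refine (norm_sum_le _ _).trans (Finset.sum_le_sum fun i hi => ?_)
      rw [norm_mul, mul_assoc]
      have := hΨ l i (Finset.mem_range.1 hi) ξ hξ r hr0 hr1
      have h3 : B * (1 + A * sc n l * rho ξ (pt l i)) ^ (-K) ≤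
          |B| * (1 + A * sc n l * rho ξ (pt l i)) ^ (-K) := by
        have := (hk0 i).le
        gcongr
        exact le_abs_self B
      have h4 := this.trans h3
      gcongr
    have e2 : (∑ i ∈ Finset.range (2 ^ l), (‖x i‖ * |B|) *
        (1 + A * sc n l * rho ξ (pt l i)) ^ (-K)) ^ 2 ≤
        (∑ i ∈ Finset.range (2 ^ l), (‖x i‖ * |B|) ^ 2 *
          (1 + A * sc n l * rho ξ (pt l i)) ^ (-K)) *
        (∑ i ∈ Finset.range (2 ^ l), (1 + A * sc n l * rho ξ (pt l i)) ^ (-K)) := by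
      apply Finset.sum_sq_le_sum_mul_sum_of_sq_le_mul
      · intro i _
        have := (hk0 i).le
        positivity
      · intro i _
        exact (hk0 i).le
      · intro i _
        apply le_of_eq
        ring
    have e3 : ‖∑ i ∈ Finset.range (2 ^ l), x i * Ψ l i ((r : ℂ) • ξ)‖ ^ 2 ≤
        ∑ i ∈ Finset.range (2 ^ l), (B ^ 2 * D1 * ‖x i‖ ^ 2) *
          (1 + A * sc n l * rho ξ (pt l i)) ^ (-K) := by
      calc ‖∑ i ∈ Finset.range (2 ^ l), x i * Ψ l i ((r : ℂ) • ξ)‖ ^ 2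
          ≤ (∑ i ∈ Finset.range (2 ^ l), (‖x i‖ * |B|) *
            (1 + A * sc n l * rho ξ (pt l i)) ^ (-K)) ^ 2 := by gcongr
        _ ≤ _ := e2
        _ ≤ (∑ i ∈ Finset.range (2 ^ l), (‖x i‖ * |B|) ^ 2 *
          (1 + A * sc n l * rho ξ (pt l i)) ^ (-K)) * D1 := by
            gcongr
            · apply Finset.sum_nonneg
              intro i _
              have := (hk0 i).le
              positivity
            · exact h1 l ξ hξ
        _ = _ := by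
            rw [Finset.sum_mul]
            apply Finset.sum_congr rfl
            intro i _
            rw [mul_pow, sq_abs]
            ring
    refine (ENNReal.ofReal_le_ofReal e3).trans (le_of_eq ?_)
    rw [ENNReal.ofReal_sum_of_nonneg]
    · apply Finset.sum_congr rfl
      intro i _
      rw [ENNReal.ofReal_mul (by positivity)]
    · intro i _
      have := (hk0 i).le
      positivity
  refine (lintegral_mono_ae key).trans ?_
  rw [lintegral_finsetSum]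
  swap
  · intro i _
    apply Measurable.const_mul
    apply Measurable.ennreal_ofReal
    have := (meas_rho n (pt l i)).measurable
    fun_prop
  calc ∑ i ∈ Finset.range (2 ^ l), ∫⁻ ξ, ENNReal.ofReal (B ^ 2 * D1 * ‖x i‖ ^ 2) *
        ENNReal.ofReal ((1 + A * sc n l * rho ξ (pt l i)) ^ (-K)) ∂(sig n)
      ≤ ∑ i ∈ Finset.range (2 ^ l), ENNReal.ofReal (B ^ 2 * D1 * ‖x i‖ ^ 2) *
        ENNReal.ofReal (D2 * (1 / 2 ^ l)) := by
        apply Finset.sum_le_sum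
        intro i _
        rw [lintegral_const_mul']
        · gcongr
          exact h2 (pt l i) (hT.unit l i) l
        · simp
    _ = ENNReal.ofReal (∑ i ∈ Finset.range (2 ^ l), (B ^ 2 * D1 * ‖x i‖ ^ 2) *
          (D2 * (1 / 2 ^ l))) := by
        rw [ENNReal.ofReal_sum_of_nonneg]
        · apply Finset.sum_congr rfl
          intro i _
          rw [← ENNReal.ofReal_mul (by positivity)]
        · intro i _
          positivity
    _ ≤ ENNReal.ofReal ((B ^ 2 * D1 * D2 + 1) * ((1 / 2 ^ l) * ∑ i ∈ Finset.range (2 ^ l),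
          ‖x i‖ ^ 2)) := by
        apply ENNReal.ofReal_le_ofReal
        have e : ∑ i ∈ Finset.range (2 ^ l), (B ^ 2 * D1 * ‖x i‖ ^ 2) * (D2 * (1 / 2 ^ l)) =
            (B ^ 2 * D1 * D2) * ((1 / 2 ^ l) * ∑ i ∈ Finset.range (2 ^ l), ‖x i‖ ^ 2) := by
          rw [Finset.mul_sum, Finset.mul_sum]
          apply Finset.sum_congr rfl
          intro i _
          ring
        rw [e]
        have : 0 ≤ (1 / 2 ^ l : ℝ) * ∑ i ∈ Finset.range (2 ^ l), ‖x i‖ ^ 2 := by positivity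
        nlinarith

end Pool.Agent.HpBall
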