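import Mathlib
import Pool.Agent.HpBall.Synth1

set_option autoImplicit false

open MeasureTheory Complex
open scoped ENNReal NNReal

namespace Pool.Agent.HpBall

lemma integrable_sig_of_continuous {n : ℕ} (hn : 1 ≤ n) {V : Type*} [NormedAddCommGroup V]
    [SecondCountableTopologyEither (E n) V] (F : E n → V)
    (hF : Continuous F) : Integrable F (sig n) := by
  obtain ⟨C, hC⟩ := (isCompact_closedBall (0 : E n) 1).exists_bound_of_continuousOn
    hF.continuousOn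
  refine ⟨hF.aestronglyMeasurable, ?_⟩
  apply HasFiniteIntegral.of_bounded (C := C)
  filter_upwards [sig_ae_norm hn] with ξ hξ
  exact hC ξ (by simp [hξ])

/-- quasi orthogonality -/
lemma quasi_orth {n : ℕ} (hn : 1 ≤ n) (F : ℕ → E n → ℂ) (hF : ∀ l, Continuous (F l)) (D₀ : ℕ)
    (horth : ∀ l m, l + D₀ ≤ m → ∫ ξ, F l ξ * (starRingEnd ℂ) (F m ξ) ∂(sig n) = 0) (L : ℕ) :
    ∫⁻ ξ, ENNReal.ofReal (‖∑ l ∈ Finset.range L, F l ξ‖ ^ 2) ∂(sig n) ≤
      ENNReal.ofReal (2 * D₀ + 1) * ∑ l ∈ Finset.range L,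
        ∫⁻ ξ, ENNReal.ofReal (‖F l ξ‖ ^ 2) ∂(sig n) := by
  have hint2 : ∀ l m, Integrable (fun ξ => F l ξ * (starRingEnd ℂ) (F m ξ)) (sig n) := by
    intro l m
    apply integrable_sig_of_continuous hn
    have := hF l
    have := hF m
    fun_prop
  have hintsq : ∀ l, Integrable (fun ξ => ‖F l ξ‖ ^ 2) (sig n) := by
    intro l
    apply integrable_sig_of_continuous hn
    have := hF l
    fun_prop
  have hsum : Integrable (fun ξ => ‖∑ l ∈ Finset.range L, F l ξ‖ ^ 2) (sig n) := by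
    apply integrable_sig_of_continuous hn
    have : Continuous (fun ξ => ∑ l ∈ Finset.range L, F l ξ) :=
      continuous_finsetSum _ fun l _ => hF l
    fun_prop
  rw [← ofReal_integral_eq_lintegral_ofReal hsum (Filter.Eventually.of_forall fun ξ => by positivity)]
  have e0 : ∀ l, ∫⁻ ξ, ENNReal.ofReal (‖F l ξ‖ ^ 2) ∂(sig n) =
      ENNReal.ofReal (∫ ξ, ‖F l ξ‖ ^ 2 ∂(sig n)) := by
    intro l
    rw [ofReal_integral_eq_lintegral_ofReal (hintsq l)
      (Filter.Eventually.of_forall fun ξ => by positivity)]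
  simp_rw [e0]
  have hG0 : ∀ l, 0 ≤ ∫ ξ, ‖F l ξ‖ ^ 2 ∂(sig n) := fun l =>
    integral_nonneg fun ξ => by positivity
  rw [← ENNReal.ofReal_sum_of_nonneg (fun l _ => hG0 l), ← ENNReal.ofReal_mul (by positivity)]
  apply ENNReal.ofReal_le_ofReal
  set G : ℕ → ℝ := fun l => ∫ ξ, ‖F l ξ‖ ^ 2 ∂(sig n) with hG
  -- expand the square
  have e1 : ((∫ ξ, ‖∑ l ∈ Finset.range L, F l ξ‖ ^ 2 ∂(sig n) : ℝ) : ℂ) =
      ∑ l ∈ Finset.range L, ∑ m ∈ Finset.range L,
        ∫ ξ, F l ξ * (starRingEnd ℂ) (F m ξ) ∂(sig n) := by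
    rw [← integral_complex_ofReal]
    have : ∀ ξ, ((‖∑ l ∈ Finset.range L, F l ξ‖ ^ 2 : ℝ) : ℂ) =
        ∑ l ∈ Finset.range L, ∑ m ∈ Finset.range L, F l ξ * (starRingEnd ℂ) (F m ξ) := by
      intro ξ
      rw [← Complex.normSq_eq_norm_sq, ← Complex.mul_conj, map_sum, Finset.sum_mul_sum]
    simp_rw [this]
    rw [integral_finsetSum]
    · apply Finset.sum_congr rfl
      intro l _
      rw [integral_finsetSum]
      intro m _
      exact hint2 l m
    · intro l _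
      exact integrable_finsetSum _ fun m _ => hint2 l m
  have e2 : ∀ l m, ‖∫ ξ, F l ξ * (starRingEnd ℂ) (F m ξ) ∂(sig n)‖ ≤ (G l + G m) / 2 := by
    intro l m
    calc ‖∫ ξ, F l ξ * (starRingEnd ℂ) (F m ξ) ∂(sig n)‖
        ≤ ∫ ξ, ‖F l ξ * (starRingEnd ℂ) (F m ξ)‖ ∂(sig n) := norm_integral_le_integral_norm _
      _ ≤ ∫ ξ, (‖F l ξ‖ ^ 2 + ‖F m ξ‖ ^ 2) / 2 ∂(sig n) := by
          apply integral_mono (hint2 l m).norm (((hintsq l).add (hintsq m)).div_const 2)
          intro ξ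
          simp only [norm_mul, RCLike.norm_conj, Pi.add_apply]
          nlinarith [sq_nonneg (‖F l ξ‖ - ‖F m ξ‖)]
      _ = (G l + G m) / 2 := by
          rw [integral_div, integral_add (hintsq l) (hintsq m)]
  have e3 : ∀ l m, (l + D₀ ≤ m ∨ m + D₀ ≤ l) →
      ∫ ξ, F l ξ * (starRingEnd ℂ) (F m ξ) ∂(sig n) = 0 := by
    intro l m h
    rcases h with h | h
    · exact horth l m h
    · have := horth m l h
      have h2 : ∫ ξ, F l ξ * (starRingEnd ℂ) (F m ξ) ∂(sig n) =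
          (starRingEnd ℂ) (∫ ξ, F m ξ * (starRingEnd ℂ) (F l ξ) ∂(sig n)) := by
        rw [← integral_conj]
        congr 1
        ext1 ξ
        simp [mul_comm]
      rw [h2, this, map_zero]
  have e4 : ∫ ξ, ‖∑ l ∈ Finset.range L, F l ξ‖ ^ 2 ∂(sig n) ≤
      ∑ l ∈ Finset.range L, ∑ m ∈ Finset.range L,
        (if (l + D₀ ≤ m ∨ m + D₀ ≤ l) then 0 else (G l + G m) / 2) := by
    have h5 : ∫ ξ, ‖∑ l ∈ Finset.range L, F l ξ‖ ^ 2 ∂(sig n) =
        ‖((∫ ξ, ‖∑ l ∈ Finset.range L, F l ξ‖ ^ 2 ∂(sig n) : ℝ) : ℂ)‖ := by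
      rw [Complex.norm_real, Real.norm_of_nonneg (integral_nonneg fun ξ => by positivity)]
    rw [h5, e1]
    refine (norm_sum_le _ _).trans (Finset.sum_le_sum fun l _ => ?_)
    refine (norm_sum_le _ _).trans (Finset.sum_le_sum fun m _ => ?_)
    split_ifs with h
    · rw [e3 l m h]; simp
    · exact e2 l m
  refine e4.trans ?_
  have hcard : ∀ l, (∑ m ∈ Finset.range L,
      (if (l + D₀ ≤ m ∨ m + D₀ ≤ l) then (0 : ℝ) else 1)) ≤ 2 * D₀ := by
    intro l
    have hh : (∑ m ∈ Finset.range L,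
        (if (l + D₀ ≤ m ∨ m + D₀ ≤ l) then (0 : ℝ) else 1)) =
        ∑ m ∈ Finset.range L with ¬ (l + D₀ ≤ m ∨ m + D₀ ≤ l), (1 : ℝ) := by
      rw [Finset.sum_filter]
      apply Finset.sum_congr rfl
      intro m _
      split_ifs <;> simp_all
    rw [hh, Finset.sum_const, nsmul_eq_mul, mul_one]
    have : (Finset.filter (fun m => ¬ (l + D₀ ≤ m ∨ m + D₀ ≤ l)) (Finset.range L)) ⊆
        Finset.Ico (l - D₀) (l + D₀) := by
      intro m hm
      simp only [Finset.mem_filter, Finset.mem_range, not_or, not_le, Finset.mem_Ico] at hm ⊢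
      omega
    have h2 := Finset.card_le_card this
    rw [Nat.card_Ico] at h2
    have h3 : l + D₀ - (l - D₀) ≤ 2 * D₀ := by omega
    exact_mod_cast h2.trans h3
  have e5 : ∑ l ∈ Finset.range L, ∑ m ∈ Finset.range L,
        (if (l + D₀ ≤ m ∨ m + D₀ ≤ l) then 0 else (G l + G m) / 2) =
      ∑ l ∈ Finset.range L, G l * ∑ m ∈ Finset.range L,
        (if (l + D₀ ≤ m ∨ m + D₀ ≤ l) then (0 : ℝ) else 1) := by
    have a1 : ∑ l ∈ Finset.range L, ∑ m ∈ Finset.range L,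
        (if (l + D₀ ≤ m ∨ m + D₀ ≤ l) then 0 else (G l + G m) / 2) =
        ∑ l ∈ Finset.range L, ∑ m ∈ Finset.range L,
          (if (l + D₀ ≤ m ∨ m + D₀ ≤ l) then (0:ℝ) else G l / 2) +
        ∑ l ∈ Finset.range L, ∑ m ∈ Finset.range L,
          (if (l + D₀ ≤ m ∨ m + D₀ ≤ l) then (0:ℝ) else G m / 2) := by
      rw [← Finset.sum_add_distrib]
      apply Finset.sum_congr rfl
      intro l _
      rw [← Finset.sum_add_distrib]
      apply Finset.sum_congr rfl
      intro m _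
      split_ifs <;> ring
    have a2 : ∑ l ∈ Finset.range L, ∑ m ∈ Finset.range L,
          (if (l + D₀ ≤ m ∨ m + D₀ ≤ l) then (0:ℝ) else G m / 2) =
        ∑ l ∈ Finset.range L, ∑ m ∈ Finset.range L,
          (if (l + D₀ ≤ m ∨ m + D₀ ≤ l) then (0:ℝ) else G l / 2) := by
      rw [Finset.sum_comm]
      apply Finset.sum_congr rfl
      intro l _
      apply Finset.sum_congr rfl
      intro m _
      have : (m + D₀ ≤ l ∨ l + D₀ ≤ m) ↔ (l + D₀ ≤ m ∨ m + D₀ ≤ l) := or_comm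
      simp only [this]
    rw [a1, a2, ← Finset.sum_add_distrib]
    apply Finset.sum_congr rfl
    intro l _
    rw [← Finset.sum_add_distrib, Finset.mul_sum]
    apply Finset.sum_congr rfl
    intro m _
    split_ifs <;> ring
  rw [e5, Finset.mul_sum]
  apply Finset.sum_le_sum
  intro l _
  have := hcard l
  have := hG0 l
  change G l * _ ≤ _ * G l
  have h7 : (0:ℝ) ≤ G l := this
  nlinarith

end Pool.Agent.HpBall
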