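import Mathlib
import Pool.Agent.HpBall.Synth2

set_option autoImplicit false

open MeasureTheory Complex
open scoped ENNReal NNReal

namespace Pool.Agent.HpBall

lemma card_desc (m l j : ℕ) (hml : m ≤ l) (T : Finset ℕ) (hT : ∀ i ∈ T, i / 2 ^ (l - m) = j) :
    (T.card : ℝ) ≤ 2 ^ (l - m) := by
  have h1 : T ⊆ Finset.Ico (j * 2 ^ (l - m)) (j * 2 ^ (l - m) + 2 ^ (l - m)) := by
    intro i hi
    have h := hT i hi
    have hpos : 0 < 2 ^ (l - m) := by positivity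
    rw [Finset.mem_Ico]
    have h2 := Nat.div_add_mod i (2 ^ (l - m))
    have h3 := Nat.mod_lt i hpos
    rw [h] at h2
    constructor
    · rw [mul_comm]; omega
    · rw [mul_comm]; omega
  have h2 := Finset.card_le_card h1
  rw [Nat.card_Ico] at h2
  have h3 : j * 2 ^ (l - m) + 2 ^ (l - m) - j * 2 ^ (l - m) = 2 ^ (l - m) :=
    Nat.add_sub_cancel_left _ _
  rw [h3] at h2
  exact_mod_cast h2

lemma sc_ratio (n m l : ℕ) (hml : m ≤ l) :
    sc n m / sc n l = (2 : ℝ) ^ (-(((l - m : ℕ) : ℝ) / (n : ℝ))) := by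
  unfold sc
  rw [← Real.rpow_sub (by norm_num)]
  congr 1
  rw [Nat.cast_sub hml]
  ring

/-- far pointwise bound for atoms -/
lemma far_bound (n : ℕ) (hn : 1 ≤ n) (pt : ℕ → ℕ → E n) (c C : ℝ) (hT : TreeFam n pt c C)
    (A : ℝ) (hA : 0 < A) (K : ℝ) (hK : (n : ℝ) < K) (B : ℝ) : ∃ D Λ : ℝ, 0 < D ∧ 1 ≤ Λ ∧
    ∀ (Ψ : ℕ → ℕ → E n → ℂ),
    (∀ l i, i < 2 ^ l → ∀ ξ : E n, ‖ξ‖ = 1 → ∀ r : ℝ, 0 ≤ r → r ≤ 1 →
      ‖Ψ l i ((r : ℂ) • ξ)‖ ≤ B * (1 + A * sc n l * rho ξ (pt l i)) ^ (-K)) →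
    ∀ (L m j : ℕ), m < L → j < 2 ^ m → ∀ (x : ℕ → ℕ → ℂ),
    (∀ l i, x l i ≠ 0 → m ≤ l ∧ l < L ∧ i / 2 ^ (l - m) = j) →
    ∀ r : ℝ, 0 ≤ r → r ≤ 1 → ∀ ξ : E n, ‖ξ‖ = 1 → Λ ≤ A * sc n m * rho ξ (pt m j) →
      ‖∑ l ∈ Finset.range L, ∑ i ∈ Finset.range (2 ^ l), x l i * Ψ l i ((r : ℂ) • ξ)‖ ^ 2 ≤
        D * (2 ^ m * ∑ l ∈ Finset.range L, (1 / 2 ^ l) * ∑ i ∈ Finset.range (2 ^ l), ‖x l i‖ ^ 2) *
          (1 + A * sc n m * rho ξ (pt m j)) ^ (-(2 * K)) := by
  have hn0 : (0 : ℝ) < n := by exact_mod_cast hn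
  have hK0 : 0 < K := hn0.trans hK
  set θ : ℝ := (2 : ℝ) ^ (2 - 2 * K / n) with hθ
  have hθ0 : 0 < θ := by positivity
  have hθ1 : θ < 1 := by
    apply Real.rpow_lt_one_of_one_lt_of_neg (by norm_num)
    have : 2 * K / n > 2 := by
      rw [gt_iff_lt, lt_div_iff₀ hn0]; linarith
    linarith
  have hC0 : 0 ≤ C := by
    have h := hT.nest 0 0 0 le_rfl (by norm_num)
    have := rho_nonneg (pt 0 0) (pt 0 (0 / 2 ^ (0 - 0)))
    have := (sc_pos n 0).le
    nlinarith [mul_nonneg ‹0 ≤ sc n 0› ‹0 ≤ rho (pt 0 0) (pt 0 (0 / 2 ^ (0 - 0)))›]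
  refine ⟨B ^ 2 * (8 ^ K) ^ 2 * (1 - θ)⁻¹ + 1, 4 * (A * C) + 1, ?_, ?_, ?_⟩
  · have : 0 < 1 - θ := by linarith
    positivity
  · nlinarith [mul_nonneg hA.le hC0]
  intro Ψ hΨ L m j hmL hj x hx r hr0 hr1 ξ hξ hfar
  set y := A * sc n m * rho ξ (pt m j) with hy
  have hy0 : 0 ≤ y := by
    have := rho_nonneg ξ (pt m j)
    have := (sc_pos n m).le
    positivity
  have hy1 : 1 ≤ y := by nlinarith [mul_nonneg hA.le hC0]
  -- pointwise bound for each molecule
  have hpt : ∀ l i, x l i ≠ 0 → ‖Ψ l i ((r : ℂ) • ξ)‖ ≤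
      |B| * ((8 ^ K) * (sc n m / sc n l) ^ K * (1 + y) ^ (-K)) := by
    intro l i hli
    obtain ⟨h1, h2, h3⟩ := hx l i hli
    have hi : i < 2 ^ l := by
      have hpos : 0 < 2 ^ (l - m) := by positivity
      have h4 : i < (j + 1) * 2 ^ (l - m) := by
        have h5 := Nat.div_add_mod i (2 ^ (l - m))
        have h6 := Nat.mod_lt i hpos
        rw [h3] at h5
        nlinarith
      calc i < (j + 1) * 2 ^ (l - m) := h4
        _ ≤ 2 ^ m * 2 ^ (l - m) := by gcongr; omega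
        _ = 2 ^ l := by rw [← pow_add]; congr 1; omega
    have hnest := hT.nest m l i h1 hi
    rw [h3] at hnest
    have htri : rho ξ (pt m j) ≤ 2 * (rho ξ (pt l i) + rho (pt l i) (pt m j)) :=
      rho_triangle hξ.le (hT.unit l i) (hT.unit m j).le
    have hsm := sc_pos n m
    have hsl := sc_pos n l
    have hq : y ≤ 4 * (A * sc n m * rho ξ (pt l i)) := by
      have h5 : A * sc n m * rho ξ (pt m j) ≤
          A * sc n m * (2 * (rho ξ (pt l i) + rho (pt l i) (pt m j))) := by gcongr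
      have h6 : A * (sc n m * rho (pt l i) (pt m j)) ≤ A * C := by gcongr
      nlinarith
    have h7 : (sc n l / sc n m) * ((1 + y) / 8) ≤ 1 + A * sc n l * rho ξ (pt l i) := by
      have h8 : (1 + y) / 8 ≤ A * sc n m * rho ξ (pt l i) := by linarith
      calc (sc n l / sc n m) * ((1 + y) / 8) ≤
          (sc n l / sc n m) * (A * sc n m * rho ξ (pt l i)) := by gcongr
        _ = A * sc n l * rho ξ (pt l i) := by field_simp
        _ ≤ _ := by linarith
    calc ‖Ψ l i ((r : ℂ) • ξ)‖ ≤ B * (1 + A * sc n l * rho ξ (pt l i)) ^ (-K) :=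
          hΨ l i hi ξ hξ r hr0 hr1
      _ ≤ |B| * (1 + A * sc n l * rho ξ (pt l i)) ^ (-K) := by
          have : 0 ≤ (1 + A * sc n l * rho ξ (pt l i)) ^ (-K) := by
            have := rho_nonneg ξ (pt l i)
            positivity
          gcongr
          exact le_abs_self B
      _ ≤ |B| * ((sc n l / sc n m) * ((1 + y) / 8)) ^ (-K) := by
          apply mul_le_mul_of_nonneg_left _ (abs_nonneg B)
          apply Real.rpow_le_rpow_of_nonpos (by positivity) h7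
          linarith
      _ = |B| * ((8 ^ K) * (sc n m / sc n l) ^ K * (1 + y) ^ (-K)) := by
          congr 1
          have hu : (sc n l / sc n m) ^ (-K) = (sc n m / sc n l) ^ K := by
            rw [Real.rpow_neg (by positivity), ← Real.inv_rpow (by positivity), inv_div]
          have hv : ((1 + y) / 8) ^ (-K) = 8 ^ K * (1 + y) ^ (-K) := by
            rw [Real.div_rpow (by positivity) (by norm_num),
              Real.rpow_neg (show (0:ℝ) ≤ 8 by norm_num), div_inv_eq_mul, mul_comm]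
          rw [Real.mul_rpow (by positivity) (by positivity), hu, hv]
          ring
  -- level sums
  set s : ℕ → ℝ := fun l => ∑ i ∈ Finset.range (2 ^ l), ‖x l i‖ with hs
  set q : ℕ → ℝ := fun l => ∑ i ∈ Finset.range (2 ^ l), ‖x l i‖ ^ 2 with hq
  have hs0 : ∀ l, l < m → s l = 0 := by
    intro l hl
    apply Finset.sum_eq_zero
    intro i _
    by_contra hne
    have : x l i ≠ 0 := by simpa using hne
    have := (hx l i this).1
    omega
  have hsq : ∀ l, m ≤ l → s l ^ 2 ≤ 2 ^ (l - m) * q l := by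
    intro l hl
    classical
    set T := (Finset.range (2 ^ l)).filter (fun i => i / 2 ^ (l - m) = j) with hTT
    have e1 : s l = ∑ i ∈ T, ‖x l i‖ := by
      rw [hs, hTT, Finset.sum_filter]
      apply Finset.sum_congr rfl
      intro i _
      split_ifs with h
      · rfl
      · by_contra hne
        have : x l i ≠ 0 := by simpa using hne
        exact h (hx l i this).2.2
    have e2 : (∑ i ∈ T, ‖x l i‖) ^ 2 ≤ T.card * ∑ i ∈ T, ‖x l i‖ ^ 2 := sq_sum_le_card_mul_sum_sq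
    have e3 : ∑ i ∈ T, ‖x l i‖ ^ 2 ≤ q l := by
      apply Finset.sum_le_sum_of_subset_of_nonneg (Finset.filter_subset _ _)
      intro i _ _
      positivity
    have e4 : (T.card : ℝ) ≤ 2 ^ (l - m) :=
      card_desc m l j hl T (fun i hi => (Finset.mem_filter.1 hi).2)
    rw [e1]
    calc (∑ i ∈ T, ‖x l i‖) ^ 2 ≤ T.card * ∑ i ∈ T, ‖x l i‖ ^ 2 := e2
      _ ≤ 2 ^ (l - m) * q l := by
          apply mul_le_mul e4 e3 (Finset.sum_nonneg fun i _ => by positivity) (by positivity)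
  have hs00 : ∀ l, 0 ≤ s l := fun l => Finset.sum_nonneg fun i _ => norm_nonneg _
  have hq00 : ∀ l, 0 ≤ q l := fun l => Finset.sum_nonneg fun i _ => by positivity
  set ψ : ℕ → ℝ := fun l => |B| * ((8 ^ K) * (sc n m / sc n l) ^ K * (1 + y) ^ (-K)) with hψ
  have hψ0 : ∀ l, 0 ≤ ψ l := by
    intro l
    have := sc_pos n m
    have := sc_pos n l
    positivity
  have hF : ‖∑ l ∈ Finset.range L, ∑ i ∈ Finset.range (2 ^ l), x l i * Ψ l i ((r : ℂ) • ξ)‖ ≤
      ∑ l ∈ Finset.Ico m L, ψ l * s l := by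
    have e1 : ‖∑ l ∈ Finset.range L, ∑ i ∈ Finset.range (2 ^ l), x l i * Ψ l i ((r : ℂ) • ξ)‖ ≤
        ∑ l ∈ Finset.range L, ψ l * s l := by
      refine (norm_sum_le _ _).trans (Finset.sum_le_sum fun l _ => ?_)
      refine (norm_sum_le _ _).trans ?_
      rw [hs, Finset.mul_sum]
      apply Finset.sum_le_sum
      intro i _
      rw [norm_mul]
      by_cases h : x l i = 0
      · simp [h]
      · have := hpt l i h
        have h3 := mul_le_mul_of_nonneg_left this (norm_nonneg (x l i))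
        rw [mul_comm (ψ l)]
        exact h3
    refine e1.trans (le_of_eq ?_)
    symm
    apply Finset.sum_subset
    · intro l hl
      rw [Finset.mem_Ico] at hl
      exact Finset.mem_range.2 hl.2
    · intro l hl hl2
      have : l < m := by
        rw [Finset.mem_range] at hl
        rw [Finset.mem_Ico] at hl2
        omega
      rw [hs0 l this, mul_zero]
  -- Cauchy-Schwarz
  have hCS : (∑ l ∈ Finset.Ico m L, ψ l * s l) ^ 2 ≤
      (∑ l ∈ Finset.Ico m L, (1 / 2 ^ l) * q l) *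
        (∑ l ∈ Finset.Ico m L, 2 ^ l * 2 ^ (l - m) * ψ l ^ 2) := by
    apply Finset.sum_sq_le_sum_mul_sum_of_sq_le_mul
    · intro l _
      have := hq00 l
      positivity
    · intro l _
      positivity
    · intro l hl
      have h1 := hsq l (Finset.mem_Ico.1 hl).1
      calc (ψ l * s l) ^ 2 = ψ l ^ 2 * s l ^ 2 := by ring
        _ ≤ ψ l ^ 2 * (2 ^ (l - m) * q l) := by gcongr
        _ = _ := by field_simp
  have hgeo : ∑ l ∈ Finset.Ico m L, 2 ^ l * 2 ^ (l - m) * ψ l ^ 2 ≤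
      B ^ 2 * (8 ^ K) ^ 2 * (1 - θ)⁻¹ * 2 ^ m * (1 + y) ^ (-(2 * K)) := by
    have e1 : ∀ l ∈ Finset.Ico m L, 2 ^ l * 2 ^ (l - m) * ψ l ^ 2 =
        B ^ 2 * (8 ^ K) ^ 2 * 2 ^ m * (1 + y) ^ (-(2 * K)) * θ ^ (l - m) := by
      intro l hl
      have hml := (Finset.mem_Ico.1 hl).1
      have e2 : ((sc n m / sc n l) ^ K) ^ 2 = (2 : ℝ) ^ (-(2 * K / n * ((l - m : ℕ) : ℝ))) := by
        rw [sc_ratio n m l hml, ← Real.rpow_mul (by norm_num), ← Real.rpow_natCast,
          ← Real.rpow_mul (by norm_num)]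
        congr 1
        push_cast
        ring
      have e3 : ((1 + y) ^ (-K)) ^ 2 = (1 + y) ^ (-(2 * K)) := by
        rw [← Real.rpow_natCast, ← Real.rpow_mul (by linarith)]
        congr 1
        push_cast
        ring
      have e4 : θ ^ (l - m) = (2:ℝ) ^ (l - m) * 2 ^ (l - m) *
          (2 : ℝ) ^ (-(2 * K / n * ((l - m : ℕ) : ℝ))) := by
        rw [hθ, ← Real.rpow_natCast, ← Real.rpow_mul (by norm_num), ← Real.rpow_natCast,
          ← Real.rpow_add (by norm_num), ← Real.rpow_add (by norm_num)]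
        congr 1
        ring
      have e5 : (2:ℝ) ^ l = 2 ^ m * 2 ^ (l - m) := by
        rw [← pow_add]; congr 1; omega
      calc 2 ^ l * 2 ^ (l - m) * ψ l ^ 2 = 2 ^ l * 2 ^ (l - m) * (|B| ^ 2 * ((8 ^ K) ^ 2 *
            ((sc n m / sc n l) ^ K) ^ 2 * ((1 + y) ^ (-K)) ^ 2)) := by rw [hψ]; ring
        _ = _ := by
            rw [e2, e3, e4, e5, sq_abs]
            ring
    rw [Finset.sum_congr rfl e1, ← Finset.mul_sum]
    have e6 : ∑ l ∈ Finset.Ico m L, θ ^ (l - m) ≤ (1 - θ)⁻¹ := by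
      rw [Finset.sum_Ico_eq_sum_range]
      have : ∀ k, m + k - m = k := fun k => by omega
      simp_rw [this]
      rw [← tsum_geometric_of_lt_one hθ0.le hθ1]
      exact (summable_geometric_of_lt_one hθ0.le hθ1).sum_le_tsum _ (fun i _ => by positivity)
    calc B ^ 2 * (8 ^ K) ^ 2 * 2 ^ m * (1 + y) ^ (-(2 * K)) * ∑ l ∈ Finset.Ico m L, θ ^ (l - m)
        ≤ B ^ 2 * (8 ^ K) ^ 2 * 2 ^ m * (1 + y) ^ (-(2 * K)) * (1 - θ)⁻¹ := by gcongr
      _ = _ := by ring
  have hq2 : ∑ l ∈ Finset.Ico m L, (1 / 2 ^ l) * q l ≤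
      ∑ l ∈ Finset.range L, (1 / 2 ^ l) * q l := by
    apply Finset.sum_le_sum_of_subset_of_nonneg
    · intro l hl
      exact Finset.mem_range.2 (Finset.mem_Ico.1 hl).2
    · intro l _ _
      have := hq00 l
      positivity
  have hX0 : 0 ≤ ∑ l ∈ Finset.range L, (1 / 2 ^ l) * q l := Finset.sum_nonneg fun l _ => by
    have := hq00 l
    positivity
  calc ‖∑ l ∈ Finset.range L, ∑ i ∈ Finset.range (2 ^ l), x l i * Ψ l i ((r : ℂ) • ξ)‖ ^ 2
      ≤ (∑ l ∈ Finset.Ico m L, ψ l * s l) ^ 2 := by gcongr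
    _ ≤ _ := hCS
    _ ≤ (∑ l ∈ Finset.range L, (1 / 2 ^ l) * q l) *
        (B ^ 2 * (8 ^ K) ^ 2 * (1 - θ)⁻¹ * 2 ^ m * (1 + y) ^ (-(2 * K))) := by
        apply mul_le_mul hq2 hgeo
        · apply Finset.sum_nonneg
          intro l _
          positivity
        · exact hX0
    _ ≤ _ := by
        have h9 : 0 ≤ (2:ℝ) ^ m * (∑ l ∈ Finset.range L, (1 / 2 ^ l) * q l) *
          (1 + y) ^ (-(2 * K)) := by positivity
        have h10 : (B ^ 2 * (8 ^ K) ^ 2 * (1 - θ)⁻¹ + 1) * (2 ^ m * ∑ l ∈ Finset.range L,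
          (1 / 2 ^ l) * q l) * (1 + y) ^ (-(2 * K)) =
          (∑ l ∈ Finset.range L, (1 / 2 ^ l) * q l) *
        (B ^ 2 * (8 ^ K) ^ 2 * (1 - θ)⁻¹ * 2 ^ m * (1 + y) ^ (-(2 * K))) +
          (2:ℝ) ^ m * (∑ l ∈ Finset.range L, (1 / 2 ^ l) * q l) *
          (1 + y) ^ (-(2 * K)) := by ring
        rw [h10]
        linarith

end Pool.Agent.HpBall
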