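import Mathlib
import Pool.Agent.HpBall.Defs2
import Pool.Agent.HpBall.Geom
import Pool.Agent.HpBall.Sphere
import Pool.Agent.HpBall.CircleTree
import Pool.Agent.HpBall.Kernel
import Pool.Agent.HpBall.Analysis
import Pool.Agent.HpBall.Synth

set_option autoImplicit false

open MeasureTheory Complex
open scoped ENNReal NNReal

namespace Pool.Agent.HpBall

theorem dv_norm (ξ : E 1) : ‖ξ‖ = ‖ξ 0‖ := by
  rw [EuclideanSpace.norm_eq]
  simp

theorem dv_lint_per (f : ℝ → ℝ≥0∞) (hf : Function.Periodic f (2 * Real.pi)) (s : ℝ) :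
    ∫⁻ t in Set.Ioc 0 (2 * Real.pi), f (t + s) = ∫⁻ t in Set.Ioc 0 (2 * Real.pi), f t := by
  have hT : 0 < 2 * Real.pi := by positivity
  have h1 : ∫⁻ t in Set.Ioc 0 (2 * Real.pi), f (t + s) = ∫⁻ t in Set.Ioc s (s + 2 * Real.pi), f t := by
    have hmp := measurePreserving_add_right (volume : Measure ℝ) s
    have hemb := measurableEmbedding_addRight s
    rw [← hmp.setLIntegral_comp_preimage_emb hemb f (Set.Ioc s (s + 2 * Real.pi))]
    congr 2
    ext t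
    simp only [Set.mem_preimage, Set.mem_Ioc]
    constructor
    · rintro ⟨h1, h2⟩; exact ⟨by linarith, by linarith⟩
    · rintro ⟨h1, h2⟩; exact ⟨by linarith, by linarith⟩
  rw [h1]
  have h2 := (isAddFundamentalDomain_Ioc hT s).setLIntegral_eq (isAddFundamentalDomain_Ioc hT 0) f
    hf.map_vadd_zmultiples
  rw [zero_add] at h2
  exact h2

theorem dv_circ (h : ℂ → ℝ≥0∞) (hh : Measurable h) :
    ENNReal.ofReal (2 * Real.pi) * ∫⁻ ξ : E 1, h (ξ 0) ∂(sig 1) =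
      (sig 1 Set.univ) * ∫⁻ t in Set.Ioc 0 (2 * Real.pi), h (Complex.exp ((t : ℂ) * I)) := by
  set J := ∫⁻ t in Set.Ioc 0 (2 * Real.pi), h (Complex.exp ((t : ℂ) * I)) with hJ
  have hm : Measurable (fun ξ : E 1 => h (ξ 0)) := by fun_prop
  have h1 : ∫⁻ t in Set.Ioc 0 (2 * Real.pi), (∫⁻ ξ : E 1, h (Complex.exp ((t : ℂ) * I) * ξ 0) ∂(sig 1)) =
      ENNReal.ofReal (2 * Real.pi) * ∫⁻ ξ : E 1, h (ξ 0) ∂(sig 1) := by
    have h2 : ∀ t : ℝ, ∫⁻ ξ : E 1, h (Complex.exp ((t : ℂ) * I) * ξ 0) ∂(sig 1) =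
        ∫⁻ ξ : E 1, h (ξ 0) ∂(sig 1) := by
      intro t
      have h3 := lintegral_sig_isometry (rot 1 t) (fun ξ : E 1 => h (ξ 0)) hm
      rw [← h3]
      rfl
    simp_rw [h2]
    rw [setLIntegral_const, Real.volume_Ioc, sub_zero, mul_comm]
  rw [← h1, lintegral_lintegral_swap]
  · have h4 : ∀ᵐ ξ : E 1 ∂(sig 1), ∫⁻ t in Set.Ioc 0 (2 * Real.pi), h (Complex.exp ((t : ℂ) * I) * ξ 0) = J := by
      filter_upwards [sig_ae_norm (n := 1) le_rfl] with ξ hξ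
      rw [dv_norm] at hξ
      obtain ⟨s, hs⟩ : ∃ s : ℝ, ξ 0 = Complex.exp ((s : ℂ) * I) := by
        refine ⟨Complex.arg (ξ 0), ?_⟩
        have := Complex.norm_mul_exp_arg_mul_I (ξ 0)
        rw [hξ] at this
        simpa using this.symm
      rw [hs, hJ]
      have h5 := dv_lint_per (fun t : ℝ => h (Complex.exp ((t : ℂ) * I))) (by
        intro t
        simp only
        congr 1
        push_cast
        rw [add_mul, Complex.exp_add, Complex.exp_two_pi_mul_I, mul_one]) s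
      rw [← h5]
      refine lintegral_congr (fun t => ?_)
      congr 1
      push_cast
      rw [add_mul, Complex.exp_add]
    rw [lintegral_congr_ae h4, lintegral_const, mul_comm]
  · apply Measurable.aemeasurable
    fun_prop

/-- the constant relating the two measures -/
theorem dv_const : ∃ κ : ℝ, 0 < κ ∧ ∀ G : ℂ → ℝ, Continuous G → (∀ w, 0 ≤ G w) →
    ∫⁻ ξ : E 1, ENNReal.ofReal (G (ξ 0)) ∂(sig 1) =
      ENNReal.ofReal (κ * ∫ θ in (0 : ℝ)..2 * Real.pi, G (Complex.exp ((θ : ℂ) * I))) := by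
  have hfin : sig 1 Set.univ ≠ ⊤ := measure_ne_top _ _
  have hpos : 0 < sig 1 Set.univ := sig_univ_pos
  have hs : 0 < (sig 1 Set.univ).toReal := ENNReal.toReal_pos hpos.ne' hfin
  refine ⟨(sig 1 Set.univ).toReal / (2 * Real.pi), by positivity, ?_⟩
  intro G hG hG0
  have h1 := dv_circ (fun w => ENNReal.ofReal (G w)) (by fun_prop)
  have hcont : Continuous (fun t : ℝ => G (Complex.exp ((t : ℂ) * I))) := by fun_prop
  have h2 : ∫⁻ t in Set.Ioc 0 (2 * Real.pi), ENNReal.ofReal (G (Complex.exp ((t : ℂ) * I))) =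
      ENNReal.ofReal (∫ θ in (0 : ℝ)..2 * Real.pi, G (Complex.exp ((θ : ℂ) * I))) := by
    rw [intervalIntegral.integral_of_le (by positivity)]
    rw [ofReal_integral_eq_lintegral_ofReal]
    · exact (hcont.integrableOn_Icc (a := 0) (b := 2 * Real.pi)).mono_set Set.Ioc_subset_Icc_self
    · exact Filter.Eventually.of_forall (fun t => hG0 _)
  simp only at h1
  rw [h2] at h1
  have hI : 0 ≤ ∫ θ in (0 : ℝ)..2 * Real.pi, G (Complex.exp ((θ : ℂ) * I)) :=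
    intervalIntegral.integral_nonneg (by positivity) (fun t _ => hG0 _)
  have h3 : ENNReal.ofReal ((sig 1 Set.univ).toReal / (2 * Real.pi) *
      ∫ θ in (0 : ℝ)..2 * Real.pi, G (Complex.exp ((θ : ℂ) * I))) =
      (ENNReal.ofReal (2 * Real.pi))⁻¹ * (sig 1 Set.univ *
        ENNReal.ofReal (∫ θ in (0 : ℝ)..2 * Real.pi, G (Complex.exp ((θ : ℂ) * I)))) := by
    rw [ENNReal.ofReal_mul (by positivity), div_eq_inv_mul, ENNReal.ofReal_mul (by positivity),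
      ENNReal.ofReal_inv_of_pos (by positivity), ENNReal.ofReal_toReal hfin, mul_assoc]
  rw [h3, ← h1, ← mul_assoc, ENNReal.inv_mul_cancel, one_mul]
  · exact (ENNReal.ofReal_pos.2 (by positivity)).ne'
  · exact ENNReal.ofReal_ne_top

theorem dv_iter (f : ℂ → ℂ) (w : ℂ) (k : ℕ) :
    iteratedDeriv k (fun z => f (z * w)) = fun z => w ^ k * iteratedDeriv k f (z * w) := by
  induction k with
  | zero => simp
  | succ k ih =>
    rw [iteratedDeriv_succ, ih]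
    funext z
    rw [deriv_const_mul_field]
    have h1 : deriv (fun z => iteratedDeriv k f (z * w)) z = w * deriv (iteratedDeriv k f) (z * w) := by
      have h2 := deriv_comp_mul_left w (iteratedDeriv k f) z
      have h3 : (fun x => iteratedDeriv k f (w * x)) = fun x => iteratedDeriv k f (x * w) := by
        funext x; rw [mul_comm]
      rw [h3, smul_eq_mul, mul_comm w z] at h2
      exact h2
    rw [h1, iteratedDeriv_succ, pow_succ]
    ring

theorem dv_tc (f : ℂ → ℂ) (w : ℂ) (k : ℕ) : tc (fun z => f (z * w)) k = tc f k * w ^ k := by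
  unfold tc
  rw [dv_iter]
  simp only [zero_mul]
  ring

theorem dv_sc (l : ℕ) : sc 1 l = 2 ^ l := by
  unfold sc
  simp

theorem dv_cut (β : ℝ → ℝ) (N : ℝ) (f : ℂ → ℂ) (w : ℂ) :
    cut β N (fun z : E 1 => f (z 0)) (EuclideanSpace.single 0 w) =
      ∑' k : ℕ, (β ((k : ℝ) / N) : ℂ) * (tc f k * w ^ k) := by
  unfold cut hc
  refine tsum_congr (fun k => ?_)
  rw [← dv_tc]
  congr 2

/-- continuous retraction of the plane onto the closed disc -/
noncomputable def retr (w : ℂ) : ℂ := w / ((max 1 ‖w‖ : ℝ) : ℂ)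

theorem retr_cont : Continuous retr := by
  unfold retr
  refine continuous_id.div (by fun_prop) ?_
  intro w
  have : (0 : ℝ) < max 1 ‖w‖ := lt_of_lt_of_le one_pos (le_max_left _ _)
  exact_mod_cast this.ne'

theorem retr_le (w : ℂ) : ‖retr w‖ ≤ 1 := by
  unfold retr
  have : (0 : ℝ) < max 1 ‖w‖ := lt_of_lt_of_le one_pos (le_max_left _ _)
  rw [norm_div, Complex.norm_real, Real.norm_of_nonneg this.le]
  exact div_le_one_of_le₀ (le_max_right _ _) this.le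

theorem retr_one {w : ℂ} (hw : ‖w‖ = 1) : retr w = w := by
  unfold retr
  rw [hw, max_self]
  simp

/-- TARGET -/
theorem disc_analysis (p : ℝ) (hp : 0 < p) (hp1 : p < 1) (β : ℝ → ℝ) (hβ : Bump β (1 / 2) 2) :
    ∃ D : ℝ, 0 < D ∧ ∀ f : ℂ → ℂ, DifferentiableOn ℂ f (Metric.ball 0 1) → ∀ M : ℝ, 0 ≤ M →
    (∀ r : ℝ, 0 ≤ r → r < 1 →
      ∫ θ in (0 : ℝ)..2 * Real.pi, ‖f ((r : ℂ) * Complex.exp ((θ : ℂ) * I))‖ ^ p ≤ M) →
    ∀ L : ℕ, fnorm p L (fun l i => ∑' k : ℕ, (β ((k : ℝ) / (1 / 4 * 2 ^ l)) : ℂ) *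
        (tc f k * Complex.exp (2 * Real.pi * I * (i : ℂ) / 2 ^ l) ^ k)) ≤ D * M := by
  obtain ⟨c, C, hT⟩ := circle_tree
  obtain ⟨D, hD0, hD⟩ := analysis_bound 1 le_rfl p hp hp1 _ c C hT (1 / 4) (by norm_num) β (1 / 2) 2 hβ
  obtain ⟨κ, hκ0, hκ⟩ := dv_const
  refine ⟨D * κ, by positivity, ?_⟩
  intro f hf M hM hfM L
  have hg : DifferentiableOn ℂ (fun z : E 1 => f (z 0)) (Metric.ball 0 1) := by
    have h1 : Differentiable ℂ (fun z : E 1 => z 0) := by fun_prop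
    refine hf.comp h1.differentiableOn ?_
    intro z hz
    rw [mem_ball_zero_iff] at hz ⊢
    rwa [← dv_norm]
  have h1 := hD (fun z : E 1 => f (z 0)) hg (κ * M) (by positivity) (by
    intro r hr0 hr1
    have hG : Continuous (fun w : ℂ => ‖f ((r : ℂ) * retr w)‖ ^ p) := by
      have h2 : Continuous (fun w : ℂ => f ((r : ℂ) * retr w)) := by
        refine hf.continuousOn.comp_continuous (continuous_const.mul retr_cont) ?_
        intro w
        rw [mem_ball_zero_iff, norm_mul, Complex.norm_real, Real.norm_of_nonneg hr0]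
        calc r * ‖retr w‖ ≤ r * 1 := mul_le_mul_of_nonneg_left (retr_le w) hr0
          _ < 1 := by linarith
      exact h2.norm.rpow_const (fun _ => Or.inr hp.le)
    have h3 := hκ _ hG (fun w => by positivity)
    have h4 : ∫⁻ ξ : E 1, ENNReal.ofReal (‖f (((r : ℂ) • ξ : E 1) 0)‖ ^ p) ∂(sig 1) =
        ∫⁻ ξ : E 1, ENNReal.ofReal (‖f ((r : ℂ) * retr (ξ 0))‖ ^ p) ∂(sig 1) := by
      refine lintegral_congr_ae ?_
      filter_upwards [sig_ae_norm (n := 1) le_rfl] with ξ hξ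
      rw [dv_norm] at hξ
      rw [retr_one hξ]
      simp
    rw [h4, h3]
    apply ENNReal.ofReal_le_ofReal
    apply mul_le_mul_of_nonneg_left _ hκ0.le
    refine le_trans (le_of_eq ?_) (hfM r hr0 hr1)
    refine intervalIntegral.integral_congr (fun θ _ => ?_)
    show ‖f ((r : ℂ) * retr (Complex.exp ((θ : ℂ) * I)))‖ ^ p = ‖f ((r : ℂ) * Complex.exp ((θ : ℂ) * I))‖ ^ p
    rw [retr_one (Complex.norm_exp_ofReal_mul_I θ)]) L
  have e1 : D * κ * M = D * (κ * M) := by ring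
  rw [e1]
  refine le_trans (le_of_eq ?_) h1
  congr 1
  funext l i
  rw [dv_sc, dv_cut]


theorem dv_ker (v : ℝ → ℝ) (hv : Bump v (1 / 4) 4) (l : ℕ) (z : ℂ) :
    ker v (1 / 4 * 2 ^ l) z = ∑ k ∈ Finset.range (2 ^ l), (v ((k : ℝ) / (1 / 4 * 2 ^ l)) : ℂ) * z ^ k := by
  unfold ker
  apply tsum_eq_sum
  intro k hk
  rw [Finset.mem_range, not_lt] at hk
  have h1 : v ((k : ℝ) / (1 / 4 * 2 ^ l)) = 0 := by
    apply hv.hi
    rw [le_div_iff₀ (by positivity)]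
    have : ((2 ^ l : ℕ) : ℝ) ≤ (k : ℝ) := by exact_mod_cast hk
    push_cast at this
    linarith
  rw [h1]
  simp

theorem dv_ortho (k k' : ℕ) (h : k ≠ k') :
    ∫ ξ : E 1, (ξ 0) ^ k * (starRingEnd ℂ) ((ξ 0) ^ k') ∂(sig 1) = 0 := by
  set t : ℝ := Real.pi / ((k : ℝ) - (k' : ℝ)) with ht
  have hne : (k : ℝ) - (k' : ℝ) ≠ 0 := by
    intro h0
    apply h
    have : (k : ℝ) = (k' : ℝ) := by linarith
    exact_mod_cast this
  have h1 := integral_sig_isometry (rot 1 t) (fun ξ : E 1 => (ξ 0) ^ k * (starRingEnd ℂ) ((ξ 0) ^ k'))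
  have h2 : ∀ ξ : E 1, ((rot 1 t ξ) 0) ^ k * (starRingEnd ℂ) (((rot 1 t ξ) 0) ^ k') =
      -((ξ 0) ^ k * (starRingEnd ℂ) ((ξ 0) ^ k')) := by
    intro ξ
    have e1 : (rot 1 t ξ) 0 = Complex.exp ((t : ℂ) * I) * ξ 0 := rfl
    have e2 : Complex.exp ((t : ℂ) * I) ^ k * (starRingEnd ℂ) (Complex.exp ((t : ℂ) * I) ^ k') = -1 := by
      rw [map_pow, ← Complex.exp_conj, ← Complex.exp_nat_mul, ← Complex.exp_nat_mul, ← Complex.exp_add]
      have e3 : (k : ℂ) * ((t : ℂ) * I) + (k' : ℂ) * (starRingEnd ℂ) ((t : ℂ) * I) = Real.pi * I := by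
        rw [map_mul, Complex.conj_ofReal, Complex.conj_I]
        have e4 : (k : ℂ) * ((t : ℂ) * I) + (k' : ℂ) * ((t : ℂ) * -I) =
            (((t * ((k : ℝ) - (k' : ℝ))) : ℝ) : ℂ) * I := by
          push_cast; ring
        rw [e4, ht, div_mul_cancel₀ _ hne]
      rw [e3, Complex.exp_pi_mul_I]
    rw [e1, mul_pow, mul_pow, map_mul]
    calc _ = (Complex.exp ((t : ℂ) * I) ^ k * (starRingEnd ℂ) (Complex.exp ((t : ℂ) * I) ^ k')) *
        ((ξ 0) ^ k * (starRingEnd ℂ) ((ξ 0) ^ k')) := by ring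
      _ = _ := by rw [e2]; ring
  simp_rw [h2] at h1
  rw [integral_neg] at h1
  have h3 : (2 : ℂ) * ∫ ξ : E 1, (ξ 0) ^ k * (starRingEnd ℂ) ((ξ 0) ^ k') ∂(sig 1) = 0 := by
    linear_combination (-1 : ℂ) * h1
  exact (mul_eq_zero.1 h3).resolve_left (by norm_num)

theorem dv_integrable (a b : ℂ) (k k' : ℕ) :
    Integrable (fun ξ : E 1 => (a * (ξ 0) ^ k) * (starRingEnd ℂ) (b * (ξ 0) ^ k')) (sig 1) := by
  have hc : Continuous (fun ξ : E 1 => (a * (ξ 0) ^ k) * (starRingEnd ℂ) (b * (ξ 0) ^ k')) := by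
    have : Continuous (starRingEnd ℂ) := Complex.continuous_conj
    fun_prop
  refine Integrable.of_bound hc.aestronglyMeasurable (‖a‖ * ‖b‖) ?_
  filter_upwards [sig_ae_norm (n := 1) le_rfl] with ξ hξ
  rw [dv_norm] at hξ
  rw [norm_mul, norm_mul, RCLike.norm_conj, norm_mul, norm_pow, norm_pow, hξ]
  simp

/-- TARGET -/
theorem disc_synthesis (p : ℝ) (hp : 0 < p) (hp1 : p < 1) (v : ℝ → ℝ) (hv : Bump v (1 / 4) 4) :
    ∃ D : ℝ, 0 < D ∧ ∀ (x : ℕ → ℕ → ℂ) (L : ℕ) (r : ℝ), 0 ≤ r → r ≤ 1 →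
      ∫ θ in (0 : ℝ)..2 * Real.pi, ‖∑ l ∈ Finset.range L, ∑ i ∈ Finset.range (2 ^ l), x l i *
        ((1 / 2 ^ l) * ker v (1 / 4 * 2 ^ l) (((r : ℂ) * Complex.exp ((θ : ℂ) * I)) *
          (starRingEnd ℂ) (Complex.exp (2 * Real.pi * I * (i : ℂ) / 2 ^ l))))‖ ^ p ≤
        D * fnorm p L x := by
  obtain ⟨c, C, hT⟩ := circle_tree
  obtain ⟨K, hK1, hK⟩ := synthesis_bound 1 le_rfl p hp hp1
  obtain ⟨M, hM⟩ := exists_nat_ge K
  obtain ⟨CM, hCM0, hCM⟩ := multiplier_kernel v (1 / 4) 4 hv M (1 / 4) (by norm_num)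
  obtain ⟨κ, hκ0, hκ⟩ := dv_const
  obtain ⟨D, hD0, hD⟩ := hK _ c C hT (1 / 4) (by norm_num) (CM / 4 * 2 ^ M) 4
  obtain ⟨w, hw⟩ : ∃ w : ℕ → ℕ → ℂ, w = (fun (l i : ℕ) => Complex.exp (2 * Real.pi * I * (i : ℂ) / 2 ^ l)) :=
    ⟨fun (l i : ℕ) => Complex.exp (2 * Real.pi * I * (i : ℂ) / 2 ^ l), rfl⟩
  have hw1 : ∀ l i, ‖w l i‖ = 1 := by
    intro l i
    rw [hw]
    have : (2 * Real.pi * I * (i : ℂ) / 2 ^ l) = ((2 * Real.pi * i / 2 ^ l : ℝ) : ℂ) * I := by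
      push_cast; ring
    simp only
    rw [this, Complex.norm_exp_ofReal_mul_I]
  obtain ⟨Ψ, hΨ⟩ : ∃ Ψ : ℕ → ℕ → E 1 → ℂ, Ψ = (fun (l i : ℕ) (z : E 1) =>
      (1 / 2 ^ l) * ker v (1 / 4 * 2 ^ l) (z 0 * (starRingEnd ℂ) (w l i))) :=
    ⟨fun (l i : ℕ) (z : E 1) => (1 / 2 ^ l) * ker v (1 / 4 * 2 ^ l) (z 0 * (starRingEnd ℂ) (w l i)), rfl⟩
  have hD' := hD Ψ ?_ ?_ ?_
  · refine ⟨D / κ, by positivity, ?_⟩
    intro x L r hr0 hr1
    have h1 := hD' x L r hr0 hr1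
    have hG : Continuous (fun u : ℂ => ‖∑ l ∈ Finset.range L, ∑ i ∈ Finset.range (2 ^ l), x l i *
        ((1 / 2 ^ l) * ker v (1 / 4 * 2 ^ l) (((r : ℂ) * u) * (starRingEnd ℂ) (w l i)))‖ ^ p) := by
      refine Continuous.rpow_const ?_ (fun _ => Or.inr hp.le)
      simp_rw [dv_ker v hv]
      fun_prop
    have h2 := hκ _ hG (fun u => by positivity)
    have h3 : ∫⁻ ξ : E 1, ENNReal.ofReal (‖∑ l ∈ Finset.range L, ∑ i ∈ Finset.range (2 ^ l),
        x l i * Ψ l i ((r : ℂ) • ξ)‖ ^ p) ∂(sig 1) =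
        ∫⁻ ξ : E 1, ENNReal.ofReal (‖∑ l ∈ Finset.range L, ∑ i ∈ Finset.range (2 ^ l), x l i *
        ((1 / 2 ^ l) * ker v (1 / 4 * 2 ^ l) (((r : ℂ) * ξ 0) * (starRingEnd ℂ) (w l i)))‖ ^ p) ∂(sig 1) := by
      rw [hΨ]
      rfl
    rw [h3, h2] at h1
    have hf0 : 0 ≤ fnorm p L x := by unfold fnorm; positivity
    rw [ENNReal.ofReal_le_ofReal_iff (by positivity)] at h1
    rw [hw] at h1
    rw [div_mul_eq_mul_div, le_div_iff₀ hκ0, mul_comm _ κ]
    exact h1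
  · intro l i
    rw [hΨ]
    simp only
    simp_rw [dv_ker v hv]
    fun_prop
  · intro l i _ ξ hξ r hr0 hr1
    rw [dv_norm] at hξ
    obtain ⟨N, hN⟩ : ∃ N : ℝ, N = 1 / 4 * 2 ^ l := ⟨_, rfl⟩
    have h2l : (1 : ℝ) ≤ 2 ^ l := one_le_pow₀ (by norm_num)
    have hN4 : 1 / 4 ≤ N := by rw [hN]; linarith
    have hN0 : 0 < N := by linarith
    obtain ⟨lam, hlam⟩ : ∃ lam : ℂ, lam = ξ 0 * (starRingEnd ℂ) (w l i) := ⟨_, rfl⟩
    have hlam1 : ‖lam‖ = 1 := by rw [hlam, norm_mul, RCLike.norm_conj, hξ, hw1, one_mul]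
    have hrho : rho ξ (EuclideanSpace.single 0 (w l i)) = ‖1 - lam‖ := by
      unfold rho
      rw [← Complex.norm_conj, map_sub, map_one, hlam, inner_conj_symm]
      congr 2
      simp [EuclideanSpace.inner_single_left, mul_comm]
    have hw1' : ‖(r : ℂ) * lam‖ ≤ 1 := by
      rw [norm_mul, hlam1, Complex.norm_real, Real.norm_of_nonneg hr0]; linarith
    have hhalf : ‖1 - lam‖ ≤ 2 * ‖1 - (r : ℂ) * lam‖ := by
      have e1 : 1 - lam = (1 - (r : ℂ) * lam) + ((r : ℂ) * lam - lam) := by ring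
      have e2 : ‖(r : ℂ) * lam - lam‖ = 1 - r := by
        have : (r : ℂ) * lam - lam = ((r - 1 : ℝ) : ℂ) * lam := by push_cast; ring
        rw [this, norm_mul, hlam1, Complex.norm_real, Real.norm_eq_abs, abs_of_nonpos (by linarith)]
        ring
      have e3 : 1 - r ≤ ‖1 - (r : ℂ) * lam‖ := by
        have h5 := norm_sub_norm_le (1 : ℂ) ((r : ℂ) * lam)
        rw [norm_mul, hlam1, Complex.norm_real, Real.norm_of_nonneg hr0] at h5
        simpa using h5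
      calc ‖1 - lam‖ = ‖(1 - (r : ℂ) * lam) + ((r : ℂ) * lam - lam)‖ := by rw [← e1]
        _ ≤ ‖1 - (r : ℂ) * lam‖ + ‖(r : ℂ) * lam - lam‖ := norm_add_le _ _
        _ ≤ _ := by rw [e2]; linarith
    have hker := hCM N hN4 ((r : ℂ) * lam) hw1'
    have hval : Ψ l i ((r : ℂ) • ξ) = (1 / 2 ^ l) * ker v N ((r : ℂ) * lam) := by
      rw [hΨ, hN, hlam]
      simp only
      congr 2
      simp
      ring
    have hgoal : rho ξ (EuclideanSpace.single 0 (Complex.exp (2 * Real.pi * I * (i : ℂ) / 2 ^ l))) =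
        ‖1 - lam‖ := by rw [← hrho, hw]
    rw [hval, hgoal, dv_sc, ← hN]
    rw [norm_mul]
    have hn1 : ‖(1 / 2 ^ l : ℂ)‖ = 1 / 2 ^ l := by simp
    rw [hn1]
    obtain ⟨X, hX⟩ : ∃ X : ℝ, X = 1 + N * ‖1 - lam‖ := ⟨_, rfl⟩
    have hX1 : 1 ≤ X := by rw [hX]; have := norm_nonneg (1 - lam); nlinarith
    have hXr : X / 2 ≤ 1 + N * ‖1 - (r : ℂ) * lam‖ := by
      rw [hX]
      have := mul_le_mul_of_nonneg_left hhalf hN0.le
      linarith
    have hpw : (1 + N * ‖1 - (r : ℂ) * lam‖) ^ (-(M : ℝ)) ≤ 2 ^ M * X ^ (-K) := by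
      calc (1 + N * ‖1 - (r : ℂ) * lam‖) ^ (-(M : ℝ)) ≤ (X / 2) ^ (-(M : ℝ)) :=
            Real.rpow_le_rpow_of_nonpos (by linarith) hXr (by simp)
        _ = 2 ^ M * X ^ (-(M : ℝ)) := by
            rw [Real.div_rpow (by linarith) (by norm_num), Real.rpow_neg (by norm_num : (0:ℝ) ≤ 2),
              Real.rpow_natCast, div_inv_eq_mul, mul_comm]
        _ ≤ 2 ^ M * X ^ (-K) := by
            apply mul_le_mul_of_nonneg_left _ (by positivity)
            exact Real.rpow_le_rpow_of_exponent_le hX1 (by linarith)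
    rw [← hX]
    calc 1 / 2 ^ l * ‖ker v N ((r : ℂ) * lam)‖ ≤ 1 / 2 ^ l * (CM * N * (2 ^ M * X ^ (-K))) := by
          apply mul_le_mul_of_nonneg_left _ (by positivity)
          exact hker.trans (mul_le_mul_of_nonneg_left hpw (by positivity))
      _ = CM / 4 * 2 ^ M * X ^ (-K) := by
          rw [hN]
          field_simp
  · intro l m i j hlm r hr0 hr1
    have hexp : ∀ (l i : ℕ) (ξ : E 1), Ψ l i ((r : ℂ) • ξ) = ∑ k ∈ Finset.range (2 ^ l),
        ((1 / 2 ^ l) * ((v ((k : ℝ) / (1 / 4 * 2 ^ l)) : ℂ) * ((r : ℂ) * (starRingEnd ℂ) (w l i)) ^ k)) *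
          (ξ 0) ^ k := by
      intro l i ξ
      rw [hΨ]
      simp only
      rw [dv_ker v hv, Finset.mul_sum]
      refine Finset.sum_congr rfl (fun k _ => ?_)
      have : (((r : ℂ) • ξ : E 1) 0) * (starRingEnd ℂ) (w l i) = ((r : ℂ) * (starRingEnd ℂ) (w l i)) * ξ 0 := by
        simp; ring
      rw [this, mul_pow]
      ring
    simp_rw [hexp, map_sum, Finset.sum_mul_sum]
    rw [integral_finsetSum _ (fun k _ => integrable_finsetSum _ (fun k' _ => dv_integrable _ _ _ _))]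
    apply Finset.sum_eq_zero
    intro k hk
    rw [Finset.mem_range] at hk
    rw [integral_finsetSum _ (fun k' _ => dv_integrable _ _ _ _)]
    apply Finset.sum_eq_zero
    intro k' _
    by_cases hkk : k = k'
    · subst hkk
      have hz : v ((k : ℝ) / (1 / 4 * 2 ^ m)) = 0 := by
        apply hv.lo
        rw [div_le_iff₀ (by positivity)]
        have h1 : (2 : ℝ) ^ (l + 4) ≤ 2 ^ m := pow_le_pow_right₀ (by norm_num) hlm
        have h2 : (k : ℝ) < 2 ^ l := by exact_mod_cast hk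
        rw [pow_add] at h1
        norm_num at h1
        linarith
      rw [hz]
      simp
    · have h1 := dv_ortho k k' hkk
      rw [← mul_zero ((1 / 2 ^ l * ((v ((k : ℝ) / (1 / 4 * 2 ^ l)) : ℂ) * ((r : ℂ) * (starRingEnd ℂ) (w l i)) ^ k)) *
        (starRingEnd ℂ) (1 / 2 ^ m * ((v ((k' : ℝ) / (1 / 4 * 2 ^ m)) : ℂ) * ((r : ℂ) * (starRingEnd ℂ) (w m j)) ^ k'))),
        ← h1, ← integral_const_mul]
      refine integral_congr_ae (Filter.Eventually.of_forall (fun ξ => ?_))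
      simp only [map_mul]
      ring

end Pool.Agent.HpBall
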