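import Mathlib
import Pool.Agent.HpBall.Defs2
import Pool.Agent.HpBall.Geom
import Pool.Agent.HpBall.Sphere
import Pool.Agent.HpBall.Coef

set_option autoImplicit false

open MeasureTheory Complex
open scoped ENNReal NNReal

namespace Pool.Agent.HpBall

/-- Cauchy bound for the Frechet derivative -/
lemma fderiv_bound {n : ℕ} {F : E n → ℂ} (hF : Differentiable ℂ F) {x : E n} {δ M : ℝ}
    (hδ : 0 < δ) (hM : ∀ z, ‖z - x‖ ≤ δ → ‖F z‖ ≤ M) : ‖fderiv ℂ F x‖ ≤ M / δ := by
  have hM0 : 0 ≤ M := (norm_nonneg _).trans (hM x (by simp [hδ.le]))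
  refine ContinuousLinearMap.opNorm_le_bound _ (by positivity) fun v => ?_
  by_cases hv : v = 0
  · simp [hv]
  have hv0 : 0 < ‖v‖ := norm_pos_iff.2 hv
  set G : ℂ → ℂ := fun w => F (x + w • v) with hG
  have hGd : Differentiable ℂ G := hF.comp (by fun_prop)
  have h1 : deriv G 0 = fderiv ℂ F x v := by
    have h2 : HasDerivAt (fun w : ℂ => x + w • v) v 0 := by
      have := ((hasDerivAt_id (0 : ℂ)).smul_const v).const_add x
      simpa using this
    have h3 : HasFDerivAt F (fderiv ℂ F x) (x + (0 : ℂ) • v) := by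
      simpa using (hF x).hasFDerivAt
    exact (h3.comp_hasDerivAt 0 h2).deriv
  have h2 : ‖deriv G 0‖ ≤ M / (δ / ‖v‖) := by
    apply Complex.norm_deriv_le_of_forall_mem_sphere_norm_le (by positivity)
      (hGd.diffContOnCl)
    intro z hz
    apply hM
    rw [mem_sphere_zero_iff_norm] at hz
    simp only [add_sub_cancel_left, norm_smul, hz]
    rw [div_mul_cancel₀ _ hv0.ne']
  rw [h1] at h2
  calc ‖fderiv ℂ F x v‖ ≤ M / (δ / ‖v‖) := h2
    _ = M / δ * ‖v‖ := by field_simp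

/-- locally normally summable families on the unit ball -/
def LocSum {n : ℕ} (P : ℕ → E n → ℂ) : Prop :=
  ∀ r : ℝ, 0 ≤ r → r < 1 → ∃ u : ℕ → ℝ, Summable u ∧ ∀ l z, ‖z‖ ≤ r → ‖P l z‖ ≤ u l

lemma LocSum.summable {n : ℕ} {P : ℕ → E n → ℂ} (h : LocSum P) {z : E n} (hz : ‖z‖ < 1) :
    Summable (fun l => P l z) := by
  obtain ⟨u, hu, hP⟩ := h ‖z‖ (norm_nonneg _) hz
  exact Summable.of_norm_bounded hu fun l => hP l z le_rfl

lemma LocSum.differentiableOn {n : ℕ} {P : ℕ → E n → ℂ} (h : LocSum P)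
    (hP : ∀ l, Differentiable ℂ (P l)) :
    DifferentiableOn ℂ (fun z => ∑' l, P l z) (Metric.ball 0 1) := by
  intro x hx
  rw [mem_ball_zero_iff] at hx
  set r : ℝ := (1 + ‖x‖) / 2 with hr
  set δ : ℝ := (1 - r) / 2 with hδ
  have hr1 : r < 1 := by rw [hr]; linarith
  have hxr : ‖x‖ < r := by rw [hr]; linarith
  have hr0 : 0 ≤ r := (norm_nonneg x).trans hxr.le
  have hδ0 : 0 < δ := by rw [hδ]; linarith
  obtain ⟨u, hu, hb⟩ := h (r + δ) (by linarith) (by rw [hδ]; linarith)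
  have hkey : HasFDerivAt (fun z => ∑' l, P l z) (∑' l, fderiv ℂ (P l) x) x := by
    apply hasFDerivAt_tsum_of_isPreconnected (u := fun l => u l / δ) (s := Metric.ball (0 : E n) r)
      (f := P) (f' := fun l y => fderiv ℂ (P l) y) (x₀ := 0)
    · exact hu.div_const δ
    · exact Metric.isOpen_ball
    · exact (convex_ball (0 : E n) r).isPreconnected
    · intro l y _
      exact (hP l y).hasFDerivAt
    · intro l y hy
      rw [mem_ball_zero_iff] at hy
      apply fderiv_bound (hP l) hδ0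
      intro z hz
      apply hb
      calc ‖z‖ = ‖(z - y) + y‖ := by simp
        _ ≤ ‖z - y‖ + ‖y‖ := norm_add_le _ _
        _ ≤ r + δ := by linarith
    · rw [mem_ball_zero_iff, norm_zero]
      exact (norm_nonneg x).trans_lt hxr
    · exact h.summable (by simp)
    · rw [mem_ball_zero_iff]; exact hxr
  exact hkey.differentiableAt.differentiableWithinAt

lemma twopi_half_ne (k : ℕ) : (2 * Real.pi * ((1 / 2 : ℝ) : ℂ) ^ k : ℂ) ≠ 0 := by
  have h1 : (Real.pi : ℂ) ≠ 0 := by exact_mod_cast Real.pi_ne_zero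
  have h2 : (((1 / 2 : ℝ) : ℂ)) ≠ 0 := by
    exact_mod_cast (by norm_num : (1 / 2 : ℝ) ≠ 0)
  exact mul_ne_zero (mul_ne_zero two_ne_zero h1) (pow_ne_zero _ h2)

/-- linearity of Taylor coefficients -/
lemma tc_lin {f g : ℂ → ℂ} (hf : DifferentiableOn ℂ f (Metric.ball 0 1))
    (hg : DifferentiableOn ℂ g (Metric.ball 0 1)) (a b : ℂ) (k : ℕ) :
    tc (fun z => a * f z + b * g z) k = a * tc f k + b * tc g k := by
  have hr0 : (0 : ℝ) < 1 / 2 := by norm_num
  have hr1 : (1 / 2 : ℝ) < 1 := by norm_num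
  have h1 := J15_coef hf hr0 hr1 k
  have h2 := J15_coef hg hr0 hr1 k
  have h3 := J15_coef (G := fun z => a * f z + b * g z)
    ((hf.const_mul a).add (hg.const_mul b)) hr0 hr1 k
  have c1 := J15_cont hf hr0 hr1
  have c2 := J15_cont hg hr0 hr1
  have e : ∀ θ : ℝ, Complex.exp (-(θ * I)) ^ k *
      (a * f ((1 / 2 : ℝ) * Complex.exp (θ * I)) + b * g ((1 / 2 : ℝ) * Complex.exp (θ * I))) =
      a * (Complex.exp (-(θ * I)) ^ k * f ((1 / 2 : ℝ) * Complex.exp (θ * I))) +
      b * (Complex.exp (-(θ * I)) ^ k * g ((1 / 2 : ℝ) * Complex.exp (θ * I))) := by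
    intro θ; ring
  simp_rw [e] at h3
  have ce : Continuous fun θ : ℝ => Complex.exp (-(θ * I)) ^ k := by fun_prop
  have i1 : IntervalIntegrable (fun θ : ℝ => a * (Complex.exp (-(θ * I)) ^ k *
      f ((1 / 2 : ℝ) * Complex.exp (θ * I)))) volume 0 (2 * Real.pi) :=
    (continuous_const.mul (ce.mul c1)).intervalIntegrable _ _
  have i2 : IntervalIntegrable (fun θ : ℝ => b * (Complex.exp (-(θ * I)) ^ k *
      g ((1 / 2 : ℝ) * Complex.exp (θ * I)))) volume 0 (2 * Real.pi) :=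
    (continuous_const.mul (ce.mul c2)).intervalIntegrable _ _
  rw [intervalIntegral.integral_add i1 i2, intervalIntegral.integral_const_mul,
    intervalIntegral.integral_const_mul, h1, h2] at h3
  apply mul_left_cancel₀ (twopi_half_ne k)
  linear_combination -h3

/-- Taylor coefficients of a normally convergent series -/
lemma tc_tsum {G : ℕ → ℂ → ℂ} (hG : ∀ l, DifferentiableOn ℂ (G l) (Metric.ball 0 1))
    (hS : DifferentiableOn ℂ (fun z => ∑' l, G l z) (Metric.ball 0 1))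
    {u : ℕ → ℝ} (hu : Summable u) (hb : ∀ l z, ‖z‖ ≤ 1 / 2 → ‖G l z‖ ≤ u l) (k : ℕ) :
    HasSum (fun l => tc (G l) k) (tc (fun z => ∑' l, G l z) k) := by
  have hr0 : (0 : ℝ) < 1 / 2 := by norm_num
  have hr1 : (1 / 2 : ℝ) < 1 := by norm_num
  have h1 := fun l => J15_coef (hG l) hr0 hr1 k
  have h2 := J15_coef hS hr0 hr1 k
  have hnorm : ∀ θ : ℝ, ‖((1 / 2 : ℝ) : ℂ) * Complex.exp (θ * I)‖ ≤ 1 / 2 := by
    intro θ
    rw [norm_mul, Complex.norm_exp_ofReal_mul_I, mul_one, Complex.norm_real]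
    norm_num
  have hexp : ∀ θ : ℝ, ‖Complex.exp (-(θ * I)) ^ k‖ = 1 := by
    intro θ
    rw [norm_pow, show -((θ : ℂ) * I) = ((-θ : ℝ) : ℂ) * I by push_cast; ring,
      Complex.norm_exp_ofReal_mul_I, one_pow]
  have hs : HasSum (fun l => ∫ θ in (0:ℝ)..(2 * Real.pi), Complex.exp (-(θ * I)) ^ k *
      G l ((1 / 2 : ℝ) * Complex.exp (θ * I)))
      (∫ θ in (0:ℝ)..(2 * Real.pi), Complex.exp (-(θ * I)) ^ k *
        ∑' l, G l ((1 / 2 : ℝ) * Complex.exp (θ * I))) := by
    have h3 := intervalIntegral.hasSum_integral_of_dominated_convergence (a := 0)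
      (b := 2 * Real.pi) (μ := volume)
      (F := fun l θ => Complex.exp (-(θ * I)) ^ k * G l ((1 / 2 : ℝ) * Complex.exp (θ * I)))
      (f := fun θ => Complex.exp (-(θ * I)) ^ k *
        ∑' l, G l ((1 / 2 : ℝ) * Complex.exp (θ * I)))
      (fun l _ => u l)
      (fun l => by
        have ce : Continuous fun θ : ℝ => Complex.exp (-(θ * I)) ^ k := by fun_prop
        exact (ce.mul (J15_cont (hG l) hr0 hr1)).aestronglyMeasurable)
      (fun l => Filter.Eventually.of_forall fun θ _ => by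
        rw [norm_mul, hexp, one_mul]
        exact hb l _ (hnorm θ))
      (Filter.Eventually.of_forall fun θ _ => hu)
      (by simp)
      (Filter.Eventually.of_forall fun θ _ => by
        apply HasSum.mul_left
        exact (Summable.of_norm_bounded hu fun l => hb l _ (hnorm θ)).hasSum)
    exact h3
  rw [h2] at hs
  simp_rw [h1] at hs
  have h5 := hs.mul_left ((2 * Real.pi * ((1 / 2 : ℝ) : ℂ) ^ k : ℂ))⁻¹
  have h4 := twopi_half_ne k
  have e6 : ∀ x : ℂ, (2 * Real.pi * ((1 / 2 : ℝ) : ℂ) ^ k : ℂ)⁻¹ *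
      (2 * Real.pi * (x * ((1 / 2 : ℝ) : ℂ) ^ k)) = x := by
    intro x
    rw [inv_mul_eq_iff_eq_mul₀ h4]
    ring
  simp_rw [e6] at h5
  exact h5

lemma tc_const (a : ℂ) (k : ℕ) : tc (fun _ => a) k = if k = 0 then a else 0 := by
  unfold tc
  rw [iteratedDeriv_const]
  split_ifs with h
  · simp [h]
  · simp

end Pool.Agent.HpBall
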