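import Mathlib
import Pool.Agent.HpBall.Series
import Pool.Agent.HpBall.Synth1

set_option autoImplicit false

open MeasureTheory Complex
open scoped ENNReal NNReal

namespace Pool.Agent.HpBall

lemma coef_le_of_fnorm (p : ℝ) (hp : 0 < p) (x : ℕ → ℕ → ℂ) (X : ℝ)
    (h : ∀ L, fnorm p L x ≤ X) (l i : ℕ) (hi : i < 2 ^ l) :
    ‖x l i‖ ≤ (2 ^ (l + 1) * X) ^ (1 / p) := by
  have h1 := h (l + 1)
  unfold fnorm at h1
  set f : ℕ → ℝ := fun j => (∑ m ∈ Finset.range (l + 1), ‖x m (j / 2 ^ (l + 1 - m))‖ ^ 2) ^ (p / 2)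
    with hf
  have hf0 : ∀ j, 0 ≤ f j := fun j => by positivity
  have hj : 2 * i ∈ Finset.range (2 ^ (l + 1)) := by
    rw [Finset.mem_range, pow_succ]; omega
  have h2 : f (2 * i) ≤ ∑ j ∈ Finset.range (2 ^ (l + 1)), f j :=
    Finset.single_le_sum (fun j _ => hf0 j) hj
  have h3 : ‖x l i‖ ^ p ≤ f (2 * i) := by
    have h4 : ‖x l i‖ ^ 2 ≤ ∑ m ∈ Finset.range (l + 1), ‖x m (2 * i / 2 ^ (l + 1 - m))‖ ^ 2 := by
      have h5 := Finset.single_le_sum (f := fun m => ‖x m (2 * i / 2 ^ (l + 1 - m))‖ ^ 2)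
        (s := Finset.range (l + 1)) (fun m _ => by positivity)
        (Finset.mem_range.2 (Nat.lt_succ_self l))
      have h6 : l + 1 - l = 1 := by omega
      simp only [h6, pow_one] at h5
      have h7 : 2 * i / 2 = i := by omega
      rw [h7] at h5
      exact h5
    calc ‖x l i‖ ^ p = (‖x l i‖ ^ 2) ^ (p / 2) := by
          rw [← Real.rpow_natCast, ← Real.rpow_mul (norm_nonneg _)]
          congr 1
          push_cast
          ring
      _ ≤ _ := Real.rpow_le_rpow (by positivity) h4 (by positivity)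
  have h8 : ‖x l i‖ ^ p ≤ 2 ^ (l + 1) * X := by
    have h9 : (1 / 2 ^ (l + 1)) * ‖x l i‖ ^ p ≤ X := by
      refine le_trans ?_ h1
      have : (0:ℝ) ≤ 1 / 2 ^ (l + 1) := by positivity
      gcongr
      exact h3.trans h2
    have h10 : (0:ℝ) < 2 ^ (l + 1) := by positivity
    rw [one_div, inv_mul_le_iff₀ h10] at h9
    exact h9
  calc ‖x l i‖ = (‖x l i‖ ^ p) ^ (1 / p) := by
        rw [← Real.rpow_mul (norm_nonneg _), mul_one_div_cancel hp.ne', Real.rpow_one]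
    _ ≤ _ := Real.rpow_le_rpow (by positivity) h8 (by positivity)

lemma summable_growth (s a c r : ℝ) (ha : 0 < a) (hc : 0 < c) (hr0 : 0 ≤ r) (hr1 : r < 1) :
    Summable (fun l : ℕ => ((2:ℝ) ^ l) ^ s * r ^ (c * (2:ℝ) ^ ((l:ℝ) * a))) := by
  rcases hr0.eq_or_lt with h0 | h0
  · have : (fun l : ℕ => ((2:ℝ) ^ l) ^ s * r ^ (c * (2:ℝ) ^ ((l:ℝ) * a))) = fun _ => 0 := by
      ext l
      rw [← h0, Real.zero_rpow (by positivity), mul_zero]
    rw [this]
    exact summable_zero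
  set κ : ℝ := -(c * Real.log r) with hκ
  have hκ0 : 0 < κ := by
    have := Real.log_neg h0 hr1
    rw [hκ]
    nlinarith
  obtain ⟨m, hm⟩ := exists_nat_ge ((s + 1) / a)
  have hm' : s + 1 ≤ m * a := by
    rwa [div_le_iff₀ ha] at hm
  have hgeo : Summable (fun l : ℕ => ((m.factorial : ℝ) / κ ^ m) * (1 / 2 : ℝ) ^ l) :=
    (summable_geometric_of_lt_one (by norm_num) (by norm_num)).mul_left _
  refine Summable.of_nonneg_of_le (fun l => by positivity) (fun l => ?_) hgeo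
  set y : ℝ := (2:ℝ) ^ ((l:ℝ) * a) with hy
  have hy0 : 0 < y := by positivity
  have e1 : r ^ (c * y) = Real.exp (-(κ * y)) := by
    rw [Real.rpow_def_of_pos h0]
    congr 1
    rw [hκ]
    ring
  have e2 : Real.exp (-(κ * y)) ≤ (m.factorial : ℝ) / (κ * y) ^ m := by
    have h5 := Real.pow_div_factorial_le_exp (κ * y) (by positivity) m
    rw [Real.exp_neg, inv_le_comm₀ (Real.exp_pos _) (by positivity)]
    rw [inv_div]
    exact h5
  have e3 : ((2:ℝ) ^ l) ^ s = (2:ℝ) ^ ((l:ℝ) * s) := by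
    rw [← Real.rpow_natCast, ← Real.rpow_mul (by norm_num)]
  have e4 : y ^ m = (2:ℝ) ^ ((l:ℝ) * a * m) := by
    rw [hy, ← Real.rpow_natCast, ← Real.rpow_mul (by norm_num)]
  rw [e1]
  calc ((2:ℝ) ^ l) ^ s * Real.exp (-(κ * y)) ≤ ((2:ℝ) ^ l) ^ s * ((m.factorial : ℝ) / (κ * y) ^ m) := by
        gcongr
    _ = ((m.factorial : ℝ) / κ ^ m) * ((2:ℝ) ^ ((l:ℝ) * s) / (2:ℝ) ^ ((l:ℝ) * a * m)) := by
        rw [mul_pow, e3, e4]
        field_simp
    _ ≤ ((m.factorial : ℝ) / κ ^ m) * (1 / 2 : ℝ) ^ l := by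
        gcongr
        rw [← Real.rpow_sub (by norm_num), one_div, inv_pow, ← Real.rpow_natCast,
          ← Real.rpow_neg (by norm_num)]
        apply Real.rpow_le_rpow_of_exponent_le (by norm_num)
        have : (0:ℝ) ≤ l := Nat.cast_nonneg l
        nlinarith

/-- Fatou for increasing families of partial sums -/
lemma fatou_sig {n : ℕ} (hn : 1 ≤ n) (p : ℝ) (hp : 0 < p) (F : E n → ℂ) (G : ℕ → E n → ℂ)
    (hG : ∀ L, Continuous (G L)) (r : ℝ)
    (hlim : ∀ ξ : E n, ‖ξ‖ = 1 → Filter.Tendsto (fun L => G L ((r : ℂ) • ξ)) Filter.atTop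
      (nhds (F ((r : ℂ) • ξ)))) (X : ℝ≥0∞)
    (hX : ∀ L, ∫⁻ ξ, ENNReal.ofReal (‖G L ((r : ℂ) • ξ)‖ ^ p) ∂(sig n) ≤ X) :
    ∫⁻ ξ, ENNReal.ofReal (‖F ((r : ℂ) • ξ)‖ ^ p) ∂(sig n) ≤ X := by
  calc ∫⁻ ξ, ENNReal.ofReal (‖F ((r : ℂ) • ξ)‖ ^ p) ∂(sig n)
      = ∫⁻ ξ, Filter.liminf (fun L => ENNReal.ofReal (‖G L ((r : ℂ) • ξ)‖ ^ p)) Filter.atTop
          ∂(sig n) := by
        apply lintegral_congr_ae
        filter_upwards [sig_ae_norm hn] with ξ hξ
        have h1 := hlim ξ hξ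
        have h2 : Filter.Tendsto (fun L => ENNReal.ofReal (‖G L ((r : ℂ) • ξ)‖ ^ p)) Filter.atTop
            (nhds (ENNReal.ofReal (‖F ((r : ℂ) • ξ)‖ ^ p))) := by
          apply (ENNReal.continuous_ofReal.tendsto _).comp
          exact (h1.norm).rpow_const (Or.inr hp.le)
        exact h2.liminf_eq.symm
    _ ≤ Filter.liminf (fun L => ∫⁻ ξ, ENNReal.ofReal (‖G L ((r : ℂ) • ξ)‖ ^ p) ∂(sig n))
          Filter.atTop := by
        apply lintegral_liminf_le
        intro L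
        have := (hG L).measurable
        fun_prop
    _ ≤ X := by
        apply Filter.liminf_le_of_frequently_le'
        exact Filter.Frequently.of_forall hX

/-- homogeneous components of a normally convergent series -/
lemma hc_series {n : ℕ} {P : ℕ → E n → ℂ} (h : LocSum P) (hP : ∀ l, Differentiable ℂ (P l))
    (a₀ : ℂ) {ζ : E n} (hζ : ‖ζ‖ ≤ 1) (k : ℕ) :
    HasSum (fun l => hc (P l) k ζ)
      (hc (fun z => a₀ + ∑' l, P l z) k ζ - if k = 0 then a₀ else 0) := by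
  have hsl : ∀ F : E n → ℂ, DifferentiableOn ℂ F (Metric.ball 0 1) →
      DifferentiableOn ℂ (fun w : ℂ => F (w • ζ)) (Metric.ball 0 1) := by
    intro F hF
    apply hF.comp (by fun_prop)
    intro w hw
    rw [mem_ball_zero_iff] at hw ⊢
    calc ‖w • ζ‖ = ‖w‖ * ‖ζ‖ := norm_smul _ _
      _ ≤ ‖w‖ * 1 := by gcongr
      _ < 1 := by rwa [mul_one]
  have hS := h.differentiableOn hP
  obtain ⟨u, hu, hb⟩ := h (1 / 2) (by norm_num) (by norm_num)
  have h1 := tc_tsum (G := fun l w => P l (w • ζ)) (fun l => hsl _ (hP l).differentiableOn)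
    (hsl _ hS) hu (fun l z hz => hb l _ (by
      rw [norm_smul]
      calc ‖z‖ * ‖ζ‖ ≤ (1 / 2) * 1 := by gcongr
        _ = 1 / 2 := by ring)) k
  have h2 : tc (fun w => a₀ + ∑' l, P l (w • ζ)) k =
      (if k = 0 then a₀ else 0) + tc (fun w => ∑' l, P l (w • ζ)) k := by
    have h3 := tc_lin (f := fun _ => a₀) (g := fun w => ∑' l, P l (w • ζ))
      (differentiableOn_const _) (hsl _ hS) 1 1 k
    simp only [one_mul] at h3
    rw [h3, tc_const]
  have h4 : hc (fun z => a₀ + ∑' l, P l z) k ζ - (if k = 0 then a₀ else 0) =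
      tc (fun w => ∑' l, P l (w • ζ)) k := by
    unfold hc
    rw [h2]
    ring
  rw [h4]
  exact h1

end Pool.Agent.HpBall
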