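import Mathlib
import Pool.Agent.HpBall.Defs2
import Pool.Agent.HpBall.Geom
import Pool.Agent.HpBall.Sphere

set_option autoImplicit false

open MeasureTheory Complex
open scoped ENNReal NNReal

namespace Pool.Agent.HpBall

theorem df_bound {β : ℝ → ℝ} {a b : ℝ} (hβ : Bump β a b) : ∃ B : ℝ, 0 ≤ B ∧ ∀ x, |β x| ≤ B := by
  obtain ⟨C, hC⟩ := (isCompact_Icc (a := a) (b := b)).exists_bound_of_continuousOn
    hβ.smooth.continuous.continuousOn
  refine ⟨max C 0, le_max_right _ _, fun x => ?_⟩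
  by_cases h : x ∈ Set.Icc a b
  · exact (hC x h).trans (le_max_left _ _)
  · have : β x = 0 := by
      rw [Set.mem_Icc, not_and_or] at h
      rcases h with h | h
      · exact hβ.lo x (le_of_lt (not_le.1 h))
      · exact hβ.hi x (le_of_lt (not_le.1 h))
    rw [this, abs_zero]
    exact le_max_right _ _

theorem df_beta_supp {β : ℝ → ℝ} (hβ : Bump β (1 / 2) 2) {l k : ℕ}
    (h : β ((k : ℝ) / (1 / 4 * 2 ^ l)) ≠ 0) : 2 ^ l < 8 * k ∧ 2 * k < 2 ^ l := by
  have hp : (0 : ℝ) < 1 / 4 * 2 ^ l := by positivity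
  constructor
  · by_contra hcon
    push Not at hcon
    apply h
    apply hβ.lo
    rw [div_le_iff₀ hp]
    have : (8 * (k : ℝ)) ≤ 2 ^ l := by exact_mod_cast hcon
    linarith
  · by_contra hcon
    push Not at hcon
    apply h
    apply hβ.hi
    rw [le_div_iff₀ hp]
    have : (2 : ℝ) ^ l ≤ 2 * (k : ℝ) := by exact_mod_cast hcon
    linarith

theorem df_v_supp {v : ℝ → ℝ} (hv : Bump v (1 / 4) 4) {l k : ℕ}
    (h : v ((k : ℝ) / (1 / 4 * 2 ^ l)) ≠ 0) : k < 2 ^ l := by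
  have hp : (0 : ℝ) < 1 / 4 * 2 ^ l := by positivity
  by_contra hcon
  push Not at hcon
  apply h
  apply hv.hi
  rw [le_div_iff₀ hp]
  have : (2 : ℝ) ^ l ≤ (k : ℝ) := by exact_mod_cast hcon
  linarith

theorem df_orth (M : ℕ) (hM : 0 < M) (w : ℕ → ℂ)
    (hw : ∀ i, w i = Complex.exp (2 * Real.pi * I / (M : ℂ)) ^ i) {k k' : ℕ} (hk : k < M)
    (hk' : k' < M) :
    ∑ i ∈ Finset.range M, (w i) ^ k * ((starRingEnd ℂ) (w i)) ^ k' = if k = k' then (M : ℂ) else 0 := by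
  set ω := Complex.exp (2 * Real.pi * I / (M : ℂ)) with hω
  have hprim : IsPrimitiveRoot ω M := Complex.isPrimitiveRoot_exp M hM.ne'
  have hnorm : ω * (starRingEnd ℂ) ω = 1 := by
    rw [Complex.mul_conj, Complex.normSq_eq_norm_sq, hprim.norm'_eq_one hM.ne']
    simp
  have hne : ω ≠ 0 := hprim.ne_zero hM.ne'
  have hconj : (starRingEnd ℂ) ω = ω⁻¹ := eq_inv_of_mul_eq_one_right hnorm
  set q := ω ^ k * ((starRingEnd ℂ) ω) ^ k' with hq
  have hterm : ∀ i, (w i) ^ k * ((starRingEnd ℂ) (w i)) ^ k' = q ^ i := by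
    intro i
    rw [hw i, hq, map_pow, mul_pow, ← pow_mul, ← pow_mul, ← pow_mul, ← pow_mul,
      mul_comm i k, mul_comm i k']
  rw [Finset.sum_congr rfl (fun i _ => hterm i)]
  split_ifs with h
  · have : q = 1 := by rw [hq, h, ← mul_pow, hnorm, one_pow]
    rw [this]; simp
  · have hq1 : q ≠ 1 := by
      intro h1
      apply h
      apply hprim.pow_inj hk hk'
      rw [hq, hconj, inv_pow] at h1
      field_simp at h1
      exact h1
    have hqM : q ^ M = 1 := by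
      rw [hq, mul_pow, hconj, ← pow_mul, inv_pow, inv_pow, ← pow_mul, mul_comm k M, mul_comm k' M,
        pow_mul, pow_mul, hprim.pow_eq_one]
      simp
    rw [geom_sum_eq hq1, hqM, sub_self, zero_div]

theorem df_level (β v : ℝ → ℝ) (hβ : Bump β (1 / 2) 2) (hv : Bump v (1 / 4) 4)
    (hv1 : ∀ x, 1 / 2 ≤ x → x ≤ 2 → v x = 1) (a : ℕ → ℂ) (z : ℂ) (l : ℕ) :
    ∑ i ∈ Finset.range (2 ^ l),
      (∑' k : ℕ, (β ((k : ℝ) / (1 / 4 * 2 ^ l)) : ℂ) *
        (a k * Complex.exp (2 * Real.pi * I * (i : ℂ) / 2 ^ l) ^ k)) *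
      ((1 / 2 ^ l) * ker v (1 / 4 * 2 ^ l)
        (z * (starRingEnd ℂ) (Complex.exp (2 * Real.pi * I * (i : ℂ) / 2 ^ l)))) =
    ∑ k ∈ Finset.range (2 ^ l), (β ((k : ℝ) / (1 / 4 * 2 ^ l)) : ℂ) * (a k * z ^ k) := by
  set w : ℕ → ℂ := fun i => Complex.exp (2 * Real.pi * I * (i : ℂ) / 2 ^ l) with hw
  have hw' : ∀ i, w i = Complex.exp (2 * Real.pi * I / ((2 ^ l : ℕ) : ℂ)) ^ i := by
    intro i
    simp only [hw]
    rw [← Complex.exp_nat_mul]
    congr 1
    push_cast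
    ring
  have h1 : ∀ i, (∑' k : ℕ, (β ((k : ℝ) / (1 / 4 * 2 ^ l)) : ℂ) * (a k * w i ^ k)) =
      ∑ k ∈ Finset.range (2 ^ l), (β ((k : ℝ) / (1 / 4 * 2 ^ l)) : ℂ) * (a k * w i ^ k) := by
    intro i
    apply tsum_eq_sum
    intro k hk
    rw [Finset.mem_range, not_lt] at hk
    have : β ((k : ℝ) / (1 / 4 * 2 ^ l)) = 0 := by
      by_contra hcon
      have := (df_beta_supp hβ hcon).2
      omega
    rw [this]; simp
  have h2 : ∀ i, ker v (1 / 4 * 2 ^ l) (z * (starRingEnd ℂ) (w i)) =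
      ∑ k ∈ Finset.range (2 ^ l), (v ((k : ℝ) / (1 / 4 * 2 ^ l)) : ℂ) *
        (z * (starRingEnd ℂ) (w i)) ^ k := by
    intro i
    rw [ker]
    apply tsum_eq_sum
    intro k hk
    rw [Finset.mem_range, not_lt] at hk
    have : v ((k : ℝ) / (1 / 4 * 2 ^ l)) = 0 := by
      by_contra hcon
      have := (df_v_supp hv hcon)
      omega
    rw [this]; simp
  have h3 : ∀ i ∈ Finset.range (2 ^ l),
      (∑' k : ℕ, (β ((k : ℝ) / (1 / 4 * 2 ^ l)) : ℂ) * (a k * w i ^ k)) *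
      ((1 / 2 ^ l) * ker v (1 / 4 * 2 ^ l) (z * (starRingEnd ℂ) (w i))) =
      ∑ k ∈ Finset.range (2 ^ l), ∑ k' ∈ Finset.range (2 ^ l),
        ((β ((k : ℝ) / (1 / 4 * 2 ^ l)) : ℂ) * a k * (v ((k' : ℝ) / (1 / 4 * 2 ^ l)) : ℂ) * z ^ k' *
          (1 / 2 ^ l)) * ((w i) ^ k * ((starRingEnd ℂ) (w i)) ^ k') := by
    intro i _
    rw [h1, h2, Finset.mul_sum, Finset.sum_mul_sum]
    refine Finset.sum_congr rfl (fun k _ => Finset.sum_congr rfl (fun k' _ => ?_))
    rw [mul_pow]; ring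
  rw [Finset.sum_congr rfl h3, Finset.sum_comm]
  refine Finset.sum_congr rfl (fun k hk => ?_)
  rw [Finset.sum_comm]
  have h4 : ∀ k' ∈ Finset.range (2 ^ l), (∑ i ∈ Finset.range (2 ^ l),
      ((β ((k : ℝ) / (1 / 4 * 2 ^ l)) : ℂ) * a k * (v ((k' : ℝ) / (1 / 4 * 2 ^ l)) : ℂ) * z ^ k' *
          (1 / 2 ^ l)) * ((w i) ^ k * ((starRingEnd ℂ) (w i)) ^ k')) =
      if k = k' then ((β ((k : ℝ) / (1 / 4 * 2 ^ l)) : ℂ) * a k *
        (v ((k' : ℝ) / (1 / 4 * 2 ^ l)) : ℂ) * z ^ k') else 0 := by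
    intro k' hk'
    rw [← Finset.mul_sum, df_orth (2 ^ l) (by positivity) w hw' (Finset.mem_range.1 hk)
      (Finset.mem_range.1 hk')]
    split_ifs with h
    · have : ((2 : ℂ) ^ l) ≠ 0 := pow_ne_zero _ two_ne_zero
      push_cast
      field_simp
    · simp
  rw [Finset.sum_congr rfl h4, Finset.sum_ite_eq, if_pos hk]
  by_cases hb : β ((k : ℝ) / (1 / 4 * 2 ^ l)) = 0
  · rw [hb]; simp
  · obtain ⟨hs1, hs2⟩ := df_beta_supp hβ hb
    have hp : (0 : ℝ) < 1 / 4 * 2 ^ l := by positivity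
    have : v ((k : ℝ) / (1 / 4 * 2 ^ l)) = 1 := by
      apply hv1
      · rw [le_div_iff₀ hp]
        have : (2 : ℝ) ^ l < 8 * (k : ℝ) := by exact_mod_cast hs1
        linarith
      · rw [div_le_iff₀ hp]
        have : 2 * (k : ℝ) < (2 : ℝ) ^ l := by exact_mod_cast hs2
        linarith
    rw [this]; push_cast; ring

/-- TARGET -/
theorem disc_frame (β v : ℝ → ℝ) (hβ : Bump β (1 / 2) 2) (hv : Bump v (1 / 4) 4)
    (hβ1 : ∀ k : ℕ, 1 ≤ k → HasSum (fun j : ℕ => β ((k : ℝ) / 2 ^ j)) 1)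
    (hv1 : ∀ x, 1 / 2 ≤ x → x ≤ 2 → v x = 1)
    (f : ℂ → ℂ) (hf : DifferentiableOn ℂ f (Metric.ball 0 1)) (z : ℂ) (hz : ‖z‖ < 1) :
    HasSum (fun l : ℕ => ∑ i ∈ Finset.range (2 ^ l),
      (∑' k : ℕ, (β ((k : ℝ) / (1 / 4 * 2 ^ l)) : ℂ) *
        (tc f k * Complex.exp (2 * Real.pi * I * (i : ℂ) / 2 ^ l) ^ k)) *
      ((1 / 2 ^ l) * ker v (1 / 4 * 2 ^ l)
        (z * (starRingEnd ℂ) (Complex.exp (2 * Real.pi * I * (i : ℂ) / 2 ^ l))))) (f z - f 0) := by
  have hlev : ∀ l : ℕ, ∑ i ∈ Finset.range (2 ^ l),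
      (∑' k : ℕ, (β ((k : ℝ) / (1 / 4 * 2 ^ l)) : ℂ) *
        (tc f k * Complex.exp (2 * Real.pi * I * (i : ℂ) / 2 ^ l) ^ k)) *
      ((1 / 2 ^ l) * ker v (1 / 4 * 2 ^ l)
        (z * (starRingEnd ℂ) (Complex.exp (2 * Real.pi * I * (i : ℂ) / 2 ^ l)))) =
      ∑ k ∈ Finset.range (2 ^ l), (β ((k : ℝ) / (1 / 4 * 2 ^ l)) : ℂ) * (tc f k * z ^ k) :=
    fun l => df_level β v hβ hv hv1 (tc f) z l
  rw [show (fun l : ℕ => ∑ i ∈ Finset.range (2 ^ l),
      (∑' k : ℕ, (β ((k : ℝ) / (1 / 4 * 2 ^ l)) : ℂ) *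
        (tc f k * Complex.exp (2 * Real.pi * I * (i : ℂ) / 2 ^ l) ^ k)) *
      ((1 / 2 ^ l) * ker v (1 / 4 * 2 ^ l)
        (z * (starRingEnd ℂ) (Complex.exp (2 * Real.pi * I * (i : ℂ) / 2 ^ l))))) =
      fun l : ℕ => ∑ k ∈ Finset.range (2 ^ l), (β ((k : ℝ) / (1 / 4 * 2 ^ l)) : ℂ) *
        (tc f k * z ^ k) from funext hlev]
  obtain ⟨B, hB0, hB⟩ := df_bound hβ
  -- Taylor series
  have htay : HasSum (fun k : ℕ => tc f k * z ^ k) (f z) := by
    have h := Complex.hasSum_taylorSeries_on_ball (c := 0) (r := 1) (f := f) (by simpa using hf)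
      (z := z) (by simpa using hz)
    have e : (fun k : ℕ => tc f k * z ^ k) =
        fun n : ℕ => ((n.factorial : ℂ))⁻¹ • (z - 0) ^ n • iteratedDeriv n f 0 := by
      funext k
      simp only [tc, sub_zero, smul_eq_mul]
      ring
    rw [e]; exact h
  have htay0 : tc f 0 * z ^ 0 = f 0 := by simp [tc]
  have hsum1 : Summable (fun k : ℕ => ‖tc f k * z ^ k‖) := htay.summable.norm
  -- the double family
  set G : ℕ × ℕ → ℂ := fun p => (β ((p.1 : ℝ) / (1 / 4 * 2 ^ p.2)) : ℂ) * (tc f p.1 * z ^ p.1)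
    with hG
  have hsupp : ∀ k l : ℕ, l ∉ ({Nat.log 2 (2 * k) + 1, Nat.log 2 (2 * k) + 2} : Finset ℕ) →
      β ((k : ℝ) / (1 / 4 * 2 ^ l)) = 0 := by
    intro k l hl
    by_contra hcon
    obtain ⟨h1, h2⟩ := df_beta_supp hβ hcon
    have hk : 2 * k ≠ 0 := by
      rintro h0
      have : 0 < 2 ^ l := by positivity
      omega
    have h3 : 2 ^ Nat.log 2 (2 * k) ≤ 2 * k := Nat.pow_log_le_self 2 hk
    have h4 : 2 * k < 2 ^ (Nat.log 2 (2 * k) + 1) := Nat.lt_pow_succ_log_self (by norm_num) _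
    have h5 : Nat.log 2 (2 * k) < l := (Nat.pow_lt_pow_iff_right (by norm_num : 1 < 2)).1 (h3.trans_lt h2)
    have h6 : 2 ^ l < 2 ^ (Nat.log 2 (2 * k) + 3) := by
      rw [pow_succ, pow_succ]
      omega
    have h7 : l < Nat.log 2 (2 * k) + 3 := (Nat.pow_lt_pow_iff_right (by norm_num : 1 < 2)).1 h6
    simp only [Finset.mem_insert, Finset.mem_singleton, not_or] at hl
    omega
  have hGs : Summable G := by
    apply Summable.of_norm
    rw [summable_prod_of_nonneg (fun _ => norm_nonneg _)]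
    constructor
    · intro k
      apply summable_of_ne_finset_zero (s := {Nat.log 2 (2 * k) + 1, Nat.log 2 (2 * k) + 2})
      intro l hl
      simp only [hG]
      rw [hsupp k l hl]; simp
    · refine Summable.of_nonneg_of_le (fun k => tsum_nonneg (fun _ => norm_nonneg _)) (fun k => ?_)
        (hsum1.mul_left (2 * B))
      have hle : ∀ l, ‖G (k, l)‖ ≤ B * ‖tc f k * z ^ k‖ := by
        intro l
        simp only [hG]
        rw [norm_mul, Complex.norm_real]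
        exact mul_le_mul_of_nonneg_right (hB _) (norm_nonneg _)
      rw [tsum_eq_sum (s := {Nat.log 2 (2 * k) + 1, Nat.log 2 (2 * k) + 2})]
      · rw [Finset.sum_pair (by omega)]
        have := hle (Nat.log 2 (2 * k) + 1)
        have := hle (Nat.log 2 (2 * k) + 2)
        linarith
      · intro l hl
        simp only [hG]
        rw [hsupp k l hl]; simp
  have hk1 : ∀ k : ℕ, HasSum (fun l : ℕ => G (k, l)) (if k = 0 then 0 else tc f k * z ^ k) := by
    intro k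
    split_ifs with h
    · subst h
      have : (fun l : ℕ => G (0, l)) = fun _ => 0 := by
        funext l
        simp only [hG]
        have : β (((0 : ℕ) : ℝ) / (1 / 4 * 2 ^ l)) = 0 := by
          apply hβ.lo; simp
        rw [this]; simp
      rw [this]; exact hasSum_zero
    · have h1 := hβ1 (4 * k) (by omega)
      have h2 : HasSum (fun l : ℕ => β ((k : ℝ) / (1 / 4 * 2 ^ l))) 1 := by
        convert h1 using 2 with l
        congr 1
        push_cast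
        field_simp
      have h3 : HasSum (fun l : ℕ => (β ((k : ℝ) / (1 / 4 * 2 ^ l)) : ℂ)) 1 := by
        have := h2.mapL Complex.ofRealCLM
        simpa using this
      have := h3.mul_right (tc f k * z ^ k)
      rw [one_mul] at this
      exact this
  have hS1 := hGs.hasSum.prod_fiberwise hk1
  have hS2 : HasSum (fun k : ℕ => if k = 0 then (0 : ℂ) else tc f k * z ^ k) (f z - f 0) := by
    have h1 : HasSum (fun k : ℕ => if k = 0 then tc f 0 * z ^ 0 else 0) (tc f 0 * z ^ 0) :=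
      hasSum_ite_eq 0 _
    have h2 := htay.sub h1
    rw [htay0] at h2
    have e : (fun k : ℕ => if k = 0 then (0 : ℂ) else tc f k * z ^ k) =
        fun b : ℕ => tc f b * z ^ b - if b = 0 then f 0 else 0 := by
      funext k
      by_cases h : k = 0
      · subst h; rw [if_pos rfl, if_pos rfl, htay0, sub_self]
      · rw [if_neg h, if_neg h, sub_zero]
    rw [e]; exact h2
  have hS : ∑' p, G p = f z - f 0 := hS1.unique hS2
  have hG' : HasSum G (f z - f 0) := hS ▸ hGs.hasSum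
  have hG2 : HasSum (G ∘ (Equiv.prodComm ℕ ℕ)) (f z - f 0) := (Equiv.hasSum_iff _).2 hG'
  refine hG2.prod_fiberwise (fun l => ?_)
  have : ∑ k ∈ Finset.range (2 ^ l), (β ((k : ℝ) / (1 / 4 * 2 ^ l)) : ℂ) * (tc f k * z ^ k) =
      ∑ k ∈ Finset.range (2 ^ l), (G ∘ (Equiv.prodComm ℕ ℕ)) (l, k) := rfl
  rw [this]
  apply hasSum_sum_of_ne_finset_zero
  intro k hk
  simp only [Function.comp, Equiv.prodComm_apply, Prod.swap, hG]
  rw [Finset.mem_range, not_lt] at hk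
  have : β ((k : ℝ) / (1 / 4 * 2 ^ l)) = 0 := by
    by_contra hcon
    have := (df_beta_supp hβ hcon).2
    omega
  rw [this]; simp

end Pool.Agent.HpBall
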