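import Mathlib
import Pool.Agent.HpBall.Final1
import Pool.Agent.HpBall.Frame

set_option autoImplicit false

open MeasureTheory Complex
open scoped ENNReal NNReal

namespace Pool.Agent.HpBall

/-- level sums -/
noncomputable def lev {X : Type} (Ψ : ℕ → ℕ → X → ℂ) (x : ℕ → ℕ → ℂ) (l : ℕ) (z : X) : ℂ :=
  ∑ i ∈ Finset.range (2 ^ l), x l i * Ψ l i z

lemma lev_locsum {n : ℕ} (hn : 1 ≤ n) (p : ℝ) (hp : 0 < p) (Ψ : ℕ → ℕ → E n → ℂ) (B : ℝ)
    (hB : 0 ≤ B)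
    (hg : ∀ l i, i < 2 ^ l → ∀ z : E n, ‖z‖ ≤ 1 → ‖Ψ l i z‖ ≤ B * ‖z‖ ^ (sc n l))
    (x : ℕ → ℕ → ℂ) (X : ℝ) (hX : 0 ≤ X) (hx : ∀ L, fnorm p L x ≤ X) :
    LocSum (lev Ψ x) := by
  intro r hr0 hr1
  have hn0 : (0:ℝ) < n := by exact_mod_cast hn
  have hs := summable_growth (1 + 1 / p) (1 / n) 1 r (by positivity) one_pos hr0 hr1
  refine ⟨fun l => (B * (2 * X) ^ (1 / p)) * (((2:ℝ) ^ l) ^ (1 + 1 / p) *
    r ^ (1 * (2:ℝ) ^ ((l:ℝ) * (1 / n)))), hs.mul_left _, ?_⟩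
  intro l z hz
  unfold lev
  have h1 : ∀ i ∈ Finset.range (2 ^ l), ‖x l i * Ψ l i z‖ ≤
      (2 ^ (l + 1) * X) ^ (1 / p) * (B * r ^ (sc n l)) := by
    intro i hi
    rw [Finset.mem_range] at hi
    rw [norm_mul]
    apply mul_le_mul (coef_le_of_fnorm p hp x X hx l i hi) _ (norm_nonneg _) (by positivity)
    refine (hg l i hi z (hz.trans hr1.le)).trans ?_
    gcongr
    exact (sc_pos n l).le
  refine (norm_sum_le _ _).trans ((Finset.sum_le_sum h1).trans (le_of_eq ?_))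
  rw [Finset.sum_const, Finset.card_range, nsmul_eq_mul]
  have e1 : ((2:ℝ) ^ (l + 1) * X) ^ (1 / p) = ((2:ℝ) ^ l) ^ (1 / p) * (2 * X) ^ (1 / p) := by
    rw [← Real.mul_rpow (by positivity) (by positivity)]
    congr 1
    ring
  have e2 : ((2:ℝ) ^ l) ^ (1 + 1 / p) = (2:ℝ) ^ l * ((2:ℝ) ^ l) ^ (1 / p) := by
    rw [Real.rpow_add (by positivity), Real.rpow_one]
  have e3 : sc n l = 1 * (2:ℝ) ^ ((l:ℝ) * (1 / n)) := by
    unfold sc
    rw [one_mul, mul_one_div]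
  beta_reduce
  rw [e1, e2, ← e3]
  push_cast
  ring

lemma lev_diff {n : ℕ} (Ψ : ℕ → ℕ → E n → ℂ) (hd : ∀ l i, Differentiable ℂ (Ψ l i))
    (x : ℕ → ℕ → ℂ) (l : ℕ) : Differentiable ℂ (lev Ψ x l) := by
  unfold lev
  intro z
  apply DifferentiableAt.fun_sum
  intro i _
  exact ((hd l i) z).const_mul _

/-- boundedness of the infinite synthesis -/
lemma lev_bound {n : ℕ} (hn : 1 ≤ n) (p : ℝ) (hp : 0 < p) (Ψ : ℕ → ℕ → E n → ℂ)
    (hd : ∀ l i, Differentiable ℂ (Ψ l i)) (D : ℝ) (hD : 0 ≤ D)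
    (hsyn : ∀ (x : ℕ → ℕ → ℂ) (L : ℕ) (r : ℝ), 0 ≤ r → r ≤ 1 →
      ∫⁻ ξ, ENNReal.ofReal (‖∑ l ∈ Finset.range L, ∑ i ∈ Finset.range (2 ^ l),
        x l i * Ψ l i ((r : ℂ) • ξ)‖ ^ p) ∂(sig n) ≤ ENNReal.ofReal (D * fnorm p L x))
    (x : ℕ → ℕ → ℂ) (X : ℝ) (hx : ∀ L, fnorm p L x ≤ X) (hloc : LocSum (lev Ψ x))
    (r : ℝ) (hr0 : 0 ≤ r) (hr1 : r < 1) :
    ∫⁻ ξ, ENNReal.ofReal (‖∑' l, lev Ψ x l ((r : ℂ) • ξ)‖ ^ p) ∂(sig n) ≤
      ENNReal.ofReal (D * X) := by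
  apply fatou_sig hn p hp (fun z => ∑' l, lev Ψ x l z)
    (fun L z => ∑ l ∈ Finset.range L, lev Ψ x l z)
  · intro L
    exact continuous_finsetSum _ fun l _ => (lev_diff Ψ hd x l).continuous
  · intro ξ hξ
    apply (hloc.summable _).hasSum.tendsto_sum_nat
    rw [norm_smul, hξ, mul_one, Complex.norm_real, Real.norm_of_nonneg hr0]
    exact hr1
  · intro L
    refine (hsyn x L r hr0 hr1.le).trans (ENNReal.ofReal_le_ofReal ?_)
    exact mul_le_mul_of_nonneg_left (hx L) hD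

/-! ### the disc side -/

/-- the roots of unity -/
noncomputable def om (l i : ℕ) : ℂ := Complex.exp (2 * Real.pi * I * (i : ℂ) / 2 ^ l)

lemma om_norm (l i : ℕ) : ‖om l i‖ = 1 := by
  unfold om
  have : (2 * Real.pi * I * (i : ℂ) / 2 ^ l : ℂ) = ((2 * Real.pi * i / 2 ^ l : ℝ) : ℂ) * I := by
    push_cast; ring
  rw [this, Complex.norm_exp_ofReal_mul_I]

/-- disc molecules -/
noncomputable def dm (v : ℝ → ℝ) (l i : ℕ) (w : ℂ) : ℂ :=
  (1 / 2 ^ l) * ker v (1 / 4 * 2 ^ l) (w * (starRingEnd ℂ) (om l i))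

lemma dm_eq_sum {v : ℝ → ℝ} (hv : Bump v (1 / 4) 4) (l i : ℕ) (w : ℂ) :
    dm v l i w = (1 / 2 ^ l) * ∑ k ∈ Finset.range (2 ^ l), ((v ((k : ℝ) / (1 / 4 * 2 ^ l)) : ℝ) : ℂ) *
      (w * (starRingEnd ℂ) (om l i)) ^ k := by
  unfold dm
  rw [ker_eq_sum v 4 (1 / 4 * 2 ^ l) (by positivity) hv.hi _ (2 ^ l) (by push_cast; ring_nf; rfl)]

lemma dm_diff {v : ℝ → ℝ} (hv : Bump v (1 / 4) 4) (l i : ℕ) : Differentiable ℂ (dm v l i) := by
  have : dm v l i = fun w => (1 / 2 ^ l) * ∑ k ∈ Finset.range (2 ^ l),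
      ((v ((k : ℝ) / (1 / 4 * 2 ^ l)) : ℝ) : ℂ) * (w * (starRingEnd ℂ) (om l i)) ^ k := by
    ext w; exact dm_eq_sum hv l i w
  rw [this]
  fun_prop

lemma dm_growth {v : ℝ → ℝ} (hv : Bump v (1 / 4) 4) : ∃ B : ℝ, 0 ≤ B ∧ ∀ l i w, ‖w‖ ≤ 1 →
    ‖dm v l i w‖ ≤ B * ‖w‖ ^ ((1 / 16 : ℝ) * (2:ℝ) ^ ((l:ℝ) * 1)) := by
  obtain ⟨B, hB0, hB⟩ := df_bound hv
  refine ⟨B, hB0, fun l i w hw => ?_⟩
  rw [dm_eq_sum hv]
  have h1 : ∀ k ∈ Finset.range (2 ^ l), ‖((v ((k : ℝ) / (1 / 4 * 2 ^ l)) : ℝ) : ℂ) *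
      (w * (starRingEnd ℂ) (om l i)) ^ k‖ ≤ B * ‖w‖ ^ ((1 / 16 : ℝ) * (2:ℝ) ^ ((l:ℝ) * 1)) := by
    intro k _
    rw [norm_mul, norm_pow, norm_mul, RCLike.norm_conj, om_norm, mul_one, Complex.norm_real]
    by_cases hk : (k : ℝ) / (1 / 4 * 2 ^ l) ≤ 1 / 4
    · rw [hv.lo _ hk]
      simp only [norm_zero, zero_mul]
      positivity
    · push Not at hk
      rw [lt_div_iff₀ (by positivity)] at hk
      have h2 : ‖v ((k : ℝ) / (1 / 4 * 2 ^ l))‖ ≤ B := hB _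
      have h3 : ‖w‖ ^ k ≤ ‖w‖ ^ ((1 / 16 : ℝ) * (2:ℝ) ^ ((l:ℝ) * 1)) := by
        have e : (2:ℝ) ^ ((l:ℝ) * 1) = 2 ^ l := by rw [mul_one, Real.rpow_natCast]
        rw [e, ← Real.rpow_natCast]
        rcases (norm_nonneg w).eq_or_lt with h0 | h0
        · rw [← h0, Real.zero_rpow, Real.zero_rpow (by positivity)]
          have : (0:ℝ) < 1 / 4 * (1 / 4 * 2 ^ l) := by positivity
          linarith
        · apply Real.rpow_le_rpow_of_exponent_ge h0 hw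
          linarith
      gcongr
  rw [norm_mul]
  have h4 : ‖(1 / 2 ^ l : ℂ)‖ = 1 / 2 ^ l := by simp
  rw [h4]
  calc (1 / 2 ^ l) * ‖∑ k ∈ Finset.range (2 ^ l), ((v ((k : ℝ) / (1 / 4 * 2 ^ l)) : ℝ) : ℂ) *
      (w * (starRingEnd ℂ) (om l i)) ^ k‖ ≤ (1 / 2 ^ l) * ∑ k ∈ Finset.range (2 ^ l),
        (B * ‖w‖ ^ ((1 / 16 : ℝ) * (2:ℝ) ^ ((l:ℝ) * 1))) := by
        gcongr
        exact (norm_sum_le _ _).trans (Finset.sum_le_sum h1)
    _ = _ := by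
        rw [Finset.sum_const, Finset.card_range, nsmul_eq_mul]
        push_cast
        field_simp

lemma dlev_bound {v : ℝ → ℝ} (hv : Bump v (1 / 4) 4) (p : ℝ) (hp : 0 < p)
    (x : ℕ → ℕ → ℂ) (X : ℝ) (hX : 0 ≤ X) (hx : ∀ L, fnorm p L x ≤ X) (r : ℝ) (hr0 : 0 ≤ r)
    (hr1 : r < 1) : ∃ u : ℕ → ℝ, Summable u ∧ ∀ l w, ‖w‖ ≤ r → ‖lev (dm v) x l w‖ ≤ u l := by
  obtain ⟨B, hB, hg⟩ := dm_growth hv
  have hs := summable_growth (1 + 1 / p) 1 (1 / 16) r one_pos (by norm_num) hr0 hr1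
  refine ⟨fun l => (B * (2 * X) ^ (1 / p)) * (((2:ℝ) ^ l) ^ (1 + 1 / p) *
    r ^ ((1 / 16) * (2:ℝ) ^ ((l:ℝ) * 1))), hs.mul_left _, ?_⟩
  intro l w hw
  unfold lev
  have h1 : ∀ i ∈ Finset.range (2 ^ l), ‖x l i * dm v l i w‖ ≤
      (2 ^ (l + 1) * X) ^ (1 / p) * (B * r ^ ((1 / 16) * (2:ℝ) ^ ((l:ℝ) * 1))) := by
    intro i hi
    rw [Finset.mem_range] at hi
    rw [norm_mul]
    apply mul_le_mul (coef_le_of_fnorm p hp x X hx l i hi) _ (norm_nonneg _) (by positivity)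
    refine (hg l i w (hw.trans hr1.le)).trans ?_
    gcongr
  refine (norm_sum_le _ _).trans ((Finset.sum_le_sum h1).trans (le_of_eq ?_))
  rw [Finset.sum_const, Finset.card_range, nsmul_eq_mul]
  have e1 : ((2:ℝ) ^ (l + 1) * X) ^ (1 / p) = ((2:ℝ) ^ l) ^ (1 / p) * (2 * X) ^ (1 / p) := by
    rw [← Real.mul_rpow (by positivity) (by positivity)]
    congr 1
    ring
  have e2 : ((2:ℝ) ^ l) ^ (1 + 1 / p) = (2:ℝ) ^ l * ((2:ℝ) ^ l) ^ (1 / p) := by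
    rw [Real.rpow_add (by positivity), Real.rpow_one]
  beta_reduce
  rw [e1, e2]
  push_cast
  ring

lemma dlev_diff {v : ℝ → ℝ} (hv : Bump v (1 / 4) 4) (x : ℕ → ℕ → ℂ) (l : ℕ) :
    Differentiable ℂ (lev (dm v) x l) := by
  unfold lev
  intro z
  apply DifferentiableAt.fun_sum
  intro i _
  exact ((dm_diff hv l i) z).const_mul _

lemma dsum_diff {v : ℝ → ℝ} (hv : Bump v (1 / 4) 4) (p : ℝ) (hp : 0 < p)
    (x : ℕ → ℕ → ℂ) (X : ℝ) (hX : 0 ≤ X) (hx : ∀ L, fnorm p L x ≤ X) :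
    DifferentiableOn ℂ (fun w => ∑' l, lev (dm v) x l w) (Metric.ball 0 1) := by
  intro w hw
  rw [mem_ball_zero_iff] at hw
  set r : ℝ := (1 + ‖w‖) / 2 with hr
  have hr1 : r < 1 := by rw [hr]; linarith
  have hwr : ‖w‖ < r := by rw [hr]; linarith
  obtain ⟨u, hu, hb⟩ := dlev_bound hv p hp x X hX hx r ((norm_nonneg _).trans hwr.le) hr1
  have h := Complex.differentiableOn_tsum_of_summable_norm hu
    (fun l => ((dlev_diff hv x l).differentiableOn (s := Metric.ball 0 r))) Metric.isOpen_ball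
    (fun l z hz => hb l z (by rw [mem_ball_zero_iff] at hz; exact hz.le))
  exact (h.differentiableAt (Metric.isOpen_ball.mem_nhds (by
    rw [mem_ball_zero_iff]; exact hwr))).differentiableWithinAt

lemma dlev_integral {v : ℝ → ℝ} (hv : Bump v (1 / 4) 4) (p : ℝ) (hp : 0 < p) (D : ℝ) (hD : 0 ≤ D)
    (hsyn : ∀ (x : ℕ → ℕ → ℂ) (L : ℕ) (r : ℝ), 0 ≤ r → r ≤ 1 →
      ∫ θ in (0 : ℝ)..2 * Real.pi, ‖∑ l ∈ Finset.range L, ∑ i ∈ Finset.range (2 ^ l), x l i *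
        dm v l i ((r : ℂ) * Complex.exp ((θ : ℂ) * I))‖ ^ p ≤ D * fnorm p L x)
    (x : ℕ → ℕ → ℂ) (X : ℝ) (hX : 0 ≤ X) (hx : ∀ L, fnorm p L x ≤ X) (r : ℝ) (hr0 : 0 ≤ r)
    (hr1 : r < 1) :
    ∫ θ in (0 : ℝ)..2 * Real.pi, ‖∑' l, lev (dm v) x l ((r : ℂ) * Complex.exp ((θ : ℂ) * I))‖ ^ p ≤
      D * X := by
  have hpi : (0:ℝ) ≤ 2 * Real.pi := by positivity
  obtain ⟨u, hu, hb⟩ := dlev_bound hv p hp x X hX hx r hr0 hr1
  have hn : ∀ θ : ℝ, ‖(r : ℂ) * Complex.exp ((θ : ℂ) * I)‖ = r := by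
    intro θ
    rw [norm_mul, Complex.norm_exp_ofReal_mul_I, mul_one, Complex.norm_real,
      Real.norm_of_nonneg hr0]
  have hsm : ∀ θ : ℝ, Summable (fun l => lev (dm v) x l ((r : ℂ) * Complex.exp ((θ : ℂ) * I))) :=
    fun θ => Summable.of_norm_bounded hu fun l => hb l _ (hn θ).le
  have hgc : ∀ L, Continuous (fun θ : ℝ => ‖∑ l ∈ Finset.range L,
      lev (dm v) x l ((r : ℂ) * Complex.exp ((θ : ℂ) * I))‖ ^ p) := by
    intro L
    apply Continuous.rpow_const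
    · apply Continuous.norm
      refine continuous_finsetSum _ fun l _ => ?_
      exact (dlev_diff hv x l).continuous.comp (by fun_prop)
    · intro θ; right; exact hp.le
  have hfc : Continuous (fun θ : ℝ => ‖∑' l,
      lev (dm v) x l ((r : ℂ) * Complex.exp ((θ : ℂ) * I))‖ ^ p) := by
    apply Continuous.rpow_const
    · apply Continuous.norm
      have h1 := (dsum_diff hv p hp x X hX hx).continuousOn
      exact h1.comp_continuous (f := fun θ : ℝ => (r : ℂ) * Complex.exp ((θ : ℂ) * I))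
        (by fun_prop) (fun θ => by rw [mem_ball_zero_iff, hn]; exact hr1)
    · intro θ; right; exact hp.le
  have key : ENNReal.ofReal (∫ θ in (0 : ℝ)..2 * Real.pi, ‖∑' l,
      lev (dm v) x l ((r : ℂ) * Complex.exp ((θ : ℂ) * I))‖ ^ p) ≤ ENNReal.ofReal (D * X) := by
    rw [intervalIntegral.integral_of_le hpi, ofReal_integral_eq_lintegral_ofReal
      (hfc.integrableOn_Ioc) (Filter.Eventually.of_forall fun θ => by positivity)]
    calc ∫⁻ θ in Set.Ioc 0 (2 * Real.pi), ENNReal.ofReal (‖∑' l,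
          lev (dm v) x l ((r : ℂ) * Complex.exp ((θ : ℂ) * I))‖ ^ p)
        = ∫⁻ θ in Set.Ioc 0 (2 * Real.pi), Filter.liminf (fun L => ENNReal.ofReal
          (‖∑ l ∈ Finset.range L, lev (dm v) x l ((r : ℂ) * Complex.exp ((θ : ℂ) * I))‖ ^ p))
          Filter.atTop := by
          apply lintegral_congr
          intro θ
          have h2 : Filter.Tendsto (fun L => ENNReal.ofReal (‖∑ l ∈ Finset.range L,
              lev (dm v) x l ((r : ℂ) * Complex.exp ((θ : ℂ) * I))‖ ^ p)) Filter.atTop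
              (nhds (ENNReal.ofReal (‖∑' l,
                lev (dm v) x l ((r : ℂ) * Complex.exp ((θ : ℂ) * I))‖ ^ p))) := by
            apply (ENNReal.continuous_ofReal.tendsto _).comp
            exact ((hsm θ).hasSum.tendsto_sum_nat.norm).rpow_const (Or.inr hp.le)
          exact h2.liminf_eq.symm
      _ ≤ Filter.liminf (fun L => ∫⁻ θ in Set.Ioc 0 (2 * Real.pi), ENNReal.ofReal
          (‖∑ l ∈ Finset.range L, lev (dm v) x l ((r : ℂ) * Complex.exp ((θ : ℂ) * I))‖ ^ p))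
          Filter.atTop := by
          apply lintegral_liminf_le
          intro L
          have := (hgc L).measurable
          fun_prop
      _ ≤ ENNReal.ofReal (D * X) := by
          apply Filter.liminf_le_of_frequently_le'
          apply Filter.Frequently.of_forall
          intro L
          rw [← ofReal_integral_eq_lintegral_ofReal ((hgc L).integrableOn_Ioc)
            (Filter.Eventually.of_forall fun θ => by positivity),
            ← intervalIntegral.integral_of_le hpi]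
          apply ENNReal.ofReal_le_ofReal
          exact (hsyn x L r hr0 hr1.le).trans (mul_le_mul_of_nonneg_left (hx L) hD)
  exact (ENNReal.ofReal_le_ofReal_iff (by positivity)).1 key

end Pool.Agent.HpBall
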