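import Mathlib
import Pool.Agent.HpBall.Final2
import Pool.Agent.HpBall.Molecules

set_option autoImplicit false

open MeasureTheory Complex
open scoped ENNReal NNReal

namespace Pool.Agent.HpBall

/-- smooth dyadic partition of unity -/
noncomputable def bD (x : ℝ) : ℝ := Real.smoothTransition (2 - x) - Real.smoothTransition (2 - 2 * x)

/-- smooth plateau -/
noncomputable def vD (x : ℝ) : ℝ :=
  Real.smoothTransition (4 * x - 1) * Real.smoothTransition ((4 - x) / 2)

lemma bD_bump : Bump bD (1 / 2) 2 where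
  apos := by norm_num
  ab := by norm_num
  smooth := by
    unfold bD
    apply ContDiff.sub
    · exact Real.smoothTransition.contDiff.comp (by fun_prop)
    · exact Real.smoothTransition.contDiff.comp (by fun_prop)
  lo := fun x hx => by
    unfold bD
    rw [Real.smoothTransition.one_of_one_le (by linarith),
      Real.smoothTransition.one_of_one_le (by linarith), sub_self]
  hi := fun x hx => by
    unfold bD
    rw [Real.smoothTransition.zero_of_nonpos (by linarith),
      Real.smoothTransition.zero_of_nonpos (by linarith), sub_self]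

lemma vD_bump : Bump vD (1 / 4) 4 where
  apos := by norm_num
  ab := by norm_num
  smooth := by
    unfold vD
    apply ContDiff.mul
    · exact Real.smoothTransition.contDiff.comp (by fun_prop)
    · exact Real.smoothTransition.contDiff.comp (by fun_prop)
  lo := fun x hx => by
    unfold vD
    rw [Real.smoothTransition.zero_of_nonpos (by linarith), zero_mul]
  hi := fun x hx => by
    unfold vD
    rw [Real.smoothTransition.zero_of_nonpos (x := (4 - x) / 2) (by linarith), mul_zero]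

lemma vD_one (x : ℝ) (h1 : 1 / 2 ≤ x) (h2 : x ≤ 2) : vD x = 1 := by
  unfold vD
  rw [Real.smoothTransition.one_of_one_le (by linarith),
    Real.smoothTransition.one_of_one_le (by linarith), one_mul]

lemma bD_sum (k : ℕ) (hk : 1 ≤ k) : HasSum (fun j : ℕ => bD ((k : ℝ) / 2 ^ j)) 1 := by
  have hk0 : (1 : ℝ) ≤ k := by exact_mod_cast hk
  -- telescoping
  have htel : ∀ J : ℕ, ∑ j ∈ Finset.range J, bD ((k : ℝ) / 2 ^ j) =
      Real.smoothTransition (2 - 2 * ((k : ℝ) / 2 ^ J)) - Real.smoothTransition (2 - 2 * (k:ℝ)) := by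
    intro J
    induction J with
    | zero => simp
    | succ J ih =>
      rw [Finset.sum_range_succ, ih]
      unfold bD
      have : 2 * ((k : ℝ) / 2 ^ (J + 1)) = (k : ℝ) / 2 ^ J := by
        rw [pow_succ]; field_simp
      rw [this]
      ring
  have h0 : Real.smoothTransition (2 - 2 * (k:ℝ)) = 0 :=
    Real.smoothTransition.zero_of_nonpos (by linarith)
  -- large J
  have hlarge : ∀ j : ℕ, k ≤ j → (k : ℝ) / 2 ^ j ≤ 1 / 2 := by
    intro j hj
    have h1 : (k : ℝ) * 2 ≤ 2 ^ j := by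
      have h2 : k < 2 ^ k := Nat.lt_two_pow_self
      rcases hj.eq_or_lt with h | h
      · -- k = j : need 2k <= 2^k, true for k>=1
        have : 2 * k ≤ 2 ^ k := by
          have h3 : k - 1 < 2 ^ (k - 1) := Nat.lt_two_pow_self
          have h4 : 2 ^ k = 2 * 2 ^ (k - 1) := by
            rw [← pow_succ']; congr 1; omega
          omega
        have h5 : k * 2 ≤ 2 ^ j := by rw [← h]; omega
        exact_mod_cast h5
      · have h6 : 2 ^ (k + 1) ≤ 2 ^ j := Nat.pow_le_pow_right (by norm_num) h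
        have h5 : k * 2 ≤ 2 ^ j := by
          rw [pow_succ] at h6
          omega
        exact_mod_cast h5
    rw [div_le_iff₀ (by positivity)]
    linarith
  have hz : ∀ j ∉ Finset.range k, bD ((k : ℝ) / 2 ^ j) = 0 := by
    intro j hj
    rw [Finset.mem_range, not_lt] at hj
    exact bD_bump.lo _ (hlarge j hj)
  have := hasSum_sum_of_ne_finset_zero (L := SummationFilter.unconditional ℕ) hz
  rw [htel k, h0, sub_zero, Real.smoothTransition.one_of_one_le
    (by have := hlarge k le_rfl; linarith)] at this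
  exact this

/-- a cut-off sum is a finite sum -/
lemma bump_tsum {β : ℝ → ℝ} {a b : ℝ} (hβ : Bump β a b) {N : ℝ} (hN : 0 < N) (u : ℕ → ℂ) :
    ∑' k : ℕ, (β ((k : ℝ) / N) : ℂ) * u k =
      ∑ k ∈ Finset.range ⌈b * N⌉₊, (β ((k : ℝ) / N) : ℂ) * u k := by
  apply tsum_eq_sum
  intro k hk
  rw [Finset.mem_range, not_lt, Nat.ceil_le] at hk
  rw [hβ.hi _ (by rwa [le_div_iff₀ hN])]
  simp

/-- coefficients on the disc side -/
noncomputable def cD (f : ℂ → ℂ) (l i : ℕ) : ℂ :=
  ∑' k : ℕ, (bD ((k : ℝ) / (1 / 4 * 2 ^ l)) : ℂ) * (tc f k * om l i ^ k)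

lemma cD_lin {f g : ℂ → ℂ} (hf : DifferentiableOn ℂ f (Metric.ball 0 1))
    (hg : DifferentiableOn ℂ g (Metric.ball 0 1)) (a b : ℂ) (l i : ℕ) :
    cD (a • f + b • g) l i = a * cD f l i + b * cD g l i := by
  have hN : (0:ℝ) < 1 / 4 * 2 ^ l := by positivity
  unfold cD
  rw [bump_tsum bD_bump hN, bump_tsum bD_bump hN, bump_tsum bD_bump hN, Finset.mul_sum,
    Finset.mul_sum, ← Finset.sum_add_distrib]
  apply Finset.sum_congr rfl
  intro k _
  have : tc (a • f + b • g) k = a * tc f k + b * tc g k := tc_lin hf hg a b k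
  rw [this]
  ring

lemma slice_diffOn {n : ℕ} {F : E n → ℂ} (hF : DifferentiableOn ℂ F (Metric.ball 0 1)) {ζ : E n}
    (hζ : ‖ζ‖ = 1) : DifferentiableOn ℂ (fun w : ℂ => F (w • ζ)) (Metric.ball 0 1) := by
  apply hF.comp (by fun_prop)
  intro w hw
  rw [mem_ball_zero_iff] at hw ⊢
  rw [norm_smul, hζ, mul_one]
  exact hw

lemma cut_lin {n : ℕ} {β : ℝ → ℝ} {a b : ℝ} (hβ : Bump β a b) {N : ℝ} (hN : 0 < N)
    {f g : E n → ℂ} (hf : DifferentiableOn ℂ f (Metric.ball 0 1))
    (hg : DifferentiableOn ℂ g (Metric.ball 0 1)) (x y : ℂ) {ζ : E n} (hζ : ‖ζ‖ = 1) :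
    cut β N (x • f + y • g) ζ = x * cut β N f ζ + y * cut β N g ζ := by
  unfold cut
  rw [bump_tsum hβ hN, bump_tsum hβ hN, bump_tsum hβ hN, Finset.mul_sum,
    Finset.mul_sum, ← Finset.sum_add_distrib]
  apply Finset.sum_congr rfl
  intro k _
  have : hc (x • f + y • g) k ζ = x * hc f k ζ + y * hc g k ζ :=
    tc_lin (slice_diffOn hf hζ) (slice_diffOn hg hζ) x y k
  rw [this]
  ring

lemma lev_lin {X : Type} (Ψ : ℕ → ℕ → X → ℂ) (x y z : ℕ → ℕ → ℂ) (a b : ℂ)
    (h : ∀ l i, i < 2 ^ l → z l i = a * x l i + b * y l i) (l : ℕ) (w : X) :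
    lev Ψ z l w = a * lev Ψ x l w + b * lev Ψ y l w := by
  unfold lev
  rw [Finset.mul_sum, Finset.mul_sum, ← Finset.sum_add_distrib]
  apply Finset.sum_congr rfl
  intro i hi
  rw [Finset.mem_range] at hi
  rw [h l i hi]
  ring

/-- the key identity: the cut-off functionals invert the synthesis -/
lemma cut_synth {n : ℕ} {β : ℝ → ℝ} {a b A : ℝ} (hβ : Bump β a b) (hA : 0 < A)
    (pt : ℕ → ℕ → E n) (hpt : ∀ l i, ‖pt l i‖ = 1) (Ψ : ℕ → ℕ → E n → ℂ)
    (hd : ∀ l i, Differentiable ℂ (Ψ l i))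
    (hbi : ∀ l i j, i < 2 ^ l → j < 2 ^ l → Ψ l i (pt l j) = if i = j then 1 else 0)
    (hz : ∀ (l m i k : ℕ) (ζ : E n), l ≠ m → (β ((k : ℝ) / (A * sc n m)) : ℂ) * hc (Ψ l i) k ζ = 0)
    (ho : ∀ (l i k : ℕ) (ζ : E n),
      (β ((k : ℝ) / (A * sc n l)) : ℂ) * hc (Ψ l i) k ζ = hc (Ψ l i) k ζ)
    (x : ℕ → ℕ → ℂ) (hloc : LocSum (lev Ψ x)) (a₀ : ℂ) (m j : ℕ) (hj : j < 2 ^ m) :
    cut β (A * sc n m) (fun z => a₀ + ∑' l, lev Ψ x l z) (pt m j) = x m j := by
  have hN : 0 < A * sc n m := mul_pos hA (sc_pos n m)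
  set ζ := pt m j with hζd
  have hζ : ‖ζ‖ = 1 := hpt m j
  have hlevd := lev_diff Ψ hd x
  -- homogeneous components of level sums
  have hlev : ∀ l k, hc (lev Ψ x l) k ζ = ∑ i ∈ Finset.range (2 ^ l), x l i * hc (Ψ l i) k ζ := by
    intro l k
    have h1 : ∀ s : Finset ℕ, tc (fun w : ℂ => ∑ i ∈ s, x l i * Ψ l i (w • ζ)) k =
        ∑ i ∈ s, x l i * tc (fun w : ℂ => Ψ l i (w • ζ)) k := by
      classical
      intro s
      induction s using Finset.induction_on with
      | empty =>
        simp only [Finset.sum_empty]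
        rw [tc_const]
        split_ifs <;> rfl
      | insert i s hi ih =>
        simp only [Finset.sum_insert hi]
        have h2 := tc_lin (f := fun w : ℂ => Ψ l i (w • ζ))
          (g := fun w : ℂ => ∑ i ∈ s, x l i * Ψ l i (w • ζ))
          (slice_diffOn (hd l i).differentiableOn hζ)
          (by
            apply DifferentiableOn.fun_sum
            intro i' _
            exact (slice_diffOn (hd l i').differentiableOn hζ).const_mul _) (x l i) 1 k
        simp only [one_mul] at h2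
        rw [h2, ih]
    exact h1 (Finset.range (2 ^ l))
  have hser := fun k => hc_series hloc hlevd a₀ hζ.le k
  unfold cut
  have hterm : ∀ k : ℕ, (β ((k : ℝ) / (A * sc n m)) : ℂ) *
      hc (fun z => a₀ + ∑' l, lev Ψ x l z) k ζ =
      ∑ i ∈ Finset.range (2 ^ m), x m i * hc (Ψ m i) k ζ := by
    intro k
    have h1 := (hser k).mul_left (β ((k : ℝ) / (A * sc n m)) : ℂ)
    have h2 : ∀ l, (β ((k : ℝ) / (A * sc n m)) : ℂ) * hc (lev Ψ x l) k ζ =
        if l = m then ∑ i ∈ Finset.range (2 ^ m), x m i * hc (Ψ m i) k ζ else 0 := by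
      intro l
      rw [hlev, Finset.mul_sum]
      split_ifs with h
      · subst h
        apply Finset.sum_congr rfl
        intro i _
        rw [mul_left_comm, ho]
      · apply Finset.sum_eq_zero
        intro i _
        rw [mul_left_comm, hz l m i k ζ h, mul_zero]
    simp_rw [h2] at h1
    have h3 := h1.unique (hasSum_ite_eq m _)
    rw [← h3]
    by_cases hk : k = 0
    · subst hk
      have : β (((0:ℕ) : ℝ) / (A * sc n m)) = 0 := hβ.lo _ (by simpa using hβ.apos.le)
      rw [this]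
      simp
    · rw [if_neg hk, sub_zero]
  simp_rw [hterm]
  -- now sum over k
  have hT : ∀ i, HasSum (fun k => hc (Ψ m i) k ζ) (Ψ m i ζ) := by
    intro i
    have hG : Differentiable ℂ (fun w : ℂ => Ψ m i (w • ζ)) := (hd m i).comp (by fun_prop)
    have h := Complex.hasSum_taylorSeries_of_entire hG 0 1
    simp only [sub_zero, one_pow, one_smul] at h
    refine h.congr_fun ?_ |> fun h => h
    intro k
    rfl
  have h5 : HasSum (fun k => ∑ i ∈ Finset.range (2 ^ m), x m i * hc (Ψ m i) k ζ)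
      (∑ i ∈ Finset.range (2 ^ m), x m i * Ψ m i ζ) :=
    hasSum_sum fun i _ => (hT i).mul_left _
  rw [h5.tsum_eq, Finset.sum_eq_single j]
  · rw [hζd, hbi m j j hj hj, if_pos rfl, mul_one]
  · intro i hi hij
    rw [Finset.mem_range] at hi
    rw [hζd, hbi m i j hi hj, if_neg hij, mul_zero]
  · intro h
    exact absurd (Finset.mem_range.2 hj) h

end Pool.Agent.HpBall
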