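import Mathlib
import Pool.Agent.HpBall.Defs2
import Pool.Agent.HpBall.Geom
import Pool.Agent.HpBall.Sphere

set_option autoImplicit false

open MeasureTheory Complex
open scoped ENNReal NNReal

namespace Pool.Agent.HpBall

/-- TARGET -/
theorem transfer (n : ℕ) (hn : 1 ≤ n) (p : ℝ) (hp : 0 < p) (f : (Fin n → ℂ) → ℂ)
    (hf : DifferentiableOn ℂ f {z : Fin n → ℂ | ∑ i, ‖z i‖ ^ 2 < 1}) (r : ℝ) (hr0 : 0 ≤ r)
    (hr1 : r < 1) :
    ENNReal.ofReal (∫ z : Fin n → ℂ, ‖f (((r / Real.sqrt (∑ i, ‖z i‖ ^ 2) : ℝ) : ℂ) • z)‖ ^ p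
            * Real.exp (-(∑ i, ‖z i‖ ^ 2))) =
      ∫⁻ ξ : E n, ENNReal.ofReal (‖f (WithLp.ofLp ((r : ℂ) • ξ))‖ ^ p) ∂(sig n) := by
  set N : (Fin n → ℂ) → ℝ := fun z => ∑ i, ‖z i‖ ^ 2 with hN
  have hNc : Continuous N := by fun_prop
  have hN0 : ∀ z, 0 ≤ N z := fun z => by positivity
  set U : Set (Fin n → ℂ) := {z | N z < 1} with hU
  have hUo : IsOpen U := isOpen_lt hNc continuous_const
  have hfc : ContinuousOn f U := hf.continuousOn
  set ft : (Fin n → ℂ) → ℂ := U.indicator f with hftd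
  have hft : Measurable ft := by
    apply measurable_of_restrict_of_restrict_compl hUo.measurableSet
    · have : U.domRestrict ft = U.domRestrict f := by
        ext z
        simp only [Set.domRestrict_apply, hftd]
        rw [Set.indicator_of_mem z.2]
      rw [this]
      exact (continuousOn_iff_continuous_domRestrict.1 hfc).measurable
    · have : Uᶜ.domRestrict ft = fun _ => 0 := by
        ext z
        simp only [Set.domRestrict_apply, hftd]
        rw [Set.indicator_of_notMem z.2]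
      rw [this]
      exact measurable_const
  have hnorm' : ∀ ξ : E n, N (WithLp.ofLp ξ) = ‖ξ‖ ^ 2 := by
    intro ξ
    rw [EuclideanSpace.norm_sq_eq]
  have hnorm : ∀ z : Fin n → ℂ, ‖(WithLp.toLp 2 z : E n)‖ = Real.sqrt (N z) := by
    intro z
    rw [EuclideanSpace.norm_eq]
  let h : E n → ℝ≥0∞ := fun ξ => ENNReal.ofReal (‖ft (WithLp.ofLp ((r : ℂ) • ξ))‖ ^ p)
  have hofLp : Measurable (fun ξ : E n => WithLp.ofLp ξ) :=
    (PiLp.continuous_ofLp 2 (fun _ : Fin n => ℂ)).measurable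
  have htoLp : Measurable (fun z : Fin n → ℂ => (WithLp.toLp 2 z : E n)) :=
    (PiLp.continuous_toLp 2 (fun _ : Fin n => ℂ)).measurable
  have hh : Measurable h := by
    have h1 : Measurable (fun ξ : E n => ft (WithLp.ofLp ((r : ℂ) • ξ))) :=
      hft.comp (hofLp.comp (measurable_const_smul (r : ℂ)))
    exact (h1.norm.pow_const p).ennreal_ofReal
  have hmemU : ∀ ξ : E n, ‖ξ‖ ≤ 1 → WithLp.ofLp ((r : ℂ) • ξ) ∈ U := by
    intro ξ hξ
    rw [hU]
    show N _ < 1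
    rw [hnorm', norm_smul, Complex.norm_real, Real.norm_of_nonneg hr0]
    have : r * ‖ξ‖ ≤ r * 1 := mul_le_mul_of_nonneg_left hξ hr0
    have h0 : 0 ≤ r * ‖ξ‖ := by positivity
    nlinarith
  have e1 : ∫⁻ ξ : E n, ENNReal.ofReal (‖f (WithLp.ofLp ((r : ℂ) • ξ))‖ ^ p) ∂(sig n) =
      ∫⁻ ξ : E n, h ξ ∂(sig n) := by
    apply lintegral_congr_ae
    filter_upwards [sig_ae_norm hn] with ξ hξ
    simp only [h, hftd]
    rw [Set.indicator_of_mem (hmemU ξ hξ.le)]
  have hproj : ∀ z : Fin n → ℂ, ‖(((‖(WithLp.toLp 2 z : E n)‖⁻¹ : ℝ)) : ℂ) • (WithLp.toLp 2 z : E n)‖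
      ≤ 1 := by
    intro z
    rw [norm_smul, Complex.norm_real, norm_inv, norm_norm]
    exact inv_mul_le_one
  have hw : ∀ z : Fin n → ℂ, WithLp.ofLp ((r : ℂ) •
      ((((‖(WithLp.toLp 2 z : E n)‖⁻¹ : ℝ)) : ℂ) • (WithLp.toLp 2 z : E n))) =
      ((r / Real.sqrt (N z) : ℝ) : ℂ) • z := by
    intro z
    rw [hnorm, smul_smul, WithLp.ofLp_smul]
    simp only [div_eq_mul_inv, Complex.ofReal_mul]
  have e2 : ∫⁻ ξ : E n, h ξ ∂(sig n) = ∫⁻ z : Fin n → ℂ,
      ENNReal.ofReal (‖f (((r / Real.sqrt (N z) : ℝ) : ℂ) • z)‖ ^ p * Real.exp (-(N z))) := by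
    have hm : Measurable (fun z : E n => h ((((‖z‖⁻¹ : ℝ)) : ℂ) • z)) := hh.comp measurable_proj
    have hex : Measurable (fun z : E n => ENNReal.ofReal (Real.exp (-‖z‖ ^ 2))) := by fun_prop
    have s1 : ∫⁻ ξ : E n, h ξ ∂(sig n) = ∫⁻ z : E n, h ((((‖z‖⁻¹ : ℝ)) : ℂ) • z) ∂(gam n) := by
      rw [sig, lintegral_map hh measurable_proj]
    have s2 : ∫⁻ z : E n, h ((((‖z‖⁻¹ : ℝ)) : ℂ) • z) ∂(gam n) =
        ∫⁻ z : E n, ((fun z : E n => ENNReal.ofReal (Real.exp (-‖z‖ ^ 2))) *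
          (fun z : E n => h ((((‖z‖⁻¹ : ℝ)) : ℂ) • z))) z ∂(vol n) := by
      rw [gam]
      exact lintegral_withDensity_eq_lintegral_mul (vol n) hex hm
    have s3 : ∫⁻ z : E n, ((fun z : E n => ENNReal.ofReal (Real.exp (-‖z‖ ^ 2))) *
          (fun z : E n => h ((((‖z‖⁻¹ : ℝ)) : ℂ) • z))) z ∂(vol n) =
        ∫⁻ z : Fin n → ℂ, ((fun z : E n => ENNReal.ofReal (Real.exp (-‖z‖ ^ 2))) *
          (fun z : E n => h ((((‖z‖⁻¹ : ℝ)) : ℂ) • z))) (WithLp.toLp 2 z) := by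
      rw [vol]
      exact lintegral_map (hex.mul hm) htoLp
    rw [s1, s2, s3]
    apply lintegral_congr
    intro z
    simp only [Pi.mul_apply, h]
    rw [hw, hftd, Set.indicator_of_mem, mul_comm, ← ENNReal.ofReal_mul (by positivity), hnorm,
      Real.sq_sqrt (hN0 z)]
    have := hmemU _ (hproj z)
    rwa [hw] at this
  have hGm : Measurable (fun z : Fin n → ℂ =>
      ‖f (((r / Real.sqrt (N z) : ℝ) : ℂ) • z)‖ ^ p * Real.exp (-(N z))) := by
    have e : (fun z : Fin n → ℂ =>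
      ‖f (((r / Real.sqrt (N z) : ℝ) : ℂ) • z)‖ ^ p * Real.exp (-(N z))) =
      (fun z : Fin n → ℂ =>
      ‖ft (((r / Real.sqrt (N z) : ℝ) : ℂ) • z)‖ ^ p * Real.exp (-(N z))) := by
      funext z
      rw [hftd, Set.indicator_of_mem]
      have := hmemU _ (hproj z)
      rwa [hw] at this
    rw [e]
    have h1 : Measurable (fun z : Fin n → ℂ => ((r / Real.sqrt (N z) : ℝ) : ℂ) • z) := by
      fun_prop
    exact ((hft.comp h1).norm.pow_const p).mul (by fun_prop)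
  have hG0 : ∀ z : Fin n → ℂ, 0 ≤
      ‖f (((r / Real.sqrt (N z) : ℝ) : ℂ) • z)‖ ^ p * Real.exp (-(N z)) := fun z => by positivity
  -- boundedness
  have hfin : ∫⁻ ξ : E n, h ξ ∂(sig n) < ⊤ := by
    have hK : IsCompact {z : Fin n → ℂ | N z ≤ r ^ 2} := by
      apply Metric.isCompact_of_isClosed_isBounded (isClosed_le hNc continuous_const)
      rw [Metric.isBounded_iff_subset_closedBall 0]
      refine ⟨1, fun z hz => ?_⟩
      rw [mem_closedBall_zero_iff, pi_norm_le_iff_of_nonneg (by norm_num)]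
      intro i
      have h1 : ‖z i‖ ^ 2 ≤ N z :=
        Finset.single_le_sum (f := fun i => ‖z i‖ ^ 2) (fun i _ => by positivity) (Finset.mem_univ i)
      have h2 : N z ≤ r ^ 2 := hz
      have h3 : 0 ≤ ‖z i‖ := norm_nonneg _
      nlinarith
    obtain ⟨C, hC⟩ := hK.exists_bound_of_continuousOn (hfc.mono (fun z hz => by
      have h2 : N z ≤ r ^ 2 := hz
      show N z < 1
      nlinarith))
    have hb : ∀ᵐ ξ ∂(sig n), h ξ ≤ ENNReal.ofReal (C ^ p) := by
      filter_upwards [sig_ae_norm hn] with ξ hξ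
      simp only [h, hftd]
      rw [Set.indicator_of_mem (hmemU ξ hξ.le)]
      apply ENNReal.ofReal_le_ofReal
      apply Real.rpow_le_rpow (norm_nonneg _) _ hp.le
      apply hC
      show N _ ≤ r ^ 2
      rw [hnorm', norm_smul, hξ, Complex.norm_real, Real.norm_of_nonneg hr0, mul_one]
    calc ∫⁻ ξ : E n, h ξ ∂(sig n) ≤ ∫⁻ ξ : E n, ENNReal.ofReal (C ^ p) ∂(sig n) :=
          lintegral_mono_ae hb
      _ = ENNReal.ofReal (C ^ p) * sig n Set.univ := lintegral_const _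
      _ < ⊤ := ENNReal.mul_lt_top ENNReal.ofReal_lt_top (measure_lt_top _ _)
  have hint : Integrable (fun z : Fin n → ℂ =>
      ‖f (((r / Real.sqrt (N z) : ℝ) : ℂ) • z)‖ ^ p * Real.exp (-(N z))) := by
    refine ⟨hGm.aestronglyMeasurable, ?_⟩
    rw [hasFiniteIntegral_iff_ofReal (Filter.Eventually.of_forall hG0), ← e2]
    exact hfin
  rw [e1, e2]
  exact ofReal_integral_eq_lintegral_ofReal hint (Filter.Eventually.of_forall hG0)

/-- TARGET -/
theorem transfer_diff (n : ℕ) (f : (Fin n → ℂ) → ℂ) :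
    DifferentiableOn ℂ f {z : Fin n → ℂ | ∑ i, ‖z i‖ ^ 2 < 1} ↔
      DifferentiableOn ℂ (fun z : E n => f (WithLp.ofLp z)) (Metric.ball 0 1) := by
  have hset : ∀ ξ : E n, ξ ∈ Metric.ball (0 : E n) 1 ↔ ∑ i, ‖(WithLp.ofLp ξ) i‖ ^ 2 < 1 := by
    intro ξ
    rw [mem_ball_zero_iff, ← EuclideanSpace.norm_sq_eq]
    constructor
    · intro h
      have := norm_nonneg ξ
      nlinarith
    · intro h
      have := norm_nonneg ξ
      nlinarith
  have hd1 : Differentiable ℂ (fun z : E n => WithLp.ofLp z) :=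
    (PiLp.continuousLinearEquiv 2 ℂ (fun _ : Fin n => ℂ)).differentiable
  have hd2 : Differentiable ℂ (fun z : Fin n → ℂ => (WithLp.toLp 2 z : E n)) :=
    (PiLp.continuousLinearEquiv 2 ℂ (fun _ : Fin n => ℂ)).symm.differentiable
  constructor
  · intro h
    exact h.comp hd1.differentiableOn (fun ξ hξ => (hset ξ).1 hξ)
  · intro h
    have := h.comp (s := {z : Fin n → ℂ | ∑ i, ‖z i‖ ^ 2 < 1}) hd2.differentiableOn
      (fun z hz => (hset _).2 hz)
    exact this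

end Pool.Agent.HpBall
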