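import Mathlib
import Pool.Agent.HpBall.Defs2
import Pool.Agent.HpBall.Geom
import Pool.Agent.HpBall.Sphere

set_option autoImplicit false

open MeasureTheory Complex
open scoped ENNReal NNReal

namespace Pool.Agent.HpBall

section Tree

open ComplexConjugate

variable {d : ℕ}

/-- the complex number s -/
noncomputable def tS (x y : Fin d → ℝ) (τ : ℝ) : ℂ := ⟨(∑ i, ((x i) ^ 2 + (y i) ^ 2)) / 4, τ⟩

/-- the point of the sphere with Heisenberg coordinates -/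
noncomputable def tZ (x y : Fin d → ℝ) (τ : ℝ) : E (d + 1) :=
  WithLp.toLp 2 (Fin.cons ((1 - tS x y τ) / (1 + tS x y τ))
    (fun i => (⟨x i, y i⟩ : ℂ) / (1 + tS x y τ)) : Fin (d + 1) → ℂ)

noncomputable def tQ (x y : Fin d → ℝ) (τ : ℝ) (x' y' : Fin d → ℝ) (τ' : ℝ) : ℂ :=
  2 * (conj (tS x y τ) + tS x' y' τ') - ∑ i, conj (⟨x i, y i⟩ : ℂ) * ⟨x' i, y' i⟩

lemma tS_re_nonneg (x y : Fin d → ℝ) (τ : ℝ) : 0 ≤ (tS x y τ).re := by
  simp only [tS]; positivity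

lemma one_add_tS_norm (x y : Fin d → ℝ) (τ : ℝ) : 1 ≤ ‖1 + tS x y τ‖ := by
  have h := Complex.re_le_norm (1 + tS x y τ)
  have h2 := tS_re_nonneg x y τ
  simp only [Complex.add_re, Complex.one_re] at h
  linarith

lemma one_add_tS_ne (x y : Fin d → ℝ) (τ : ℝ) : 1 + tS x y τ ≠ 0 := by
  intro h
  have := one_add_tS_norm x y τ
  rw [h, norm_zero] at this
  linarith

lemma inner_tZ (x y : Fin d → ℝ) (τ : ℝ) (x' y' : Fin d → ℝ) (τ' : ℝ) :
    1 - inner ℂ (tZ x y τ) (tZ x' y' τ') =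
      tQ x y τ x' y' τ' / (conj (1 + tS x y τ) * (1 + tS x' y' τ')) := by
  have h1 := one_add_tS_ne x y τ
  have h1' : conj (1 + tS x y τ) ≠ 0 := by
    intro h; apply h1; rwa [map_eq_zero] at h
  have h2 := one_add_tS_ne x' y' τ'
  have e : inner ℂ (tZ x y τ) (tZ x' y' τ') =
      conj (1 - tS x y τ) / conj (1 + tS x y τ) * ((1 - tS x' y' τ') / (1 + tS x' y' τ')) +
      (∑ i, conj (⟨x i, y i⟩ : ℂ) * ⟨x' i, y' i⟩) / (conj (1 + tS x y τ) * (1 + tS x' y' τ')) := by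
    rw [PiLp.inner_apply, Fin.sum_univ_succ]
    simp only [tZ, Fin.cons_zero, Fin.cons_succ, RCLike.inner_apply, map_div₀]
    rw [mul_comm, Finset.sum_div]
    congr 1
    apply Finset.sum_congr rfl
    intro i _
    rw [div_mul_div_comm]
    congr 1 <;> ring
  rw [e, tQ, eq_div_iff (mul_ne_zero h1' h2)]
  have e2 : conj (1 - tS x y τ) / conj (1 + tS x y τ) * ((1 - tS x' y' τ') / (1 + tS x' y' τ')) +
      (∑ i, conj (⟨x i, y i⟩ : ℂ) * ⟨x' i, y' i⟩) / (conj (1 + tS x y τ) * (1 + tS x' y' τ')) =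
      (conj (1 - tS x y τ) * (1 - tS x' y' τ') + (∑ i, conj (⟨x i, y i⟩ : ℂ) * ⟨x' i, y' i⟩)) /
      (conj (1 + tS x y τ) * (1 + tS x' y' τ')) := by
    rw [div_mul_div_comm, add_div]
  rw [e2, sub_mul, one_mul, div_mul_cancel₀ _ (mul_ne_zero h1' h2)]
  simp only [map_sub, map_add, map_one]
  ring

lemma tQ_re (x y : Fin d → ℝ) (τ : ℝ) (x' y' : Fin d → ℝ) (τ' : ℝ) :
    (tQ x y τ x' y' τ').re = (∑ i, ((x i - x' i) ^ 2 + (y i - y' i) ^ 2)) / 2 := by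
  simp only [tQ, tS, Complex.sub_re, Complex.mul_re, Complex.add_re, Complex.re_sum, Complex.conj_re,
    Complex.conj_im, Complex.re_ofNat, Complex.im_ofNat, Complex.add_im, zero_mul, sub_zero]
  rw [← add_div, ← Finset.sum_add_distrib, Finset.sum_div, Finset.mul_sum, Finset.sum_div,
    ← Finset.sum_sub_distrib]
  apply Finset.sum_congr rfl
  intro i _
  ring

lemma tQ_im (x y : Fin d → ℝ) (τ : ℝ) (x' y' : Fin d → ℝ) (τ' : ℝ) :
    (tQ x y τ x' y' τ').im = 2 * (τ' - τ) - ∑ i, (x i * y' i - y i * x' i) := by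
  simp only [tQ, tS, Complex.sub_im, Complex.mul_im, Complex.add_re, Complex.im_sum, Complex.conj_re,
    Complex.conj_im, Complex.re_ofNat, Complex.im_ofNat, Complex.add_im, zero_mul, add_zero]
  congr 1
  · ring
  · apply Finset.sum_congr rfl
    intro i _
    ring

lemma rho_tZ (x y : Fin d → ℝ) (τ : ℝ) (x' y' : Fin d → ℝ) (τ' : ℝ) :
    rho (tZ x y τ) (tZ x' y' τ') =
      ‖tQ x y τ x' y' τ'‖ / (‖1 + tS x y τ‖ * ‖1 + tS x' y' τ'‖) := by
  rw [rho, inner_tZ, norm_div, norm_mul, Complex.norm_conj]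

lemma norm_tZ (x y : Fin d → ℝ) (τ : ℝ) : ‖tZ x y τ‖ = 1 := by
  have h := inner_tZ x y τ x y τ
  have hq : tQ x y τ x y τ = 0 := by
    apply Complex.ext
    · rw [tQ_re]; simp
    · rw [tQ_im]
      have : ∑ i, (x i * y i - y i * x i) = 0 := Finset.sum_eq_zero (fun i _ => by ring)
      rw [this]; simp
  rw [hq, zero_div, sub_eq_zero, inner_self_eq_norm_sq_to_K] at h
  have h2 : ((‖tZ x y τ‖ ^ 2 : ℝ) : ℂ) = ((1 : ℝ) : ℂ) := by
    push_cast; exact h.symm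
  have h3 : ‖tZ x y τ‖ ^ 2 = 1 := Complex.ofReal_injective h2
  exact (pow_eq_one_iff_of_nonneg (norm_nonneg _) two_ne_zero).1 h3

lemma rho_tZ_le (x y : Fin d → ℝ) (τ : ℝ) (x' y' : Fin d → ℝ) (τ' : ℝ) :
    rho (tZ x y τ) (tZ x' y' τ') ≤ ‖tQ x y τ x' y' τ'‖ := by
  rw [rho_tZ]
  apply div_le_self (norm_nonneg _)
  nlinarith [one_add_tS_norm x y τ, one_add_tS_norm x' y' τ']

/-- lattice points -/
abbrev Lat (d : ℕ) := (Fin d → ℤ) × (Fin d → ℤ) × ℤ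

/-- point of the sphere attached to a lattice point of generation k -/
noncomputable def tP (k : ℕ) (P : Lat d) : E (d + 1) :=
  tZ (fun i => (P.1 i : ℝ) / 2 ^ k) (fun i => (P.2.1 i : ℝ) / 2 ^ k) ((P.2.2 : ℝ) / 4 / 4 ^ k)

/-- the digit bits -/
def dg (t j : ℕ) : ℤ := ((t / 2 ^ j % 2 : ℕ) : ℤ)

lemma dg_nonneg (t j : ℕ) : 0 ≤ dg t j := by unfold dg; positivity
lemma dg_le (t j : ℕ) : dg t j ≤ 1 := by
  unfold dg; have := Nat.mod_lt (t / 2 ^ j) (by norm_num : 2 > 0); omega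

/-- child map -/
def chd (P : Lat d) (t : ℕ) : Lat d :=
  (fun i => 2 * P.1 i + dg t (2 * i), fun i => 2 * P.2.1 i + dg t (2 * i + 1),
    4 * P.2.2 - 4 * ∑ i : Fin d, (P.2.1 i * dg t (2 * i) - P.1 i * dg t (2 * i + 1)) +
      ((t / 2 ^ (2 * d) : ℕ) : ℤ))

lemma digits_eq {t t' : ℕ} (h : ∀ j < 2 * d, dg t j = dg t' j)
    (h2 : t / 2 ^ (2 * d) = t' / 2 ^ (2 * d)) : t = t' := by
  apply Nat.eq_of_testBit_eq
  intro j
  by_cases hj : j < 2 * d
  · have := h j hj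
    unfold dg at this
    rw [Nat.testBit_eq_decide_div_mod_eq, Nat.testBit_eq_decide_div_mod_eq]
    congr 2
    exact_mod_cast this
  · obtain ⟨u, rfl⟩ : ∃ u, j = 2 * d + u := ⟨j - 2 * d, by omega⟩
    rw [Nat.testBit_eq_decide_div_mod_eq, Nat.testBit_eq_decide_div_mod_eq, pow_add,
      ← Nat.div_div_eq_div_mul, ← Nat.div_div_eq_div_mul, h2]

lemma chd_inj {P P' : Lat d} {t t' : ℕ} (ht : t < 2 ^ (2 * (d + 1))) (ht' : t' < 2 ^ (2 * (d + 1)))
    (h : chd P t = chd P' t') : P = P' ∧ t = t' := by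
  obtain ⟨A, B, T⟩ := P
  obtain ⟨A', B', T'⟩ := P'
  simp only [chd, Prod.mk.injEq] at h
  obtain ⟨h1, h2, h3⟩ := h
  have e1 : ∀ i, A i = A' i ∧ dg t (2 * i) = dg t' (2 * i) := by
    intro i
    have := congrFun h1 i
    have := dg_nonneg t (2 * i)
    have := dg_nonneg t' (2 * i)
    have := dg_le t (2 * i)
    have := dg_le t' (2 * i)
    constructor <;> omega
  have e2 : ∀ i, B i = B' i ∧ dg t (2 * i + 1) = dg t' (2 * i + 1) := by
    intro i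
    have := congrFun h2 i
    have := dg_nonneg t (2 * i + 1)
    have := dg_nonneg t' (2 * i + 1)
    have := dg_le t (2 * i + 1)
    have := dg_le t' (2 * i + 1)
    constructor <;> omega
  have hA : A = A' := funext fun i => (e1 i).1
  have hB : B = B' := funext fun i => (e2 i).1
  subst hA
  subst hB
  have hS : ∑ i : Fin d, (B i * dg t (2 * i) - A i * dg t (2 * i + 1)) =
      ∑ i : Fin d, (B i * dg t' (2 * i) - A i * dg t' (2 * i + 1)) := by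
    apply Finset.sum_congr rfl
    intro i _
    rw [(e1 i).2, (e2 i).2]
  rw [hS] at h3
  have hlt : t / 2 ^ (2 * d) < 4 := by
    rw [Nat.div_lt_iff_lt_mul (by positivity)]
    calc t < 2 ^ (2 * (d + 1)) := ht
      _ = 4 * 2 ^ (2 * d) := by rw [mul_add, pow_add]; ring
  have hlt' : t' / 2 ^ (2 * d) < 4 := by
    rw [Nat.div_lt_iff_lt_mul (by positivity)]
    calc t' < 2 ^ (2 * (d + 1)) := ht'
      _ = 4 * 2 ^ (2 * d) := by rw [mul_add, pow_add]; ring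
  generalize ∑ i : Fin d, (B i * dg t' (2 * i) - A i * dg t' (2 * i + 1)) = S at h3
  have hT : T = T' := by
    generalize t / 2 ^ (2 * d) = u at *
    generalize t' / 2 ^ (2 * d) = u' at *
    omega
  have hf : t / 2 ^ (2 * d) = t' / 2 ^ (2 * d) := by
    generalize t / 2 ^ (2 * d) = u at *
    generalize t' / 2 ^ (2 * d) = u' at *
    omega
  refine ⟨by rw [hT], digits_eq ?_ hf⟩
  intro j hj
  rcases Nat.even_or_odd' j with ⟨i, rfl | rfl⟩
  · exact (e1 ⟨i, by omega⟩).2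
  · exact (e2 ⟨i, by omega⟩).2

/-- boundedness of the lattice points -/
def Bd (k : ℕ) (P : Lat d) : Prop :=
  (∀ i, 0 ≤ P.1 i ∧ P.1 i + 1 ≤ 2 ^ k) ∧ (∀ i, 0 ≤ P.2.1 i ∧ P.2.1 i + 1 ≤ 2 ^ k) ∧
    |P.2.2| ≤ (2 * d + 1) * 4 ^ k - 2 * d * 2 ^ k - 1

lemma Bd_chd {k : ℕ} {P : Lat d} (h : Bd k P) {t : ℕ} (ht : t < 2 ^ (2 * (d + 1))) :
    Bd (k + 1) (chd P t) := by
  obtain ⟨A, B, T⟩ := P
  obtain ⟨h1, h2, h3⟩ := h
  simp only at h1 h2 h3
  refine ⟨fun i => ?_, fun i => ?_, ?_⟩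
  · simp only [chd]
    have := h1 i
    have := dg_nonneg t (2 * i)
    have := dg_le t (2 * i)
    rw [pow_succ]
    constructor <;> linarith [(h1 i).1, (h1 i).2]
  · simp only [chd]
    have := h2 i
    have := dg_nonneg t (2 * i + 1)
    have := dg_le t (2 * i + 1)
    rw [pow_succ]
    constructor <;> linarith [(h2 i).1, (h2 i).2]
  · simp only [chd]
    have hlt : t / 2 ^ (2 * d) < 4 := by
      rw [Nat.div_lt_iff_lt_mul (by positivity)]
      calc t < 2 ^ (2 * (d + 1)) := ht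
        _ = 4 * 2 ^ (2 * d) := by rw [mul_add, pow_add]; ring
    have hf0 : (0 : ℤ) ≤ ((t / 2 ^ (2 * d) : ℕ) : ℤ) := Int.natCast_nonneg _
    have hf1 : ((t / 2 ^ (2 * d) : ℕ) : ℤ) ≤ 3 := by exact_mod_cast Nat.lt_succ_iff.1 hlt
    have hS : |∑ i : Fin d, (B i * dg t (2 * i) - A i * dg t (2 * i + 1))| ≤ d * 2 ^ k := by
      calc |∑ i : Fin d, (B i * dg t (2 * i) - A i * dg t (2 * i + 1))|
          ≤ ∑ i : Fin d, |(B i * dg t (2 * i) - A i * dg t (2 * i + 1))| :=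
            Finset.abs_sum_le_sum_abs _ _
        _ ≤ ∑ i : Fin d, (2 : ℤ) ^ k := by
            apply Finset.sum_le_sum
            intro i _
            have a1 := dg_nonneg t (2 * i)
            have a2 := dg_le t (2 * i)
            have a3 := dg_nonneg t (2 * i + 1)
            have a4 := dg_le t (2 * i + 1)
            have b1 := h1 i
            have b2 := h2 i
            have c1 : 0 ≤ B i * dg t (2 * i) := mul_nonneg b2.1 a1
            have c2 : B i * dg t (2 * i) ≤ B i := by nlinarith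
            have c3 : 0 ≤ A i * dg t (2 * i + 1) := mul_nonneg b1.1 a3
            have c4 : A i * dg t (2 * i + 1) ≤ A i := by nlinarith
            rw [abs_le]
            constructor <;> linarith [b1.2, b2.2]
        _ = d * 2 ^ k := by simp
    generalize ∑ i : Fin d, (B i * dg t (2 * i) - A i * dg t (2 * i + 1)) = S at hS
    generalize ((t / 2 ^ (2 * d) : ℕ) : ℤ) = f at hf0 hf1
    rw [pow_succ, pow_succ]
    rw [abs_le] at h3 hS ⊢
    constructor <;> nlinarith [h3.1, h3.2, hS.1, hS.2]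

lemma one_add_tS_le {k : ℕ} {P : Lat d} (h : Bd k P) :
    ‖1 + tS (fun i => (P.1 i : ℝ) / 2 ^ k) (fun i => (P.2.1 i : ℝ) / 2 ^ k)
      ((P.2.2 : ℝ) / 4 / 4 ^ k)‖ ≤ d + 2 := by
  obtain ⟨h1, h2, h3⟩ := h
  refine (norm_add_le _ _).trans ?_
  rw [norm_one]
  have h4 := Complex.norm_le_abs_re_add_abs_im (tS (fun i => (P.1 i : ℝ) / 2 ^ k)
    (fun i => (P.2.1 i : ℝ) / 2 ^ k) ((P.2.2 : ℝ) / 4 / 4 ^ k))
  have h2k : (0 : ℝ) < 2 ^ k := by positivity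
  have h4k : (0 : ℝ) < 4 ^ k := by positivity
  have hre : |(tS (fun i => (P.1 i : ℝ) / 2 ^ k)
    (fun i => (P.2.1 i : ℝ) / 2 ^ k) ((P.2.2 : ℝ) / 4 / 4 ^ k)).re| ≤ d / 2 := by
    rw [abs_of_nonneg (tS_re_nonneg _ _ _)]
    simp only [tS]
    have : ∑ i : Fin d, (((P.1 i : ℝ) / 2 ^ k) ^ 2 + ((P.2.1 i : ℝ) / 2 ^ k) ^ 2) ≤
        ∑ i : Fin d, (2 : ℝ) := by
      apply Finset.sum_le_sum
      intro i _
      have a1 : (0 : ℝ) ≤ P.1 i := by exact_mod_cast (h1 i).1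
      have a2 : (P.1 i : ℝ) + 1 ≤ 2 ^ k := by exact_mod_cast (h1 i).2
      have a3 : (0 : ℝ) ≤ P.2.1 i := by exact_mod_cast (h2 i).1
      have a4 : (P.2.1 i : ℝ) + 1 ≤ 2 ^ k := by exact_mod_cast (h2 i).2
      have b1 : (P.1 i : ℝ) / 2 ^ k ≤ 1 := by rw [div_le_one h2k]; linarith
      have b2 : (P.2.1 i : ℝ) / 2 ^ k ≤ 1 := by rw [div_le_one h2k]; linarith
      have b3 : (0 : ℝ) ≤ (P.1 i : ℝ) / 2 ^ k := by positivity
      have b4 : (0 : ℝ) ≤ (P.2.1 i : ℝ) / 2 ^ k := by positivity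
      nlinarith
    simp only [Finset.sum_const, Finset.card_univ, Fintype.card_fin, nsmul_eq_mul] at this
    linarith
  have him : |(tS (fun i => (P.1 i : ℝ) / 2 ^ k)
    (fun i => (P.2.1 i : ℝ) / 2 ^ k) ((P.2.2 : ℝ) / 4 / 4 ^ k)).im| ≤ (2 * d + 1) / 4 := by
    simp only [tS]
    rw [abs_div, abs_div, abs_of_pos h4k, abs_of_pos (by norm_num : (0:ℝ) < 4), div_le_iff₀ h4k]
    have h5 : (|P.2.2| : ℝ) ≤ (2 * d + 1) * 4 ^ k - 2 * d * 2 ^ k - 1 := by exact_mod_cast h3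
    have h6 : (0 : ℝ) ≤ 2 * d * 2 ^ k := by positivity
    linarith
  linarith

lemma tP_Q_lower {k : ℕ} {A B A' B' : Fin d → ℤ} {T T' : ℤ}
    (hne : ((A, B, T) : Lat d) ≠ (A', B', T')) :
    (1 / 4) ^ k * (1 / 2) ≤ ‖tQ (fun i => (A i : ℝ) / 2 ^ k) (fun i => (B i : ℝ) / 2 ^ k)
      ((T : ℝ) / 4 / 4 ^ k) (fun i => (A' i : ℝ) / 2 ^ k) (fun i => (B' i : ℝ) / 2 ^ k)
      ((T' : ℝ) / 4 / 4 ^ k)‖ := by
  have h2k : (0 : ℝ) < 2 ^ k := by positivity
  have h4k : (0 : ℝ) < 4 ^ k := by positivity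
  have h24 : (4 : ℝ) ^ k = (2 ^ k) ^ 2 := by
    rw [← pow_mul, mul_comm k 2, pow_mul]; norm_num
  by_cases hAB : ∃ i, A i ≠ A' i ∨ B i ≠ B' i
  · obtain ⟨i, hi⟩ := hAB
    refine le_trans ?_ (Complex.re_le_norm _)
    rw [tQ_re]
    have h1 : (1 / 4 : ℝ) ^ k ≤ ((A i : ℝ) / 2 ^ k - A' i / 2 ^ k) ^ 2 +
        ((B i : ℝ) / 2 ^ k - B' i / 2 ^ k) ^ 2 := by
      have e : ((A i : ℝ) / 2 ^ k - A' i / 2 ^ k) ^ 2 + ((B i : ℝ) / 2 ^ k - B' i / 2 ^ k) ^ 2 =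
          (((A i : ℝ) - A' i) ^ 2 + ((B i : ℝ) - B' i) ^ 2) / 4 ^ k := by
        rw [h24]; field_simp
      have e' : (1 / 4 : ℝ) ^ k * 4 ^ k = 1 := by rw [← mul_pow]; norm_num
      rw [e, le_div_iff₀ h4k, e']
      rcases hi with hi | hi
      · have : (1 : ℤ) ≤ (A i - A' i) ^ 2 := by
          have : A i - A' i ≠ 0 := sub_ne_zero.2 hi
          have := Int.one_le_abs this
          rw [← sq_abs]; nlinarith
        have : (1 : ℝ) ≤ ((A i : ℝ) - A' i) ^ 2 := by exact_mod_cast this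
        nlinarith [sq_nonneg ((B i : ℝ) - B' i)]
      · have : (1 : ℤ) ≤ (B i - B' i) ^ 2 := by
          have : B i - B' i ≠ 0 := sub_ne_zero.2 hi
          have := Int.one_le_abs this
          rw [← sq_abs]; nlinarith
        have : (1 : ℝ) ≤ ((B i : ℝ) - B' i) ^ 2 := by exact_mod_cast this
        nlinarith [sq_nonneg ((A i : ℝ) - A' i)]
    have h2 := Finset.single_le_sum (s := Finset.univ) (f := fun i : Fin d =>
      ((A i : ℝ) / 2 ^ k - A' i / 2 ^ k) ^ 2 + ((B i : ℝ) / 2 ^ k - B' i / 2 ^ k) ^ 2)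
      (fun i _ => by positivity) (Finset.mem_univ i)
    linarith
  · push Not at hAB
    have hA : A = A' := funext fun i => (hAB i).1
    have hB : B = B' := funext fun i => (hAB i).2
    subst hA
    subst hB
    have hT : T ≠ T' := fun h => hne (by rw [h])
    refine le_trans ?_ (Complex.abs_im_le_norm _)
    rw [tQ_im]
    have e : ∑ i : Fin d, ((A i : ℝ) / 2 ^ k * (B i / 2 ^ k) - B i / 2 ^ k * (A i / 2 ^ k)) = 0 :=
      Finset.sum_eq_zero (fun i _ => by ring)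
    rw [e, sub_zero]
    have e2 : 2 * ((T' : ℝ) / 4 / 4 ^ k - T / 4 / 4 ^ k) = (1 / 4) ^ k * (1 / 2) * (T' - T) := by
      rw [one_div, inv_pow]; field_simp; ring
    rw [e2, abs_mul]
    have h3 : (1 : ℝ) ≤ |(T' : ℝ) - T| := by
      have : (1 : ℤ) ≤ |T' - T| := Int.one_le_abs (sub_ne_zero.2 (Ne.symm hT))
      exact_mod_cast this
    have h4 : (0 : ℝ) < (1 / 4) ^ k * (1 / 2) := by positivity
    rw [abs_of_pos h4]
    nlinarith

lemma rho_tP_lower {k : ℕ} {P P' : Lat d} (h : Bd k P) (h' : Bd k P') (hne : P ≠ P') :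
    (1 / 4) ^ k * (1 / 2) / ((d + 2) ^ 2 : ℝ) ≤ rho (tP k P) (tP k P') := by
  have h1 := one_add_tS_le h
  have h2 := one_add_tS_le h'
  obtain ⟨A, B, T⟩ := P
  obtain ⟨A', B', T'⟩ := P'
  have h3 := tP_Q_lower (k := k) hne
  rw [tP, tP, rho_tZ]
  apply div_le_div₀ (norm_nonneg _) h3
  · have := one_add_tS_norm (fun i => (A i : ℝ) / 2 ^ k) (fun i => (B i : ℝ) / 2 ^ k)
      ((T : ℝ) / 4 / 4 ^ k)
    have := one_add_tS_norm (fun i => (A' i : ℝ) / 2 ^ k) (fun i => (B' i : ℝ) / 2 ^ k)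
      ((T' : ℝ) / 4 / 4 ^ k)
    positivity
  · rw [sq]
    exact mul_le_mul h1 h2 (norm_nonneg _) (by positivity)

lemma rho_tP_child {k : ℕ} {P : Lat d} {t : ℕ} (ht : t < 2 ^ (2 * (d + 1))) :
    rho (tP (k + 1) (chd P t)) (tP k P) ≤ (1 / 4) ^ k * ((d + 2) / 4) := by
  obtain ⟨A, B, T⟩ := P
  rw [tP, tP]
  refine (rho_tZ_le _ _ _ _ _ _).trans ((Complex.norm_le_abs_re_add_abs_im _).trans ?_)
  rw [tQ_re, tQ_im]
  have h2k : (0 : ℝ) < 2 ^ k := by positivity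
  have h4k : (0 : ℝ) < 4 ^ k := by positivity
  have h24 : (4 : ℝ) ^ k = (2 ^ k) ^ 2 := by
    rw [← pow_mul, mul_comm k 2, pow_mul]; norm_num
  have hlt : t / 2 ^ (2 * d) < 4 := by
    rw [Nat.div_lt_iff_lt_mul (by positivity)]
    calc t < 2 ^ (2 * (d + 1)) := ht
      _ = 4 * 2 ^ (2 * d) := by rw [mul_add, pow_add]; ring
  have hf0 : (0 : ℝ) ≤ ((t / 2 ^ (2 * d) : ℕ) : ℝ) := Nat.cast_nonneg _
  have hf1 : ((t / 2 ^ (2 * d) : ℕ) : ℝ) ≤ 3 := by exact_mod_cast Nat.lt_succ_iff.1 hlt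
  have h14 : (1 / 4 : ℝ) ^ k = 1 / 4 ^ k := by rw [one_div, inv_pow, one_div]
  have hre : |(∑ i : Fin d, ((((chd (A, B, T) t).1 i : ℝ) / 2 ^ (k + 1) - (A i : ℝ) / 2 ^ k) ^ 2 +
      (((chd (A, B, T) t).2.1 i : ℝ) / 2 ^ (k + 1) - (B i : ℝ) / 2 ^ k) ^ 2)) / 2| ≤
      (1 / 4 : ℝ) ^ k * ((d : ℝ) / 4) := by
    rw [abs_of_nonneg (by positivity)]
    have : ∑ i : Fin d, ((((chd (A, B, T) t).1 i : ℝ) / 2 ^ (k + 1) - (A i : ℝ) / 2 ^ k) ^ 2 +
      (((chd (A, B, T) t).2.1 i : ℝ) / 2 ^ (k + 1) - (B i : ℝ) / 2 ^ k) ^ 2) ≤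
      ∑ i : Fin d, (1 / 4 : ℝ) ^ k * (1 / 2) := by
      apply Finset.sum_le_sum
      intro i _
      simp only [chd]
      push_cast
      have a1 : (0 : ℝ) ≤ (dg t (2 * i) : ℝ) := by exact_mod_cast dg_nonneg _ _
      have a2 : (dg t (2 * i) : ℝ) ≤ 1 := by exact_mod_cast dg_le _ _
      have a3 : (0 : ℝ) ≤ (dg t (2 * i + 1) : ℝ) := by exact_mod_cast dg_nonneg _ _
      have a4 : (dg t (2 * i + 1) : ℝ) ≤ 1 := by exact_mod_cast dg_le _ _
      have e1 : ((2 * (A i : ℝ) + (dg t (2 * i) : ℝ)) / 2 ^ (k + 1) - (A i : ℝ) / 2 ^ k) ^ 2 +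
        ((2 * (B i : ℝ) + (dg t (2 * i + 1) : ℝ)) / 2 ^ (k + 1) - (B i : ℝ) / 2 ^ k) ^ 2 =
        (1 / 4) ^ k * (1 / 4) * ((dg t (2 * i) : ℝ) ^ 2 + (dg t (2 * i + 1) : ℝ) ^ 2) := by
        rw [h14, h24, pow_succ]; field_simp; ring
      rw [e1]
      have h5 : (0 : ℝ) < (1 / 4) ^ k := by positivity
      have h6 : (dg t (2 * i) : ℝ) ^ 2 + (dg t (2 * i + 1) : ℝ) ^ 2 ≤ 2 := by nlinarith
      nlinarith
    simp only [Finset.sum_const, Finset.card_univ, Fintype.card_fin, nsmul_eq_mul] at this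
    linarith
  have him : |2 * ((T : ℝ) / 4 / 4 ^ k - ((chd (A, B, T) t).2.2 : ℝ) / 4 / 4 ^ (k + 1)) -
      ∑ i : Fin d, (((chd (A, B, T) t).1 i : ℝ) / 2 ^ (k + 1) * ((B i : ℝ) / 2 ^ k) -
        ((chd (A, B, T) t).2.1 i : ℝ) / 2 ^ (k + 1) * ((A i : ℝ) / 2 ^ k))| ≤
      (1 / 4) ^ k * (3 / 8) := by
    have e1 : ∑ i : Fin d, (((chd (A, B, T) t).1 i : ℝ) / 2 ^ (k + 1) * ((B i : ℝ) / 2 ^ k) -
        ((chd (A, B, T) t).2.1 i : ℝ) / 2 ^ (k + 1) * ((A i : ℝ) / 2 ^ k)) =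
        (1 / 4) ^ k * (1 / 2) * ∑ i : Fin d, ((B i : ℝ) * dg t (2 * i) - A i * dg t (2 * i + 1)) := by
      rw [Finset.mul_sum]
      apply Finset.sum_congr rfl
      intro i _
      simp only [chd]
      push_cast
      rw [h14, h24, pow_succ]; field_simp; ring
    rw [e1]
    simp only [chd, Int.cast_add, Int.cast_sub, Int.cast_mul, Int.cast_sum, Int.cast_natCast,
      Int.cast_ofNat]
    generalize ∑ i : Fin d, ((B i : ℝ) * dg t (2 * i) - A i * dg t (2 * i + 1)) = S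
    generalize ((t / 2 ^ (2 * d) : ℕ) : ℝ) = f at hf0 hf1
    have e2 : 2 * ((T : ℝ) / 4 / 4 ^ k - (4 * T - 4 * S + f) / 4 / 4 ^ (k + 1)) -
      (1 / 4) ^ k * (1 / 2) * S = -((1 / 4) ^ k * (f / 8)) := by
      rw [h14, pow_succ]; field_simp; ring
    rw [e2, abs_neg, abs_of_nonneg (by positivity)]
    have h5 : (0 : ℝ) < (1 / 4) ^ k := by positivity
    nlinarith
  have h5 : (0 : ℝ) < (1 / 4) ^ k := by positivity
  calc _ ≤ (1 / 4 : ℝ) ^ k * (d / 4) + (1 / 4) ^ k * (3 / 8) := add_le_add hre him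
    _ ≤ _ := by nlinarith

/-- the tree of lattice points -/
def Hn (d : ℕ) : ℕ → ℕ → Lat d
  | 0, _ => (fun _ => 0, fun _ => 0, 0)
  | k + 1, i => chd (Hn d k (i / 2 ^ (2 * (d + 1)))) (i % 2 ^ (2 * (d + 1)))

lemma Hn_Bd (k i : ℕ) : Bd k (Hn d k i) := by
  induction k generalizing i with
  | zero => refine ⟨fun i => ?_, fun i => ?_, ?_⟩ <;> simp [Hn]
  | succ k ih => exact Bd_chd (ih _) (Nat.mod_lt _ (by positivity))

lemma Hn_inj (k : ℕ) {i j : ℕ} (hi : i < 2 ^ (2 * (d + 1) * k)) (hj : j < 2 ^ (2 * (d + 1) * k))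
    (h : Hn d k i = Hn d k j) : i = j := by
  induction k generalizing i j with
  | zero => simp at hi hj; omega
  | succ k ih =>
    obtain ⟨h1, h2⟩ := chd_inj (Nat.mod_lt _ (by positivity)) (Nat.mod_lt _ (by positivity)) h
    have e : 2 ^ (2 * (d + 1) * (k + 1)) = 2 ^ (2 * (d + 1) * k) * 2 ^ (2 * (d + 1)) := by
      rw [← pow_add]; congr 1
    have h3 := ih (by rw [Nat.div_lt_iff_lt_mul (by positivity)]; rwa [e] at hi)
      (by rw [Nat.div_lt_iff_lt_mul (by positivity)]; rwa [e] at hj) h1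
    rw [← Nat.div_add_mod i (2 ^ (2 * (d + 1))), ← Nat.div_add_mod j (2 ^ (2 * (d + 1))), h2, h3]

lemma norm_tP (k : ℕ) (P : Lat d) : ‖tP k P‖ = 1 := norm_tZ _ _ _

lemma Hn_desc (k m i : ℕ) :
    Real.sqrt (rho (tP (k + m) (Hn d (k + m) i)) (tP k (Hn d k (i / 2 ^ (2 * (d + 1) * m))))) ≤
      2 * Real.sqrt ((d + 2) / 4) * ((1 / 2) ^ k - (1 / 2) ^ (k + m)) := by
  induction m generalizing i with
  | zero =>
    have : rho (tP k (Hn d k i)) (tP k (Hn d k i)) = 0 := by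
      rw [rho, inner_self_eq_norm_sq_to_K, norm_tP]; simp
    simp [this]
  | succ m ih =>
    have h1 := ih (i / 2 ^ (2 * (d + 1)))
    have e : 2 ^ (2 * (d + 1) * (m + 1)) = 2 ^ (2 * (d + 1)) * 2 ^ (2 * (d + 1) * m) := by
      rw [← pow_add]; congr 1; ring
    rw [Nat.div_div_eq_div_mul, ← e] at h1
    have h2 : rho (tP (k + (m + 1)) (Hn d (k + (m + 1)) i))
        (tP (k + m) (Hn d (k + m) (i / 2 ^ (2 * (d + 1))))) ≤ (1 / 4) ^ (k + m) * ((d + 2) / 4) :=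
      rho_tP_child (Nat.mod_lt _ (by positivity))
    have h3 := sqrt_rho_triangle (norm_tP (k + (m + 1)) (Hn d (k + (m + 1)) i)).le
      (norm_tP (k + m) (Hn d (k + m) (i / 2 ^ (2 * (d + 1)))))
      (norm_tP k (Hn d k (i / 2 ^ (2 * (d + 1) * (m + 1))))).le
    have h4 : Real.sqrt (rho (tP (k + (m + 1)) (Hn d (k + (m + 1)) i))
        (tP (k + m) (Hn d (k + m) (i / 2 ^ (2 * (d + 1)))))) ≤
        (1 / 2) ^ (k + m) * Real.sqrt ((d + 2) / 4) := by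
      refine (Real.sqrt_le_sqrt h2).trans ?_
      rw [Real.sqrt_mul (by positivity)]
      have : (1 / 4 : ℝ) ^ (k + m) = ((1 / 2) ^ (k + m)) ^ 2 := by
        rw [← pow_mul, mul_comm (k + m) 2, pow_mul]; norm_num
      rw [this, Real.sqrt_sq (by positivity)]
    have e2 : (1 / 2 : ℝ) ^ (k + (m + 1)) = (1 / 2) ^ (k + m) * (1 / 2) := by
      rw [← add_assoc, pow_succ]
    rw [e2]
    nlinarith

end Tree

/-- TARGET -/
theorem exists_tree (n : ℕ) (hn : 1 ≤ n) :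
    ∃ (pt : ℕ → ℕ → E n) (c C : ℝ), TreeFam n pt c C := by
  obtain ⟨d, rfl⟩ : ∃ d, n = d + 1 := ⟨n - 1, by omega⟩
  have hN : 0 < 2 * (d + 1) := by omega
  refine ⟨fun l i => tP (l / (2 * (d + 1)) + 1) (Hn d (l / (2 * (d + 1)) + 1)
    (i * 2 ^ (2 * (d + 1) - l % (2 * (d + 1))))), 1 / (8 * (d + 2) ^ 2), 16 * (d + 2), ?_⟩
  have hd1 : (0 : ℝ) < (d + 1 : ℕ) := by positivity
  have hsc_lo : ∀ l : ℕ, (4 : ℝ) ^ (l / (2 * (d + 1))) ≤ sc (d + 1) l := by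
    intro l
    have h1 : (2 : ℝ) * ((l / (2 * (d + 1)) : ℕ) : ℝ) ≤ (l : ℝ) / ((d + 1 : ℕ) : ℝ) := by
      rw [le_div_iff₀ hd1]
      have := Nat.div_mul_le_self l (2 * (d + 1))
      have h2 : (((l / (2 * (d + 1)) : ℕ) : ℝ)) * (2 * (d + 1 : ℕ)) ≤ l := by exact_mod_cast this
      linarith
    calc (4 : ℝ) ^ (l / (2 * (d + 1))) = (2 : ℝ) ^ ((2 : ℝ) * ((l / (2 * (d + 1)) : ℕ) : ℝ)) := by
          rw [Real.rpow_mul (by norm_num), Real.rpow_natCast]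
          norm_num
      _ ≤ _ := Real.rpow_le_rpow_of_exponent_le (by norm_num) h1
  have hsc_hi : ∀ l : ℕ, sc (d + 1) l ≤ 4 * (4 : ℝ) ^ (l / (2 * (d + 1))) := by
    intro l
    have h1 : (l : ℝ) / ((d + 1 : ℕ) : ℝ) ≤ (2 : ℝ) * (((l / (2 * (d + 1)) : ℕ) : ℝ) + 1) := by
      rw [div_le_iff₀ hd1]
      have := (Nat.lt_mul_div_succ l hN).le
      have h2 : (l : ℝ) ≤ (2 * (d + 1 : ℕ)) * ((((l / (2 * (d + 1)) : ℕ) : ℝ)) + 1) := by
        exact_mod_cast this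
      linarith
    calc sc (d + 1) l ≤ (2 : ℝ) ^ ((2 : ℝ) * (((l / (2 * (d + 1)) : ℕ) : ℝ) + 1)) :=
          Real.rpow_le_rpow_of_exponent_le (by norm_num) h1
      _ = _ := by
          rw [Real.rpow_mul (by norm_num)]
          have : (((l / (2 * (d + 1)) : ℕ) : ℝ) + 1) = ((l / (2 * (d + 1)) + 1 : ℕ) : ℝ) := by
            push_cast; ring
          rw [this, Real.rpow_natCast, pow_succ]
          norm_num
          ring
  constructor
  · intro l i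
    exact norm_tP _ _
  · positivity
  · intro l i j hi hj hij
    set k := l / (2 * (d + 1)) with hk
    set r := l % (2 * (d + 1)) with hr
    have hlr : 2 * (d + 1) * k + r = l := Nat.div_add_mod _ _
    have hrN : r < 2 * (d + 1) := Nat.mod_lt _ hN
    have hpow : 2 ^ (2 * (d + 1) * (k + 1)) = 2 ^ l * 2 ^ (2 * (d + 1) - r) := by
      rw [← pow_add]; congr 1; rw [mul_add, mul_one]; omega
    have hne : Hn d (k + 1) (i * 2 ^ (2 * (d + 1) - r)) ≠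
        Hn d (k + 1) (j * 2 ^ (2 * (d + 1) - r)) := by
      intro h
      have := Hn_inj (k + 1) (by rw [hpow]; exact (Nat.mul_lt_mul_right (by positivity)).2 hi)
        (by rw [hpow]; exact (Nat.mul_lt_mul_right (by positivity)).2 hj) h
      exact hij (Nat.eq_of_mul_eq_mul_right (by positivity) this)
    have h1 := rho_tP_lower (Hn_Bd _ _) (Hn_Bd _ _) hne
    have h2 := hsc_lo l
    rw [← hk] at h2
    calc (1 : ℝ) / (8 * (d + 2) ^ 2) = 4 ^ k * ((1 / 4) ^ (k + 1) * (1 / 2) / ((d + 2) ^ 2)) := by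
          have e' : (4 : ℝ) ^ k * (1 / 4) ^ k = 1 := by rw [← mul_pow]; norm_num
          calc (1 : ℝ) / (8 * ((d : ℝ) + 2) ^ 2) = (1 : ℝ) * (1 / 8) / ((d : ℝ) + 2) ^ 2 := by
                field_simp
            _ = ((4 : ℝ) ^ k * (1 / 4) ^ k) * (1 / 8) / ((d : ℝ) + 2) ^ 2 := by rw [e']
            _ = _ := by rw [pow_succ (1 / 4 : ℝ) k]; ring
      _ ≤ sc (d + 1) l * rho _ _ := mul_le_mul h2 h1 (by positivity) (le_trans (by positivity) h2)
  · intro l m j hlm hj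
    set k := l / (2 * (d + 1)) with hk
    set r := l % (2 * (d + 1)) with hr
    have hlr : 2 * (d + 1) * k + r = l := Nat.div_add_mod _ _
    have hrN : r < 2 * (d + 1) := Nat.mod_lt _ hN
    set k' := m / (2 * (d + 1)) with hk'
    set r' := m % (2 * (d + 1)) with hr'
    have hlr' : 2 * (d + 1) * k' + r' = m := Nat.div_add_mod _ _
    have hrN' : r' < 2 * (d + 1) := Nat.mod_lt _ hN
    have hkk : k ≤ k' := Nat.div_le_div_right hlm
    have h1 := Hn_desc (d := d) k (k' + 1 - k) (j * 2 ^ (2 * (d + 1) - r'))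
    have h2 := Hn_desc (d := d) k 1 (j / 2 ^ (m - l) * 2 ^ (2 * (d + 1) - r))
    have e0 : k + (k' + 1 - k) = k' + 1 := by omega
    rw [e0] at h1
    have e1 : j * 2 ^ (2 * (d + 1) - r') / 2 ^ (2 * (d + 1) * (k' + 1 - k)) =
        j / 2 ^ (m - 2 * (d + 1) * k) := by
      obtain ⟨u, hu⟩ : ∃ u, k' = k + u := ⟨k' - k, by omega⟩
      have : 2 * (d + 1) * (k' + 1 - k) = (2 * (d + 1) - r') + (m - 2 * (d + 1) * k) := by
        have a1 : k' + 1 - k = u + 1 := by omega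
        have a2 : 2 * (d + 1) * k' = 2 * (d + 1) * k + 2 * (d + 1) * u := by rw [hu, mul_add]
        have a3 : 2 * (d + 1) * (u + 1) = 2 * (d + 1) * u + 2 * (d + 1) := by rw [mul_add, mul_one]
        rw [a1, a3]
        rw [a2] at hlr'
        generalize 2 * (d + 1) * u = U at *
        generalize 2 * (d + 1) * k = K at *
        omega
      rw [this, pow_add, mul_comm j, Nat.mul_div_mul_left _ _ (by positivity)]
    have e2 : j / 2 ^ (m - l) * 2 ^ (2 * (d + 1) - r) / 2 ^ (2 * (d + 1) * 1) =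
        j / 2 ^ (m - 2 * (d + 1) * k) := by
      have : 2 * (d + 1) * 1 = (2 * (d + 1) - r) + r := by omega
      rw [this, pow_add, mul_comm (j / 2 ^ (m - l)), Nat.mul_div_mul_left _ _ (by positivity),
        Nat.div_div_eq_div_mul, ← pow_add]
      congr 2
      omega
    rw [e1] at h1
    rw [e2] at h2
    have h3 := sqrt_rho_triangle (norm_tP (k' + 1) (Hn d (k' + 1) (j * 2 ^ (2 * (d + 1) - r')))).le
      (norm_tP k (Hn d k (j / 2 ^ (m - 2 * (d + 1) * k))))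
      (norm_tP (k + 1) (Hn d (k + 1) (j / 2 ^ (m - l) * 2 ^ (2 * (d + 1) - r)))).le
    rw [rho_comm (tP k (Hn d k (j / 2 ^ (m - 2 * (d + 1) * k))))] at h3
    set g := Real.sqrt (((d : ℝ) + 2) / 4) with hg
    have hg0 : 0 ≤ g := Real.sqrt_nonneg _
    have hg2 : g ^ 2 = (d + 2) / 4 := Real.sq_sqrt (by positivity)
    set ρ := rho (tP (k' + 1) (Hn d (k' + 1) (j * 2 ^ (2 * (d + 1) - r'))))
      (tP (k + 1) (Hn d (k + 1) (j / 2 ^ (m - l) * 2 ^ (2 * (d + 1) - r)))) with hρ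
    have hρ0 : 0 ≤ ρ := rho_nonneg _ _
    have h4 : Real.sqrt ρ ≤ 4 * g * (1 / 2) ^ k := by
      have p1 : (0 : ℝ) ≤ g * (1 / 2) ^ (k' + 1) := by positivity
      have p2 : (0 : ℝ) ≤ g * (1 / 2) ^ (k + 1) := by positivity
      nlinarith
    have h5 : ρ ≤ (4 * g * (1 / 2) ^ k) ^ 2 := by
      rw [← Real.sq_sqrt hρ0]
      exact pow_le_pow_left₀ (Real.sqrt_nonneg _) h4 2
    have h6 : (4 * g * (1 / 2) ^ k) ^ 2 = 4 * (d + 2) * (1 / 4) ^ k := by
      have : (1 / 4 : ℝ) ^ k = ((1 / 2) ^ k) ^ 2 := by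
        rw [← pow_mul, mul_comm k 2, pow_mul]; norm_num
      rw [this]
      calc (4 * g * (1 / 2) ^ k) ^ 2 = 16 * g ^ 2 * ((1 / 2) ^ k) ^ 2 := by ring
        _ = _ := by rw [hg2]; ring
    rw [h6] at h5
    have h7 := hsc_hi l
    rw [← hk] at h7
    calc sc (d + 1) l * ρ ≤ (4 * 4 ^ k) * (4 * (d + 2) * (1 / 4) ^ k) :=
          mul_le_mul h7 h5 hρ0 (by positivity)
      _ = 16 * (d + 2) * ((4 : ℝ) ^ k * (1 / 4) ^ k) := by ring
      _ = 16 * (d + 2) := by rw [← mul_pow]; norm_num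

end Pool.Agent.HpBall
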