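import Mathlib
import Pool.Agent.HpBall.Final3
import Pool.Agent.HpBall.DiscSide
import Pool.Agent.HpBall.Tree
import Pool.Agent.HpBall.Transfer

set_option autoImplicit false

open MeasureTheory Complex
open scoped ENNReal NNReal

namespace Pool.Agent.HpBall

lemma origin_bound_disc {f : ℂ → ℂ} {p M : ℝ}
    (hM : ∀ r : ℝ, 0 ≤ r → r < 1 →
      ∫ θ in (0 : ℝ)..2 * Real.pi, ‖f ((r : ℂ) * Complex.exp ((θ : ℂ) * I))‖ ^ p ≤ M) :
    ‖f 0‖ ^ p ≤ M ∧ 0 ≤ M := by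
  have h := hM 0 le_rfl one_pos
  simp only [ofReal_zero, zero_mul, intervalIntegral.integral_const, sub_zero, smul_eq_mul] at h
  have h0 : 0 ≤ ‖f 0‖ ^ p := by positivity
  have hpi := Real.pi_gt_three
  constructor
  · nlinarith
  · nlinarith

lemma origin_bound_ball {n : ℕ} {g : E n → ℂ} {p M : ℝ} (hM0 : 0 ≤ M)
    (hM : ∀ r : ℝ, 0 ≤ r → r < 1 →
      ∫⁻ ξ, ENNReal.ofReal (‖g ((r : ℂ) • ξ)‖ ^ p) ∂(sig n) ≤ ENNReal.ofReal M) :
    ‖g 0‖ ^ p ≤ (sig n Set.univ).toReal⁻¹ * M := by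
  have h := hM 0 le_rfl one_pos
  simp only [ofReal_zero, zero_smul, lintegral_const] at h
  have hs1 : sig n Set.univ ≠ ⊤ := measure_ne_top _ _
  have hs0 : 0 < (sig n Set.univ).toReal := ENNReal.toReal_pos sig_univ_pos.ne' hs1
  have h2 : ENNReal.ofReal (‖g 0‖ ^ p * (sig n Set.univ).toReal) ≤ ENNReal.ofReal M := by
    rw [ENNReal.ofReal_mul (by positivity), ENNReal.ofReal_toReal hs1]
    exact h
  have h3 := (ENNReal.ofReal_le_ofReal_iff hM0).1 h2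
  rw [← div_eq_inv_mul, le_div_iff₀ hs0]
  exact h3

theorem main_E (n : ℕ) (hn : 1 ≤ n) (p : ℝ) (hp : 0 < p) (hp1 : p < 1)
    (hana0 : ∀ (pt : ℕ → ℕ → E n) (c C : ℝ), TreeFam n pt c C → ∀ (A : ℝ), 0 < A →
      ∀ (β : ℝ → ℝ) (a b : ℝ), Bump β a b → ∃ D : ℝ, 0 < D ∧
      ∀ g : E n → ℂ, DifferentiableOn ℂ g (Metric.ball 0 1) → ∀ M : ℝ, 0 ≤ M →
      (∀ r : ℝ, 0 ≤ r → r < 1 →
        ∫⁻ ξ, ENNReal.ofReal (‖g ((r : ℂ) • ξ)‖ ^ p) ∂(sig n) ≤ ENNReal.ofReal M) →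
      ∀ L : ℕ, fnorm p L (fun l i => cut β (A * sc n l) g (pt l i)) ≤ D * M) :
    ∃ (T : (ℂ → ℂ) → E n → ℂ) (P : (E n → ℂ) → ℂ → ℂ) (C : ℝ), 0 ≤ C ∧
      (∀ (f g : ℂ → ℂ) (a b : ℂ) (M N : ℝ),
        DifferentiableOn ℂ f (Metric.ball 0 1) → DifferentiableOn ℂ g (Metric.ball 0 1) →
        (∀ r : ℝ, 0 ≤ r → r < 1 →
          ∫ θ in (0:ℝ)..2 * Real.pi, ‖f ((r : ℂ) * Complex.exp ((θ : ℂ) * Complex.I))‖ ^ p ≤ M) →
        (∀ r : ℝ, 0 ≤ r → r < 1 →
          ∫ θ in (0:ℝ)..2 * Real.pi, ‖g ((r : ℂ) * Complex.exp ((θ : ℂ) * Complex.I))‖ ^ p ≤ N) →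
        ∀ z : E n, ‖z‖ < 1 → T (a • f + b • g) z = a * T f z + b * T g z) ∧
      (∀ (f g : E n → ℂ) (a b : ℂ) (M N : ℝ), 0 ≤ M → 0 ≤ N →
        DifferentiableOn ℂ f (Metric.ball 0 1) → DifferentiableOn ℂ g (Metric.ball 0 1) →
        (∀ r : ℝ, 0 ≤ r → r < 1 →
          ∫⁻ ξ, ENNReal.ofReal (‖f ((r : ℂ) • ξ)‖ ^ p) ∂(sig n) ≤ ENNReal.ofReal M) →
        (∀ r : ℝ, 0 ≤ r → r < 1 →
          ∫⁻ ξ, ENNReal.ofReal (‖g ((r : ℂ) • ξ)‖ ^ p) ∂(sig n) ≤ ENNReal.ofReal N) →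
        ∀ w : ℂ, ‖w‖ < 1 → P (a • f + b • g) w = a * P f w + b * P g w) ∧
      (∀ (f : ℂ → ℂ) (M : ℝ), DifferentiableOn ℂ f (Metric.ball 0 1) →
        (∀ r : ℝ, 0 ≤ r → r < 1 →
          ∫ θ in (0:ℝ)..2 * Real.pi, ‖f ((r : ℂ) * Complex.exp ((θ : ℂ) * Complex.I))‖ ^ p ≤ M) →
        DifferentiableOn ℂ (T f) (Metric.ball 0 1) ∧
        ∀ r : ℝ, 0 ≤ r → r < 1 →
          ∫⁻ ξ, ENNReal.ofReal (‖T f ((r : ℂ) • ξ)‖ ^ p) ∂(sig n) ≤ ENNReal.ofReal (C * M)) ∧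
      (∀ (g : E n → ℂ) (M : ℝ), 0 ≤ M → DifferentiableOn ℂ g (Metric.ball 0 1) →
        (∀ r : ℝ, 0 ≤ r → r < 1 →
          ∫⁻ ξ, ENNReal.ofReal (‖g ((r : ℂ) • ξ)‖ ^ p) ∂(sig n) ≤ ENNReal.ofReal M) →
        DifferentiableOn ℂ (P g) (Metric.ball 0 1) ∧
        ∀ r : ℝ, 0 ≤ r → r < 1 →
          ∫ θ in (0:ℝ)..2 * Real.pi, ‖P g ((r : ℂ) * Complex.exp ((θ : ℂ) * Complex.I))‖ ^ p
            ≤ C * M) ∧
      (∀ (f : ℂ → ℂ) (M : ℝ), DifferentiableOn ℂ f (Metric.ball 0 1) →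
        (∀ r : ℝ, 0 ≤ r → r < 1 →
          ∫ θ in (0:ℝ)..2 * Real.pi, ‖f ((r : ℂ) * Complex.exp ((θ : ℂ) * Complex.I))‖ ^ p ≤ M) →
        ∀ w : ℂ, ‖w‖ < 1 → P (T f) w = f w) := by
  obtain ⟨K, hK, hsynK⟩ := synthesis_bound n hn p hp hp1
  obtain ⟨pt, c, C0, hT⟩ := exists_tree n hn
  obtain ⟨A, B, β, a, b, Ψ, hA, hB, hβ, hd, hdec, horth, hbi, hz, ho, hgr⟩ :=
    molecules n hn pt c C0 hT K hK
  obtain ⟨DS, hDS, hsyn0⟩ := hsynK pt c C0 hT A hA B 1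
  have hsyn := hsyn0 Ψ (fun l i => (hd l i).continuous) hdec horth
  obtain ⟨DA, hDA, hana⟩ := hana0 pt c C0 hT A hA β a b hβ
  obtain ⟨Da, hDa, hdan⟩ := disc_analysis p hp hp1 bD bD_bump
  obtain ⟨Ds, hDs, hdsyn⟩ := disc_synthesis p hp hp1 vD vD_bump
  have hs1 : sig n Set.univ ≠ ⊤ := measure_ne_top _ _
  set S : ℝ := (sig n Set.univ).toReal with hS
  have hS0 : 0 < S := ENNReal.toReal_pos sig_univ_pos.ne' hs1
  -- facts about coefficient arrays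
  set cB : (E n → ℂ) → ℕ → ℕ → ℂ := fun g l i => cut β (A * sc n l) g (pt l i) with hcB
  set T : (ℂ → ℂ) → E n → ℂ := fun f z => f 0 + ∑' l, lev Ψ (cD f) l z with hTdef
  set P : (E n → ℂ) → ℂ → ℂ := fun g w => g 0 + ∑' l, lev (dm vD) (cB g) l w with hPdef
  have fT : ∀ (f : ℂ → ℂ) (M : ℝ), DifferentiableOn ℂ f (Metric.ball 0 1) →
        (∀ r : ℝ, 0 ≤ r → r < 1 →
          ∫ θ in (0:ℝ)..2 * Real.pi, ‖f ((r : ℂ) * Complex.exp ((θ : ℂ) * Complex.I))‖ ^ p ≤ M) →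
        0 ≤ M ∧ (∀ L, fnorm p L (cD f) ≤ Da * M) ∧ LocSum (lev Ψ (cD f)) := by
    intro f M hf hM
    have hM0 := (origin_bound_disc hM).2
    have h1 : ∀ L, fnorm p L (cD f) ≤ Da * M := hdan f hf M hM0 hM
    exact ⟨hM0, h1, lev_locsum hn p hp Ψ B hB hgr (cD f) (Da * M) (by positivity) h1⟩
  have fP : ∀ (g : E n → ℂ) (M : ℝ), 0 ≤ M → DifferentiableOn ℂ g (Metric.ball 0 1) →
        (∀ r : ℝ, 0 ≤ r → r < 1 →
          ∫⁻ ξ, ENNReal.ofReal (‖g ((r : ℂ) • ξ)‖ ^ p) ∂(sig n) ≤ ENNReal.ofReal M) →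
        ∀ L, fnorm p L (cB g) ≤ DA * M := by
    intro g M hM0 hg hM
    exact hana g hg M hM0 hM
  have sP : ∀ (g : E n → ℂ) (M : ℝ), 0 ≤ M → DifferentiableOn ℂ g (Metric.ball 0 1) →
        (∀ r : ℝ, 0 ≤ r → r < 1 →
          ∫⁻ ξ, ENNReal.ofReal (‖g ((r : ℂ) • ξ)‖ ^ p) ∂(sig n) ≤ ENNReal.ofReal M) →
        ∀ w : ℂ, ‖w‖ < 1 → Summable (fun l => lev (dm vD) (cB g) l w) := by
    intro g M hM0 hg hM w hw
    obtain ⟨u, hu, hb⟩ := dlev_bound vD_bump p hp (cB g) (DA * M) (by positivity)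
      (fP g M hM0 hg hM) ‖w‖ (norm_nonneg _) hw
    exact Summable.of_norm_bounded hu fun l => hb l w le_rfl
  have hTdiff : ∀ (f : ℂ → ℂ) (M : ℝ), DifferentiableOn ℂ f (Metric.ball 0 1) →
        (∀ r : ℝ, 0 ≤ r → r < 1 →
          ∫ θ in (0:ℝ)..2 * Real.pi, ‖f ((r : ℂ) * Complex.exp ((θ : ℂ) * Complex.I))‖ ^ p ≤ M) →
        DifferentiableOn ℂ (T f) (Metric.ball 0 1) := by
    intro f M hf hM
    obtain ⟨hM0, h1, h2⟩ := fT f M hf hM
    exact (h2.differentiableOn (lev_diff Ψ hd (cD f))).const_add (f 0)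
  refine ⟨T, P, S + DS * Da + 2 * Real.pi * S⁻¹ + Ds * DA, by positivity, ?_, ?_, ?_, ?_, ?_⟩
  · -- linearity of T
    intro f g x y M N hf hg hM hN z hz1
    obtain ⟨_, _, h1⟩ := fT f M hf hM
    obtain ⟨_, _, h2⟩ := fT g N hg hN
    simp only [hTdef]
    have e : ∀ l, lev Ψ (cD (x • f + y • g)) l z = x * lev Ψ (cD f) l z + y * lev Ψ (cD g) l z :=
      fun l => lev_lin Ψ _ _ _ x y (fun l i _ => cD_lin hf hg x y l i) l z
    simp_rw [e]
    rw [((h1.summable hz1).mul_left x).tsum_add ((h2.summable hz1).mul_left y), tsum_mul_left,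
      tsum_mul_left]
    simp only [Pi.add_apply, Pi.smul_apply, smul_eq_mul]
    ring
  · -- linearity of P
    intro f g x y M N hM0 hN0 hf hg hM hN w hw
    simp only [hPdef]
    have e : ∀ l, lev (dm vD) (cB (x • f + y • g)) l w = x * lev (dm vD) (cB f) l w +
        y * lev (dm vD) (cB g) l w :=
      fun l => lev_lin (dm vD) _ _ _ x y (fun l i _ => cut_lin hβ (mul_pos hA (sc_pos n l)) hf hg x y
        (hT.unit l i)) l w
    simp_rw [e]
    rw [((sP f M hM0 hf hM w hw).mul_left x).tsum_add ((sP g N hN0 hg hN w hw).mul_left y),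
      tsum_mul_left, tsum_mul_left]
    simp only [Pi.add_apply, Pi.smul_apply, smul_eq_mul]
    ring
  · -- T maps into the Hardy space
    intro f M hf hM
    obtain ⟨hM0, h1, h2⟩ := fT f M hf hM
    refine ⟨hTdiff f M hf hM, ?_⟩
    intro r hr0 hr1
    have hb := lev_bound hn p hp Ψ hd DS hDS.le hsyn (cD f) (Da * M) h1 h2 r hr0 hr1
    have hf0 := (origin_bound_disc hM).1
    calc ∫⁻ ξ, ENNReal.ofReal (‖T f ((r : ℂ) • ξ)‖ ^ p) ∂(sig n)
        ≤ ∫⁻ ξ, (ENNReal.ofReal (‖f 0‖ ^ p) +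
          ENNReal.ofReal (‖∑' l, lev Ψ (cD f) l ((r : ℂ) • ξ)‖ ^ p)) ∂(sig n) := by
          apply lintegral_mono
          intro ξ
          beta_reduce
          rw [← ENNReal.ofReal_add (by positivity) (by positivity)]
          apply ENNReal.ofReal_le_ofReal
          calc ‖T f ((r : ℂ) • ξ)‖ ^ p ≤
              (‖f 0‖ + ‖∑' l, lev Ψ (cD f) l ((r : ℂ) • ξ)‖) ^ p := by
                apply Real.rpow_le_rpow (norm_nonneg _) (norm_add_le _ _) hp.le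
            _ ≤ _ := Real.rpow_add_le_add_rpow (norm_nonneg _) (norm_nonneg _) hp.le hp1.le
      _ = ENNReal.ofReal (‖f 0‖ ^ p) * sig n Set.univ +
          ∫⁻ ξ, ENNReal.ofReal (‖∑' l, lev Ψ (cD f) l ((r : ℂ) • ξ)‖ ^ p) ∂(sig n) := by
          rw [lintegral_add_left measurable_const, lintegral_const]
      _ ≤ ENNReal.ofReal M * ENNReal.ofReal S + ENNReal.ofReal (DS * (Da * M)) := by
          rw [hS, ENNReal.ofReal_toReal hs1]
          gcongr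
      _ = ENNReal.ofReal (M * S + DS * (Da * M)) := by
          rw [← ENNReal.ofReal_mul hM0, ← ENNReal.ofReal_add (by positivity) (by positivity)]
      _ ≤ _ := by
          apply ENNReal.ofReal_le_ofReal
          have : 0 ≤ (2 * Real.pi * S⁻¹ + Ds * DA) * M := by positivity
          nlinarith
  · -- P maps into the Hardy space
    intro g M hM0 hg hM
    have h1 := fP g M hM0 hg hM
    have hdiff : DifferentiableOn ℂ (P g) (Metric.ball 0 1) :=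
      (dsum_diff vD_bump p hp (cB g) (DA * M) (by positivity) h1).const_add (g 0)
    refine ⟨hdiff, ?_⟩
    intro r hr0 hr1
    have hpi : (0:ℝ) ≤ 2 * Real.pi := by positivity
    have hb := dlev_integral vD_bump p hp Ds hDs.le (fun x L r h0 h1 => hdsyn x L r h0 h1)
      (cB g) (DA * M) (by positivity) h1 r hr0 hr1
    have hg0 := origin_bound_ball hM0 hM
    have hnr : ∀ θ : ℝ, ‖(r : ℂ) * Complex.exp ((θ : ℂ) * I)‖ = r := by
      intro θ
      rw [norm_mul, Complex.norm_exp_ofReal_mul_I, mul_one, Complex.norm_real,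
        Real.norm_of_nonneg hr0]
    have hcirc : Continuous (fun θ : ℝ => (r : ℂ) * Complex.exp ((θ : ℂ) * I)) := by fun_prop
    have hmem : ∀ θ : ℝ, (r : ℂ) * Complex.exp ((θ : ℂ) * I) ∈ Metric.ball (0:ℂ) 1 := fun θ => by
      rw [mem_ball_zero_iff, hnr]; exact hr1
    have hc1 : Continuous (fun θ : ℝ => ‖P g ((r : ℂ) * Complex.exp ((θ : ℂ) * I))‖ ^ p) := by
      apply Continuous.rpow_const
      · exact (hdiff.continuousOn.comp_continuous hcirc hmem).norm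
      · intro θ; right; exact hp.le
    have hc2 : Continuous (fun θ : ℝ => ‖∑' l,
        lev (dm vD) (cB g) l ((r : ℂ) * Complex.exp ((θ : ℂ) * I))‖ ^ p) := by
      apply Continuous.rpow_const
      · exact ((dsum_diff vD_bump p hp (cB g) (DA * M) (by positivity) h1).continuousOn.comp_continuous
          hcirc hmem).norm
      · intro θ; right; exact hp.le
    calc ∫ θ in (0:ℝ)..2 * Real.pi, ‖P g ((r : ℂ) * Complex.exp ((θ : ℂ) * Complex.I))‖ ^ p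
        ≤ ∫ θ in (0:ℝ)..2 * Real.pi, (‖g 0‖ ^ p + ‖∑' l,
          lev (dm vD) (cB g) l ((r : ℂ) * Complex.exp ((θ : ℂ) * I))‖ ^ p) := by
          apply intervalIntegral.integral_mono hpi (hc1.intervalIntegrable _ _)
            ((continuous_const.add hc2).intervalIntegrable _ _)
          intro θ
          calc ‖P g ((r : ℂ) * Complex.exp ((θ : ℂ) * I))‖ ^ p ≤ (‖g 0‖ + ‖∑' l,
              lev (dm vD) (cB g) l ((r : ℂ) * Complex.exp ((θ : ℂ) * I))‖) ^ p := by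
                apply Real.rpow_le_rpow (norm_nonneg _) (norm_add_le _ _) hp.le
            _ ≤ _ := Real.rpow_add_le_add_rpow (norm_nonneg _) (norm_nonneg _) hp.le hp1.le
      _ = 2 * Real.pi * ‖g 0‖ ^ p + ∫ θ in (0:ℝ)..2 * Real.pi, ‖∑' l,
          lev (dm vD) (cB g) l ((r : ℂ) * Complex.exp ((θ : ℂ) * I))‖ ^ p := by
          rw [intervalIntegral.integral_add (continuous_const.intervalIntegrable _ _)
            (hc2.intervalIntegrable _ _), intervalIntegral.integral_const]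
          simp
      _ ≤ 2 * Real.pi * (S⁻¹ * M) + Ds * (DA * M) := by
          gcongr
      _ ≤ _ := by
          have : 0 ≤ (S + DS * Da) * M := by positivity
          nlinarith
  · -- the identity
    intro f M hf hM w hw
    obtain ⟨hM0, h1, h2⟩ := fT f M hf hM
    have hT0 : T f 0 = f 0 := by
      simp only [hTdef]
      have : ∀ l, lev Ψ (cD f) l 0 = 0 := by
        intro l
        unfold lev
        apply Finset.sum_eq_zero
        intro i hi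
        have h3 := hgr l i (Finset.mem_range.1 hi) 0 (by simp)
        rw [norm_zero, Real.zero_rpow (sc_pos n l).ne', mul_zero] at h3
        rw [norm_le_zero_iff.1 h3, mul_zero]
      simp_rw [this]
      simp
    have hcoef : ∀ l i, i < 2 ^ l → cB (T f) l i = cD f l i := by
      intro l i hi
      exact cut_synth hβ hA pt hT.unit Ψ hd hbi hz ho (cD f) h2 (f 0) l i hi
    simp only [hPdef]
    rw [hT0]
    have e : ∀ l, lev (dm vD) (cB (T f)) l w = lev (dm vD) (cD f) l w := by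
      intro l
      unfold lev
      apply Finset.sum_congr rfl
      intro i hi
      rw [hcoef l i (Finset.mem_range.1 hi)]
    simp_rw [e]
    have hfr := disc_frame bD vD bD_bump vD_bump bD_sum vD_one f hf w hw
    have e2 : ∑' l, lev (dm vD) (cD f) l w = f w - f 0 := hfr.tsum_eq
    rw [e2]
    ring

end Pool.Agent.HpBall
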